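import Pool.Agent.Mg.F93a3f8p.Gbed3f0

/-! Levels close to `p`. -/

open Finset Pointwise

namespace Pool.Agent.MP_93a3f8_co

section
variable {p : ℕ} [Fact p.Prime] {A B Y : Finset (ZMod p)} {η ε : ℝ}

lemma sh_swap (h : Lev A B Y η ε) : Lev B A Y η ε where
  cardAB := h.cardAB.symm
  dense := h.cardAB ▸ h.dense
  half := h.cardAB ▸ h.half
  lin := FF_comm A B ▸ h.lin
  sub := FF_comm A B ▸ h.sub
  h1 := fun y hy => rep_comm A B y ▸ h.h1 y hy
  h2 := fun u hu => FF_comm A B ▸ h.h2 u (rep_comm B A u ▸ hu)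
  r0 := rep_comm A B 0 ▸ h.r0
  low := h.low
  high := h.high

lemma sh_mono (h : Lev A B Y η ε) {Y' : Finset (ZMod p)} (hY : Y' ⊆ Y) : Lev A B Y' η ε :=
  { h with sub := hY.trans h.sub, h1 := fun y hy => h.h1 y (hY hy) }

lemma sh_ball {F : ZMod p → ℕ} {r r' : ℝ} (h : r ≤ r') :
    ((ball F r).card : ℝ) ≤ (ball F r').card := by
  exact_mod_cast card_le_card (ball_mono h)

lemma sh_cell (H0 : Finset (ZMod p)) : Cell H0 p 1 := fun M _ =>
  ⟨range M, Subset.rfl, by simp, by exact_mod_cast card_le_p _⟩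

/-- The statement that a run with pattern set succeeds, at fixed numerical data. -/
def ShGain (A B : Finset (ZMod p)) (η ε ρ e W c : ℝ) : Prop :=
  ∀ Y P1 E1 Pf : Finset (ZMod p), Lev A B Y η ε → P1 ⊆ B → (E1.card : ℝ) ≤ e →
    η * ε / 8 ≤ P1.card →
    (∀ u ∈ ball (FF A B) ρ, u ∉ E1 → η * ε / 4 ≤ rep A B u → (P1.card : ℝ) ≤ W * rep A P1 u) →
    Pf ⊆ B → (Pf.card : ℝ) ≤ W * ε → (∀ y ∈ Y, η * ε / 8 ≤ rep A Pf y) → Cov A B Y c 0

lemma sh_small {ρ e W c : ℝ} (g : ShGain A B η ε ρ e W c) (hL : Lev A B Y η ε) (hη : 0 < η)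
    (hη1 : η ≤ 1) (hε : 0 < ε) (hρ : ε ≤ ρ) (he : 0 ≤ e) (hW : 0 ≤ W) (hY : Y.Nonempty)
    {Ra Db : Finset (ZMod p)} (hD : Db ⊆ B) (hR : (Ra.card : ℝ) < η * ε / 8)
    (hDc : (Db.card : ℝ) ≤ W * (η * ε / 8))
    (h : ∀ u ∈ ball (FF A B) ρ, rep A B u ≤ rep B Ra u + rep A Db u) : Cov A B Y c 0 := by
  have hp := mul_pos hη hε
  have k : ∀ u ∈ ball (FF A B) ρ, η * ε / 4 ≤ rep A B u → η * ε / 8 ≤ rep A Db u := by
    intro u hu h4
    have h1 : (rep A B u : ℝ) ≤ rep B Ra u + rep A Db u := by exact_mod_cast h u hu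
    have h2 : (rep B Ra u : ℝ) ≤ Ra.card := by exact_mod_cast rep_le_right B Ra u
    linarith
  have kY : ∀ y ∈ Y, η * ε / 8 ≤ rep A Db y := fun y hy =>
    k y (ball_mono hρ (hL.sub hy)) (by linarith [hL.h1 y hy])
  obtain ⟨y, hy⟩ := hY
  refine g Y Db ∅ Db hL hD (by simpa using he) ((kY y hy).trans ?_) (fun u hu _ h4 => ?_) hD
    (hDc.trans ?_) kY
  · exact_mod_cast rep_le_right A Db y
  · exact hDc.trans (mul_le_mul_of_nonneg_left (k u hu h4) hW)
  · exact mul_le_mul_of_nonneg_left (by nlinarith) hW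

lemma sh_types (h6 : TypeStmt) {ρ μ G W c : ℝ} (hL : Lev A B Y η ε) (hη : 0 < η) (hη1 : η ≤ 1)
    (hε : 0 < ε) (hρ : ε ≤ ρ) (hμ : 0 < μ) (hμ2 : μ ≤ 1 / 2) (hc : 0 ≤ c) (hW : 2 ≤ W)
    (hG : ((ball (FF A B) (2 * ρ)).card : ℝ) ≤ G * (ball (FF A B) ρ).card)
    (w1 : 4 * ρ ≤ W * ε) (w2 : 2 * G * ρ / μ ≤ W * (η * ε / 8))
    (g : ShGain A B η ε ρ (2 * μ * (ball (FF A B) ρ).card) W c)
    (g' : ShGain B A η ε ρ (2 * μ * (ball (FF A B) ρ).card) W c) : Cov A B Y (2 * c) 0 := by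
  rcases Y.eq_empty_or_nonempty with rfl | hY
  · exact (Cov.trivial A B ∅).mono Subset.rfl (by linarith) (by simp)
  have hp := mul_pos hη hε
  obtain ⟨Rb, hRb, Da, hDa, E, cRb, cDa, cE, s1, s2⟩ := h6 p A B ρ μ G hμ hμ2 (by linarith) hG
  obtain ⟨Ra, hRa, Db, hDb, E', cRa, cDb, cE', s1', s2'⟩ :=
    h6 p B A ρ μ G hμ hμ2 (by linarith) (FF_comm A B ▸ hG)
  have he : 0 ≤ 2 * μ * ((ball (FF A B) ρ).card : ℝ) := by positivity
  by_cases h1 : (Rb.card : ℝ) < η * ε / 8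
  · refine (sh_small g' (sh_swap hL) hη hη1 hε hρ he (by linarith) hY hDa h1 (cDa.trans w2)
      fun u hu => ?_).swap.mono Subset.rfl (by linarith) le_rfl
    rw [rep_comm B A]
    exact s1 u (FF_comm B A ▸ hu)
  by_cases h2 : (Ra.card : ℝ) < η * ε / 8
  · refine (sh_small g hL hη hη1 hε hρ he (by linarith) hY hDb h2 (cDb.trans w2)
      fun u hu => ?_).mono Subset.rfl (by linarith) le_rfl
    rw [rep_comm A B]
    exact s1' u (FF_comm A B ▸ hu)
  have two : ∀ a b : ℕ, a ≤ 2 * b → (a : ℝ) ≤ W * b := fun a b h => by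
    have : (a : ℝ) ≤ 2 * b := by exact_mod_cast h
    nlinarith [Nat.cast_nonneg (α := ℝ) b]
  have c1 := g (Y.filter fun y => η * ε ≤ rep A Rb y) Rb E Rb (sh_mono hL (filter_subset _ _)) hRb
    cE (not_lt.1 h1) (fun u hu hE _ => two _ _ (s2 u hu hE)) hRb (by linarith [hL.r0])
    (fun y hy => by linarith [(mem_filter.1 hy).2])
  have c2 := g' (Y.filter fun y => ¬ η * ε ≤ rep A Rb y) Ra E' Da
    (sh_mono (sh_swap hL) (filter_subset _ _)) hRa (FF_comm B A ▸ cE') (not_lt.1 h2)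
    (fun u hu hE _ => two _ _ (s2' u hu hE)) hDa
    (cDa.trans (w2.trans (mul_le_mul_of_nonneg_left (by nlinarith) (by linarith))))
    (fun y hy => by
      obtain ⟨hy, hy'⟩ := mem_filter.1 hy
      have : (rep A B y : ℝ) ≤ rep A Rb y + rep B Da y := by
        exact_mod_cast s1 y (ball_mono hρ (hL.sub hy))
      linarith [hL.h1 y hy, not_le.1 hy'])
  refine (c1.union c2.swap).mono ?_ (by linarith) (by simp)
  rw [filter_union_filter_not_eq]

end

lemma sh_large : ∃ p0 : ℕ, ∀ p : ℕ, p0 ≤ p →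
    Real.log p ^ 128 ≤ p ∧ (4000000 : ℝ) ^ 16 ≤ Real.log p := by
  have h1 := (Real.isLittleO_pow_log_id_atTop (n := 128)).bound one_pos
  have h2 := Real.tendsto_log_atTop.eventually_ge_atTop ((4000000 : ℝ) ^ 16)
  obtain ⟨p0, h⟩ := Filter.eventually_atTop.1
    (tendsto_natCast_atTop_atTop.eventually (h1.and h2))
  refine ⟨p0, fun p hp => ⟨?_, (h p hp).2⟩⟩
  have := (h p hp).1
  simp only [id, Real.norm_natCast, one_mul] at this
  exact (le_abs_self _).trans this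

lemma sh_log {s : ℝ} (hs : 4000000 ≤ s) : 912 * Real.log s + 1 ≤ s := by
  have h0 : 0 ≤ s := by linarith
  have h1 : 2000 ≤ √s := Real.le_sqrt_of_sq_le (by linarith)
  have h2 := Real.log_le_sub_one_of_pos (show 0 < √s by linarith)
  rw [Real.log_sqrt h0] at h2
  nlinarith [Real.mul_self_sqrt h0]

lemma sh_log_le {t : ℝ} (ht : 0 < t) : Real.log t ≤ t := by
  linarith [Real.log_le_sub_one_of_pos ht]

lemma sh_sqrt {x P t c : ℝ} (ht : 0 < t) (hP : 0 ≤ P) (hc : 0 ≤ c) (h : x * t ^ 2 ≤ c ^ 2 * P) :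
    √x ≤ c * (√P / t) := by
  refine Real.sqrt_le_iff.2 ⟨by positivity, ?_⟩
  rw [mul_pow, div_pow, Real.sq_sqrt hP, ← mul_div_assoc, le_div_iff₀ (by positivity)]
  exact h

theorem shallow (h1 : UWStmt) (h2 : NoGainStmt) (h3 : GainStmt) (h4 : BohrStmt) (h5 : DoubStmt)
    (h6 : TypeStmt) : ShallowStmt := by
  intro η hη hη1
  obtain ⟨G, hG1, h5⟩ := h5
  obtain ⟨C1, hC1⟩ : ∃ C1 : ℝ, C1 * η = 10000000 * G ^ 2 := ⟨_, div_mul_cancel₀ _ hη.ne'⟩
  have hG2 : G ≤ G ^ 2 := by nlinarith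
  have hC0 : 0 ≤ C1 := by
    by_contra hc
    nlinarith [mul_pos (neg_pos.2 (not_le.1 hc)) hη]
  have hCG : 10000000 * G ≤ C1 := by nlinarith
  obtain ⟨Ca, hCa, pa, h1⟩ := h1 η 1 hη hη1 zero_le_one
  obtain ⟨Cb, hCb, pb, h2⟩ := h2 η hη hη1
  obtain ⟨Cc, hCc, pc, h3⟩ := h3 η C1 hη hη1 (by linarith)
  obtain ⟨pd, hd⟩ := sh_large
  refine ⟨Ca + 480 * Cb + 2 * Cc, by positivity, pa + pb + pc + pd, ?_⟩
  intro p _ A B Y ε hp hL hsh
  obtain ⟨hL128, hLs⟩ := hd p (by omega)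
  have hp1 : (1 : ℝ) ≤ p := by exact_mod_cast (Fact.out : p.Prime).one_le
  have hp0 : (0 : ℝ) < p := by linarith
  have hε1 : 1 ≤ ε := (Real.one_le_sqrt.2 hp1).trans hL.low
  have hε : 0 < ε := by linarith
  have hεp : ε ≤ p := by linarith [hL.high]
  obtain ⟨s, hs0, hs⟩ : ∃ s : ℝ, 0 ≤ s ∧ s ^ 16 = Real.log p :=
    ⟨Real.log p ^ ((16 : ℕ)⁻¹ : ℝ), by positivity,
      Real.rpow_inv_natCast_pow (by positivity) (by norm_num)⟩
  have hs4 : 4000000 ≤ s := le_of_pow_le_pow_left₀ (by norm_num) hs0 (hLs.trans hs.ge)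
  have hs1 : 1 ≤ s := by linarith
  obtain ⟨t, ht0, htK, htr⟩ : ∃ t : ℝ, 0 < t ∧ t ^ 256 = p / ε ∧ (ε / p) ^ (1 / 256 : ℝ) = t⁻¹ := by
    refine ⟨(p / ε) ^ ((256 : ℕ)⁻¹ : ℝ), by positivity,
      Real.rpow_inv_natCast_pow (by positivity) (by norm_num), ?_⟩
    rw [← Real.inv_rpow (by positivity), inv_div]; norm_num
  have htp : t ^ 256 * ε = p := by rw [htK]; field_simp
  have ht1 : 1 ≤ t := le_of_pow_le_pow_left₀ (n := 256) (by norm_num) ht0.le
    (by rw [htK, one_pow]; exact (one_le_div hε).2 hεp)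
  have hK8 : t ^ 256 ≤ (s ^ 16) ^ 8 := by rw [htK, hs, div_le_iff₀ hε]; exact hsh
  have hts : t ^ 2 ≤ s := le_of_pow_le_pow_left₀ (n := 128) (by norm_num) hs0
    (by calc _ = t ^ 256 := by ring
      _ ≤ _ := hK8
      _ = _ := by ring)
  have ht32 : t ^ 32 ≤ Real.log p := by
    rw [← hs]
    calc _ = (t ^ 2) ^ 16 := by ring
      _ ≤ _ := by gcongr
  have hsq : √(Real.log p) = s ^ 8 := by
    rw [← hs, show s ^ 16 = (s ^ 8) ^ 2 by ring, Real.sqrt_sq (by positivity)]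
  have hlogK : Real.log (p / ε) = 256 * Real.log t := by rw [← htK, Real.log_pow]; norm_num
  have hlt := sh_log_le ht0
  have hlt0 := Real.log_nonneg ht1
  have hls0 := Real.log_nonneg hs1
  have hex : Real.exp (-√(Real.log p)) ≤ 1 := Real.exp_le_one_iff.2 (neg_nonpos.2 (Real.sqrt_nonneg _))
  have hexp : Real.exp (-√(Real.log p)) * p ≤ p := mul_le_of_le_one_left hp0.le hex
  have hu : 0 ≤ √(p : ℝ) / t := by positivity
  rw [htr, mul_assoc, ← div_eq_mul_inv]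
  have fin : ∀ c : ℝ, Cov A B Y c 0 → (c ≤ Ca * (√p / t) ∨ c ≤ Cb * (480 * (√p / t)) ∨
      c ≤ 2 * (Cc * (√p / t))) → Cov A B Y ((Ca + 480 * Cb + 2 * Cc) * (√p / t)) 0 := by
    intro c h hc
    refine h.mono Subset.rfl ?_ le_rfl
    have := mul_nonneg hCa hu
    have := mul_nonneg hCb hu
    have := mul_nonneg hCc hu
    rcases hc with hc | hc | hc <;> linarith
  by_cases ha : ((ball (FF A B) (2 * ε)).card : ℝ) ≤ 1 * p / (Real.log p ^ 8) ^ 7
  · have hl1 : 1 ≤ Real.log p := hs ▸ one_le_pow₀ hs1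
    refine fin _ (h1 p A B Y ε _ (by omega) hε (one_le_pow₀ hl1) hL.sub hL.h1 hsh
      (le_self_pow₀ hl1 (by norm_num)) (by rw [← pow_mul]; exact hL128) ha) (Or.inl ?_)
    rw [mul_div_assoc]
    gcongr
    rw [← hs]
    exact (le_self_pow₀ ht1 (by norm_num)).trans hK8
  have ha' : Real.exp (-(896 * Real.log s)) * p ≤ (ball (FF A B) (2 * ε)).card := by
    refine le_trans (le_of_eq ?_) (not_le.1 ha).le
    rw [Real.exp_neg, show (896 : ℝ) = (896 : ℕ) by norm_num, ← Real.log_pow,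
      Real.exp_log (by positivity), ← hs, ← pow_mul, ← pow_mul, one_mul, div_eq_inv_mul]
  by_cases hb2 : t ^ 256 < s ∧ ((ball (FF A B) (3 * ε)).card : ℝ) ≤ p / s ^ 4
  · have hΘ := sh_log hs4
    have h256 : 256 * Real.log t ≤ Real.log s := by
      rw [← hlogK, ← htK]; exact Real.log_le_log (by positivity) hb2.1.le
    refine fin _ (h2 p A B Y _ ε p 1 2 (p / s ^ 4) (912 * Real.log s + 1) (by omega) hL hsh
      one_le_two (by norm_num) Subset.rfl (by norm_num; exact hb2.2)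
      (div_le_self hp0.le (one_le_pow₀ hs1)) ?_ (sh_cell _) hex hexp (le_trans ?_ ha')
      (by rw [hlogK]; linarith) ?_) (Or.inr (Or.inl ?_))
    · rw [← hs, ← pow_mul, mul_div_assoc', le_div_iff₀ (by positivity), mul_comm]
      gcongr; norm_num
    · gcongr; linarith
    · rw [← hs]
      calc _ ≤ s ^ 4 := by gcongr
        _ ≤ _ := by gcongr; norm_num
    · refine mul_le_mul_of_nonneg_left (sh_sqrt ht0 hp0.le (by norm_num) ?_) hCb
      rw [← htK]
      calc _ ≤ p / s ^ 4 * s * s * s := by gcongr; exact hb2.1.le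
        _ = p / s := by field_simp
        _ ≤ p := div_le_self hp0.le hs1
        _ ≤ _ := by linarith
  obtain ⟨H0, Q, γ, cH, cC, cγ, cQ, cE⟩ : ∃ (H0 : Finset (ZMod p)) (Q γ : ℝ),
      H0 ⊆ ball (FF A B) (25 * ε) ∧ Cell H0 Q γ ∧ Real.exp (-√(Real.log p)) ≤ γ ∧
      Real.exp (-√(Real.log p)) * p ≤ Q ∧ Real.exp (-(229376 * t)) * Q ≤ H0.card := by
    by_cases hb1 : t ^ 256 < s
    · have hT : (p : ℝ) ≤ s ^ 4 * (ball (FF A B) (3 * ε)).card := by
        have := (not_le.1 fun h => hb2 ⟨hb1, h⟩).le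
        rwa [div_le_iff₀ (by positivity), mul_comm] at this
      obtain ⟨H0, Q, k1, k2, k3, k4, k5⟩ := h4 p A B _ ε (s ^ 4) (t ^ 256) (one_le_pow₀ hs1)
        (one_le_pow₀ ht1) hT htp.ge (fun u hu => mem_ball.1 hu)
      have hγ : Real.exp (-√(Real.log p)) ≤
          Real.exp (-(4 * s ^ 4 * Real.log (56 * s ^ 4 * t ^ 256))) := by
        rw [hsq, Real.exp_le_exp, neg_le_neg_iff]
        have e1 : Real.log (56 * s ^ 4 * t ^ 256) ≤ Real.log (s ^ 6) := by
          refine Real.log_le_log (by positivity) ?_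
          calc _ ≤ s * s ^ 4 * s := by gcongr; linarith
            _ = _ := by ring
        rw [Real.log_pow] at e1
        have e2 := sh_log_le (show 0 < s by linarith)
        calc _ ≤ 4 * s ^ 4 * (6 * s) := by gcongr; push_cast at e1; linarith
          _ = 24 * s ^ 5 := by ring
          _ ≤ s * s ^ 5 := by gcongr; linarith
          _ = s ^ 6 := by ring
          _ ≤ _ := by gcongr; norm_num
      refine ⟨H0, Q, _, k1, k5, hγ, le_trans ?_ (k2.trans k3), ?_⟩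
      · gcongr
      · have e1 : 14 * t ^ 256 ≤ Real.exp (229376 * t) := by
          rw [← Real.log_le_iff_le_exp (by positivity), Real.log_mul (by norm_num) (by positivity),
            Real.log_pow]
          have := sh_log_le (show (0 : ℝ) < 14 by norm_num)
          push_cast; linarith
        rw [Real.exp_neg, inv_mul_le_iff₀ (Real.exp_pos _)]
        exact k4.trans (by gcongr)
    · refine ⟨_, p, 1, ball_mono (by linarith), sh_cell _, hex, hexp, le_trans ?_ ha'⟩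
      have : Real.log s ≤ 256 * Real.log t := by
        rw [← hlogK, ← htK]; exact Real.log_le_log (by positivity) (not_lt.1 hb1)
      exact mul_le_mul_of_nonneg_right (Real.exp_le_exp.2 (by linarith)) hp0.le
  have hQ0 : 0 ≤ Q := le_trans (by positivity) cQ
  by_cases hz : ((ball (FF A B) (64 * ε)).card : ℝ) ≤ ε / t ^ 4
  · refine fin _ (h2 p A B Y H0 ε Q γ 25 (ε / t ^ 4) (229633 * t) (by omega) hL hsh
      (by norm_num) le_rfl cH ((sh_ball (by linarith)).trans hz)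
      ((div_le_self hε.le (one_le_pow₀ ht1)).trans hεp) ?_ cC cγ cQ (le_trans ?_ cE)
      (by rw [hlogK]; linarith) ?_) (Or.inr (Or.inl ?_))
    · rw [mul_div_assoc', le_div_iff₀ (by positivity)]
      calc (p : ℝ) * t ^ 4 = t ^ 260 * ε := by rw [← htp]; ring
        _ ≤ (t ^ 32) ^ 20 * ε := by rw [← pow_mul]; gcongr; norm_num
        _ ≤ _ := by gcongr
    · gcongr; linarith
    · rw [← hs]
      calc _ = 229633 ^ 4 * (t ^ 2) ^ 2 := by ring
        _ ≤ s ^ 4 * s ^ 2 := by gcongr; linarith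
        _ = s ^ 6 := by ring
        _ ≤ _ := by gcongr; norm_num
    · refine mul_le_mul_of_nonneg_left (sh_sqrt ht0 hp0.le (by norm_num) ?_) hCb
      calc _ = 229633 * (p / t) := by field_simp
        _ ≤ 229633 * p := by gcongr; exact div_le_self hp0.le ht1
        _ ≤ _ := by linarith
  have hz' : ε ≤ t ^ 4 * (ball (FF A B) (64 * ε)).card := by
    have := (not_le.1 hz).le
    rwa [div_le_iff₀ (by positivity), mul_comm] at this
  obtain ⟨x, hx1, hx2, hx3⟩ := h5 p A B (64 * ε) (by linarith) hL.lin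
  have hx : x ≤ 64 * G * t := by
    refine le_of_pow_le_pow_left₀ (n := 4) (by norm_num) (by positivity) ?_
    have e1 : x ^ 4 * ε ≤ 64 * G * t ^ 4 * ε :=
      calc _ ≤ x ^ 192 * (t ^ 4 * (ball (FF A B) (2 * (64 * ε))).card) := by
            gcongr
            · norm_num
            · exact hz'.trans (by gcongr; exact ball_mono (by linarith))
        _ = t ^ 4 * (x ^ 192 * (ball (FF A B) (2 * (64 * ε))).card) := by ring
        _ ≤ t ^ 4 * (G * (64 * ε)) := by gcongr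
        _ = _ := by ring
    calc _ ≤ 64 * G * t ^ 4 := le_of_mul_le_mul_right e1 hε
      _ ≤ (64 * G) ^ 4 * t ^ 4 := by gcongr; exact le_self_pow₀ (by linarith) (by norm_num)
      _ = _ := by ring
  obtain ⟨ρ, hρ⟩ : ∃ ρ, ρ = x * (64 * ε) := ⟨_, rfl⟩
  rw [← hρ] at hx2
  have r1 : 64 * ε ≤ ρ := hρ ▸ le_mul_of_one_le_left (by positivity) hx1
  have r2 : ρ ≤ 4096 * G * t * ε := by
    rw [hρ]
    calc _ ≤ 64 * G * t * (64 * ε) := by gcongr
      _ = _ := by ring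
  obtain ⟨j, j1, j2⟩ := exists_nat_pow_near (one_le_pow₀ ht1 : 1 ≤ t ^ 8) (one_lt_two (α := ℝ))
  have j3 : (2 : ℝ) ^ (j + 1) ≤ 2 * t ^ 8 := by rw [pow_succ]; linarith
  have j4 : (1 : ℝ) ≤ 2 ^ (j + 1) := one_le_pow₀ one_le_two
  have ht9 : t ≤ t ^ 9 := le_self_pow₀ ht1 (by norm_num)
  have gain : ∀ A' B' : Finset (ZMod p), FF A' B' = FF A B →
      ShGain A' B' η ε ρ (2 * (1 / (16 * 2 ^ (j + 1))) * (ball (FF A B) ρ).card) (C1 * t ^ 9)
        (Cc * √p / t) := by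
    intro A' B' hF Y' P1 E1 Pf g1 g2 g3 g4 g5 g6 g7 g8
    refine h3 p A' B' Y' H0 P1 E1 Pf ε Q γ t ρ (j + 1) (by omega) g1 ht1 htp ht32 (hF ▸ cH) cC cγ
      cQ (le_trans ?_ cE) (by linarith) ?_ ?_ j2.le j3 g2 ?_ g4 g5 g6 g7 g8
    · gcongr; linarith
    · refine (g1.lin ρ (by linarith)).trans ?_
      calc _ ≤ 400 * (4096 * G * t * ε) := by gcongr
        _ = 1638400 * G * t * ε := by ring
        _ ≤ _ := by gcongr; linarith
    · rw [hF]; exact hz'.trans (by gcongr; exact ball_mono r1)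
    · rw [hF]; refine g3.trans (le_of_eq ?_); field_simp; ring
  refine fin _ (sh_types h6 hL hη hη1 hε (by linarith) (by positivity) ?_ (by positivity) ?_ hx2
    ?_ ?_ (gain A B rfl) (gain B A (FF_comm B A))) (Or.inr (Or.inr (by rw [mul_div_assoc])))
  · exact one_div_le_one_div_of_le (by norm_num) (by linarith)
  · exact le_trans (by linarith) (le_mul_of_one_le_right hC0 (ht1.trans ht9))
  · calc _ ≤ 4 * (4096 * G * t * ε) := by gcongr
      _ = 16384 * G * t * ε := by ring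
      _ ≤ _ := by gcongr; linarith
  · calc _ = 32 * G * ρ * 2 ^ (j + 1) := by field_simp; ring
      _ ≤ 32 * G * (4096 * G * t * ε) * (2 * t ^ 8) := by gcongr
      _ = 2097152 * G ^ 2 * (t ^ 9 * ε / 8) := by ring
      _ ≤ C1 * η * (t ^ 9 * ε / 8) := by rw [hC1]; gcongr; norm_num
      _ = _ := by ring

end Pool.Agent.MP_93a3f8_co
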