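import Pool.Agent.Mg.F93a3f8p.Gbed3f0

/-! Levels far below `p`. -/

open Finset Pointwise

namespace Pool.Agent.MP_93a3f8_co

lemma dp_root {K : ℝ} (hK : 1 ≤ K) {n : ℕ} (hn : n ≠ 0) (hn' : n ≤ 256) :
    ∃ a : ℝ, 1 ≤ a ∧ a ^ n = K ∧ a⁻¹ ≤ (K⁻¹) ^ (1 / 256 : ℝ) := by
  have h0 : 0 < K := by linarith
  have hn0 : (0 : ℝ) < n := by exact_mod_cast Nat.pos_of_ne_zero hn
  refine ⟨K ^ ((n : ℝ)⁻¹), Real.one_le_rpow hK (by positivity),
    Real.rpow_inv_natCast_pow h0.le hn, ?_⟩
  rw [← Real.inv_rpow h0.le]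
  refine Real.rpow_le_rpow_of_exponent_ge (by positivity) (inv_le_one_of_one_le₀ hK) ?_
  rw [one_div]
  exact inv_anti₀ hn0 (by exact_mod_cast hn')

theorem deep (h1 : DoubStmt) (h2 : TypedWStmt) (h3 : UWStmt) : DeepStmt := by
  intro η hη hη1
  obtain ⟨G, hG, h1⟩ := h1
  obtain ⟨C2, hC2, h2⟩ := h2 η G hη hη1 hG
  obtain ⟨C3, hC3, p0, h3⟩ := h3 η G hη hη1 (by linarith)
  refine ⟨9 * C2 + 400 + G + C3, by positivity, p0, ?_⟩
  intro p _ A B Y ε hp hL hlog
  have hp1 : (1 : ℝ) ≤ p := by exact_mod_cast (Fact.out : p.Prime).one_le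
  have hs1 : 1 ≤ √(p : ℝ) := Real.one_le_sqrt.2 hp1
  have hs2 : √(p : ℝ) ^ 2 = p := Real.sq_sqrt (by linarith)
  have hε1 : 1 ≤ ε := hs1.trans hL.low
  have hε0 : 0 < ε := by linarith
  have hεp : ε ≤ p := by linarith [hL.high]
  have hL0 : 0 ≤ Real.log p := Real.log_nonneg hp1
  obtain ⟨a, ha1, ha, hau⟩ := dp_root (K := p / ε) ((one_le_div hε0).2 hεp) (n := 8)
    (by norm_num) (by norm_num)
  obtain ⟨b, hb1, hb, hbv⟩ := dp_root (K := ε / √p) ((one_le_div (by linarith)).2 hL.low) (n := 4)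
    (by norm_num) (by norm_num)
  rw [inv_div] at hau hbv
  have hLa : Real.log p ≤ a := by
    refine le_of_pow_le_pow_left₀ (n := 8) (by norm_num) (by linarith) ?_
    rw [ha, le_div_iff₀ hε0]
    exact hlog
  set s := √(p : ℝ) with hs
  have ha0 : 0 < a := by linarith
  have hb0 : 0 < b := by linarith
  have hs0 : 0 < s := by linarith
  have eε : ε = b ^ 4 * s := by rw [hb]; field_simp
  have ep : (p : ℝ) = a ^ 8 * ε := by rw [ha]; field_simp
  have es : s = a ^ 8 * b ^ 4 := by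
    refine mul_right_cancel₀ hs0.ne' ?_
    rw [← pow_two, hs2, ep, eε]; ring
  have ia : 0 < s / a := by positivity
  have ib : 0 < s / b := by positivity
  have hG0 : 0 ≤ G := by linarith
  -- reduction to the powers
  suffices H : Cov A B Y ((9 * C2 + 400 + G + C3) * (s / a + s / b)) 0 by
    refine H.mono Subset.rfl ?_ le_rfl
    rw [mul_assoc, div_eq_mul_inv s a, div_eq_mul_inv s b, ← mul_add]
    gcongr
  have hY : ∀ y ∈ Y, y ∈ A + B := fun y hy => by
    have h := hL.h1 y hy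
    have : (0 : ℝ) < rep A B y := lt_of_lt_of_le (by positivity) h
    exact rep_pos_iff.1 (by exact_mod_cast this)
  obtain ⟨x, hx1, hx2, hx3⟩ := h1 p A B ε hε1 hL.lin
  have hb4 : s / b ^ 4 ≤ s / b := by
    gcongr
    exact le_self_pow₀ hb1 (by norm_num)
  have hτ : (0 : ℝ) ≤ (ball (FF A B) (2 * ε)).card := Nat.cast_nonneg _
  by_cases hc : x ^ 12 ≤ a ^ 8 ∧ x ^ 12 ≤ b ^ 4
  · have hδ : 0 < 1 / b ^ 8 := by positivity
    have H := (h2 p A B Y ε x (1 / b ^ 8) hε1 hx1 hδ
      ((div_le_one (by positivity)).2 (one_le_pow₀ hb1)) hL.lin hL.sub hL.h1 hL.r0 hx2).finish hY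
    refine H.mono Subset.rfl ?_ le_rfl
    have x1 : x ^ 3 ≤ a ^ 2 := by
      refine le_of_pow_le_pow_left₀ (n := 4) (by norm_num) (by positivity) ?_
      rw [← pow_mul, ← pow_mul]; exact hc.1
    have x2 : x ^ 3 ≤ b := by
      refine le_of_pow_le_pow_left₀ (n := 4) (by norm_num) (by positivity) ?_
      rw [← pow_mul]; exact hc.2
    have l0 : Real.log (1 / (1 / b ^ 8)) = 8 * Real.log b := by
      rw [one_div_one_div, Real.log_pow]; norm_num
    have l1 : 0 ≤ Real.log b := Real.log_nonneg hb1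
    have l2 : 1 + 8 * Real.log b ≤ 9 * b := by
      linarith [Real.log_le_sub_one_of_pos hb0]
    have l3 : 1 + 8 * Real.log b ≤ 3 * a := by
      have : Real.log (b ^ 4) ≤ Real.log p := by
        refine Real.log_le_log (by positivity) (le_trans ?_ hεp)
        rw [eε]
        exact le_mul_of_one_le_right (by positivity) hs1
      rw [Real.log_pow] at this
      push_cast at this
      linarith
    have r1 : √ε = s / a ^ 4 := by
      rw [Real.sqrt_eq_iff_mul_self_eq hε0.le (by positivity)]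
      field_simp
      rw [hs2, ep, mul_comm]
    have r2 : (p : ℝ) / ε = s / b ^ 4 := by
      rw [← ha, es]; field_simp
    rw [l0, r1, r2]
    have t1 : x ^ 3 * (1 + 8 * Real.log b) * (s / a ^ 4) ≤ 3 * (s / a) := by
      calc _ ≤ a ^ 2 * (3 * a) * (s / a ^ 4) := by gcongr
        _ = _ := by field_simp
    have t2 : x ^ 3 * (1 + 8 * Real.log b) * (s / b ^ 4) ≤ 9 * (s / b) := by
      calc _ ≤ b * (9 * b) * (s / b ^ 4) := by gcongr
        _ = 9 * (s / b ^ 2) := by field_simp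
        _ ≤ _ := by
          gcongr
          exact le_self_pow₀ hb1 (by norm_num)
    have t3 : 1 / b ^ 8 * (Y.card : ℝ) ≤ 400 * (s / b) := by
      have : (Y.card : ℝ) ≤ 400 * ε :=
        le_trans (by exact_mod_cast card_le_card hL.sub) (hL.lin ε hε1)
      calc _ ≤ 1 / b ^ 8 * (400 * ε) := by gcongr
        _ = 400 * (s / b ^ 4) := by rw [eε]; field_simp
        _ ≤ _ := by gcongr
    have t4 : C2 * x ^ 3 * (1 + 8 * Real.log b) * (s / a ^ 4 + s / b ^ 4)
        ≤ C2 * (3 * (s / a) + 9 * (s / b)) := by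
      calc _ = C2 * (x ^ 3 * (1 + 8 * Real.log b) * (s / a ^ 4) +
            x ^ 3 * (1 + 8 * Real.log b) * (s / b ^ 4)) := by ring
        _ ≤ _ := by gcongr
    have t5 := mul_nonneg hC2 ia.le
    have t6 := mul_nonneg (add_nonneg hG0 hC3) (add_pos ia ib).le
    nlinarith
  · have hx0 : 0 ≤ x := by linarith
    by_cases hd : b ^ 4 ≤ (a ^ 8) ^ 8
    · have x1 : b ^ 8 ≤ x ^ 192 := by
        rw [show x ^ 192 = (x ^ 12) ^ 16 by ring]
        rcases not_and_or.1 hc with h | h
        · calc b ^ 8 = (b ^ 4) ^ 2 := by ring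
            _ ≤ ((a ^ 8) ^ 8) ^ 2 := by gcongr
            _ = (a ^ 8) ^ 16 := by ring
            _ ≤ _ := by gcongr; exact (not_le.1 h).le
        · calc b ^ 8 ≤ b ^ 64 := pow_le_pow_right₀ hb1 (by norm_num)
            _ = (b ^ 4) ^ 16 := by ring
            _ ≤ _ := by gcongr; exact (not_le.1 h).le
      refine (Cov.pointwise hY).mono Subset.rfl ?_ le_rfl
      have t1 : (Y.card : ℝ) ≤ (ball (FF A B) (2 * ε)).card := by
        exact_mod_cast card_le_card (hL.sub.trans (ball_mono (by linarith)))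
      have t2 : ((ball (FF A B) (2 * ε)).card : ℝ) ≤ G * (s / b ^ 4) := by
        have := (mul_le_mul_of_nonneg_right x1 hτ).trans hx3
        rw [← mul_div_assoc, le_div_iff₀ (by positivity)]
        refine le_of_mul_le_mul_left ?_ (show 0 < b ^ 4 by positivity)
        calc _ = b ^ 8 * ((ball (FF A B) (2 * ε)).card : ℝ) := by ring
          _ ≤ G * ε := this
          _ = _ := by rw [eε]; ring
      have t3 : G * (s / b ^ 4) ≤ G * (s / b) := by gcongr
      have t5 := mul_nonneg hG0 ia.le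
      have t6 := mul_nonneg (show 0 ≤ 9 * C2 + 400 + C3 by positivity) (add_pos ia ib).le
      nlinarith
    · have hd' : (a ^ 8) ^ 8 < b ^ 4 := not_le.1 hd
      have hK1 : 1 ≤ a ^ 8 := one_le_pow₀ ha1
      have x1 : a ^ 8 ≤ x ^ 12 := by
        rcases not_and_or.1 hc with h | h
        · exact (not_le.1 h).le
        · exact ((le_self_pow₀ hK1 (by norm_num)).trans hd'.le).trans (not_le.1 h).le
      have x2 : (a ^ 8) ^ 7 ≤ x ^ 192 := by
        calc _ ≤ (a ^ 8) ^ 16 := pow_le_pow_right₀ hK1 (by norm_num)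
          _ ≤ (x ^ 12) ^ 16 := by gcongr
          _ = _ := by ring
      have H := h3 p A B Y ε (a ^ 8) hp hε0 hK1 hL.sub hL.h1 ep.le
        (hLa.trans (le_self_pow₀ ha1 (by norm_num))) ?_ ?_
      · refine H.mono Subset.rfl ?_ le_rfl
        have t1 : s / a ^ 8 ≤ s / a := by
          gcongr
          exact le_self_pow₀ ha1 (by norm_num)
        have t2 : C3 * s / a ^ 8 ≤ C3 * (s / a) := by rw [mul_div_assoc]; gcongr
        have t5 := mul_nonneg hC3 ib.le
        have t6 := mul_nonneg (show 0 ≤ 9 * C2 + 400 + G by positivity) (add_pos ia ib).le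
        nlinarith
      · calc (a ^ 8) ^ 16 = ((a ^ 8) ^ 8) ^ 2 := by ring
          _ ≤ (b ^ 4) ^ 2 := by gcongr
          _ ≤ s ^ 2 := by
            gcongr
            rw [es]
            exact le_mul_of_one_le_left (by positivity) hK1
          _ = _ := hs2
      · rw [le_div_iff₀ (by positivity), mul_comm]
        calc _ ≤ x ^ 192 * ((ball (FF A B) (2 * ε)).card : ℝ) :=
              mul_le_mul_of_nonneg_right x2 hτ
          _ ≤ G * ε := hx3
          _ ≤ _ := mul_le_mul_of_nonneg_left hεp hG0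

end Pool.Agent.MP_93a3f8_co
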