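import Pool.Agent.Mg.F93a3f8p.Gbed3f0

/-! A run with a pattern set. -/

open Finset Pointwise Filter

namespace Pool.Agent.MP_93a3f8_co

/-- The stages through a reference position, with explicit parameters. -/
def XNum : Prop :=
  ∀ η : ℝ, 0 < η → η ≤ 1 → ∃ C : ℝ, 1 ≤ C ∧ ∀ (p : ℕ) [Fact p.Prime]
    (A B Y H0 Z0 : Finset (ZMod p)) (e R ζ : ℝ), Lev A B Y η e → 0 < e → 1 ≤ R → R ≤ 25 →
    H0 ⊆ ball (FF A B) (R * e) → ball (FF A B) ((R + 1) * e) ⊆ Z0 → (Z0.card : ℝ) ≤ ζ →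
    ∀ k : ℕ, 1 ≤ k → Orc A B Y H0 Z0 (Real.exp (-(C * (1 + Real.log (p / e)) * k)))
      (C * (p / e) * k) (ζ / 2 ^ (25 * k))

lemma ga_large (D E F : ℝ) (hE : 0 < E) : ∃ p0 : ℕ, ∀ p : ℕ, p0 ≤ p →
    D ≤ √(Real.log p) ∧ F ≤ Real.log p ∧ E * Real.log p ^ 16 ≤ (p : ℝ) ^ (1 / 10 : ℝ) := by
  have h1 : ∀ᶠ x : ℝ in atTop, D ≤ √(Real.log x) :=
    (Real.tendsto_sqrt_atTop.comp Real.tendsto_log_atTop).eventually_ge_atTop D
  have h2 : ∀ᶠ x : ℝ in atTop, F ≤ Real.log x := Real.tendsto_log_atTop.eventually_ge_atTop F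
  have h3 := (isLittleO_log_rpow_rpow_atTop (s := 1 / 10) (16 : ℕ) (by norm_num)).def
    (inv_pos.2 hE)
  have h4 : ∀ᶠ x : ℝ in atTop, D ≤ √(Real.log x) ∧ F ≤ Real.log x ∧
      E * Real.log x ^ 16 ≤ x ^ (1 / 10 : ℝ) := by
    filter_upwards [h1, h2, h3, eventually_ge_atTop 0] with x a b c d
    refine ⟨a, b, ?_⟩
    rw [Real.rpow_natCast, Real.norm_of_nonneg (by positivity),
      Real.norm_of_nonneg (by positivity), inv_mul_eq_div, le_div_iff₀ hE] at c
    linarith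
  exact eventually_atTop.1 (tendsto_natCast_atTop_atTop.eventually h4)

lemma ga_theta {D t s : ℝ} (hD : 1 ≤ D) (ht : 1 ≤ t) (h1 : t ^ 16 ≤ s) (h2 : D ^ 12 ≤ s) :
    D * t ^ 11 ≤ s := by
  rcases le_total D t with h | h
  · calc D * t ^ 11 ≤ t * t ^ 11 := by gcongr
      _ = t ^ 12 := by ring
      _ ≤ t ^ 16 := pow_le_pow_right₀ ht (by norm_num)
      _ ≤ s := h1
  · calc D * t ^ 11 ≤ D * D ^ 11 := by gcongr
      _ = D ^ 12 := by ring
      _ ≤ s := h2

lemma ga_log {t : ℝ} (ht : 1 ≤ t) : Real.log t ≤ t := by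
  have := Real.log_le_sub_one_of_pos (by linarith : 0 < t)
  linarith

lemma ga_j {t : ℝ} {j : ℕ} (ht : 1 ≤ t) (h : (2 : ℝ) ^ j ≤ 2 * t ^ 8) : (j : ℝ) + 1 ≤ 14 * t := by
  have h1 := Real.log_le_log (by positivity) h
  rw [Real.log_pow, Real.log_mul (by norm_num) (by positivity), Real.log_pow] at h1
  have h2 := ga_log ht
  have h3 := Real.log_two_gt_d9
  have h4 : ((j : ℝ) - 1) * Real.log 2 ≤ 8 * t := by push_cast at h1; linarith
  by_contra hn
  push Not at hn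
  have : (12 * t) * Real.log 2 ≤ ((j : ℝ) - 1) * Real.log 2 :=
    mul_le_mul_of_nonneg_right (by linarith) (by linarith)
  nlinarith

lemma ga_log2 {t c : ℝ} {j : ℕ} (ht : 1 ≤ t) (hc : 0 < c) (hc' : c ≤ 16)
    (h : (2 : ℝ) ^ j ≤ 2 * t ^ 8) : Real.log (c * 2 ^ j) ≤ 40 * t := by
  have h1 : Real.log (c * 2 ^ j) ≤ Real.log (32 * t ^ 8) := by
    apply Real.log_le_log (by positivity)
    have : c * 2 ^ j ≤ 16 * 2 ^ j := by gcongr
    linarith
  rw [Real.log_mul (x := 32) (by norm_num) (by positivity), Real.log_pow] at h1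
  have h2 := ga_log ht
  have h3 := ga_log (by norm_num : (1 : ℝ) ≤ 32)
  push_cast at h1
  linarith

theorem gain (h : RunStmt) (hx : XNum) : GainStmt := by
  intro η C1 hη hη1 hC1
  obtain ⟨C0, hC0, p0, h⟩ := h
  obtain ⟨Cx, hCx, hx⟩ := hx η hη hη1
  obtain ⟨D, hD⟩ : ∃ D : ℝ, D = C1 + 296 + 10824 * C1 / η + 257 * Cx := ⟨_, rfl⟩
  obtain ⟨E, hE⟩ : ∃ E : ℝ, E = 1 + 41 * C1 + 14 * Cx + 8 * D * C1 / η := ⟨_, rfl⟩
  have hq0 : 0 ≤ 10824 * C1 / η := by positivity
  have hD1 : 256 ≤ D := by linarith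
  have hq1 : 0 ≤ 8 * D * C1 / η := by positivity
  have hE1 : 1 ≤ E := by linarith
  obtain ⟨p1, hp1⟩ := ga_large (D ^ 12) E (8 / η) (by linarith)
  refine ⟨C0 * √(C1 * E), by positivity, max p0 p1, ?_⟩
  intro p _ A B Y H0 P1 E1 Pf ε Q γ t ρ j0 hp hL ht htε htL hH0 hcell hγ hQ hQH hρ hτ1 hτ2 hj1 hj2
    hP1 hE1c hP1c hP1r hPf hPfc hPfr
  obtain ⟨l1, l2, l3⟩ := hp1 p (le_of_max_le_right hp)
  have hpp : (0 : ℝ) < p := by exact_mod_cast (Fact.out : p.Prime).pos
  have ht0 : 0 < t := by linarith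
  have hε : 0 < ε := by
    by_contra hn
    push Not at hn
    have : t ^ 256 * ε ≤ 0 := mul_nonpos_of_nonneg_of_nonpos (by positivity) hn
    linarith
  have hK0 : (p : ℝ) / ε = t ^ 256 := by rw [← htε]; field_simp
  set ζ : ℝ := ((ball (FF A B) ρ).card : ℝ) with hζ
  have hζ0 : 0 < ζ := by
    by_contra hn
    push Not at hn
    have : t ^ 4 * ζ ≤ 0 := mul_nonpos_of_nonneg_of_nonpos (by positivity) hn
    linarith
  have hpw : ∀ {a b : ℕ}, a ≤ b → t ^ a ≤ t ^ b := fun hab => pow_le_pow_right₀ ht hab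
  have ht11 : t ≤ t ^ 11 := by simpa using hpw (by norm_num : 1 ≤ 11)
  have hs16 : t ^ 16 ≤ √(Real.log p) := by
    apply Real.le_sqrt_of_sq_le
    calc (t ^ 16) ^ 2 = t ^ 32 := by ring
      _ ≤ _ := htL
  have hΘ : D * t ^ 11 ≤ √(Real.log p) := ga_theta (by linarith) ht hs16 l1
  have hZ : ((ball (FF A B) ((25 + 1) * ε)).card : ℝ) ≤ ζ := by
    rw [hζ]; exact Nat.cast_le.2 (card_le_card (ball_mono (by linarith)))
  have hlt := ga_log ht
  have h2j : (0 : ℝ) < 2 ^ j0 := by positivity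
  obtain ⟨w, hw⟩ : ∃ w : ℕ, w = ⌈C1 * t ^ 9 * Real.log (8 * 2 ^ j0)⌉₊ := ⟨_, rfl⟩
  have hl8 : 0 ≤ Real.log (8 * 2 ^ j0) := by
    apply Real.log_nonneg
    have : (1 : ℝ) ≤ 2 ^ j0 := one_le_pow₀ (by norm_num)
    linarith
  have hw1 : C1 * t ^ 9 * Real.log (8 * 2 ^ j0) ≤ w := hw ▸ Nat.le_ceil _
  have hw2 : (w : ℝ) ≤ 41 * C1 * t ^ 10 := by
    have a1 : (w : ℝ) < C1 * t ^ 9 * Real.log (8 * 2 ^ j0) + 1 :=
      hw ▸ Nat.ceil_lt_add_one (by positivity)
    have a2 : C1 * t ^ 9 * Real.log (8 * 2 ^ j0) ≤ C1 * t ^ 9 * (40 * t) :=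
      mul_le_mul_of_nonneg_left (ga_log2 ht (by norm_num) (by norm_num) hj2) (by positivity)
    have a3 : 1 ≤ C1 * t ^ 10 := one_le_mul_of_one_le_of_one_le hC1 (one_le_pow₀ ht)
    have a4 : C1 * t ^ 9 * (40 * t) = 40 * (C1 * t ^ 10) := by ring
    linarith
  have o1 := pat_orc (A := A) (B := B) (Y := Y) (H0 := H0) (Z0 := ball (FF A B) ((25 + 1) * ε))
    (P := P1) (E1 := E1) (a := η * ε) (ζ := ζ) (δ := 1 / 2 ^ j0) (π := η / (8 * t ^ 256))
    (q := 1 / (C1 * t ^ 9)) (w := w) (by positivity) (by positivity)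
    (by rw [div_le_one h2j]; exact one_le_pow₀ (by norm_num)) hζ0 hZ
    (fun x hx u hu => ball_mono (by nlinarith) (FF_ball_sub (hH0 hx) hu)) hL.h1 hL.h2 hP1
    (by positivity)
    (by
      refine le_trans (le_of_eq ?_) hP1c
      rw [← htε]; field_simp)
    (by
      have a1 : Real.log (8 * 2 ^ j0) ≤ 1 / (C1 * t ^ 9) * w := by
        rw [one_div_mul_eq_div, le_div_iff₀ (by positivity)]; linarith
      calc _ ≤ Real.exp (-Real.log (8 * 2 ^ j0)) := Real.exp_le_exp.2 (by linarith)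
        _ = _ := by rw [Real.exp_neg, Real.exp_log (by positivity)]; field_simp)
    (by refine hE1c.trans (le_of_eq ?_); field_simp)
    (fun x hx z hz h1 h2 => by
      have := hP1r (z + x) (ball_mono (by linarith) (FF_ball_add hz (hH0 hx))) h1 h2
      rw [one_div_mul_eq_div, div_le_iff₀ (by positivity)]; linarith)
  have hent : Real.exp (-(D * t ^ 11)) ≤ 1 / 2 ^ j0 / 16 * (η / (8 * t ^ 256)) ^ w := by
    have a1 : Real.log (8 * t ^ 256 / η) ≤ 264 / η * t := by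
      rw [mul_div_right_comm, Real.log_mul (by positivity) (by positivity), Real.log_pow]
      have b1 : 1 ≤ 1 / η := by rw [le_div_iff₀ hη]; linarith
      have b2 : Real.log (8 / η) ≤ 8 / η := ga_log (by rw [le_div_iff₀ hη]; linarith)
      have b3 : 8 / η = 8 * (1 / η) := by ring
      have b4 : 264 / η = 264 * (1 / η) := by ring
      rw [b4]; rw [b3] at b2 ⊢
      push_cast
      nlinarith [mul_le_mul b1 ht zero_le_one (by linarith), mul_le_mul_of_nonneg_right b1 ht0.le,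
        mul_le_mul_of_nonneg_left ht (by linarith : 0 ≤ 1 / η)]
    have a2 : (w : ℝ) * Real.log (8 * t ^ 256 / η) ≤ 41 * C1 * t ^ 10 * (264 / η * t) :=
      le_trans (mul_le_mul_of_nonneg_left a1 (by positivity))
        (mul_le_mul_of_nonneg_right hw2 (by positivity))
    have a3 : 41 * C1 * t ^ 10 * (264 / η * t) = 10824 * C1 / η * t ^ 11 := by ring
    have a4 := ga_log2 ht (by norm_num : (0 : ℝ) < 16) le_rfl hj2
    have a5 : Real.log (16 * 2 ^ j0) + w * Real.log (8 * t ^ 256 / η) ≤ D * t ^ 11 := by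
      have : 0 ≤ (C1 + 256 + 257 * Cx) * t ^ 11 := by positivity
      rw [hD]; nlinarith
    calc _ ≤ Real.exp (-(Real.log (16 * 2 ^ j0) + w * Real.log (8 * t ^ 256 / η))) :=
          Real.exp_le_exp.2 (by linarith)
      _ = _ := by
          rw [neg_add, Real.exp_add, Real.exp_neg, Real.exp_neg, Real.exp_log (by positivity),
            Real.exp_nat_mul, Real.exp_log (by positivity), ← inv_pow, inv_div]
          congr 1
          field_simp
  have hQ0 : 0 ≤ Q := le_trans (by positivity) hQ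
  have key := h p A B Y H0 (ball (FF A B) ((25 + 1) * ε)) Pf ζ Q γ (D * t ^ 11) w (Cx * t ^ 256)
    (8 * t ^ 256 / η) (E * t ^ 249) j0 (le_of_max_le_left hp)
    (fun y hy x hx => ball_mono (by linarith) (FF_ball_sub (hL.sub hy) (hH0 hx))) hZ
    (by rw [hζ]; exact_mod_cast card_le_p _) hcell hγ hQ
    (by
      refine le_trans (mul_le_mul_of_nonneg_right (Real.exp_le_exp.2 ?_) hQ0) hQH
      have : C1 * t ≤ D * t ^ 11 := mul_le_mul (by linarith) ht11 ht0.le (by linarith)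
      linarith)
    (one_le_mul_of_one_le_of_one_le (by linarith) (one_le_pow₀ ht)) hΘ
    (by
      have : 256 * t ^ 8 ≤ D * t ^ 11 :=
        mul_le_mul hD1 (hpw (by norm_num)) (by positivity) (by linarith)
      linarith)
    (by positivity) (by positivity)
    (o1.mono hent le_rfl (le_of_eq (by ring)))
    (fun k hk => by
      refine (hx p A B Y H0 _ ε 25 ζ hL hε (by norm_num) le_rfl hH0 Subset.rfl hZ k hk).mono
        (Real.exp_le_exp.2 (neg_le_neg (mul_le_mul_of_nonneg_right ?_ (by positivity))))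
        (le_of_eq (by rw [hK0])) le_rfl
      rw [hK0, Real.log_pow]
      push_cast
      calc Cx * (1 + 256 * Real.log t) ≤ Cx * (257 * t ^ 11) :=
            mul_le_mul_of_nonneg_left (by linarith) (by linarith)
        _ = 257 * Cx * t ^ 11 := by ring
        _ ≤ _ := mul_le_mul_of_nonneg_right (by linarith) (by positivity))
    hPf
    (by
      rw [le_div_iff₀ hη]
      have : 1 ≤ t ^ 256 := one_le_pow₀ ht
      linarith)
    (by
      have a1 : t ^ 256 ≤ Real.log p ^ 8 := by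
        calc t ^ 256 = (t ^ 32) ^ 8 := by ring
          _ ≤ _ := by gcongr
      calc 8 * t ^ 256 / η = 8 / η * t ^ 256 := by ring
        _ ≤ Real.log p * Real.log p ^ 8 :=
          mul_le_mul l2 a1 (by positivity) (le_trans (by positivity) l2)
        _ = _ := by ring)
    (fun y hy => by
      calc (p : ℝ) = 8 * t ^ 256 / η * (η * ε / 8) := by rw [← htε]; field_simp
        _ ≤ _ := mul_le_mul_of_nonneg_left (hPfr y hy) (by positivity))
    (by
      have a1 : (1 : ℝ) ≤ t ^ 249 := one_le_pow₀ ht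
      have a2 : (w : ℝ) ≤ 41 * C1 * t ^ 249 :=
        hw2.trans (mul_le_mul_of_nonneg_left (hpw (by norm_num)) (by positivity))
      have a3 : Cx * t ^ 256 * (j0 + 1) / 2 ^ j0 ≤ 14 * Cx * t ^ 249 := by
        rw [div_le_iff₀ h2j]
        calc Cx * t ^ 256 * (j0 + 1) ≤ Cx * t ^ 256 * (14 * t) :=
              mul_le_mul_of_nonneg_left (ga_j ht hj2) (by positivity)
          _ = 14 * Cx * t ^ 249 * t ^ 8 := by ring
          _ ≤ _ := mul_le_mul_of_nonneg_left hj1 (by positivity)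
      have a4 : 8 * t ^ 256 / η * (D * t ^ 11) * Pf.card / p ≤ 8 * D * C1 / η * t ^ 249 := by
        rw [div_le_iff₀ hpp]
        calc _ ≤ 8 * t ^ 256 / η * (D * t ^ 11) * (C1 * t ^ 9 * ε) :=
              mul_le_mul_of_nonneg_left hPfc (by positivity)
          _ = 8 * D * C1 / η * t ^ 20 * (t ^ 256 * ε) := by ring
          _ ≤ _ := by
              rw [htε]
              exact mul_le_mul_of_nonneg_right
                (mul_le_mul_of_nonneg_left (hpw (by norm_num)) hq1) hpp.le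
      have a5 : E * t ^ 249 = t ^ 249 + 41 * C1 * t ^ 249 + 14 * Cx * t ^ 249 +
          8 * D * C1 / η * t ^ 249 := by rw [hE]; ring
      linarith)
    (by
      have a1 : t ^ 509 ≤ Real.log p ^ 16 := by
        calc t ^ 509 ≤ t ^ 512 := hpw (by norm_num)
          _ = (t ^ 32) ^ 16 := by ring
          _ ≤ _ := by gcongr
      have a2 : E * t ^ 509 ≤ (p : ℝ) ^ (1 / 10 : ℝ) :=
        (mul_le_mul_of_nonneg_left a1 (by linarith)).trans l3
      have a3 : (p : ℝ) ^ (1 / 10 : ℝ) * (p : ℝ) ^ (9 / 10 : ℝ) = p := by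
        rw [← Real.rpow_add hpp]; norm_num
      have a4 : t ^ 260 * (E * t ^ 249 * (p : ℝ) ^ (9 / 10 : ℝ)) ≤ t ^ 260 * ζ := by
        calc _ = E * t ^ 509 * (p : ℝ) ^ (9 / 10 : ℝ) := by ring
          _ ≤ (p : ℝ) ^ (1 / 10 : ℝ) * (p : ℝ) ^ (9 / 10 : ℝ) :=
              mul_le_mul_of_nonneg_right a2 (by positivity)
          _ = t ^ 256 * ε := by rw [a3, htε]
          _ ≤ t ^ 256 * (t ^ 4 * ζ) := mul_le_mul_of_nonneg_left hτ2 (by positivity)
          _ = _ := by ring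
      exact le_of_mul_le_mul_left a4 (by positivity))
  refine key.mono Subset.rfl ?_ le_rfl
  rw [mul_assoc, mul_div_assoc]
  refine mul_le_mul_of_nonneg_left ?_ hC0
  rw [← Real.sqrt_mul (by positivity), le_div_iff₀ ht0, ← Real.sqrt_sq ht0.le,
    ← Real.sqrt_mul (by positivity), Real.sqrt_sq ht0.le]
  apply Real.sqrt_le_sqrt
  calc ζ * (E * t ^ 249) * t ^ 2 ≤ C1 * t * ε * (E * t ^ 249) * t ^ 2 := by gcongr
    _ = C1 * E * (t ^ 252 * ε) := by ring
    _ ≤ C1 * E * (t ^ 256 * ε) := by gcongr; norm_num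
    _ = _ := by rw [htε]

end Pool.Agent.MP_93a3f8_co
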