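import Pool.Agent.Mg.F93a3f8p.Gbed3f0

section

/-! The combinatorial core: nested cubes of synchronised positions. -/

open Finset Pointwise

namespace Pool.Agent.MP_93a3f8_co

variable {p : ℕ} [Fact p.Prime]

lemma overlap_eq (H : Finset (ZMod p)) (u v : ZMod p) :
    (univ.filter fun y => y - u ∈ H ∧ y - v ∈ H).card = (H.filter fun x => x + (u - v) ∈ H).card :=
  card_bij (fun y _ => y - u) (fun y hy => by
      simp only [mem_filter, mem_univ, true_and] at hy ⊢
      exact ⟨hy.1, by rw [show y - u + (u - v) = y - v by ring]; exact hy.2⟩)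
    (fun a _ b _ h => by simpa using h)
    (fun x hx => ⟨x + u, by
      simp only [mem_filter, mem_univ, true_and] at hx ⊢
      exact ⟨by simpa using hx.1, by rw [show x + u - v = x + (u - v) by ring]; exact hx.2⟩, by simp⟩)

/-- A popular shift of controlled size. -/
lemma exists_shift {H H0 : Finset (ZMod p)} {Δ : Finset ℕ} {M M' : ℕ} {Q β : ℝ} (hH : H ⊆ H0)
    (hβ : 0 < β) (hQ : 0 < Q) (hHQ : β * Q ≤ H.card) (hΔ : Δ ⊆ range M)
    (hS : ((H0 + Δ.image fun i : ℕ => (i : ZMod p)).card : ℝ) ≤ Q)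
    (hM : 2 * (M' : ℝ) + 1 ≤ β * Δ.card / 2) :
    ∃ h : ℕ, M' ≤ h ∧ h < M ∧ β * H.card / 2 ≤ (H.filter fun x => x + (h : ZMod p) ∈ H).card := by
  by_contra hc
  push Not at hc
  set S := H0 + Δ.image fun i : ℕ => (i : ZMod p) with hSd
  set n : ZMod p → ℝ := fun y => ∑ i ∈ Δ, if y - (i : ZMod p) ∈ H then 1 else 0 with hn
  have hHp : (0 : ℝ) < H.card := lt_of_lt_of_le (by positivity) hHQ
  have hΔp : (0 : ℝ) < Δ.card := by
    by_contra h
    have : β * Δ.card ≤ 0 := mul_nonpos_of_nonneg_of_nonpos hβ.le (not_lt.1 h)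
    have : (0 : ℝ) ≤ M' := by positivity
    linarith
  have e1 : ∑ y ∈ S, n y = Δ.card * H.card := by
    rw [sum_subset (subset_univ S)]
    · simp only [hn]
      rw [sum_comm, sum_congr rfl (g := fun _ => (H.card : ℝ)), sum_const, nsmul_eq_mul]
      intro i _
      rw [← card_filter_shift H (-(i : ZMod p)), card_filter]
      simp [sub_eq_add_neg]
    · intro y _ hy
      refine sum_eq_zero fun i hi => if_neg fun h => hy ?_
      exact mem_add.2 ⟨_, hH h, _, mem_image_of_mem _ hi, by simp⟩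
  have e2 : ∑ y ∈ S, n y ^ 2 ≤ ∑ i ∈ Δ, ∑ j ∈ Δ,
      ((univ.filter fun y => y - (i : ZMod p) ∈ H ∧ y - (j : ZMod p) ∈ H).card : ℝ) := by
    refine (sum_le_sum_of_subset_of_nonneg (subset_univ S) fun y _ _ => sq_nonneg _).trans (le_of_eq ?_)
    simp only [hn, sq, sum_mul_sum, card_filter, Nat.cast_sum]
    rw [sum_comm]
    refine sum_congr rfl fun i _ => ?_
    rw [sum_comm]
    refine sum_congr rfl fun j _ => sum_congr rfl fun y _ => ?_
    by_cases h1 : y - (i : ZMod p) ∈ H <;> by_cases h2 : y - (j : ZMod p) ∈ H <;> simp [h1, h2]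
  have e3 : ∀ i ∈ Δ, ∑ j ∈ Δ,
      ((univ.filter fun y => y - (i : ZMod p) ∈ H ∧ y - (j : ZMod p) ∈ H).card : ℝ) ≤
      2 * M' * H.card + Δ.card * (β * H.card / 2) := by
    intro i hi
    have h1 : ∀ j ∈ Δ, ((univ.filter fun y => y - (i : ZMod p) ∈ H ∧ y - (j : ZMod p) ∈ H).card : ℝ) ≤
        (if j ∈ Ioo (i - M') (i + M') ∪ {0} ∧ 0 < M' then (H.card : ℝ) else 0) + β * H.card / 2 := by
      intro j hj
      have hiM := mem_range.1 (hΔ hi)
      have hjM := mem_range.1 (hΔ hj)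
      split_ifs with h
      · have : ((univ.filter fun y => y - (i : ZMod p) ∈ H ∧ y - (j : ZMod p) ∈ H).card : ℝ) ≤ H.card := by
          rw [overlap_eq]; exact_mod_cast card_filter_le _ _
        have : 0 ≤ β * H.card / 2 := by positivity
        linarith
      · simp only [mem_union, mem_Ioo, mem_singleton] at h
        rw [zero_add]
        rcases le_total j i with hji | hji
        · rw [overlap_eq, ← Nat.cast_sub hji]
          exact (hc _ (by omega) (by omega)).le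
        · simp only [and_comm (a := _ - (i : ZMod p) ∈ H)]
          rw [overlap_eq, ← Nat.cast_sub hji]
          exact (hc _ (by omega) (by omega)).le
    refine (sum_le_sum h1).trans ?_
    rw [sum_add_distrib, sum_const, nsmul_eq_mul, ← sum_filter, sum_const, nsmul_eq_mul]
    have h2 : (Δ.filter fun j => j ∈ Ioo (i - M') (i + M') ∪ {0} ∧ 0 < M').card ≤ 2 * M' := by
      rcases Nat.eq_zero_or_pos M' with h0 | h0
      · simp [h0]
      · refine (card_le_card (t := Ioo (i - M') (i + M') ∪ {0}) fun j hj => (mem_filter.1 hj).2.1).trans ?_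
        by_cases hi' : M' ≤ i
        · refine (card_union_le _ _).trans ?_
          simp only [Nat.card_Ioo, card_singleton]; omega
        · refine (card_union_le _ _).trans ?_
          simp only [Nat.card_Ioo, card_singleton]; omega
    have h3 : ((Δ.filter fun j => j ∈ Ioo (i - M') (i + M') ∪ {0} ∧ 0 < M').card : ℝ) ≤ 2 * M' := by
      exact_mod_cast h2
    have := mul_le_mul_of_nonneg_right h3 hHp.le
    linarith
  have e4 := e2.trans (sum_le_sum e3)
  rw [sum_const, nsmul_eq_mul] at e4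
  have e5 := sq_sum_le_card_mul_sum_sq (s := S) (f := n)
  rw [e1] at e5
  have e6 : (S.card : ℝ) * ∑ y ∈ S, n y ^ 2 ≤ Q * (Δ.card * (2 * M' * H.card + Δ.card * (β * H.card / 2))) :=
    mul_le_mul hS e4 (sum_nonneg fun _ _ => sq_nonneg _) hQ.le
  have e7 : (Δ.card * H.card : ℝ) * (Δ.card * (β * Q)) ≤ (Δ.card * H.card) * (Δ.card * H.card) :=
    mul_le_mul_of_nonneg_left (mul_le_mul_of_nonneg_left hHQ hΔp.le) (by positivity)
  have e8 : (Δ.card * H.card * Q : ℝ) * (2 * M' + 1) ≤ (Δ.card * H.card * Q) * (β * Δ.card / 2) :=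
    mul_le_mul_of_nonneg_left hM (by positivity)
  have e9 : (0 : ℝ) < Δ.card * H.card * Q := by positivity
  nlinarith

theorem core {A B Y H0 Z0 : Finset (ZMod p)} {Q γ : ℝ} {m : ℕ} {lam b d α s wt : ℕ → ℝ} {N : ℕ → ℕ}
    (hm : 1 ≤ m) (hQ : 0 < Q) (hY : ∀ y ∈ Y, ∀ x ∈ H0, y - x ∈ Z0) (hcell : Cell H0 Q γ)
    (horc : ∀ i < m, Orc A B Y H0 Z0 (lam i) (b i) (d i)) (hlam : ∀ i < m, 0 < lam i)
    (hα0 : ∀ i ≤ m, 0 < α i) (hα : ∀ i < m, α i ≤ (lam i * α (i + 1)) ^ 2 / 2)
    (hN0 : ∀ i ≤ m, 1 ≤ N i) (hNp : ∀ i ≤ m, N i ≤ p)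
    (hN : ∀ i < m, 4 * (m : ℝ) * N i + 1 ≤ lam i * α (i + 1) * γ * N (i + 1) / 2)
    (hs0 : 0 ≤ s 0) (hs : ∀ i < m, 2 * (d i + s i) ≤ s (i + 1))
    (hw0 : 0 ≤ wt 0) (hw : ∀ i < m, wt i + 2 ^ (i + 1) * b i ≤ wt (i + 1)) (r : ℕ) :
    r ≤ m → ∀ H ⊆ H0, α r * Q ≤ H.card → ∀ l : ℕ, 2 * m * N r ≤ l →
    ∃ (Hf Wt : Finset (ZMod p)) (C X : Finset ℕ) (a lf : ZMod p → Finset (ZMod p)),
      α 0 * Q ≤ Hf.card ∧ (∀ x ∈ Hf, ∀ c ∈ C, x + (c : ZMod p) ∈ H) ∧ C.card ≤ 2 ^ r ∧
      (X.card : ℝ) ≤ l * ((1 + 1 / m) / 2) ^ r ∧ (∀ j < l, ∃ t ∈ X, ∃ c ∈ C, j = t + c) ∧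
      (∀ x ∈ Hf, ∀ w ∈ Wt, x + w ∈ B) ∧ (Wt.card : ℝ) ≤ wt r ∧ (∀ z, a z ⊆ A) ∧
      (∀ D : Finset (ZMod p), ∑ z ∈ D, ((a z).card : ℝ) ≤ (D ∩ Z0).card + s r) ∧
      (∀ z, (lf z).card ≤ 2 ^ r) ∧ (r ≠ 0 → ∑ z, ((lf z).card : ℝ) ≤ 2 ^ r * d 0) ∧
      ∀ x ∈ Hf, ∀ c ∈ C, ∀ z, x + c + z ∈ Y →
        (∃ u ∈ a z, ∃ w ∈ Wt, x + c + z = u + (x + w)) ∨ ∃ z' ∈ lf z, x + c + z = x + z' := by
  induction r with
  | zero =>
    intro _ H _ hHQ l _
    refine ⟨H, ∅, {0}, range l, fun _ => ∅, fun z => {z}, hHQ, by simp, by simp, by simp,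
      fun j hj => ⟨j, mem_range.2 hj, 0, by simp, rfl⟩, by simp, by simpa, by simp, fun D => ?_,
      by simp, by simp, by simp⟩
    simp only [card_empty, Nat.cast_zero, sum_const_zero]
    positivity
  | succ r ih =>
    intro hr H hH hHQ l hl
    have hr' : r < m := hr
    obtain ⟨H1, hH1, W, Z, o1, o2, o3, o4, o5⟩ := horc r hr' H hH
    obtain ⟨Δ, hΔ, hΔ1, hΔ2⟩ := hcell (N (r + 1)) (hNp _ hr)
    have hβ : 0 < lam r * α (r + 1) := mul_pos (hlam r hr') (hα0 _ hr)
    have hH1Q : lam r * α (r + 1) * Q ≤ H1.card := by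
      have := mul_le_mul_of_nonneg_left hHQ (hlam r hr').le
      linarith
    obtain ⟨h, hh1, hh2, hh3⟩ := exists_shift (M' := 2 * m * N r) (hH1.trans hH) hβ hQ hH1Q hΔ hΔ2 (by
      have := hN r hr'
      have := mul_le_mul_of_nonneg_left hΔ1 hβ.le
      push_cast
      linarith)
    set H2 := H1.filter fun x => x + (h : ZMod p) ∈ H1 with hH2
    have hH2Q : α r * Q ≤ H2.card := by
      have h1 := mul_le_mul_of_nonneg_right (hα r hr') hQ.le
      have h2 := mul_le_mul_of_nonneg_left hH1Q hβ.le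
      nlinarith
    obtain ⟨Hf, Wt, C, X, a, lf, i1, i2, i3, i4, i5, i6, i7, i8, i9, i10, i11, i12⟩ :=
      ih hr'.le H2 ((filter_subset _ _).trans (hH1.trans hH)) hH2Q h hh1
    have hpos : 0 < h := lt_of_lt_of_le (by have := hN0 r hr'.le; positivity) hh1
    set C' := C ∪ C.image (· + h) with hC'
    have hC'H : ∀ x ∈ Hf, ∀ c ∈ C', x + (c : ZMod p) ∈ H1 := by
      intro x hx c hc
      rcases mem_union.1 hc with hc | hc
      · exact (mem_filter.1 (i2 x hx c hc)).1
      · obtain ⟨c, hc', rfl⟩ := mem_image.1 hc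
        have := (mem_filter.1 (i2 x hx c hc')).2
        push_cast
        rwa [← add_assoc]
    have hC'c : C'.card ≤ 2 ^ (r + 1) := by
      have h1 := card_union_le C (C.image (· + h))
      have h2 : (C.image (· + h)).card ≤ C.card := card_image_le
      rw [pow_succ, hC']; omega
    classical
    have hch : ∀ z, ∃ S : Finset (ZMod p), S ⊆ A ∧ S.card ≤ 1 ∧ (z ∉ Z0 → S = ∅) ∧
        (z ∈ Z0 → (∃ w ∈ W, z - w ∈ A) → ∃ w ∈ W, z - w ∈ S) := by
      intro z
      by_cases hz : z ∈ Z0 ∧ ∃ w ∈ W, z - w ∈ A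
      · obtain ⟨hz, w, hw, hw'⟩ := hz
        exact ⟨{z - w}, by simpa, by simp, fun h => absurd hz h, fun _ _ => ⟨w, hw, by simp⟩⟩
      · exact ⟨∅, by simp, by simp, fun _ => rfl, fun h1 h2 => absurd ⟨h1, h2⟩ hz⟩
    choose S hS1 hS2 hS3 hS4 using hch
    have hshift : ∀ (f : ZMod p → ℝ) (D : Finset (ZMod p)),
        ∑ z ∈ D, f (z + h) = ∑ z ∈ D.image (· + (h : ZMod p)), f z := fun f D => by
      rw [sum_image fun x _ y _ hxy => by simpa using hxy]
    refine ⟨Hf, Wt ∪ (C'.image (fun c : ℕ => (c : ZMod p)) + W), C',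
      ((range (l / (2 * h) + 1)) ×ˢ X).image (fun q => 2 * h * q.1 + q.2),
      fun z => if z ∈ Z then a z ∪ a (z + h) else S z,
      fun z => if z ∈ Z then lf z ∪ lf (z + h) else ∅, i1, fun x hx c hc => hH1 (hC'H x hx c hc),
      hC'c, ?_, ?_, ?_, ?_, ?_, ?_, ?_, ?_, ?_⟩
    · have h1 : (((range (l / (2 * h) + 1)) ×ˢ X).image (fun q => 2 * h * q.1 + q.2)).card ≤
          (l / (2 * h) + 1) * X.card := card_image_le.trans (by simp)
      have h2 : ((l / (2 * h) : ℕ) : ℝ) ≤ l / (2 * h) := by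
        simpa using Nat.cast_div_le (α := ℝ) (m := l) (n := 2 * h)
      have hh : (0 : ℝ) < h := by exact_mod_cast hpos
      have hm' : (0 : ℝ) < m := by exact_mod_cast hm
      have h3 : (2 * m * h : ℝ) ≤ l := by
        have : 2 * m * h ≤ l := le_trans (Nat.mul_le_mul_left _ hh2.le) hl
        exact_mod_cast this
      have h4 : (((l / (2 * h) : ℕ) : ℝ) + 1) * h ≤ l * ((1 + 1 / m) / 2) := by
        have h5 : ((l / (2 * h) : ℕ) : ℝ) * h ≤ l / 2 := by
          have := mul_le_mul_of_nonneg_right h2 hh.le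
          rwa [show (l : ℝ) / (2 * h) * h = l / 2 by field_simp] at this
        have h6 : (h : ℝ) ≤ l * (1 / m) / 2 := by
          rw [mul_one_div, le_div_iff₀ (by norm_num), le_div_iff₀ hm']; linarith
        linarith
      calc _ ≤ (((l / (2 * h) : ℕ) : ℝ) + 1) * X.card := by exact_mod_cast h1
        _ ≤ (((l / (2 * h) : ℕ) : ℝ) + 1) * (h * ((1 + 1 / m) / 2) ^ r) :=
          mul_le_mul_of_nonneg_left i4 (by positivity)
        _ ≤ _ := by
          rw [← mul_assoc, pow_succ', ← mul_assoc]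
          exact mul_le_mul_of_nonneg_right h4 (by positivity)
    · intro j hj
      have h1 := Nat.div_add_mod j (2 * h)
      have h2 := Nat.mod_lt j (show 0 < 2 * h by omega)
      have h3 : j / (2 * h) ≤ l / (2 * h) := Nat.div_le_div_right hj.le
      by_cases h4 : j % (2 * h) < h
      · obtain ⟨t, ht, c, hc, e⟩ := i5 _ h4
        exact ⟨_, mem_image.2 ⟨(j / (2 * h), t), by simp [ht]; omega, rfl⟩, c,
          mem_union_left _ hc, by simp only; omega⟩
      · obtain ⟨t, ht, c, hc, e⟩ := i5 (j % (2 * h) - h) (by omega)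
        exact ⟨_, mem_image.2 ⟨(j / (2 * h), t), by simp [ht]; omega, rfl⟩, c + h,
          mem_union_right _ (mem_image_of_mem _ hc), by simp only; omega⟩
    · intro x hx w hw
      rcases mem_union.1 hw with hw | hw
      · exact i6 x hx w hw
      · obtain ⟨c, hc, w, hw', rfl⟩ := mem_add.1 hw
        obtain ⟨c, hc', rfl⟩ := mem_image.1 hc
        rw [← add_assoc]
        exact o3 _ (hC'H x hx c hc') w hw'
    · have h1 : (Wt ∪ (C'.image (fun c : ℕ => (c : ZMod p)) + W)).card ≤ Wt.card + 2 ^ (r + 1) * W.card :=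
        (card_union_le _ _).trans (Nat.add_le_add_left (card_add_le.trans
          (Nat.mul_le_mul_right _ (card_image_le.trans hC'c))) _)
      have h2 : ((Wt ∪ (C'.image (fun c : ℕ => (c : ZMod p)) + W)).card : ℝ) ≤
          Wt.card + 2 ^ (r + 1) * W.card := by exact_mod_cast h1
      have h3 := mul_le_mul_of_nonneg_left o2 (show (0 : ℝ) ≤ 2 ^ (r + 1) by positivity)
      have := hw r hr'
      linarith
    · intro z
      dsimp only
      split_ifs
      · exact union_subset (i8 _) (i8 _)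
      · exact hS1 z
    · intro D
      have h1 : ∀ z ∈ D, ((if z ∈ Z then a z ∪ a (z + h) else S z).card : ℝ) ≤
          (if z ∈ Z0 then 1 else 0) + if z ∈ Z then ((a z).card + (a (z + h)).card : ℝ) else 0 := by
        intro z _
        by_cases hz : z ∈ Z
        · have : ((a z ∪ a (z + h)).card : ℝ) ≤ (a z).card + (a (z + h)).card := by
            exact_mod_cast card_union_le _ _
          simp only [hz, if_true]
          split_ifs <;> linarith
        · simp only [hz, if_false, add_zero]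
          split_ifs with h0
          · exact_mod_cast hS2 z
          · simp [hS3 z h0]
      refine (sum_le_sum h1).trans ?_
      rw [sum_add_distrib, ← sum_filter, ← sum_filter, filter_mem_eq_inter, filter_mem_eq_inter,
        sum_add_distrib, hshift (fun z => ((a z).card : ℝ)), sum_const, nsmul_eq_mul, mul_one]
      have h2 := i9 (D ∩ Z)
      have h3 := i9 ((D ∩ Z).image (· + (h : ZMod p)))
      have h4 : ((D ∩ Z ∩ Z0).card : ℝ) ≤ Z.card := by
        exact_mod_cast card_le_card (inter_subset_left.trans inter_subset_right)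
      have h5 : (((D ∩ Z).image (· + (h : ZMod p)) ∩ Z0).card : ℝ) ≤ Z.card := by
        exact_mod_cast (card_le_card inter_subset_left).trans
          (card_image_le.trans (card_le_card inter_subset_right))
      have := hs r hr'
      linarith
    · intro z
      dsimp only
      split_ifs
      · have := card_union_le (lf z) (lf (z + h))
        have := i10 z
        have := i10 (z + h)
        rw [pow_succ]; omega
      · simp
    · intro _
      have h1 : ∀ z ∈ (univ : Finset (ZMod p)), ((if z ∈ Z then lf z ∪ lf (z + h) else ∅).card : ℝ) ≤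
          if z ∈ Z then ((lf z).card + (lf (z + h)).card : ℝ) else 0 := by
        intro z _
        split_ifs
        · exact_mod_cast card_union_le _ _
        · simp
      refine (sum_le_sum h1).trans ?_
      rw [← sum_filter, filter_mem_eq_inter, univ_inter]
      rcases Nat.eq_zero_or_pos r with rfl | hr0
      · have h2 : ∀ z ∈ Z, ((lf z).card + (lf (z + h)).card : ℝ) ≤ 2 := fun z _ => by
          have h3 : ((lf z).card : ℝ) ≤ 1 := by exact_mod_cast i10 z
          have h4 : ((lf (z + h)).card : ℝ) ≤ 1 := by exact_mod_cast i10 (z + h)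
          linarith
        refine (sum_le_sum h2).trans ?_
        rw [sum_const, nsmul_eq_mul, zero_add, pow_one]
        linarith
      · have h2 := i11 hr0.ne'
        rw [sum_add_distrib, hshift (fun z => ((lf z).card : ℝ))]
        have h3 : ∀ D : Finset (ZMod p), ∑ z ∈ D, ((lf z).card : ℝ) ≤ ∑ z, ((lf z).card : ℝ) :=
          fun D => sum_le_sum_of_subset_of_nonneg (subset_univ _) fun _ _ _ => by positivity
        have := h3 Z
        have := h3 (Z.image (· + (h : ZMod p)))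
        rw [pow_succ]
        linarith
    · intro x hx c hc z hy
      have hxc := hC'H x hx c hc
      have hz0 : z ∈ Z0 := by simpa using hY _ hy _ (hH (hH1 hxc))
      by_cases hz : z ∈ Z
      · simp only [hz, if_true]
        rcases mem_union.1 hc with hc | hc
        · rcases i12 x hx c hc z hy with ⟨u, hu, w, hw, e⟩ | ⟨z', hz', e⟩
          · exact Or.inl ⟨u, mem_union_left _ hu, w, mem_union_left _ hw, e⟩
          · exact Or.inr ⟨z', mem_union_left _ hz', e⟩
        · obtain ⟨c, hc', rfl⟩ := mem_image.1 hc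
          have e0 : x + ((c + h : ℕ) : ZMod p) + z = x + c + (z + h) := by push_cast; ring
          rw [e0] at hy ⊢
          rcases i12 x hx c hc' _ hy with ⟨u, hu, w, hw, e⟩ | ⟨z', hz', e⟩
          · exact Or.inl ⟨u, mem_union_right _ hu, w, mem_union_left _ hw, e⟩
          · exact Or.inr ⟨z', mem_union_right _ hz', e⟩
      · simp only [hz, if_false]
        obtain ⟨w, hw, hw'⟩ := hS4 z hz0 (o5 z hz0 hz ⟨_, hxc, by rwa [add_comm]⟩)
        exact Or.inl ⟨_, hw', c + w, mem_union_right _ (add_mem_add (mem_image_of_mem _ hc) hw),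
          by ring⟩

end Pool.Agent.MP_93a3f8_co

end

section

/-! The schedule of a complete run. -/

open Finset Pointwise

namespace Pool.Agent.MP_93a3f8_co

variable {p : ℕ} [Fact p.Prime]

lemma ru_sq_le (m : ℕ) (hm : 12 ≤ m) : 25 * m ^ 2 ≤ 2 ^ m := by
  induction m, hm using Nat.le_induction with
  | base => norm_num
  | succ m hm ih => rw [pow_succ 2 m]; nlinarith

lemma ru_core {A B Y H0 Z0 : Finset (ZMod p)} {ζ Q u Θ β1 β2 Bf G : ℝ} {j0 m l : ℕ}
    (hm : j0 < m) (hY : ∀ y ∈ Y, ∀ x ∈ H0, y - x ∈ Z0) (hZ0 : (Z0.card : ℝ) ≤ ζ) (hQ : 0 < Q)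
    (hu : 0 ≤ u) (hcell : Cell H0 Q (Real.exp (-u))) (hH0 : Real.exp (-Θ) * Q ≤ H0.card) (hΘ : 1 ≤ Θ)
    (hβ1 : 0 ≤ β1) (hβ2 : 0 ≤ β2) (o1 : Orc A B Y H0 Z0 (Real.exp (-Θ)) β1 (ζ / 2 ^ j0))
    (o2 : ∀ k : ℕ, 1 ≤ k → Orc A B Y H0 Z0 (Real.exp (-(Θ * k))) (β2 * k) (ζ / 2 ^ (25 * k)))
    (hBf : 1 + β1 + β2 * (j0 + 1) / 2 ^ j0 ≤ Bf)
    (hG : (10 * m * Real.exp u) ^ m * Real.exp (6 * Θ * 2 ^ m) ≤ G) (hGp : 2 * G ≤ p)
    (hl : 4 * m * G ≤ l) :
    ∃ (Hf Wt : Finset (ZMod p)) (C X : Finset ℕ) (a lf : ZMod p → Finset (ZMod p)),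
      Real.exp (-(6 * Θ * 2 ^ m)) * Q ≤ Hf.card ∧ C.card ≤ 2 ^ m ∧
      (X.card : ℝ) * 2 ^ m ≤ 3 * l ∧ (∀ j < l, ∃ t ∈ X, ∃ c ∈ C, j = t + c) ∧
      (∀ x ∈ Hf, ∀ w ∈ Wt, x + w ∈ B) ∧ (Wt.card : ℝ) ≤ 2 ^ m * (4 * Bf) ∧ (∀ z, a z ⊆ A) ∧
      ∑ z, ((a z).card : ℝ) ≤ 4 * ζ ∧ ∑ z, ((lf z).card : ℝ) ≤ 2 ^ m * (ζ / 2 ^ (25 * m)) ∧
      ∀ x ∈ Hf, ∀ c ∈ C, ∀ z, x + c + z ∈ Y →
        (∃ u ∈ a z, ∃ w ∈ Wt, x + c + z = u + (x + w)) ∨ ∃ z' ∈ lf z, x + c + z = x + z' := by
  have hζ : 0 ≤ ζ := le_trans (by positivity) hZ0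
  have hm1 : 1 ≤ m := by omega
  have hm1' : (1 : ℝ) ≤ m := by exact_mod_cast hm1
  set ϑ : ℝ := 10 * m * Real.exp u with hϑ
  have hϑ1 : 1 ≤ ϑ := by have := Real.one_le_exp hu; nlinarith
  set g : ℕ → ℝ := fun i => ϑ ^ i * Real.exp (3 * Θ * (2 ^ (m + 1) - 2 ^ (m - i + 1))) with hg
  have hg1 : ∀ i, 1 ≤ g i := fun i => by
    have h1 : (2 : ℝ) ^ (m - i + 1) ≤ 2 ^ (m + 1) := pow_le_pow_right₀ (by norm_num) (by omega)
    exact one_le_mul_of_one_le_of_one_le (one_le_pow₀ hϑ1) (Real.one_le_exp (by nlinarith))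
  have hgG : ∀ i ≤ m, g i ≤ G := fun i hi => by
    refine le_trans (mul_le_mul (pow_le_pow_right₀ hϑ1 hi) (Real.exp_le_exp.2 ?_) (by positivity)
      (by positivity)) hG
    have : (0 : ℝ) ≤ 2 ^ (m - i + 1) := by positivity
    rw [pow_succ]; nlinarith
  have hN2 : ∀ i, (⌈g i⌉₊ : ℝ) ≤ 2 * g i := fun i => by
    have := Nat.ceil_lt_add_one (show 0 ≤ g i by linarith [hg1 i])
    linarith [hg1 i]
  have hk : ∀ i < m, ∃ k, m - i = k + 1 ∧ m - (i + 1) = k := fun i hi => ⟨m - (i + 1), by omega, rfl⟩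
  obtain ⟨Hf, Wt, C, X, a, lf, i1, -, i3, i4, i5, i6, i7, i8, i9, -, i11, i12⟩ :=
    core (A := A) (B := B) (Y := Y) (H0 := H0) (Z0 := Z0) (Q := Q) (γ := Real.exp (-u)) (m := m)
      (lam := fun i => Real.exp (-(Θ * (m - i : ℕ))))
      (b := fun i => if m - i ≤ j0 then β1 else β2 * (m - i : ℕ))
      (d := fun i => if m - i ≤ j0 then ζ / 2 ^ j0 else ζ / 2 ^ (25 * (m - i)))
      (α := fun i => 2 * Real.exp (-(Θ * (6 * 2 ^ (m - i) - 2 * (m - i : ℕ) - 4))))
      (s := fun i => ζ * (1 / 4 ^ (m - i) + max 0 (2 * (1 / 2 ^ (m - i) - 1 / 2 ^ j0))))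
      (wt := fun i => 2 ^ m * (2 * β1 * (1 - 1 / 2 ^ m - (1 - 1 / 2 ^ (m - i))) +
        2 * β2 * ((max (m - i) j0 : ℕ) + 2) / 2 ^ max (m - i) j0))
      (N := fun i => ⌈g i⌉₊) hm1 hQ hY hcell
      (fun i hi => by
        have h1 : 1 ≤ m - i := by omega
        have h2 : (1 : ℝ) ≤ (m - i : ℕ) := by exact_mod_cast h1
        split_ifs
        · exact o1.mono (Real.exp_le_exp.2 (by nlinarith)) le_rfl le_rfl
        · exact o2 _ h1)
      (fun i _ => by positivity) (fun i _ => by positivity)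
      (fun i hi => by
        obtain ⟨k, h1, h2⟩ := hk i hi
        rw [h1, h2, mul_pow, mul_pow, ← Real.exp_nat_mul, ← Real.exp_nat_mul, mul_left_comm,
          ← Real.exp_add]
        refine le_of_eq ?_
        rw [show ∀ x : ℝ, 2 ^ 2 * x / 2 = 2 * x from fun x => by ring]
        congr 2
        push_cast; ring)
      (fun i _ => Nat.one_le_iff_ne_zero.2 (Nat.ceil_pos.2 (by linarith [hg1 i])).ne')
      (fun i hi => by
        have := hN2 i
        have := hgG i hi
        have : (⌈g i⌉₊ : ℝ) ≤ p := by linarith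
        exact_mod_cast this)
      (fun i hi => by
        obtain ⟨k, h1, h2⟩ := hk i hi
        have e1 : g (i + 1) = g i * ϑ * Real.exp (3 * Θ * 2 ^ (k + 1)) := by
          simp only [hg, h1, h2]
          rw [show 3 * Θ * ((2 : ℝ) ^ (m + 1) - 2 ^ (k + 1)) =
            3 * Θ * (2 ^ (m + 1) - 2 ^ (k + 1 + 1)) + 3 * Θ * 2 ^ (k + 1) by ring, Real.exp_add]
          ring
        have e2 : Real.exp (-(3 * Θ * 2 ^ (k + 1))) ≤ Real.exp (-(Θ * ((k + 1 : ℕ) : ℝ))) *
            Real.exp (-(Θ * (6 * 2 ^ k - 2 * k - 4))) := by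
          rw [← Real.exp_add]
          refine Real.exp_le_exp.2 ?_
          have : (0 : ℝ) ≤ k := by positivity
          push_cast; rw [pow_succ]; nlinarith
        have e3 : Real.exp (-(3 * Θ * 2 ^ (k + 1))) * Real.exp (-u) * g (i + 1) = 10 * m * g i := by
          rw [e1, hϑ, Real.exp_neg, Real.exp_neg]
          field_simp
        have e4 := mul_le_mul (mul_le_mul_of_nonneg_right e2 (Real.exp_pos (-u)).le)
          (Nat.le_ceil (g (i + 1))) (by linarith [hg1 (i + 1)]) (by positivity)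
        rw [h1, h2]
        have e5 := mul_le_mul_of_nonneg_left (hN2 i) (show (0 : ℝ) ≤ 4 * m by positivity)
        have e6 : 1 ≤ m * g i := one_le_mul_of_one_le_of_one_le hm1' (hg1 i)
        linarith)
      (by positivity)
      (fun i hi => by
        obtain ⟨k, h1, h2⟩ := hk i hi
        rw [h1, h2]
        have e0 : (1 : ℝ) / 4 ^ k = 4 * (1 / 4 ^ (k + 1)) := by rw [pow_succ]; field_simp
        have e1 : (1 : ℝ) / 2 ^ k = 2 * (1 / 2 ^ (k + 1)) := by rw [pow_succ]; field_simp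
        have e2 : (0 : ℝ) ≤ 1 / 4 ^ (k + 1) := by positivity
        rw [e0, e1]
        split_ifs with h
        · have e3 : (1 : ℝ) / 2 ^ j0 ≤ 1 / 2 ^ (k + 1) :=
            one_div_le_one_div_of_le (by positivity) (pow_le_pow_right₀ (by norm_num) h)
          have e4 : (0 : ℝ) ≤ 1 / 2 ^ j0 := by positivity
          rw [max_eq_right (by linarith), max_eq_right (by linarith), div_eq_mul_one_div ζ]
          nlinarith
        · have e3 : (1 : ℝ) / 2 ^ (k + 1) ≤ 1 / 2 ^ j0 :=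
            one_div_le_one_div_of_le (by positivity) (pow_le_pow_right₀ (by norm_num) (by omega))
          have e4 : (1 : ℝ) / 2 ^ (25 * (k + 1)) ≤ 1 / 4 ^ (k + 1) := by
            refine one_div_le_one_div_of_le (by positivity) ?_
            rw [pow_mul]; exact pow_le_pow_left₀ (by norm_num) (by norm_num) _
          have e5 := le_max_left (0 : ℝ) (2 * (2 * (1 / 2 ^ (k + 1)) - 1 / 2 ^ j0))
          rw [max_eq_left (by linarith), div_eq_mul_one_div ζ]
          nlinarith)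
      (by simp only [Nat.sub_zero, sub_self]; positivity)
      (fun i hi => by
        obtain ⟨k, h1, h2⟩ := hk i hi
        rw [h1, h2]
        have e0 : (2 : ℝ) ^ (i + 1) = 2 ^ m * (2 * (1 / 2 ^ (k + 1))) := by
          rw [show m = i + 1 + k by omega, pow_add 2 (i + 1) k, pow_succ 2 k]; field_simp
        have e1 : (1 : ℝ) / 2 ^ k = 2 * (1 / 2 ^ (k + 1)) := by rw [pow_succ]; field_simp
        have e2 : (0 : ℝ) ≤ 1 / 2 ^ (k + 1) := by positivity
        rw [e0, mul_assoc ((2 : ℝ) ^ m), ← mul_add]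
        refine mul_le_mul_of_nonneg_left ?_ (by positivity)
        split_ifs with h
        · rw [max_eq_right h, max_eq_right (by omega : k ≤ j0), e1]
          linarith
        · rw [max_eq_left (by omega : j0 ≤ k + 1), max_eq_left (by omega : j0 ≤ k),
            div_eq_mul_one_div (2 * β2 * _) ((2 : ℝ) ^ k),
            div_eq_mul_one_div (2 * β2 * _) ((2 : ℝ) ^ (k + 1)), e1]
          push_cast
          nlinarith [mul_nonneg hβ1 e2])
      m le_rfl H0 Subset.rfl
      (by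
        refine le_trans (mul_le_mul_of_nonneg_right ?_ hQ.le) hH0
        simp only [Nat.sub_self]
        rw [show -(Θ * (6 * 2 ^ 0 - 2 * ((0 : ℕ) : ℝ) - 4)) = -Θ + -Θ by push_cast; ring, Real.exp_add]
        have h1 : Real.exp (-Θ) * Real.exp Θ = 1 := by rw [← Real.exp_add]; simp
        have h2 := Real.add_one_le_exp Θ
        have h3 := Real.exp_pos (-Θ)
        have : 2 * Real.exp (-Θ) ≤ 1 := by nlinarith
        nlinarith)
      l (by
        have := mul_le_mul_of_nonneg_left ((hN2 m).trans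
          (mul_le_mul_of_nonneg_left (hgG m le_rfl) (by norm_num))) (show (0 : ℝ) ≤ 2 * m by positivity)
        have : ((2 * m * ⌈g m⌉₊ : ℕ) : ℝ) ≤ l := by push_cast; linarith
        exact_mod_cast this)
  simp only [Nat.sub_zero, Nat.sub_self] at i1 i7 i9 i11
  refine ⟨Hf, Wt, C, X, a, lf, le_trans (mul_le_mul_of_nonneg_right ?_ hQ.le) i1, i3, ?_, i5, i6,
    i7.trans (mul_le_mul_of_nonneg_left ?_ (by positivity)), i8, (i9 univ).trans ?_, ?_, i12⟩
  · have : Real.exp (-(6 * Θ * 2 ^ m)) ≤ Real.exp (-(Θ * (6 * 2 ^ m - 2 * m - 4))) :=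
      Real.exp_le_exp.2 (by nlinarith)
    linarith [Real.exp_pos (-(Θ * (6 * 2 ^ m - 2 * m - 4)))]
  · have h1 : (1 + 1 / (m : ℝ)) ^ m ≤ 3 := by
      have h2 : (1 + 1 / (m : ℝ)) ^ m ≤ Real.exp (1 / m) ^ m :=
        pow_le_pow_left₀ (by positivity) (by linarith [Real.add_one_le_exp (1 / (m : ℝ))]) _
      rw [← Real.exp_nat_mul, mul_one_div_cancel (by positivity)] at h2
      linarith [Real.exp_one_lt_d9]
    have h2 := mul_le_mul_of_nonneg_right i4 (show (0 : ℝ) ≤ 2 ^ m by positivity)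
    rw [div_pow, mul_assoc, div_mul_cancel₀ _ (by positivity)] at h2
    have := mul_le_mul_of_nonneg_left h1 (show (0 : ℝ) ≤ l by positivity)
    linarith
  · rw [max_eq_right (Nat.zero_le j0)]
    have h1 : (0 : ℝ) ≤ 1 / 2 ^ m := by positivity
    have h2 : 2 * β2 * ((j0 : ℝ) + 2) / 2 ^ j0 ≤ 4 * (β2 * (j0 + 1) / 2 ^ j0) := by
      rw [← mul_div_assoc]
      refine div_le_div_of_nonneg_right ?_ (by positivity)
      have : (0 : ℝ) ≤ j0 := by positivity
      nlinarith
    nlinarith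
  · rw [univ_inter]
    have h1 : (0 : ℝ) ≤ 1 / 2 ^ j0 := by positivity
    have h2 : max 0 (2 * ((1 : ℝ) / 2 ^ 0 - 1 / 2 ^ j0)) ≤ 2 := max_le (by norm_num) (by linarith)
    nlinarith
  · simpa [hm.not_ge] using i11 (by omega)

end Pool.Agent.MP_93a3f8_co

end
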