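import Pool.Agent.Mg.F93a3f8p.Gbed3f0

/-! The window lemma. -/

open Finset Pointwise

namespace Pool.Agent.MP_93a3f8_co

namespace WindowAux

variable {p : ℕ} [Fact p.Prime]

/-- The coordinate of `b` along the progression with start `c` and difference `g`. -/
def co (c g b : ZMod p) : ℕ := ((b - c) / g).val

lemma co_lt (c g b : ZMod p) : co c g b < p := ZMod.val_lt _

lemma co_spec (c : ZMod p) {g : ZMod p} (hg : g ≠ 0) (b : ZMod p) :
    c + g * (co c g b : ZMod p) = b := by
  rw [co, ZMod.natCast_zmod_val]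
  field_simp
  ring

lemma co_inj (c : ZMod p) {g : ZMod p} (hg : g ≠ 0) {b b' : ZMod p} (h : co c g b = co c g b') :
    b = b' := by
  rw [← co_spec c hg b, h, co_spec c hg b']

lemma card_le_of_co (c : ZMod p) {g : ZMod p} (hg : g ≠ 0) {S : Finset (ZMod p)} {lo hi : ℕ}
    (h : ∀ b ∈ S, lo ≤ co c g b ∧ co c g b < hi) : S.card ≤ hi - lo := by
  rw [← Nat.card_Ico]
  refine card_le_card_of_injOn (co c g) (fun b hb => ?_) (fun b _ b' _ h => co_inj c hg h)
  simpa using h b hb

lemma rep_le_add {X G : Finset (ZMod p)} (hX : X ⊆ G) (P : Finset (ZMod p)) (y : ZMod p) :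
    rep G P y + X.card ≤ rep X P y + G.card := by
  have h1 : rep G P y = rep P X y + rep P (G \ X) y := by
    rw [rep_comm, ← rep_union disjoint_sdiff, union_sdiff_of_subset hX]
  have h2 := rep_le_right P (G \ X) y
  have h3 := card_sdiff_add_card_eq_card hX
  rw [rep_comm X P]
  omega

/-- Two applications of the Pollard inequality with disjoint supports. -/
lemma two_pollard {X P L R C : Finset (ZMod p)} {t : ℕ} (hL : L ⊆ P) (hR : R ⊆ P)
    (hd : ∀ y, rep X L y = 0 ∨ rep X R y = 0) (hX : t ≤ X.card) (h1 : t ≤ L.card)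
    (h2 : t ≤ R.card) (h3 : X.card + L.card ≤ p) (h4 : X.card + R.card ≤ p) :
    t * (2 * X.card + L.card + R.card + C.card) ≤ trip X P C + t * p + 2 * (t * t) := by
  have p1 := pollard X L t hX h1 (by omega)
  have p2 := pollard X R t hX h2 (by omega)
  have h5 : ∀ y, min t (rep X L y) + min t (rep X R y) ≤ min t (rep X P y) := fun y => by
    have := rep_mono (Subset.refl X) hL y
    have := rep_mono (Subset.refl X) hR y
    rcases hd y with h | h <;> omega
  have h6 : ∑ y, min t (rep X L y) + ∑ y, min t (rep X R y) ≤ ∑ y, min t (rep X P y) := by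
    rw [← sum_add_distrib]
    exact sum_le_sum fun y _ => h5 y
  have h7 : ∑ y, min t (rep X P y) ≤ trip X P C + t * (Cᶜ).card := by
    rw [← sum_add_sum_compl C, trip_eq]
    refine add_le_add (sum_le_sum fun y _ => min_le_right _ _) ?_
    rw [mul_comm, ← smul_eq_mul]
    exact sum_le_card_nsmul _ _ _ fun y _ => min_le_left _ _
  have h8 : (Cᶜ).card + C.card = p := by
    rw [card_compl_add_card, ZMod.card]
  have h9 : t * p = t * (Cᶜ).card + t * C.card := by rw [← mul_add, h8]
  have h10 : t * (2 * X.card + L.card + R.card + C.card) =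
      t * (X.card + L.card) + t * (X.card + R.card) + t * C.card := by ring
  omega

end WindowAux

open WindowAux in
theorem window : WindowStmt := by
  intro p _ P X C a g l s hs hsl hl hg hX hXl hp htrip hC
  classical
  obtain ⟨σ, hσ⟩ : ∃ σ, σ = s * l := ⟨_, rfl⟩
  have hl0 : (0 : ℝ) ≤ l := Nat.cast_nonneg _
  have hσl : 20 * σ ≤ l := by rw [hσ]; nlinarith
  have htrip' : (trip X P C : ℝ) ≤ σ ^ 2 := by rw [hσ, mul_pow]; exact htrip
  have hXl' : (l : ℝ) - σ ≤ X.card := by rw [hσ]; linarith
  rw [mul_assoc]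
  rw [← hσ] at hsl hp hC ⊢
  have hGc : (ap a g l).card = l := card_ap a hg hl
  have hXle : X.card ≤ l := hGc ▸ card_le_card hX
  obtain ⟨Hv, hHv⟩ : ∃ Hv : Finset (ZMod p), ∀ y, y ∈ Hv ↔ 3 * σ ≤ rep (ap a g l) P y :=
    ⟨univ.filter fun y => 3 * σ ≤ rep (ap a g l) P y, by simp⟩
  have hHC : ((Hv ∩ C).card : ℝ) ≤ σ / 2 := by
    have h1 : ((Hv ∩ C).card : ℝ) * (2 * σ) ≤ trip X P C := by
      rw [trip_eq, Nat.cast_sum, ← nsmul_eq_mul]
      refine le_trans (card_nsmul_le_sum (Hv ∩ C) (fun y => (rep X P y : ℝ)) _ fun y hy => ?_)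
        (sum_le_sum_of_subset_of_nonneg inter_subset_right fun _ _ _ => Nat.cast_nonneg _)
      have h2 := (hHv y).1 (mem_inter.1 hy).1
      have h3 : (rep (ap a g l) P y : ℝ) + X.card ≤ rep X P y + l := by
        have := rep_le_add hX P y
        rw [hGc] at this
        exact_mod_cast this
      linarith
    have h2 : ((Hv ∩ C).card : ℝ) * (2 * σ) ≤ σ / 2 * (2 * σ) := by nlinarith
    exact le_of_mul_le_mul_right h2 (by linarith)
  have hHv2 : (Hv.card : ℝ) ≤ P.card + l + 3 / 2 * σ := by
    have h1 : (Hv ∪ C).card + (Hv ∩ C).card = Hv.card + C.card := card_union_add_card_inter _ _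
    have h2 := card_le_p (Hv ∪ C)
    have h3 : (Hv.card : ℝ) + C.card ≤ p + (Hv ∩ C).card := by
      have : Hv.card + C.card ≤ p + (Hv ∩ C).card := by omega
      exact_mod_cast this
    linarith
  obtain ⟨y0, -, hy0⟩ : ∃ y0 ∈ C, y0 ∉ Hv := by
    by_contra hc
    have h1 : Hv ∩ C = C := inter_eq_right.2 fun y hy => by
      by_contra h
      exact hc ⟨y, hy, h⟩
    rw [h1] at hHC
    linarith
  rw [hHv, not_le] at hy0
  obtain ⟨c, hc⟩ : ∃ c, c = y0 - a + g := ⟨_, rfl⟩
  obtain ⟨P0, hP0⟩ : ∃ P0 : Finset (ZMod p), P0 = P.filter fun b => ¬ y0 - b ∈ ap a g l :=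
    ⟨_, rfl⟩
  have hP0P : P0 ⊆ P := hP0 ▸ filter_subset _ _
  have hP0c : rep (ap a g l) P y0 + P0.card = P.card := by
    rw [hP0, rep]; exact card_filter_add_card_filter_not _
  have hP0r : (P.card : ℝ) < P0.card + 3 * σ := by
    have : (rep (ap a g l) P y0 : ℝ) + P0.card = P.card := by exact_mod_cast hP0c
    linarith
  have hu : ∀ b ∈ P0, co c g b + l < p := by
    intro b hb
    rw [hP0, mem_filter] at hb
    by_contra h
    refine hb.2 (mem_ap.2 ⟨p - 1 - co c g b, by have := co_lt c g b; omega, ?_⟩)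
    have h1 := co_spec c hg b
    have h2 : ((p - 1 - co c g b : ℕ) : ZMod p) = -1 - (co c g b : ZMod p) := by
      have h3 : p - 1 - co c g b + co c g b + 1 = p := by have := co_lt c g b; omega
      have h4 := congrArg (Nat.cast : ℕ → ZMod p) h3
      rw [Nat.cast_add, Nat.cast_add, ZMod.natCast_self, Nat.cast_one] at h4
      linear_combination h4
    rw [h2]
    linear_combination hc - h1
  have hP0l : P0.card + l ≤ p := by
    have := card_le_of_co c hg (S := P0) (lo := 0) (hi := p - l) fun b hb =>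
      ⟨Nat.zero_le _, by have := hu b hb; omega⟩
    omega
  obtain ⟨t, ht1, ht2⟩ : ∃ t : ℕ, σ ≤ t ∧ (t : ℝ) < σ + 1 :=
    ⟨⌈σ⌉₊, Nat.le_ceil _, Nat.ceil_lt_add_one (by linarith)⟩
  obtain ⟨k, hk1, hk2⟩ : ∃ k : ℕ, 3 * σ ≤ k ∧ (k : ℝ) < 3 * σ + 1 :=
    ⟨⌈3 * σ⌉₊, Nat.le_ceil _, Nat.ceil_lt_add_one (by linarith)⟩
  have ht0 : 0 < t := by
    have : (0 : ℝ) < t := by linarith
    exact_mod_cast this
  by_cases hsmall : P0.card < t + k
  · refine ⟨0, ?_⟩
    have h1 : ((P \ ap 0 g P.card).card : ℝ) ≤ P.card := by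
      exact_mod_cast card_le_card sdiff_subset
    have h2 : (P0.card : ℝ) < t + k := by exact_mod_cast hsmall
    linarith
  rw [not_lt] at hsmall
  obtain ⟨lo, hlo1, hlo2⟩ : ∃ lo, t + k ≤ (P0.filter fun b => co c g b ≤ lo).card ∧
      (P0.filter fun b => co c g b < lo).card < t + k := by
    have hex : ∃ n, t + k ≤ (P0.filter fun b => co c g b ≤ n).card :=
      ⟨p, by rwa [filter_true_of_mem fun b _ => (co_lt c g b).le]⟩
    refine ⟨Nat.find hex, Nat.find_spec hex, ?_⟩
    rcases Nat.eq_zero_or_pos (Nat.find hex) with h | h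
    · rw [h]; simp only [Nat.not_lt_zero, filter_false, card_empty]; omega
    · have h1 := Nat.find_min hex (Nat.sub_lt h one_pos)
      rw [not_le] at h1
      refine lt_of_le_of_lt (card_le_card fun b hb => ?_) h1
      rw [mem_filter] at hb ⊢
      exact ⟨hb.1, by omega⟩
  obtain ⟨hi, hhi1, hhi2⟩ : ∃ hi, t + k ≤ (P0.filter fun b => hi ≤ co c g b).card ∧
      (P0.filter fun b => hi < co c g b).card < t + k := by
    have hex : ∃ n, (P0.filter fun b => n < co c g b).card < t + k :=
      ⟨p, by rw [filter_false_of_mem fun b _ => not_lt.2 (co_lt c g b).le, card_empty]; omega⟩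
    refine ⟨Nat.find hex, ?_, Nat.find_spec hex⟩
    rcases Nat.eq_zero_or_pos (Nat.find hex) with h | h
    · rwa [h, filter_true_of_mem fun b _ => Nat.zero_le _]
    · have h1 := Nat.find_min hex (Nat.sub_lt h one_pos)
      rw [not_lt] at h1
      refine h1.trans (card_le_card fun b hb => ?_)
      rw [mem_filter] at hb ⊢
      exact ⟨hb.1, by omega⟩
  have hhi : hi + l < p := by
    obtain ⟨b, hb⟩ := card_pos.1 (lt_of_lt_of_le (by omega : 0 < t + k) hhi1)
    rw [mem_filter] at hb
    have := hu b hb.1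
    omega
  have hheavy : ∀ n, lo ≤ n → n < hi + l → a + c + g * (n : ZMod p) ∈ Hv := by
    intro n hn1 hn2
    by_contra hlight
    rw [hHv, not_le] at hlight
    obtain ⟨L, hL⟩ : ∃ L, L = P0.filter fun b => co c g b + l ≤ n := ⟨_, rfl⟩
    obtain ⟨R, hR⟩ : ∃ R, R = P0.filter fun b => n < co c g b := ⟨_, rfl⟩
    obtain ⟨M, hM⟩ : ∃ M, M = P0.filter fun b => co c g b ≤ n ∧ n < co c g b + l := ⟨_, rfl⟩
    have hM1 : M.card ≤ rep (ap a g l) P (a + c + g * (n : ZMod p)) := by
      refine card_le_card fun b hb => ?_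
      rw [hM, mem_filter] at hb
      refine mem_filter.2 ⟨hP0P hb.1, mem_ap.2 ⟨n - co c g b, by omega, ?_⟩⟩
      rw [Nat.cast_sub hb.2.1]
      linear_combination - co_spec c hg b
    have hM2 : (M.card : ℝ) < 3 * σ := lt_of_le_of_lt (by exact_mod_cast hM1) hlight
    have hM3 : M.card < k := by
      have : (M.card : ℝ) < k := by linarith
      exact_mod_cast this
    have hLt : t ≤ L.card := by
      have h1 : (P0.filter fun b => co c g b ≤ lo) ⊆ L ∪ M := fun b hb => by
        simp only [hL, hM, mem_union, mem_filter] at hb ⊢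
        have := hb.2
        by_cases h : co c g b + l ≤ n
        · exact Or.inl ⟨hb.1, h⟩
        · exact Or.inr ⟨hb.1, by omega, by omega⟩
      have := (card_le_card h1).trans (card_union_le _ _)
      omega
    have hRt : t ≤ R.card := by
      have h1 : (P0.filter fun b => hi ≤ co c g b) ⊆ R ∪ M := fun b hb => by
        simp only [hR, hM, mem_union, mem_filter] at hb ⊢
        have := hb.2
        by_cases h : n < co c g b
        · exact Or.inl ⟨hb.1, h⟩
        · exact Or.inr ⟨hb.1, by omega, by omega⟩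
      have := (card_le_card h1).trans (card_union_le _ _)
      omega
    have hLRM : P0.card ≤ L.card + R.card + M.card := by
      have h1 : P0 ⊆ L ∪ R ∪ M := fun b hb => by
        simp only [hL, hR, hM, mem_union, mem_filter]
        by_cases h : co c g b + l ≤ n
        · exact Or.inl (Or.inl ⟨hb, h⟩)
        by_cases h' : n < co c g b
        · exact Or.inl (Or.inr ⟨hb, h'⟩)
        · exact Or.inr ⟨hb, by omega, by omega⟩
      exact (card_le_card h1).trans ((card_union_le _ _).trans
        (Nat.add_le_add_right (card_union_le _ _) _))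
    have hLP : L ⊆ P0 := hL ▸ filter_subset _ _
    have hRP : R ⊆ P0 := hR ▸ filter_subset _ _
    have hd : ∀ y, rep X L y = 0 ∨ rep X R y = 0 := by
      intro y
      by_contra hcon
      rw [not_or] at hcon
      obtain ⟨b, hb⟩ := card_pos.1 (Nat.pos_of_ne_zero hcon.1)
      obtain ⟨b', hb'⟩ := card_pos.1 (Nat.pos_of_ne_zero hcon.2)
      rw [mem_filter] at hb hb'
      obtain ⟨i, hi1, hi2⟩ := mem_ap.1 (hX hb.2)
      obtain ⟨j, hj1, hj2⟩ := mem_ap.1 (hX hb'.2)
      have e1 := hu b (hLP hb.1)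
      have e2 := hu b' (hRP hb'.1)
      have e3 : co c g b + i = co c g b' + j := by
        refine natCast_inj_of_lt (p := p) (by omega) (by omega) (mul_left_cancel₀ hg ?_)
        push_cast
        linear_combination co_spec c hg b - co_spec c hg b' + hi2 - hj2
      have e4 := hb.1
      have e5 := hb'.1
      rw [hL, mem_filter] at e4
      rw [hR, mem_filter] at e5
      omega
    have htX : t ≤ X.card := by
      have : (t : ℝ) ≤ X.card := by linarith
      exact_mod_cast this
    have key := two_pollard (C := C) (hLP.trans hP0P) (hRP.trans hP0P) hd htX hLt hRt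
      (by have := card_le_card hLP; omega) (by have := card_le_card hRP; omega)
    have key' : (t : ℝ) * (2 * X.card + L.card + R.card + C.card) ≤
        trip X P C + t * p + 2 * (t * t) := by exact_mod_cast key
    have hLRM' : (P0.card : ℝ) ≤ L.card + R.card + M.card := by exact_mod_cast hLRM
    have ht0' : (0 : ℝ) < t := by linarith
    have h1 : (t : ℝ) * (2 * X.card + L.card + R.card + C.card) ≤ t * (σ + p + 2 * t) := by
      have : σ ^ 2 ≤ t * σ := by nlinarith
      linarith
    have h2 := le_of_mul_le_mul_left h1 ht0'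
    linarith
  have hcount : hi + l - lo ≤ Hv.card := by
    rw [← Nat.card_Ico]
    refine card_le_card_of_injOn (fun n : ℕ => a + c + g * (n : ZMod p)) (fun n hn => ?_)
      (fun n hn n' hn' h => ?_)
    · simp only [coe_Ico, Set.mem_Ico] at hn
      exact hheavy n hn.1 hn.2
    · simp only [coe_Ico, Set.mem_Ico] at hn hn'
      exact natCast_inj_of_lt (p := p) (by omega) (by omega)
        (mul_left_cancel₀ hg (add_left_cancel h))
  refine ⟨c + g * (lo : ZMod p), ?_⟩
  obtain ⟨Z, hZ⟩ : ∃ Z, Z = P0.filter fun b => lo + P.card ≤ co c g b ∧ co c g b < hi + 1 :=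
    ⟨_, rfl⟩
  have hZc : Z.card ≤ hi + 1 - (lo + P.card) :=
    card_le_of_co c hg fun b hb => by rw [hZ, mem_filter] at hb; exact hb.2
  have hZr : (Z.card : ℝ) ≤ 3 / 2 * σ + 1 := by
    rcases Nat.eq_zero_or_pos Z.card with h | h
    · rw [h, Nat.cast_zero]; linarith
    · have h1 : Z.card + P.card + l ≤ Hv.card + 1 := by omega
      have h2 : (Z.card : ℝ) + P.card + l ≤ Hv.card + 1 := by exact_mod_cast h1
      linarith
  have hsub : P \ ap (c + g * (lo : ZMod p)) g P.card ⊆ (P \ P0) ∪
      (P0.filter fun b => co c g b < lo) ∪ (P0.filter fun b => hi < co c g b) ∪ Z := by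
    intro b hb
    rw [mem_sdiff] at hb
    simp only [hZ, mem_union, mem_filter, mem_sdiff]
    by_cases h0 : b ∈ P0
    swap
    · exact Or.inl (Or.inl (Or.inl ⟨hb.1, h0⟩))
    by_cases h1 : co c g b < lo
    · exact Or.inl (Or.inl (Or.inr ⟨h0, h1⟩))
    by_cases h2 : hi < co c g b
    · exact Or.inl (Or.inr ⟨h0, h2⟩)
    refine Or.inr ⟨h0, ?_, by omega⟩
    by_contra h3
    refine hb.2 (mem_ap.2 ⟨co c g b - lo, by omega, ?_⟩)
    rw [Nat.cast_sub (not_lt.1 h1)]
    linear_combination co_spec c hg b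
  have h1 := (card_le_card hsub).trans ((card_union_le _ _).trans (Nat.add_le_add_right
    ((card_union_le _ _).trans (Nat.add_le_add_right (card_union_le _ _) _)) _))
  have h2 := card_sdiff_add_card_eq_card hP0P
  have h3 : (P \ ap (c + g * (lo : ZMod p)) g P.card).card + P0.card + 2 ≤
      P.card + 2 * (t + k) + Z.card := by omega
  have h4 : ((P \ ap (c + g * (lo : ZMod p)) g P.card).card : ℝ) + P0.card + 2 ≤
      P.card + 2 * (t + k) + Z.card := by exact_mod_cast h3
  linarith

end Pool.Agent.MP_93a3f8_co
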