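import Pool.Agent.Mg.F93a3f8p.Gbed3f0

section

/-! Almost periods: the counting bound and the two Fourier statements. -/

open Finset Pointwise

namespace Pool.Agent.MP_93a3f8_co

section
variable {p : ℕ} [Fact p.Prime]

lemma nu_add (a b : ZMod p) : nu (a + b) ≤ nu a + nu b :=
  (ZMod.natAbs_valMinAbs_add_le a b).trans (Int.natAbs_add_le _ _)

lemma nu_neg (a : ZMod p) : nu (-a) = nu a := ZMod.natAbs_valMinAbs_neg a

lemma nu_le_half (a : ZMod p) : 2 * nu a ≤ p := by
  have := ZMod.natAbs_valMinAbs_le a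
  unfold nu; omega

namespace FourierAux

/-- The standard additive character. -/
noncomputable def ch (k : ZMod p) : ℂ := ZMod.stdAddChar k

/-- Its real part. -/
noncomputable def cs (k : ZMod p) : ℝ := (ch k).re

/-- The Fourier transform of a set. -/
noncomputable def ft (B : Finset (ZMod p)) (ξ : ZMod p) : ℂ := ∑ b ∈ B, ch (ξ * b)

/-- The energy at a frequency. -/
noncomputable def en (B : Finset (ZMod p)) (ξ : ZMod p) : ℝ := Complex.normSq (ft B ξ)

lemma p_pos : (0 : ℝ) < p := by exact_mod_cast (Fact.out : p.Prime).pos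

lemma two_le_p : (2 : ℝ) ≤ p := by exact_mod_cast (Fact.out : p.Prime).two_le

lemma cs_eq (k : ZMod p) : cs k = Real.cos (2 * Real.pi * k.valMinAbs / p) := by
  have h : ch k = Complex.exp (((2 * Real.pi * k.valMinAbs / p : ℝ) : ℂ) * Complex.I) := by
    conv_lhs => rw [ch, ← ZMod.coe_valMinAbs k, ZMod.stdAddChar_coe]
    congr 1; push_cast; ring
  rw [cs, h, Complex.exp_ofReal_mul_I_re]

lemma nu_sq (k : ZMod p) : (nu k : ℝ) ^ 2 = (k.valMinAbs : ℝ) ^ 2 := by
  rw [nu, Nat.cast_natAbs, Int.cast_abs, sq_abs]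

lemma lower (k : ZMod p) : 8 * (nu k : ℝ) ^ 2 ≤ (1 - cs k) * (p : ℝ) ^ 2 := by
  have hp := p_pos (p := p)
  have hpi := Real.pi_pos
  have h1 : 2 * |(k.valMinAbs : ℝ)| ≤ p := by
    have : (2 * nu k : ℝ) ≤ p := by exact_mod_cast nu_le_half k
    rwa [nu, Nat.cast_natAbs, Int.cast_abs] at this
  have h2 : |2 * Real.pi * k.valMinAbs / p| ≤ Real.pi := by
    rw [abs_div, abs_mul, abs_of_pos hp, abs_of_pos (by positivity : 0 < 2 * Real.pi),
      div_le_iff₀ hp]
    nlinarith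
  have h3 := Real.cos_le_one_sub_mul_cos_sq h2
  rw [← cs_eq] at h3
  have h4 : 2 / Real.pi ^ 2 * (2 * Real.pi * k.valMinAbs / p) ^ 2 * (p : ℝ) ^ 2 =
      8 * (k.valMinAbs : ℝ) ^ 2 := by field_simp; ring
  rw [nu_sq, ← h4]
  exact mul_le_mul_of_nonneg_right (by linarith) (by positivity)

lemma upper (k : ZMod p) : (1 - cs k) * (p : ℝ) ^ 2 ≤ 20 * (nu k : ℝ) ^ 2 := by
  have hp := p_pos (p := p)
  have hpi := Real.pi_pos
  have hpi' := Real.pi_lt_d2
  have h3 := Real.one_sub_sq_div_two_le_cos (x := 2 * Real.pi * k.valMinAbs / p)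
  rw [← cs_eq] at h3
  have h4 : (2 * Real.pi * k.valMinAbs / p) ^ 2 / 2 * (p : ℝ) ^ 2 =
      2 * Real.pi ^ 2 * (k.valMinAbs : ℝ) ^ 2 := by field_simp
  have h5 : (1 - cs k) * (p : ℝ) ^ 2 ≤ 2 * Real.pi ^ 2 * (k.valMinAbs : ℝ) ^ 2 := by
    rw [← h4]; exact mul_le_mul_of_nonneg_right (by linarith) (by positivity)
  rw [nu_sq]
  refine h5.trans (mul_le_mul_of_nonneg_right (by nlinarith) (by positivity))

lemma cs_le_one (k : ZMod p) : cs k ≤ 1 := by rw [cs_eq]; exact Real.cos_le_one _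

lemma neg_one_le_cs (k : ZMod p) : -1 ≤ cs k := by rw [cs_eq]; exact Real.neg_one_le_cos _

lemma cs_zero : cs (0 : ZMod p) = 1 := by simp [cs, ch]

lemma en_nonneg (B : Finset (ZMod p)) (ξ : ZMod p) : 0 ≤ en B ξ := Complex.normSq_nonneg _

lemma en_zero (B : Finset (ZMod p)) : en B 0 = (B.card : ℝ) ^ 2 := by
  simp [en, ft, ch, sq]

lemma sum_ch (a : ZMod p) : ∑ ξ : ZMod p, ch (ξ * a) = if a = 0 then (p : ℂ) else 0 := by
  have := AddChar.sum_mulShift a (ZMod.isPrimitive_stdAddChar p)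
  simp only [ZMod.card] at this
  simp only [ch, this]
  split_ifs <;> simp

lemma en_mul (B : Finset (ZMod p)) (ξ u : ZMod p) :
    (en B ξ : ℂ) * ch (ξ * u) = ∑ b ∈ B, ∑ a ∈ B, ch (ξ * (a - b + u)) := by
  rw [en, ← Complex.mul_conj, ft, map_sum, sum_mul_sum, sum_comm, sum_mul]
  refine sum_congr rfl fun b _ => ?_
  rw [sum_mul]
  refine sum_congr rfl fun a _ => ?_
  simp only [ch]
  rw [← AddChar.map_neg_eq_conj, ← AddChar.map_add_eq_mul, ← AddChar.map_add_eq_mul]
  congr 1; ring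

lemma sum_en_cs (B : Finset (ZMod p)) (u : ZMod p) :
    ∑ ξ, en B ξ * cs (ξ * u) = p * ((B.filter fun b => b - u ∈ B).card : ℝ) := by
  have h : ∑ ξ, (en B ξ : ℂ) * ch (ξ * u) = p * ((B.filter fun b => b - u ∈ B).card : ℂ) := by
    simp only [en_mul]
    rw [sum_comm, card_filter]
    push_cast
    rw [mul_sum]
    refine sum_congr rfl fun b _ => ?_
    rw [sum_comm]
    simp only [sum_ch]
    have : ∀ a : ZMod p, a - b + u = 0 ↔ a = b - u := fun a =>
      ⟨fun h => by linear_combination h, fun h => by rw [h]; ring⟩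
    simp only [this]
    rw [sum_ite_eq']
    split_ifs <;> simp
  have h2 := congrArg Complex.re h
  rw [Complex.re_sum] at h2
  simpa [cs] using h2

lemma sum_en (B : Finset (ZMod p)) : ∑ ξ, en B ξ = p * (B.card : ℝ) := by
  have := sum_en_cs B 0
  simp only [mul_zero, cs_zero, mul_one, sub_zero] at this
  rwa [filter_true_of_mem fun _ h => h] at this

lemma fS_formula (B : Finset (ZMod p)) (u : ZMod p) :
    ∑ ξ, en B ξ * (1 - cs (ξ * u)) = p * (fS B u : ℝ) := by
  have h : (fS B u : ℝ) + ((B.filter fun b => b - u ∈ B).card : ℝ) = B.card := by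
    exact_mod_cast fS_add_inter B u
  simp only [mul_sub, mul_one]
  rw [sum_sub_distrib, sum_en, sum_en_cs, ← h]; ring

/-- The defect of a frequency on a set. -/
noncomputable def df (T : Finset (ZMod p)) (ξ : ZMod p) : ℝ := ∑ u ∈ T, (1 - cs (ξ * u))

lemma df_nonneg (T : Finset (ZMod p)) (ξ : ZMod p) : 0 ≤ df T ξ :=
  sum_nonneg fun u _ => sub_nonneg.2 (cs_le_one _)

lemma sum_en_df {B T : Finset (ZMod p)} {ρ : ℝ} (h : ∀ u ∈ T, (fS B u : ℝ) ≤ ρ) :
    ∑ ξ, en B ξ * df T ξ ≤ p * (T.card * ρ) := by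
  simp only [df, mul_sum]
  rw [sum_comm]
  simp only [fS_formula]
  rw [← mul_sum]
  refine mul_le_mul_of_nonneg_left ?_ (p_pos (p := p)).le
  simpa using sum_le_card_nsmul T _ ρ h

lemma df_eq (T : Finset (ZMod p)) (ξ : ZMod p) : df T ξ = T.card - (ft T ξ).re := by
  simp [df, ft, cs, Complex.re_sum]

end FourierAux

end

open FourierAux

theorem four1 : Four1Stmt := by
  intro p _ B T ρ hB hn hT
  have hp := p_pos (p := p)
  have hp2 := two_le_p (p := p)
  obtain ⟨ξ, hξ, hmin⟩ := exists_min_image ((univ : Finset (ZMod p)).erase 0) (df T)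
    ⟨1, by simp⟩
  refine ⟨ξ, (mem_erase.1 hξ).1, ?_⟩
  have hn1 : (1 : ℝ) ≤ B.card := by exact_mod_cast hB.card_pos
  have hn2 : (2 * B.card : ℝ) ≤ p + 1 := by exact_mod_cast hn
  have h1 : ∑ η ∈ (univ : Finset (ZMod p)).erase 0, en B η = p * B.card - (B.card : ℝ) ^ 2 := by
    have := sum_erase_add univ (en B) (mem_univ 0)
    rw [sum_en, en_zero] at this
    linarith
  have h2 : (p * B.card - (B.card : ℝ) ^ 2) * df T ξ ≤ p * (T.card * ρ) := by
    rw [← h1, sum_mul]
    refine le_trans ?_ (sum_en_df hT)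
    refine (sum_le_sum fun η hη => mul_le_mul_of_nonneg_left (hmin η hη) (en_nonneg B η)).trans ?_
    exact sum_le_sum_of_subset_of_nonneg (erase_subset _ _)
      fun η _ _ => mul_nonneg (en_nonneg B η) (df_nonneg T η)
  have h3 : 8 * ∑ u ∈ T, (nu (ξ * u) : ℝ) ^ 2 ≤ df T ξ * (p : ℝ) ^ 2 := by
    rw [df, mul_sum, sum_mul]
    exact sum_le_sum fun u _ => lower _
  have h4 : 0 ≤ df T ξ := df_nonneg T ξ
  have h5 : p * B.card / 4 * df T ξ ≤ p * (T.card * ρ) := by
    refine le_trans (mul_le_mul_of_nonneg_right ?_ h4) h2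
    nlinarith
  have h6 : B.card * df T ξ ≤ 4 * (T.card * ρ) := by
    have : p * (B.card * df T ξ) ≤ p * (4 * (T.card * ρ)) := by linarith
    exact le_of_mul_le_mul_left this hp
  have h7 : 0 ≤ ∑ u ∈ T, (nu (ξ * u) : ℝ) ^ 2 := sum_nonneg fun _ _ => sq_nonneg _
  have h8 : 8 * (∑ u ∈ T, (nu (ξ * u) : ℝ) ^ 2) * B.card ≤ df T ξ * (p : ℝ) ^ 2 * B.card :=
    mul_le_mul_of_nonneg_right h3 (by linarith)
  have h9 : B.card * df T ξ * (p : ℝ) ^ 2 ≤ 4 * (T.card * ρ) * (p : ℝ) ^ 2 :=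
    mul_le_mul_of_nonneg_right h6 (by positivity)
  have h10 : 0 ≤ (∑ u ∈ T, (nu (ξ * u) : ℝ) ^ 2) * B.card := mul_nonneg h7 (by linarith)
  nlinarith

theorem four2 : Four2Stmt := by
  intro p _ T hT
  classical
  have hp := p_pos (p := p)
  have ht : (0 : ℝ) < T.card := by exact_mod_cast hT.card_pos
  set Γ : Finset (ZMod p) := univ.filter fun ξ => (T.card : ℝ) / 2 ≤ (ft T ξ).re with hΓ
  refine ⟨Γ, ?_, ?_⟩
  · have h1 : (Γ.card : ℝ) * ((T.card : ℝ) / 2) ^ 2 ≤ p * T.card := by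
      rw [← sum_en T]
      refine le_trans ?_ (sum_le_sum_of_subset_of_nonneg (subset_univ Γ) fun η _ _ => en_nonneg T η)
      rw [← nsmul_eq_mul]
      refine card_nsmul_le_sum _ _ _ fun ξ hξ => ?_
      have h := (mem_filter.1 hξ).2
      rw [en, Complex.normSq_apply]
      nlinarith [mul_self_nonneg (ft T ξ).im]
    have h2 : (Γ.card : ℝ) * T.card ≤ 4 * p := by
      have : ((Γ.card : ℝ) * T.card) * T.card ≤ (4 * p) * T.card := by nlinarith
      exact le_of_mul_le_mul_right this ht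
    exact_mod_cast h2
  · intro B ρ r u hρ hr
    have h1 : (∑ ξ ∈ Γᶜ, en B ξ) * (T.card / 2) ≤ p * (T.card * ρ) := by
      refine le_trans ?_ (sum_en_df hρ)
      rw [sum_mul]
      refine le_trans (sum_le_sum fun ξ hξ => mul_le_mul_of_nonneg_left ?_ (en_nonneg B ξ))
        (sum_le_sum_of_subset_of_nonneg (subset_univ _)
          fun η _ _ => mul_nonneg (en_nonneg B η) (df_nonneg T η))
      have h := mem_compl.1 hξ
      simp only [hΓ, mem_filter, mem_univ, true_and, not_le] at h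
      rw [df_eq]; linarith
    have h2 : ∑ ξ ∈ Γᶜ, en B ξ ≤ 2 * p * ρ := by
      have : (∑ ξ ∈ Γᶜ, en B ξ) * T.card ≤ (2 * p * ρ) * T.card := by linarith
      exact le_of_mul_le_mul_right this ht
    have h3 : ∑ ξ ∈ Γᶜ, en B ξ * (1 - cs (ξ * u)) ≤ 2 * ∑ ξ ∈ Γᶜ, en B ξ := by
      rw [mul_sum]
      refine sum_le_sum fun ξ _ => ?_
      have := en_nonneg B ξ
      have := neg_one_le_cs (ξ * u)
      nlinarith
    have h4 : ∑ ξ ∈ Γ, en B ξ * (1 - cs (ξ * u)) ≤ 20 * r ^ 2 * (p * B.card) := by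
      rw [← sum_en, mul_sum]
      refine le_trans (sum_le_sum fun ξ hξ => ?_) (sum_le_sum_of_subset_of_nonneg (subset_univ Γ)
        fun η _ _ => mul_nonneg (by positivity) (en_nonneg B η))
      rw [mul_comm]
      refine mul_le_mul_of_nonneg_right ?_ (en_nonneg B ξ)
      have h5 := upper (ξ * u)
      have h6 : (nu (ξ * u) : ℝ) ^ 2 ≤ (r * p) ^ 2 :=
        pow_le_pow_left₀ (Nat.cast_nonneg _) (hr ξ hξ) 2
      have : (1 - cs (ξ * u)) * (p : ℝ) ^ 2 ≤ 20 * r ^ 2 * (p : ℝ) ^ 2 := by nlinarith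
      exact le_of_mul_le_mul_right this (by positivity)
    have h5 := fS_formula B u
    rw [← sum_add_sum_compl Γ] at h5
    have : p * (fS B u : ℝ) ≤ p * (4 * ρ + 20 * r ^ 2 * B.card) := by linarith
    exact le_of_mul_le_mul_left this hp

namespace FourierAux

variable {p : ℕ} [Fact p.Prime]

/-- Sublevel sets at integer levels. -/
def lev (B : Finset (ZMod p)) (s : ℕ) : Finset (ZMod p) := univ.filter fun u => fS B u ≤ s

lemma mem_lev {B : Finset (ZMod p)} {s : ℕ} {u : ZMod p} : u ∈ lev B s ↔ fS B u ≤ s := by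
  simp [lev]

lemma lev_nonempty (B : Finset (ZMod p)) (s : ℕ) : (lev B s).Nonempty :=
  ⟨0, mem_lev.2 (by simp [fS_zero])⟩

lemma lev_grow (B : Finset (ZMod p)) (e k : ℕ) :
    min p (k * ((lev B e).card - 1) + 1) ≤ (lev B (k * e)).card := by
  induction k with
  | zero => exact (min_le_right _ _).trans (by simpa using (lev_nonempty B 0).card_pos)
  | succ k ih =>
    have h1 := ZMod.cauchy_davenport (Fact.out : p.Prime) (lev_nonempty B (k * e))
      (lev_nonempty B e)
    have h2 : lev B (k * e) + lev B e ⊆ lev B ((k + 1) * e) := by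
      intro x hx
      obtain ⟨a, ha, b, hb, rfl⟩ := mem_add.1 hx
      rw [mem_lev] at *
      have := fS_add B a b
      rw [add_mul, one_mul]; omega
    have h3 := card_le_card h2
    have h4 := (lev_nonempty B e).card_pos
    rw [add_mul, one_mul]
    omega

lemma sum_lev (B : Finset (ZMod p)) :
    ∑ s ∈ range B.card, (lev B s).card = B.card ^ 2 := by
  have h1 : ∑ u, (B.filter fun b => b - u ∈ B).card = B.card ^ 2 := by
    simp only [card_filter]
    rw [sum_comm, sum_congr rfl (g := fun _ => B.card), sum_const, smul_eq_mul, sq]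
    intro a _
    rw [← card_filter]
    exact card_filter_sub B a
  rw [← h1]
  have h3 : ∀ s, (lev B s).card = ∑ u, if fS B u ≤ s then 1 else 0 := fun s => by
    rw [lev, card_filter]
  simp only [h3]
  rw [sum_comm]
  refine sum_congr rfl fun u _ => ?_
  rw [← card_filter]
  have h2 : (range B.card).filter (fun s => fS B u ≤ s) = Ico (fS B u) B.card := by
    ext s; simp [and_comm]
  have := fS_add_inter B u
  rw [h2, Nat.card_Ico]; omega

lemma sum_id (m : ℕ) : ∑ s ∈ range m, (s : ℝ) = m * (m - 1) / 2 := by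
  induction m with
  | zero => simp
  | succ m ih => rw [sum_range_succ, ih]; push_cast; ring

lemma sum_sq (m : ℕ) : ∑ s ∈ range m, (s : ℝ) ^ 2 = m * (m - 1) * (2 * m - 1) / 6 := by
  induction m with
  | zero => simp
  | succ m ih => rw [sum_range_succ, ih]; push_cast; ring

end FourierAux

theorem tau : TauStmt := by
  intro p _ B ρ σ hn hρ hσ1 hσ
  by_contra hcon
  rw [not_le] at hcon
  set n := B.card with hnd
  set e := ⌊ρ⌋₊ with he
  have he1 : 1 ≤ e := Nat.le_floor (by simpa using hρ)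
  have heρ : (e : ℝ) ≤ ρ := Nat.floor_le (by linarith)
  have hball : ball (fS B) ρ = lev B e := by
    ext u; rw [mem_ball, mem_lev, he, Nat.le_floor_iff (by linarith)]
  rw [hball] at hcon
  have hn0 : (0 : ℝ) ≤ n := Nat.cast_nonneg _
  have hσ0 : 0 < σ := by
    by_contra h
    have : σ * n ≤ 0 := mul_nonpos_of_nonpos_of_nonneg (not_lt.1 h) hn0
    linarith
  have hn100 : (100 : ℝ) ≤ n := by nlinarith
  have he1' : (1 : ℝ) ≤ e := by exact_mod_cast he1
  have ht1 : 1 ≤ (lev B e).card := (lev_nonempty B e).card_pos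
  have ht : (2 + σ) * e ≤ (((lev B e).card - 1 : ℕ) : ℝ) := by
    rw [Nat.cast_sub ht1]; push_cast; nlinarith
  have key : ∀ s ∈ range n, σ * ((n - 1) * (s : ℝ) - (s : ℝ) ^ 2) - 3 * e * n + n * (2 * s + 1) ≤
      n * ((lev B s).card : ℝ) := by
    intro s hs
    have hs1 : (s : ℝ) + 1 ≤ n := by exact_mod_cast mem_range.1 hs
    have hs0 : (0 : ℝ) ≤ s := Nat.cast_nonneg _
    have h1 := lev_grow B e (s / e)
    have h2 : (lev B (s / e * e)).card ≤ (lev B s).card :=
      card_le_card fun u hu => mem_lev.2 ((mem_lev.1 hu).trans (Nat.div_mul_le_self s e))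
    have h3 : (s : ℝ) + 1 ≤ ((s / e : ℕ) : ℝ) * e + e := by
      have := Nat.lt_div_mul_add (a := s) (b := e) he1
      exact_mod_cast this
    have hq : (0 : ℝ) ≤ (n - 1 - s) * s := mul_nonneg (by linarith) hs0
    rcases min_le_iff.1 (h1.trans h2) with h4 | h4
    · have h5 : (2 * n : ℝ) ≤ (lev B s).card + 1 := by exact_mod_cast hn.trans (by omega)
      have h6 : σ * ((n - 1 - s) * s) ≤ (n - 1 - s) * s := by nlinarith
      have h7 : ((n : ℝ) - 1 - s) * s ≤ (n - 1 - s) * n :=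
        mul_le_mul_of_nonneg_left (by linarith) (by linarith)
      nlinarith
    · have h5 : ((s / e : ℕ) : ℝ) * (((lev B e).card - 1 : ℕ) : ℝ) + 1 ≤ (lev B s).card := by
        exact_mod_cast h4
      have h6 : ((s / e : ℕ) : ℝ) * ((2 + σ) * e) ≤
          ((s / e : ℕ) : ℝ) * (((lev B e).card - 1 : ℕ) : ℝ) :=
        mul_le_mul_of_nonneg_left ht (Nat.cast_nonneg _)
      have h7 : (2 + σ) * (s + 1 - e) ≤ (2 + σ) * (((s / e : ℕ) : ℝ) * e) :=
        mul_le_mul_of_nonneg_left (by linarith) (by linarith)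
      have h8 : σ * s - 3 * e + (2 * s + 1) ≤ (lev B s).card := by nlinarith
      have h9 : σ * ((n - 1 - s) * s) ≤ σ * (n * s) :=
        mul_le_mul_of_nonneg_left (mul_le_mul_of_nonneg_right (by linarith) hs0) hσ0.le
      have h10 := mul_le_mul_of_nonneg_left h8 hn0
      nlinarith
  have h1 := sum_le_sum key
  have h2 : ∑ s ∈ range n, ((lev B s).card : ℝ) = (n : ℝ) ^ 2 := by exact_mod_cast sum_lev B
  simp only [sum_add_distrib, sum_sub_distrib, ← mul_sum, sum_id, sum_sq, h2, sum_const,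
    card_range, nsmul_eq_mul, mul_one] at h1
  have h3 : σ * (n * ((n - 1) * (n - 2))) ≤ 18 * e * (n : ℝ) ^ 2 := by nlinarith
  have h4 : 100 * e * (n : ℝ) ^ 2 ≤ σ * n * (n : ℝ) ^ 2 :=
    mul_le_mul_of_nonneg_right (by linarith) (by positivity)
  have h5 : σ * n * (100 * ((n - 1) * (n - 2))) ≤ σ * n * (18 * (n : ℝ) ^ 2) := by nlinarith
  have h6 := le_of_mul_le_mul_left h5 (by positivity)
  nlinarith

end Pool.Agent.MP_93a3f8_co

end

section

/-! Covering an interval from two almost full intervals, without logarithmic loss. -/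

open Finset Pointwise

namespace Pool.Agent.MP_93a3f8_co

namespace LapAux

lemma count_bad (ω k : ℕ) (Q : ℕ → Prop) [DecidablePred Q]
    (hQ : 10 * ((range ω).filter Q).card ≤ ω) :
    ∑ f ∈ Fintype.piFinset (fun _ : Fin k => range ω),
      (if k ≤ 2 * (univ.filter fun r => Q (f r)).card then (1 : ℝ) else 0) ≤
        (13 / 20 * ω) ^ k := by
  have h1 : ∀ f : Fin k → ℕ,
      (if k ≤ 2 * (univ.filter fun r => Q (f r)).card then (1 : ℝ) else 0) ≤
        ∏ r, (if Q (f r) then (2 : ℝ) else 1 / 2) := by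
    intro f
    split_ifs with h
    · rw [prod_ite, prod_const, prod_const]
      have h2 := card_filter_add_card_filter_not (s := (univ : Finset (Fin k))) fun r => Q (f r)
      rw [card_univ, Fintype.card_fin] at h2
      rw [one_div, inv_pow, ← div_eq_mul_inv, le_div_iff₀ (by positivity), one_mul]
      exact pow_le_pow_right₀ (by norm_num) (by omega)
    · exact prod_nonneg fun r _ => by split_ifs <;> norm_num
  refine (sum_le_sum fun f _ => h1 f).trans ?_
  rw [← prod_univ_sum (fun _ : Fin k => range ω) fun _ s => if Q s then (2 : ℝ) else 1 / 2,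
    prod_const, card_univ, Fintype.card_fin]
  refine pow_le_pow_left₀ (sum_nonneg fun s _ => by split_ifs <;> norm_num) ?_ k
  rw [sum_ite, sum_const, sum_const, nsmul_eq_mul, nsmul_eq_mul]
  have h2 := card_filter_add_card_filter_not (s := range ω) Q
  rw [card_range] at h2
  have h3 : (((range ω).filter Q).card : ℝ) + ((range ω).filter fun s => ¬ Q s).card = ω := by
    exact_mod_cast h2
  have h4 : 10 * (((range ω).filter Q).card : ℝ) ≤ ω := by exact_mod_cast hQ
  linarith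

/-- Covering the targets `ω + t` by small sets of good naturals. -/
def Cv (N ω : ℕ) (PA PB : Finset ℕ) (Y : ℕ → Prop) (c : ℝ) : Prop :=
  ∃ A' B' : Finset ℕ, (∀ x ∈ A', x < N + ω ∧ x ∉ PA) ∧ (∀ y ∈ B', y < N + ω ∧ y ∉ PB) ∧
    (A'.card : ℝ) ≤ c ∧ (B'.card : ℝ) ≤ c ∧ ∀ t, Y t → ∃ x ∈ A', ∃ y ∈ B', x + y = ω + t

variable {N ω : ℕ} {PA PB : Finset ℕ}

lemma Cv.mono {Y Y' : ℕ → Prop} {c c' : ℝ} (h : Cv N ω PA PB Y c) (hY : ∀ t, Y' t → Y t)
    (hc : c ≤ c') : Cv N ω PA PB Y' c' := by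
  obtain ⟨A', B', h1, h2, h3, h4, h5⟩ := h
  exact ⟨A', B', h1, h2, h3.trans hc, h4.trans hc, fun t ht => h5 t (hY t ht)⟩

lemma Cv.union {Y Y' : ℕ → Prop} {c c' : ℝ} (h : Cv N ω PA PB Y c) (h' : Cv N ω PA PB Y' c') :
    Cv N ω PA PB (fun t => Y t ∨ Y' t) (c + c') := by
  obtain ⟨A1, B1, h1, h2, h3, h4, h5⟩ := h
  obtain ⟨A2, B2, k1, k2, k3, k4, k5⟩ := h'
  refine ⟨A1 ∪ A2, B1 ∪ B2, fun x hx => (mem_union.1 hx).elim (h1 x) (k1 x),
    fun x hx => (mem_union.1 hx).elim (h2 x) (k2 x), ?_, ?_, ?_⟩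
  · have : ((A1 ∪ A2).card : ℝ) ≤ A1.card + A2.card := by exact_mod_cast card_union_le _ _
    linarith
  · have : ((B1 ∪ B2).card : ℝ) ≤ B1.card + B2.card := by exact_mod_cast card_union_le _ _
    linarith
  · rintro t (ht | ht)
    · obtain ⟨x, hx, y, hy, e⟩ := h5 t ht
      exact ⟨x, mem_union_left _ hx, y, mem_union_left _ hy, e⟩
    · obtain ⟨x, hx, y, hy, e⟩ := k5 t ht
      exact ⟨x, mem_union_right _ hx, y, mem_union_right _ hy, e⟩

lemma Cv.empty {Y : ℕ → Prop} {c : ℝ} (hY : ∀ t, ¬ Y t) (hc : 0 ≤ c) : Cv N ω PA PB Y c :=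
  ⟨∅, ∅, by simp, by simp, by simpa using hc, by simpa using hc, fun t ht => absurd ht (hY t)⟩

lemma sample (hω : 1 ≤ ω) (hA : 10 * PA.card ≤ ω) (hB : 10 * PB.card ≤ ω)
    (v : Finset ℕ → ℕ) (I J : Finset (Finset ℕ)) (hI : ∀ i ∈ I, v i < N) (hJ : ∀ j ∈ J, v j < N)
    (k : ℕ) {m : ℝ} (hIm : (I.card : ℝ) ≤ m) (hJm : (J.card : ℝ) ≤ m) :
    ∃ I' ⊆ I, ∃ J' ⊆ J, (I'.card : ℝ) ≤ 2 * (13 / 20) ^ k * I.card ∧
      (J'.card : ℝ) ≤ 2 * (13 / 20) ^ k * J.card ∧
      Cv N ω PA PB (fun t => ∃ i ∈ I, ∃ j ∈ J, i ∉ I' ∧ j ∉ J' ∧ t = v i + v j) (k * m) := by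
  have hm : 0 ≤ m := (Nat.cast_nonneg _).trans hIm
  rcases I.eq_empty_or_nonempty with rfl | hI0
  · exact ⟨∅, Subset.rfl, ∅, empty_subset _, by simp, by simp; positivity,
      Cv.empty (by simp) (by positivity)⟩
  rcases J.eq_empty_or_nonempty with rfl | hJ0
  · exact ⟨∅, empty_subset _, ∅, Subset.rfl, by simp; positivity, by simp,
      Cv.empty (by simp) (by positivity)⟩
  let Ib : (Fin k → ℕ) → Finset (Finset ℕ) := fun f =>
    I.filter fun i => k ≤ 2 * (univ.filter fun r => ω + v i - f r ∈ PB).card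
  let Jb : (Fin k → ℕ) → Finset (Finset ℕ) := fun f =>
    J.filter fun j => k ≤ 2 * (univ.filter fun r => v j + f r ∈ PA).card
  set Ω := Fintype.piFinset (fun _ : Fin k => range ω) with hΩ
  have s1 : ∑ f ∈ Ω, ((Ib f).card : ℝ) ≤ I.card * (13 / 20 * ω) ^ k := by
    simp only [Ib, natCast_card_filter (R := ℝ)]
    rw [sum_comm, ← nsmul_eq_mul]
    refine sum_le_card_nsmul _ _ _ fun i _ => count_bad ω k (fun s => ω + v i - s ∈ PB) ?_
    refine le_trans (Nat.mul_le_mul_left _ ?_) hB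
    refine card_le_card_of_injOn (fun s => ω + v i - s) (fun s hs => (mem_filter.1 hs).2) ?_
    intro s hs s' hs' h
    have h1 := mem_range.1 (mem_filter.1 hs).1
    have h2 := mem_range.1 (mem_filter.1 hs').1
    simp only at h
    omega
  have s2 : ∑ f ∈ Ω, ((Jb f).card : ℝ) ≤ J.card * (13 / 20 * ω) ^ k := by
    simp only [Jb, natCast_card_filter (R := ℝ)]
    rw [sum_comm, ← nsmul_eq_mul]
    refine sum_le_card_nsmul _ _ _ fun j _ => count_bad ω k (fun s => v j + s ∈ PA) ?_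
    refine le_trans (Nat.mul_le_mul_left _ ?_) hA
    refine card_le_card_of_injOn (fun s => v j + s) (fun s hs => (mem_filter.1 hs).2) ?_
    intro s _ s' _ h
    simpa using h
  have hne : Ω.Nonempty := by
    rw [hΩ, Fintype.piFinset_nonempty]
    exact fun _ => ⟨0, mem_range.2 hω⟩
  obtain ⟨f, hf, hle⟩ := exists_le_of_sum_le (s := Ω)
    (f := fun f => ((Ib f).card : ℝ) * J.card + (Jb f).card * I.card)
    (g := fun _ => 2 * (13 / 20 : ℝ) ^ k * I.card * J.card) hne (by
      rw [sum_add_distrib, ← sum_mul, ← sum_mul, sum_const, hΩ, Fintype.card_piFinset,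
        prod_const, card_range, card_univ, Fintype.card_fin, nsmul_eq_mul]
      have t1 := mul_le_mul_of_nonneg_right s1 (Nat.cast_nonneg J.card)
      have t2 := mul_le_mul_of_nonneg_right s2 (Nat.cast_nonneg I.card)
      rw [mul_pow] at t1 t2
      push_cast
      linarith)
  have hf' : ∀ r, f r < ω := fun r => mem_range.1 (Fintype.mem_piFinset.1 hf r)
  have hI1 : (0 : ℝ) < I.card := by exact_mod_cast hI0.card_pos
  have hJ1 : (0 : ℝ) < J.card := by exact_mod_cast hJ0.card_pos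
  refine ⟨Ib f, filter_subset _ _, Jb f, filter_subset _ _, ?_, ?_, ?_⟩
  · refine le_of_mul_le_mul_right ?_ hJ1
    have : (0 : ℝ) ≤ (Jb f).card * I.card := by positivity
    linarith
  · refine le_of_mul_le_mul_right ?_ hI1
    have : (0 : ℝ) ≤ (Ib f).card * J.card := by positivity
    linarith
  · refine ⟨(image₂ (fun j r => v j + f r) J univ).filter (· ∉ PA),
      (image₂ (fun i r => ω + v i - f r) I univ).filter (· ∉ PB), ?_, ?_, ?_, ?_, ?_⟩
    · intro x hx
      obtain ⟨h1, h2⟩ := mem_filter.1 hx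
      obtain ⟨j, hj, r, -, rfl⟩ := mem_image₂.1 h1
      exact ⟨by have := hJ j hj; have := hf' r; omega, h2⟩
    · intro x hx
      obtain ⟨h1, h2⟩ := mem_filter.1 hx
      obtain ⟨i, hi, r, -, rfl⟩ := mem_image₂.1 h1
      exact ⟨by have := hI i hi; omega, h2⟩
    · have h1 := (card_filter_le (image₂ (fun j r => v j + f r) J univ) (· ∉ PA)).trans
        (card_image₂_le _ _ _)
      rw [card_univ, Fintype.card_fin] at h1
      have h2 : (k : ℝ) * J.card ≤ k * m := by gcongr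
      calc _ ≤ ((J.card * k : ℕ) : ℝ) := by exact_mod_cast h1
        _ ≤ _ := by push_cast; linarith
    · have h1 := (card_filter_le (image₂ (fun i r => ω + v i - f r) I univ) (· ∉ PB)).trans
        (card_image₂_le _ _ _)
      rw [card_univ, Fintype.card_fin] at h1
      have h2 : (k : ℝ) * I.card ≤ k * m := by gcongr
      calc _ ≤ ((I.card * k : ℕ) : ℝ) := by exact_mod_cast h1
        _ ≤ _ := by push_cast; linarith
    · rintro t ⟨i, hi, j, hj, hi', hj', rfl⟩
      simp only [Ib, Jb, mem_filter, hi, hj, true_and, not_le] at hi' hj'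
      have h1 : ((univ.filter fun r => ω + v i - f r ∈ PB) ∪
          (univ.filter fun r => v j + f r ∈ PA)).card < (univ : Finset (Fin k)).card := by
        have := card_union_le (univ.filter fun r => ω + v i - f r ∈ PB)
          (univ.filter fun r => v j + f r ∈ PA)
        rw [card_univ, Fintype.card_fin]
        omega
      obtain ⟨r, -, hr⟩ := exists_mem_notMem_of_card_lt_card h1
      simp only [mem_union, mem_filter, mem_univ, true_and, not_or] at hr
      refine ⟨v j + f r, mem_filter.2 ⟨mem_image₂_of_mem hj (mem_univ r), hr.2⟩,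
        ω + v i - f r, mem_filter.2 ⟨mem_image₂_of_mem hi (mem_univ r), hr.1⟩, ?_⟩
      have := hf' r
      omega

/-- The number with a given set of binary digits. -/
def vl (S : Finset ℕ) : ℕ := ∑ i ∈ S, 2 ^ i

lemma vl_lt {S : Finset ℕ} {a : ℕ} (h : S ⊆ range a) : vl S < 2 ^ a :=
  Nat.geomSum_lt le_rfl fun _ hk => mem_range.1 (h hk)

lemma phi_le (t : ℕ) : 2 * (13 / 20 : ℝ) ^ (12 * (t + 1)) ≤ 1 / 64 ^ (t + 1) := by
  rw [pow_mul]
  have h1 : ((13 / 20 : ℝ) ^ 12) ^ (t + 1) ≤ (1 / 128) ^ (t + 1) :=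
    pow_le_pow_left₀ (by positivity) (by norm_num) _
  have h2 : (1 / 128 : ℝ) ^ (t + 1) = 1 / 2 * (1 / 2) ^ t * (1 / 64 ^ (t + 1)) := by
    rw [← pow_succ', ← one_div_pow, ← mul_pow]; norm_num
  have h3 : (1 / 2 : ℝ) ^ t ≤ 1 := pow_le_one₀ (by norm_num) (by norm_num)
  have h4 : (0 : ℝ) < 1 / 64 ^ (t + 1) := by positivity
  nlinarith

lemma main {a : ℕ} (hω : 1 ≤ ω) (hA : 10 * PA.card ≤ ω) (hB : 10 * PB.card ≤ ω) (d : ℕ) :
    ∀ (t : ℕ) (r : ℝ) (F : Finset ℕ) (P : Finset (Finset ℕ)), 0 < r → r ^ 2 * 64 ^ t = 2 ^ a →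
      r < 8 ^ d → F ⊆ range a → (∀ S ∈ P, S ⊆ range a) → (P.card : ℝ) * 2 ^ F.card ≤ r ^ 2 →
      (P.card : ℝ) ≤ 2 * r →
      Cv (2 ^ a) ω PA PB (fun y => ∃ W ⊆ range a, W \ F ∈ P ∧ y = vl W) (48 * (t + 1) * r) := by
  have base : ∀ (t : ℕ) (r : ℝ) (F : Finset ℕ) (P : Finset (Finset ℕ)), 0 < r → r < 1 →
      (P.card : ℝ) * 2 ^ F.card ≤ r ^ 2 →
      Cv (2 ^ a) ω PA PB (fun y => ∃ W ⊆ range a, W \ F ∈ P ∧ y = vl W) (48 * (t + 1) * r) := by
    intro t r F P h0 h1 h2
    refine Cv.empty ?_ (by positivity)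
    rintro y ⟨W, -, hW, -⟩
    have h3 : (1 : ℝ) ≤ P.card := by exact_mod_cast card_pos.2 ⟨_, hW⟩
    have h4 : (1 : ℝ) ≤ 2 ^ F.card := one_le_pow₀ (by norm_num)
    nlinarith
  induction d with
  | zero => exact fun t r F P h0 _ h1 _ _ h2 _ => base t r F P h0 (by simpa using h1) h2
  | succ d ih =>
    intro t r F P h0 hr hd hF hP h1 h2
    rcases lt_or_ge r 1 with hr1 | hr1
    · exact base t r F P h0 hr1 h1
    obtain ⟨m, hmF, hm1, hm2⟩ : ∃ m ≤ F.card, (2 : ℝ) ^ m ≤ 2 * r ∧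
        (P.card : ℝ) * 2 ^ (F.card - m) ≤ 2 * r := by
      by_cases h : (2 : ℝ) ^ F.card ≤ 2 * r
      · exact ⟨F.card, le_rfl, h, by simpa using h2⟩
      · obtain ⟨m, k1, k2⟩ := exists_nat_pow_near (x := 2 * r) (y := 2) (by linarith) (by norm_num)
        have k3 : m ≤ F.card := by
          have : (2 : ℝ) ^ m < 2 ^ F.card := by linarith [not_le.1 h]
          exact ((pow_lt_pow_iff_right₀ (by norm_num)).1 this).le
        refine ⟨m, k3, k1, ?_⟩
        have k4 : (2 : ℝ) ^ F.card = 2 ^ (F.card - m) * 2 ^ m := by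
          rw [← pow_add, Nat.sub_add_cancel k3]
        rw [pow_succ] at k2
        rw [k4, ← mul_assoc] at h1
        have k5 : (0 : ℝ) ≤ P.card * 2 ^ (F.card - m) := by positivity
        nlinarith
    obtain ⟨G, hGF, rfl⟩ := exists_subset_card_eq hmF
    have hIc : ((image₂ (· ∪ ·) P (F \ G).powerset).card : ℝ) ≤
        P.card * 2 ^ (F.card - G.card) := by
      have := card_image₂_le (· ∪ ·) P (F \ G).powerset
      rw [card_powerset, card_sdiff_of_subset hGF] at this
      exact_mod_cast this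
    have hJc : (G.powerset.card : ℝ) = 2 ^ G.card := by rw [card_powerset]; push_cast; rfl
    have hIs : ∀ S ∈ image₂ (· ∪ ·) P (F \ G).powerset, S ⊆ range a := by
      intro S hS
      obtain ⟨S1, k1, S2, k2, rfl⟩ := mem_image₂.1 hS
      exact union_subset (hP _ k1) ((mem_powerset.1 k2).trans (sdiff_subset.trans hF))
    have hJs : ∀ S ∈ G.powerset, S ⊆ range a := fun S hS =>
      (mem_powerset.1 hS).trans (hGF.trans hF)
    obtain ⟨I', hI', J', hJ', c1, c2, c3⟩ := sample (N := 2 ^ a) hω hA hB vl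
      (image₂ (· ∪ ·) P (F \ G).powerset) G.powerset (fun S hS => vl_lt (hIs S hS))
      (fun S hS => vl_lt (hJs S hS)) (12 * (t + 1)) (m := 2 * r) (hIc.trans hm2) (hJc ▸ hm1)
    have hφ := phi_le t
    have hφ' : (1 : ℝ) / 64 ^ (t + 1) ≤ 1 / 64 := by
      rw [pow_succ']
      exact one_div_le_one_div_of_le (by norm_num)
        (le_mul_of_one_le_right (by norm_num) (one_le_pow₀ (by norm_num)))
    have d1 : (I'.card : ℝ) ≤ 1 / 64 * (P.card * 2 ^ (F.card - G.card)) :=
      c1.trans (mul_le_mul (hφ.trans hφ') hIc (Nat.cast_nonneg _) (by norm_num))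
    have d2 : (J'.card : ℝ) ≤ 1 / 64 ^ (t + 1) * 2 ^ G.card :=
      c2.trans (by rw [hJc]; gcongr)
    have hr' : (r / 8) ^ 2 * 64 ^ (t + 1) = 2 ^ a := by rw [← hr]; ring
    have hd' : r / 8 < 8 ^ d := by rw [pow_succ] at hd; linarith
    have e1 := ih (t + 1) (r / 8) G I' (by positivity) hr' hd' (hGF.trans hF)
      (fun S hS => hIs S (hI' hS)) (by
        have k4 : (2 : ℝ) ^ F.card = 2 ^ (F.card - G.card) * 2 ^ G.card := by
          rw [← pow_add, Nat.sub_add_cancel hmF]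
        rw [k4, ← mul_assoc] at h1
        have := mul_le_mul_of_nonneg_right d1 (show (0 : ℝ) ≤ 2 ^ G.card by positivity)
        linarith) (by linarith)
    have e2 := ih (t + 1) (r / 8) (range a \ G) J' (by positivity) hr' hd' sdiff_subset
      (fun S hS => hJs S (hJ' hS)) (by
        have k3 : G.card ≤ a := by simpa using card_le_card (hGF.trans hF)
        have k4 : (2 : ℝ) ^ a = 2 ^ G.card * 2 ^ (a - G.card) := by
          rw [← pow_add, Nat.add_sub_cancel' k3]
        rw [card_sdiff_of_subset (hGF.trans hF), card_range]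
        have := mul_le_mul_of_nonneg_right d2 (show (0 : ℝ) ≤ 2 ^ (a - G.card) by positivity)
        rw [mul_assoc, ← k4, ← hr'] at this
        refine this.trans (le_of_eq ?_)
        field_simp) (by
        have : (1 : ℝ) / 64 ^ (t + 1) * 2 ^ G.card ≤ 1 / 64 * (2 * r) := by gcongr
        linarith)
    refine ((c3.union e1).union e2).mono ?_ ?_
    · rintro y ⟨W, hW, hWP, rfl⟩
      by_cases k1 : W \ G ∈ I'
      · exact Or.inl (Or.inr ⟨W, hW, k1, rfl⟩)
      by_cases k2 : W ∩ G ∈ J'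
      · refine Or.inr ⟨W, hW, ?_, rfl⟩
        convert k2 using 1
        ext x
        simp only [mem_sdiff, mem_inter, not_and, not_not]
        exact ⟨fun h => ⟨h.1, h.2 (hW h.1)⟩, fun h => ⟨h.1, fun _ => h.2⟩⟩
      refine Or.inl (Or.inl ⟨W \ G, ?_, W ∩ G, mem_powerset.2 inter_subset_right, k1, k2, ?_⟩)
      · refine mem_image₂.2 ⟨W \ F, hWP, W ∩ (F \ G), mem_powerset.2 inter_subset_right, ?_⟩
        ext x
        have := @hGF x
        simp only [mem_union, mem_sdiff, mem_inter]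
        tauto
      · rw [vl, vl, vl, add_comm, sum_inter_add_sum_sdiff]
    · push_cast
      have : (0 : ℝ) ≤ t * r := by positivity
      nlinarith

end LapAux

open LapAux in
theorem lap : LapStmt := by
  refine ⟨48, by norm_num, fun p _ A B α β a ω hω hp hA hB => ?_⟩
  have key : ∀ (S : Finset (ZMod p)) (γ : ZMod p),
      ((range (2 ^ a + ω)).filter fun m : ℕ => γ + m ∉ S).card ≤ (ap γ 1 (2 ^ a + ω) \ S).card := by
    intro S γ
    refine card_le_card_of_injOn (fun m : ℕ => γ + m) (fun m hm => ?_) fun m hm m' hm' h => ?_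
    · obtain ⟨h1, h2⟩ := mem_filter.1 hm
      exact mem_sdiff.2 ⟨mem_ap.2 ⟨m, mem_range.1 h1, by simp⟩, h2⟩
    · have h1 := mem_range.1 (mem_filter.1 hm).1
      have h2 := mem_range.1 (mem_filter.1 hm').1
      exact natCast_inj_of_lt (p := p) (by omega) (by omega) (add_left_cancel h)
  have hs : (√(2 ^ a) : ℝ) ^ 2 = 2 ^ a := Real.sq_sqrt (by positivity)
  obtain ⟨d, hd⟩ := pow_unbounded_of_one_lt (√(2 ^ a) : ℝ) (show (1 : ℝ) < 8 by norm_num)
  have h1 : (1 : ℝ) ≤ √(2 ^ a) := Real.one_le_sqrt.2 (one_le_pow₀ (by norm_num))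
  obtain ⟨A', B', k1, k2, k3, k4, k5⟩ := main (a := a) hω
    ((Nat.mul_le_mul_left 10 (key A α)).trans hA) ((Nat.mul_le_mul_left 10 (key B β)).trans hB)
    d 0 (√(2 ^ a)) (range a) {∅} (by positivity) (by simp) hd Subset.rfl (by simp)
    (by rw [hs]; simp) (by simp; linarith)
  refine ⟨A'.image fun m : ℕ => α + m, ?_, B'.image fun m : ℕ => β + m, ?_, ?_, ?_, ?_⟩
  · intro x hx
    obtain ⟨m, hm, rfl⟩ := mem_image.1 hx
    have := k1 m hm
    simpa [this.1] using this.2
  · intro x hx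
    obtain ⟨m, hm, rfl⟩ := mem_image.1 hx
    have := k2 m hm
    simpa [this.1] using this.2
  · refine le_trans (by exact_mod_cast card_image_le) (k3.trans (by simp))
  · refine le_trans (by exact_mod_cast card_image_le) (k4.trans (by simp))
  · rw [sdiff_eq_empty_iff_subset.2]
    · simp
    · intro y hy
      obtain ⟨t, ht, rfl⟩ := mem_ap.1 hy
      have hW : t.bitIndices.toFinset ⊆ range a := by
        intro i hi
        have := Nat.two_pow_le_of_mem_bitIndices (List.mem_toFinset.1 hi)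
        exact mem_range.2 ((Nat.pow_lt_pow_iff_right (by norm_num)).1 (this.trans_lt ht))
      obtain ⟨x, hx, z, hz, e⟩ := k5 t ⟨_, hW, by simpa using hW,
        (sum_toFinset_bitIndices_two_pow t).symm⟩
      refine mem_add.2 ⟨_, mem_image_of_mem _ hx, _, mem_image_of_mem _ hz, ?_⟩
      have := congrArg (Nat.cast : ℕ → ZMod p) e
      push_cast at this
      linear_combination this

end Pool.Agent.MP_93a3f8_co

end
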