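import Pool.Agent.Mg.F93a3f8p.Gbed3f0

/-! The endgame: two sets close to progressions with the same difference. -/

open Finset Pointwise

namespace Pool.Agent.MP_93a3f8_co

namespace End

variable {p : ℕ} [Fact p.Prime]

lemma aff_inj {e : ZMod p} (he : e ≠ 0) (u : ZMod p) : Function.Injective fun x => e * x + u :=
  fun _ _ h => mul_left_cancel₀ he (add_right_cancel h)

lemma cov_affine {A B Y : Finset (ZMod p)} {c l : ℝ} {e : ZMod p} (he : e ≠ 0) (u v : ZMod p)
    (h : Cov (A.image fun x => e * x + u) (B.image fun x => e * x + v)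
      (Y.image fun x => e * x + (u + v)) c l) : Cov A B Y c l := by
  obtain ⟨A', hA, B', hB, h1, h2, h3⟩ := h
  refine ⟨A.filter fun x => e * x + u ∈ A', filter_subset _ _, B.filter fun x => e * x + v ∈ B',
    filter_subset _ _, le_trans ?_ h1, le_trans ?_ h2, le_trans ?_ h3⟩
  · exact_mod_cast card_le_card_of_injOn (fun x => e * x + u) (fun x hx => by
      simpa using (mem_filter.1 (mem_coe.1 hx)).2) (aff_inj he u).injOn
  · exact_mod_cast card_le_card_of_injOn (fun x => e * x + v) (fun x hx => by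
      simpa using (mem_filter.1 (mem_coe.1 hx)).2) (aff_inj he v).injOn
  · refine Nat.cast_le.2 (card_le_card_of_injOn (fun x => e * x + (u + v)) (fun y hy => ?_)
      (aff_inj he (u + v)).injOn)
    rw [mem_coe, mem_sdiff] at hy ⊢
    refine ⟨mem_image_of_mem _ hy.1, fun a => hy.2 ?_⟩
    obtain ⟨a', ha', b', hb', e'⟩ := mem_add.1 a
    obtain ⟨x, hx, rfl⟩ := mem_image.1 (hA ha')
    obtain ⟨z, hz, rfl⟩ := mem_image.1 (hB hb')
    refine mem_add.2 ⟨x, mem_filter.2 ⟨hx, ha'⟩, z, mem_filter.2 ⟨hz, hb'⟩, aff_inj he (u + v) ?_⟩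
    simp only at e' ⊢
    rw [← e']
    ring

lemma good_affine {A B : Finset (ZMod p)} {n : ℕ} {c : ℝ} {e : ZMod p} (he : e ≠ 0) (u v : ZMod p)
    (h : Good (A.image fun x => e * x + u) (B.image fun x => e * x + v) n c) : Good A B n c := by
  obtain ⟨A', hA, B', hB, h1, h2, h3⟩ := h
  let Y := (A' + B').image fun y => e⁻¹ * y + -(e⁻¹ * (u + v))
  have hY : (Y.image fun x => e * x + (u + v)) = A' + B' := by
    have : ((fun x => e * x + (u + v)) ∘ fun y => e⁻¹ * y + -(e⁻¹ * (u + v))) = id := by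
      funext y
      simp only [Function.comp, id]
      field_simp
      ring
    rw [image_image, this, image_id]
  have hc : Y.card = (A' + B').card := card_image_of_injective _ (aff_inj (inv_ne_zero he) _)
  refine Cov.good (Y := Y) (l := 0) (cov_affine he u v ⟨A', hA, B', hB, h1, h2, ?_⟩) ?_
  · simp [hY]
  · rw [hc, add_zero]
    exact_mod_cast h3

lemma mem_ap_val {c l : ℕ} (h : c + l ≤ p) {x : ZMod p} :
    x ∈ ap (c : ZMod p) 1 l ↔ c ≤ x.val ∧ x.val < c + l := by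
  rw [mem_ap]
  constructor
  · rintro ⟨i, hi, rfl⟩
    rw [one_mul, ← Nat.cast_add, ZMod.val_cast_of_lt (by omega)]
    omega
  · rintro ⟨h1, h2⟩
    refine ⟨x.val - c, by omega, ?_⟩
    rw [one_mul, ← Nat.cast_add, Nat.add_sub_cancel' h1, ZMod.natCast_zmod_val]

lemma ap_sub (a : ZMod p) {i l m : ℕ} (h : i + l ≤ m) : 
    ap (a + (i : ZMod p)) 1 l ⊆ ap a 1 m := fun x hx => by
  obtain ⟨j, hj, rfl⟩ := mem_ap.1 hx
  exact mem_ap.2 ⟨i + j, by omega, by push_cast; ring⟩

lemma card_range_le (S : Finset (ZMod p)) {s t : ℕ} (h : ∀ x ∈ S, s ≤ x.val ∧ x.val < t) :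
    S.card ≤ t - s := by
  rw [← Nat.card_Ico]
  exact card_le_card_of_injOn ZMod.val (fun x hx => by simpa using h x hx)
    (ZMod.val_injective p).injOn

lemma cut (S : Finset (ZMod p)) (m : ℕ) (hm : m ≤ S.card) :
    ∃ t : ℕ, (S.filter fun x => x.val < t).card = m := by
  have key : ∀ T : ℕ, ∀ m ≤ (S.filter fun x => x.val < T).card,
      ∃ t : ℕ, (S.filter fun x => x.val < t).card = m := by
    intro T
    induction T with
    | zero => exact fun m hm => ⟨0, by simp at hm ⊢; omega⟩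
    | succ T ih =>
      intro m hm
      by_cases h : m ≤ (S.filter fun x => x.val < T).card
      · exact ih m h
      · refine ⟨T + 1, le_antisymm ?_ hm⟩
        have h1 : (S.filter fun x => x.val < T + 1) ⊆
            insert (T : ZMod p) (S.filter fun x => x.val < T) := fun x hx => by
          rw [mem_filter] at hx
          rw [mem_insert, mem_filter]
          by_cases e : x.val = T
          · exact Or.inl (by rw [← e, ZMod.natCast_zmod_val])
          · exact Or.inr ⟨hx.1, by omega⟩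
        have := (card_le_card h1).trans (card_insert_le _ _)
        omega
  refine key p m ?_
  rwa [filter_true_of_mem fun x _ => ZMod.val_lt x]

/-- The bottom and top parts of a set close to the core. -/
lemma ends (A : Finset (ZMod p)) {n D n' κ : ℕ} (hp : D + n ≤ p) (hA : A.card = n)
    (hκ : (A \ ap (D : ZMod p) 1 n).card ≤ κ) (h1 : κ < n') (h2 : 2 * n' + κ < n) :
    ∃ (t1 t2 : ℕ) (A1 A2 : Finset (ZMod p)), A1 ⊆ A ∧ A2 ⊆ A ∧ A1.card = n' ∧ A2.card = n' ∧
      (∀ x ∈ A1, x.val < t1) ∧ (∀ x ∈ A2, t2 ≤ x.val ∧ x.val < n + 2 * D) ∧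
      D + n' ≤ t1 + κ ∧ t2 + n' ≤ D + n + κ ∧
      n + t1 ≤ t2 + 2 * n' + (A.filter fun x => n + 2 * D ≤ x.val).card ∧
      (A.filter fun x => n + 2 * D ≤ x.val).card ≤ κ := by
  set N := A.filter fun x => x.val < n + 2 * D with hN
  have hF : (A.filter fun x => n + 2 * D ≤ x.val).card ≤ κ :=
    le_trans (card_le_card fun x hx => by
      rw [mem_filter] at hx
      rw [mem_sdiff, mem_ap_val hp]
      exact ⟨hx.1, by omega⟩) hκ
  have hc : N.card + (A.filter fun x => n + 2 * D ≤ x.val).card = n := by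
    have := card_filter_add_card_filter_not (s := A) fun x => x.val < n + 2 * D
    simp only [not_lt, hA] at this
    exact this
  obtain ⟨t1, e1⟩ := cut N n' (by omega)
  obtain ⟨t2, e2⟩ := cut N (N.card - n') (by omega)
  have e3 := card_filter_add_card_filter_not (s := N) fun x => x.val < t2
  have split : ∀ S ⊆ A, S.card ≤ κ + (S ∩ ap (D : ZMod p) 1 n).card := fun S hS => by
    have a := card_sdiff_add_card_inter S (ap (D : ZMod p) 1 n)
    have b := card_le_card (sdiff_subset_sdiff hS (Subset.refl (ap (D : ZMod p) 1 n)))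
    omega
  have hNA : N ⊆ A := filter_subset _ _
  refine ⟨t1, t2, N.filter fun x => x.val < t1, N.filter fun x => ¬ x.val < t2,
    (filter_subset _ _).trans hNA, (filter_subset _ _).trans hNA, e1, by omega,
    fun x hx => (mem_filter.1 hx).2, fun x hx => ⟨not_lt.1 (mem_filter.1 hx).2,
      (mem_filter.1 (mem_filter.1 hx).1).2⟩, ?_, ?_, ?_, hF⟩
  · have a := split _ ((filter_subset (fun x => x.val < t1) N).trans hNA)
    have b := card_range_le ((N.filter fun x => x.val < t1) ∩ ap (D : ZMod p) 1 n) (s := D)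
      (t := t1) fun x hx => by
        rw [mem_inter, mem_filter, mem_ap_val hp] at hx
        omega
    omega
  · have a := split _ ((filter_subset (fun x => ¬ x.val < t2) N).trans hNA)
    have b := card_range_le ((N.filter fun x => ¬ x.val < t2) ∩ ap (D : ZMod p) 1 n) (s := t2)
      (t := D + n) fun x hx => by
        rw [mem_inter, mem_filter, mem_ap_val hp] at hx
        omega
    omega
  · have a := card_range_le ((N.filter fun x => x.val < t2) \ N.filter fun x => x.val < t1)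
      (s := t1) (t := t2) fun x hx => by
        simp only [mem_sdiff, mem_filter, not_and, not_lt] at hx
        exact ⟨hx.2 hx.1.1, hx.1.2⟩
    have b := le_card_sdiff (N.filter fun x => x.val < t1) (N.filter fun x => x.val < t2)
    omega

/-- Covering the lower half of the middle range. -/
lemma low {C : ℝ} (hC : 0 ≤ C)
    (h : ∀ (A B : Finset (ZMod p)) (α β : ZMod p) (a ω : ℕ),
      1 ≤ ω → 2 ^ a + ω ≤ p → 10 * (ap α 1 (2 ^ a + ω) \ A).card ≤ ω →
      10 * (ap β 1 (2 ^ a + ω) \ B).card ≤ ω →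
      Cov A B (ap (α + β + ω) 1 (2 ^ a)) (C * √(2 ^ a)) 0)
    (A B : Finset (ZMod p)) (α β : ZMod p) {n ω : ℕ} (h1 : 1 ≤ ω) (h2 : ω < n) (hp : n ≤ p)
    (hA : 10 * (ap α 1 n \ A).card ≤ ω) (hB : 10 * (ap β 1 n \ B).card ≤ ω) :
    Cov A B (ap (α + β + ω) 1 (n - ω)) (2 * C * √n) 0 := by
  set a := Nat.log 2 (n - ω) with ha
  have a1 : 2 ^ a ≤ n - ω := Nat.pow_log_le_self 2 (by omega)
  have a2 : n - ω < 2 ^ (a + 1) := Nat.lt_pow_succ_log_self (by norm_num) _
  rw [pow_succ] at a2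
  have hole : ∀ (S : Finset (ZMod p)) (γ : ZMod p) (i : ℕ), i + (2 ^ a + ω) ≤ n →
      (ap (γ + (i : ZMod p)) 1 (2 ^ a + ω) \ S).card ≤ (ap γ 1 n \ S).card := fun S γ i hi =>
    card_le_card (sdiff_subset_sdiff (ap_sub γ hi) (Subset.refl _))
  have b0 := hole A α 0 (by omega)
  have b1 := hole B β 0 (by omega)
  have b2 := hole B β (n - ω - 2 ^ a) (by omega)
  rw [Nat.cast_zero, add_zero] at b0 b1
  have c1 := h A B α β a ω h1 (by omega) (by omega) (by omega)
  have c2 := h A B α (β + ((n - ω - 2 ^ a : ℕ) : ZMod p)) a ω h1 (by omega) (by omega) (by omega)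
  refine (c1.union c2).mono (fun x hx => ?_) ?_ (by simp)
  · obtain ⟨i, hi, rfl⟩ := mem_ap.1 hx
    rw [mem_union, mem_ap, mem_ap]
    by_cases e : i < 2 ^ a
    · exact Or.inl ⟨i, e, rfl⟩
    · obtain ⟨j, rfl⟩ : ∃ j, i = (n - ω - 2 ^ a) + j := ⟨i - (n - ω - 2 ^ a), by omega⟩
      exact Or.inr ⟨j, by omega, by rw [Nat.cast_add]; ring⟩
  · have : √((2 : ℝ) ^ a) ≤ √n := Real.sqrt_le_sqrt (by exact_mod_cast (by omega : 2 ^ a ≤ n))
    nlinarith [mul_le_mul_of_nonneg_left this hC]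

/-- Covering the middle range. -/
lemma mid {C : ℝ} (hC : 0 ≤ C)
    (h : ∀ (A B : Finset (ZMod p)) (α β : ZMod p) (a ω : ℕ),
      1 ≤ ω → 2 ^ a + ω ≤ p → 10 * (ap α 1 (2 ^ a + ω) \ A).card ≤ ω →
      10 * (ap β 1 (2 ^ a + ω) \ B).card ≤ ω →
      Cov A B (ap (α + β + ω) 1 (2 ^ a)) (C * √(2 ^ a)) 0)
    (A B : Finset (ZMod p)) {n D ω : ℕ} (h1 : 1 ≤ ω) (h2 : ω < n) (hp : n ≤ p)
    (hA : 10 * (ap (D : ZMod p) 1 n \ A).card ≤ ω) (hB : 10 * (ap (D : ZMod p) 1 n \ B).card ≤ ω)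
    (Y : Finset (ZMod p)) (hY : ∀ y ∈ Y, 2 * D + ω ≤ y.val ∧ y.val + ω + 2 ≤ 2 * D + 2 * n) :
    Cov A B Y (4 * C * √n) 0 := by
  have c1 := low hC h A B D D h1 h2 hp hA hB
  have refl : ∀ S : Finset (ZMod p),
      (ap (D : ZMod p) 1 n \ S.image fun x => -1 * x + ((2 * D + n - 1 : ℕ) : ZMod p)).card ≤
        (ap (D : ZMod p) 1 n \ S).card := fun S => by
    refine card_le_card_of_injOn (fun x => -1 * x + ((2 * D + n - 1 : ℕ) : ZMod p))
      (fun x hx => ?_) (aff_inj (by simp) _).injOn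
    rw [mem_coe, mem_sdiff] at hx ⊢
    refine ⟨?_, fun a => hx.2 (mem_image.2 ⟨_, a, by ring⟩)⟩
    obtain ⟨i, hi, rfl⟩ := mem_ap.1 hx.1
    obtain ⟨j, rfl⟩ : ∃ j, n = i + j + 1 := ⟨n - i - 1, by omega⟩
    refine mem_ap.2 ⟨j, by omega, ?_⟩
    rw [show 2 * D + (i + j + 1) - 1 = 2 * D + i + j by omega]
    push_cast
    ring
  have c2 := low hC h _ _ D D h1 h2 hp (le_trans (Nat.mul_le_mul_left 10 (refl A)) hA)
    (le_trans (Nat.mul_le_mul_left 10 (refl B)) hB)
  have c3 : Cov A B (Y.filter fun y => 2 * D + n ≤ y.val) (2 * C * √n) 0 := by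
    refine cov_affine (e := -1) (by simp) _ _ (c2.mono (fun x hx => ?_) le_rfl le_rfl)
    obtain ⟨y, hy, rfl⟩ := mem_image.1 hx
    rw [mem_filter] at hy
    have a := hY y hy.1
    obtain ⟨j, hj⟩ : ∃ j, y.val + ω + 2 + j = 2 * D + 2 * n := ⟨_, Nat.add_sub_cancel' a.2⟩
    refine mem_ap.2 ⟨j, by omega, ?_⟩
    have e1 : ((y.val + ω + 2 + j : ℕ) : ZMod p) = ((2 * D + 2 * n : ℕ) : ZMod p) := by rw [hj]
    have e2 : ((2 * D + n - 1 + 1 : ℕ) : ZMod p) = ((2 * D + n : ℕ) : ZMod p) := by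
      rw [Nat.sub_add_cancel (by omega)]
    push_cast at e1 e2
    rw [ZMod.natCast_zmod_val] at e1
    linear_combination e1 - 2 * e2
  refine (c1.union c3).mono (fun y hy => ?_) (by linarith) (by simp)
  rw [mem_union, mem_filter]
  by_cases e : 2 * D + n ≤ y.val
  · exact Or.inr ⟨hy, e⟩
  · have a := hY y hy
    obtain ⟨j, hj⟩ : ∃ j, 2 * D + ω + j = y.val := ⟨_, Nat.add_sub_cancel' a.1⟩
    refine Or.inl (mem_ap.2 ⟨j, by omega, ?_⟩)
    have e1 : ((2 * D + ω + j : ℕ) : ZMod p) = y := by rw [hj, ZMod.natCast_zmod_val]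
    push_cast at e1
    linear_combination e1

/-- A far point has many sums outside the central range. -/
lemma far (B Y : Finset (ZMod p)) {n D κ m : ℕ} (hD : D ≤ n) (hp : 2 * n + D ≤ p)
    (hκ : (ap (D : ZMod p) 1 n \ B).card ≤ κ)
    (hY : (Y.filter fun y => ¬ (2 * D ≤ y.val ∧ y.val < 2 * D + 2 * n)).card ≤ m) {a : ZMod p}
    (ha : n + 2 * D ≤ a.val) : D ≤ (B.filter fun b => a + b ∈ univ \ Y).card + κ + m := by
  have hv := ZMod.val_lt a
  obtain ⟨k, k1, k2, k3, k4⟩ : ∃ k, D ≤ k ∧ k ≤ n ∧ 2 * D + 2 * n ≤ a.val + k ∧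
      a.val + k ≤ p + D := ⟨max D (2 * D + 2 * n - a.val), by omega, by omega, by omega, by omega⟩
  have hW : (ap (k : ZMod p) 1 D).card = D := card_ap _ one_ne_zero (by omega)
  have h1 : ap (k : ZMod p) 1 D ⊆ (B.filter fun b => a + b ∈ univ \ Y) ∪
      ((ap (D : ZMod p) 1 n \ B) ∪ (Y.filter fun y =>
        ¬ (2 * D ≤ y.val ∧ y.val < 2 * D + 2 * n)).image fun y => y - a) := fun b hb => by
    rw [mem_ap_val (by omega)] at hb
    simp only [mem_union, mem_filter, mem_sdiff, mem_univ, true_and, mem_image]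
    by_cases e : b ∈ B
    · by_cases e' : a + b ∈ Y
      · refine Or.inr (Or.inr ⟨a + b, ⟨e', ?_⟩, by simp⟩)
        by_cases c : a.val + b.val < p
        · rw [ZMod.val_add_of_lt c]; omega
        · rw [ZMod.val_add_of_le (not_lt.1 c)]; omega
      · exact Or.inl ⟨e, e'⟩
    · exact Or.inr (Or.inl ⟨(mem_ap_val (by omega)).2 (by omega), e⟩)
  have h2 := (card_le_card h1).trans ((card_union_le _ _).trans
    (Nat.add_le_add_left ((card_union_le _ _).trans (Nat.add_le_add_left card_image_le _)) _))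
  omega

lemma pow_bound {x : ℝ} {w : ℕ} (h0 : 0 ≤ x) (h1 : x ≤ 1) (h2 : w * x ≤ 1) :
    (1 - x) ^ w ≤ 1 - w * x / 2 := by
  have a1 : 1 + w * x ≤ (1 + x) ^ w := one_add_mul_le_pow (by linarith) w
  have a2 : (1 - x) ^ w * (1 + x) ^ w ≤ 1 := by
    rw [← mul_pow]
    exact pow_le_one₀ (by nlinarith) (by nlinarith)
  have a3 : 0 ≤ (1 - x) ^ w := pow_nonneg (by linarith) w
  have a4 : 0 ≤ w * x := by positivity
  have a5 := (mul_le_mul_of_nonneg_left a1 a3).trans a2
  refine le_of_mul_le_mul_right (a5.trans ?_) (by linarith : 0 < 1 + w * x)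
  nlinarith [mul_nonneg a4 (sub_nonneg.2 h2)]

/-- Sampling against a small set. -/
lemma sample (h1 : SampStmt) (A A2 B U : Finset (ZMod p)) (hA : A2 ⊆ A) {w : ℕ} (hw : 1 ≤ w)
    (hB : B.Nonempty) (hs : w * A2.card ≤ B.card) :
    Cov A B U (w + A2.card) (U.card - w * trip A2 B U / (2 * B.card)) := by
  obtain ⟨S, hS, c1, c2⟩ := h1 p B U (fun u => B.filter fun b => u - b ∈ A2) w hB
    fun u _ => filter_subset _ _
  have n0 : (0 : ℝ) < B.card := by exact_mod_cast hB.card_pos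
  refine ⟨A2, hA, S, hS, by simp, ?_, ?_⟩
  · have : (S.card : ℝ) ≤ w := by exact_mod_cast c1
    linarith [(Nat.cast_nonneg A2.card : (0 : ℝ) ≤ _)]
  · have a1 : U \ (A2 + S) ⊆ U.filter fun u => Disjoint S (B.filter fun b => u - b ∈ A2) :=
      fun u hu => by
        rw [mem_sdiff] at hu
        refine mem_filter.2 ⟨hu.1, disjoint_left.2 fun b hb hb' => hu.2 ?_⟩
        exact mem_add.2 ⟨u - b, (mem_filter.1 hb').2, b, hb, by simp⟩
    refine (Nat.cast_le.2 (card_le_card a1)).trans (c2.trans ?_)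
    have a2 : ∀ u ∈ U, (1 - ((B.filter fun b => u - b ∈ A2).card : ℝ) / B.card) ^ w ≤
        1 - w * (rep A2 B u / B.card) / 2 := fun u _ => by
      refine pow_bound (by positivity) ((div_le_one n0).2 (by exact_mod_cast card_filter_le _ _)) ?_
      rw [← mul_div_assoc, div_le_one n0]
      exact_mod_cast (Nat.mul_le_mul_left w (rep_le_left A2 B u)).trans hs
    refine (sum_le_sum a2).trans (le_of_eq ?_)
    rw [sum_sub_distrib, trip_eq, Nat.cast_sum, mul_sum, sum_div]
    simp only [sum_const, nsmul_eq_mul, mul_one]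
    congr 1
    exact sum_congr rfl fun u _ => by field_simp

lemma good_cov {A B A1 B1 : Finset (ZMod p)} {m : ℕ} {c : ℝ} (h : Good A1 B1 m c) (hA : A1 ⊆ A)
    (hB : B1 ⊆ B) : ∃ Y ⊆ A1 + B1, Y.card = 2 * m - 1 ∧ Cov A B Y c 0 := by
  obtain ⟨A', a1, B', a2, a3, a4, a5⟩ := h
  obtain ⟨Y, hY, e⟩ := exists_subset_card_eq (s := A' + B') (n := 2 * m - 1) (by omega)
  exact ⟨Y, hY.trans (add_subset_add a1 a2), e, A', a1.trans hA, B', a2.trans hB, a3, a4, by
    rw [sdiff_eq_empty_iff_subset.2 hY]; simp⟩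

lemma hole {A : Finset (ZMod p)} {a : ZMod p} {n : ℕ} (hp : n ≤ p) (hA : A.card = n) :
    (ap a 1 n \ A).card = (A \ ap a 1 n).card :=
  card_sdiff_comm (by rw [hA, card_ap _ one_ne_zero hp])

/-- The normalised statement. -/
lemma core (h1 : SampStmt) {C : ℝ} (hC : 0 ≤ C)
    (h : ∀ (A B : Finset (ZMod p)) (α β : ZMod p) (a ω : ℕ),
      1 ≤ ω → 2 ^ a + ω ≤ p → 10 * (ap α 1 (2 ^ a + ω) \ A).card ≤ ω →
      10 * (ap β 1 (2 ^ a + ω) \ B).card ≤ ω →
      Cov A B (ap (α + β + ω) 1 (2 ^ a)) (C * √(2 ^ a)) 0)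
    {n μ κ : ℕ} (A B : Finset (ZMod p)) {c : ℝ} (hc : 0 ≤ c) (hA : A.card = n) (hB : B.card = n)
    (m1 : μ ≤ n) (m2 : 2 * n + μ ≤ p + 1) (m3 : 20481 ^ 2 ≤ μ) (m4 : √n ≤ 256 * (μ : ℝ))
    (hκ : 2000 * κ ≤ μ) (kA : (A \ ap ((μ / 10 : ℕ) : ZMod p) 1 n).card ≤ κ)
    (kB : (B \ ap ((μ / 10 : ℕ) : ZMod p) 1 n).card ≤ κ)
    (ih : ∀ (n' : ℕ) (A1 B1 : Finset (ZMod p)), 1 ≤ n' → 100 * n' ≤ n → A1.card = n' →
      B1.card = n' → Good A1 B1 n' (c * √n'))
    (hw : (B.filter fun x => n + 2 * (μ / 10) ≤ x.val).card ≤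
      (A.filter fun x => n + 2 * (μ / 10) ≤ x.val).card) :
    Good A B n ((4 * C + 20482) * √n + c * √n / 5) := by
  norm_num at m3
  set D := μ / 10 with hD
  set n' := μ / 100 with hn'
  obtain ⟨t1, t2, A1, A2, a1, a2, a3, a4, a5, a6, a7, a8, a9, a10⟩ :=
    ends A (n' := n') (by omega) hA kA (by omega) (by omega)
  obtain ⟨s1, s2, B1, B2, b1, b2, b3, b4, b5, b6, b7, b8, b9, b10⟩ :=
    ends B (n' := n') (by omega) hB kB (by omega) (by omega)
  set FA := A.filter fun x => n + 2 * D ≤ x.val with hFA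
  set FB := B.filter fun x => n + 2 * D ≤ x.val with hFB
  rw [← hole (by omega) hA] at kA
  rw [← hole (by omega) hB] at kB
  obtain ⟨Y1, y1, y2, y3⟩ := good_cov (ih n' A1 B1 (by omega) (by omega) a3 b3) a1 b1
  obtain ⟨Y3, z1, z2, z3⟩ := good_cov (ih n' A2 B2 (by omega) (by omega) a4 b4) a2 b2
  have v1 : ∀ y ∈ Y1, y.val + 2 ≤ t1 + s1 := fun y hy => by
    obtain ⟨x, hx, z, hz, rfl⟩ := mem_add.1 (y1 hy)
    have := ZMod.val_add_le x z
    have := a5 x hx
    have := b5 z hz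
    omega
  have v3 : ∀ y ∈ Y3, t2 + s2 ≤ y.val := fun y hy => by
    obtain ⟨x, hx, z, hz, rfl⟩ := mem_add.1 (z1 hy)
    have := a6 x hx
    have := b6 z hz
    rw [ZMod.val_add_of_lt (by omega)]
    omega
  set Y2 := ap ((t1 + s1 - 1 : ℕ) : ZMod p) 1 (t2 + s2 + 1 - (t1 + s1)) with hY2
  have v2 : ∀ y ∈ Y2, t1 + s1 ≤ y.val + 1 ∧ y.val < t2 + s2 := fun y hy => by
    rw [mem_ap_val (by omega)] at hy
    omega
  have c2 : Y2.card = t2 + s2 + 1 - (t1 + s1) := card_ap _ one_ne_zero (by omega)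
  have cov2 := mid hC h A B (n := n) (D := D) (ω := n') (by omega) (by omega) (by omega)
    (by omega) (by omega) Y2 fun y hy => by have := v2 y hy; omega
  set Y := Y1 ∪ Y3 ∪ Y2 with hY
  have cY : Y.card = Y1.card + Y3.card + Y2.card := by
    rw [card_union_of_disjoint, card_union_of_disjoint]
    · exact disjoint_left.2 fun y p1 p2 => by have := v1 y p1; have := v3 y p2; omega
    · refine disjoint_left.2 fun y p1 p2 => ?_
      have := v2 y p2
      rcases mem_union.1 p1 with p1 | p1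
      · have := v1 y p1; omega
      · have := v3 y p1; omega
  have cF : (Y.filter fun y => ¬ (2 * D ≤ y.val ∧ y.val < 2 * D + 2 * n)).card ≤ 4 * n' := by
    refine le_trans (card_le_card (t := Y1 ∪ Y3) fun y hy => ?_) ((card_union_le _ _).trans (by omega))
    rw [mem_filter] at hy
    exact (mem_union.1 hy.1).resolve_right fun p2 => by have := v2 y p2; omega
  have n0 : (0 : ℝ) < n := by exact_mod_cast (by omega : 0 < n)
  have sq : √(n : ℝ) * √n = n := Real.mul_self_sqrt n0.le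
  have r1 : (20481 : ℝ) ≤ √n := by
    refine Real.le_sqrt_of_sq_le ?_
    exact_mod_cast (by norm_num; omega : 20481 ^ 2 ≤ n)
  set w := ⌈20480 * √(n : ℝ)⌉₊ with hw'
  have w1 : 20480 * √(n : ℝ) ≤ w := Nat.le_ceil _
  have w2 : (w : ℝ) ≤ 20481 * √n := by
    linarith [Nat.ceil_lt_add_one (by positivity : 0 ≤ 20480 * √(n : ℝ))]
  have w3 : w ≤ n := by
    have : (w : ℝ) ≤ n :=
      w2.trans ((mul_le_mul_of_nonneg_right r1 (Real.sqrt_nonneg _)).trans sq.le)
    exact_mod_cast this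
  have w4 : 1 ≤ w := by
    have : (1 : ℝ) ≤ w := by linarith
    exact_mod_cast this
  have w5 : 80 * n ≤ w * μ := by
    have : (80 * n : ℝ) ≤ w * μ := by
      have e1 := mul_le_mul_of_nonneg_right w1 (Nat.cast_nonneg μ : (0 : ℝ) ≤ _)
      have e2 := mul_le_mul_of_nonneg_left m4 (Real.sqrt_nonneg (n : ℝ))
      linarith
    exact_mod_cast this
  obtain ⟨A3, f1, f2⟩ := exists_subset_card_eq (s := FA) (n := min FA.card (n / w)) (min_le_left _ _)
  have f3 : w * A3.card ≤ n :=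
    (Nat.mul_le_mul_left w (f2 ▸ min_le_right _ _)).trans (Nat.mul_div_le n w)
  have f4 : 80 * n * FA.card ≤ w * A3.card * μ := by
    rcases min_choice FA.card (n / w) with e | e
    · rw [f2, e, mul_right_comm w]
      exact Nat.mul_le_mul_right _ w5
    · have g1 := Nat.div_add_mod n w
      have g2 := Nat.mod_lt n w4
      have g3 : w ≤ w * (n / w) := Nat.le_mul_of_pos_right _ (Nat.div_pos w3 w4)
      rw [f2, e]
      have g4 : n ≤ 2 * (w * (n / w)) := by omega
      have g5 : 160 * FA.card ≤ μ := by omega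
      calc 80 * n * FA.card = 80 * (n * FA.card) := by ring
        _ ≤ w * (n / w) * μ := by
          have := Nat.mul_le_mul g4 g5
          rw [show n * (160 * FA.card) = 2 * (80 * (n * FA.card)) by ring, mul_assoc] at this
          omega
  have f5 : A3.card * μ ≤ 20 * trip A3 B (univ \ Y) := by
    rw [trip, mul_sum, ← smul_eq_mul]
    refine card_nsmul_le_sum _ _ _ fun a ha => ?_
    have := far B Y (D := D) (by omega) (by omega) kB cF (mem_filter.1 (f1 ha)).2
    omega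
  have cov4 := sample h1 A A3 B (univ \ Y) (f1.trans (filter_subset _ _)) w4
    (card_pos.1 (by omega)) (hB ▸ f3)
  refine (Cov.good (((y3.union z3).union cov2).union cov4) ?_).mono ?_
  · rw [card_union_of_disjoint disjoint_sdiff, hB]
    have g1 : 2 * n ≤ Y.card + 1 + 2 * FA.card := by omega
    have g2 : 4 * n * FA.card ≤ w * trip A3 B (univ \ Y) := by
      have := f4.trans ((mul_assoc _ _ _).le.trans (Nat.mul_le_mul_left w f5))
      rw [show 80 * n * FA.card = 20 * (4 * n * FA.card) by ring, mul_left_comm w] at this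
      omega
    have g3 : (2 * FA.card : ℝ) ≤ w * trip A3 B (univ \ Y) / (2 * n) := by
      rw [le_div_iff₀ (by positivity)]
      have : (4 * n * FA.card : ℝ) ≤ w * trip A3 B (univ \ Y) := by exact_mod_cast g2
      linarith
    have g4 : (2 * n : ℝ) ≤ Y.card + 1 + 2 * FA.card := by exact_mod_cast g1
    push_cast
    linarith
  · have g1 : (A3.card : ℝ) ≤ √n := by
      have g : (w * A3.card : ℝ) ≤ n := by exact_mod_cast f3
      have e1 : √(n : ℝ) ≤ w := by linarith
      refine le_of_mul_le_mul_left ?_ (by linarith : (0 : ℝ) < √n)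
      linarith [mul_le_mul_of_nonneg_right e1 (Nat.cast_nonneg A3.card : (0 : ℝ) ≤ _)]
    have g2 : √(n' : ℝ) ≤ √n / 10 := by
      refine Real.sqrt_le_iff.2 ⟨by positivity, ?_⟩
      have : (100 * n' : ℝ) ≤ n := by exact_mod_cast (by omega : 100 * n' ≤ n)
      linarith
    linarith [mul_le_mul_of_nonneg_left g2 hc]

end End

open End

theorem endgame (h1 : SampStmt) (h2 : LapStmt) : EndStmt := by
  obtain ⟨C, hC, h⟩ := h2
  refine ⟨1 / 2000, by norm_num, 4 * C + 20482, by linarith, 20481 ^ 2,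
    fun p _ n μ A B a b g c hc hA hB hp hg hμ m3 m4 kA kB ih => ?_⟩
  have hg' := inv_ne_zero hg
  have norm : ∀ (S : Finset (ZMod p)) (a : ZMod p), ((S \ ap a g n).card : ℝ) ≤ 1 / 2000 * μ →
      ((S.image fun x => g⁻¹ * x + (((μ / 10 : ℕ) : ZMod p) - g⁻¹ * a)) \
        ap ((μ / 10 : ℕ) : ZMod p) 1 n).card ≤ μ / 2000 := fun S a hS => by
    have e : 2000 * (S \ ap a g n).card ≤ μ := by
      have : (2000 * (S \ ap a g n).card : ℝ) ≤ μ := by linarith
      exact_mod_cast this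
    refine le_trans (le_trans (card_le_card (t := (S \ ap a g n).image
      fun x => g⁻¹ * x + (((μ / 10 : ℕ) : ZMod p) - g⁻¹ * a)) fun y hy => ?_) card_image_le)
      (by omega)
    rw [mem_sdiff] at hy
    obtain ⟨x, hx, rfl⟩ := mem_image.1 hy.1
    refine mem_image_of_mem _ (mem_sdiff.2 ⟨hx, fun e => hy.2 ?_⟩)
    obtain ⟨i, hi, rfl⟩ := mem_ap.1 e
    refine mem_ap.2 ⟨i, hi, ?_⟩
    field_simp
    ring
  refine good_affine hg' (((μ / 10 : ℕ) : ZMod p) - g⁻¹ * a) (((μ / 10 : ℕ) : ZMod p) - g⁻¹ * b) ?_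
  have cA := (card_image_of_injective A (aff_inj hg' (((μ / 10 : ℕ) : ZMod p) - g⁻¹ * a))).trans hA
  have cB := (card_image_of_injective B (aff_inj hg' (((μ / 10 : ℕ) : ZMod p) - g⁻¹ * b))).trans hB
  have k1 := core h1 hC (h p) _ _ hc cA cB (by omega) (by omega) m3 m4 (Nat.mul_div_le μ 2000)
    (norm A a kA) (norm B b kB) ih
  have k2 := core h1 hC (h p) _ _ hc cB cA (by omega) (by omega) m3 m4 (Nat.mul_div_le μ 2000)
    (norm B b kB) (norm A a kA) ih
  exact (le_total _ _).elim k1 fun e => (k2 e).swap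

end Pool.Agent.MP_93a3f8_co
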