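import Pool.Agent.Mg.F93a3f8p.G57c72d

/-! The cost of a complete run. -/

open Finset Pointwise

namespace Pool.Agent.MP_93a3f8_co

lemma ru_large : ∃ p0 : ℕ, ∀ p : ℕ, p0 ≤ p →
    230400 ≤ Real.log p ∧ Real.log p ^ 10 ≤ (p : ℝ) ^ (1 / 20 : ℝ) := by
  have h1 := (isLittleO_log_rpow_rpow_atTop (10 : ℝ) (show (0 : ℝ) < 1 / 20 by norm_num)).bound
    (show (0 : ℝ) < 1 by norm_num)
  have h2 := Real.tendsto_log_atTop.eventually_ge_atTop 230400
  obtain ⟨x, hx⟩ := Filter.eventually_atTop.1 (h1.and (h2.and (Filter.eventually_ge_atTop 0)))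
  refine ⟨⌈x⌉₊, fun p hp => ?_⟩
  obtain ⟨a, b, c⟩ := hx p ((Nat.le_ceil x).trans (by exact_mod_cast hp))
  refine ⟨b, ?_⟩
  rw [Real.norm_of_nonneg (by positivity), Real.norm_of_nonneg (by positivity), one_mul] at a
  exact_mod_cast a

lemma ru_cov {p : ℕ} [Fact p.Prime] {A B A' B' Y : Finset (ZMod p)} {c : ℝ} (hA : A' ⊆ A)
    (hB : B' ⊆ B) (h1 : (A'.card : ℝ) ≤ c) (h2 : (B'.card : ℝ) ≤ c) (hY : Y ⊆ A' + B') :
    Cov A B Y c 0 :=
  ⟨A', hA, B', hB, h1, h2, by rw [sdiff_eq_empty_iff_subset.2 hY]; simp⟩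

/-- The choice of the number of stages. -/
lemma ru_m {L u Θ : ℝ} {j0 : ℕ} (hu : u ^ 2 = L) (hu0 : 480 ≤ u) (hΘ : 1 ≤ Θ) (hΘu : Θ ≤ u)
    (hj : 128 * 2 ^ j0 ≤ u) :
    ∃ m : ℕ, j0 < m ∧ 6 * Θ * 2 ^ m ≤ L / 10 ∧ L ≤ 128 * Θ * 2 ^ m ∧ u ≤ 128 * 2 ^ m ∧
      (m : ℝ) ≤ L ∧ (10 * m * Real.exp u) ^ m ≤ Real.exp (L / 20) := by
  have hx : u / 64 ≤ L / (64 * Θ) := by
    rw [div_le_div_iff₀ (by norm_num) (by positivity)]; nlinarith
  have hx1 : 1 ≤ ⌊L / (64 * Θ)⌋₊ := Nat.le_floor (by push_cast; linarith)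
  set m := Nat.log 2 ⌊L / (64 * Θ)⌋₊ with hm
  have h1 : (2 : ℝ) ^ m ≤ L / (64 * Θ) := by
    have : 2 ^ m ≤ ⌊L / (64 * Θ)⌋₊ := Nat.pow_log_le_self 2 (by omega)
    exact le_trans (by exact_mod_cast this) (Nat.floor_le (by linarith))
  have h2 : L / (64 * Θ) ≤ 2 * 2 ^ m := by
    have h3 : ⌊L / (64 * Θ)⌋₊ + 1 ≤ 2 ^ (m + 1) := Nat.lt_pow_succ_log_self (by norm_num) _
    have h4 : ((⌊L / (64 * Θ)⌋₊ : ℕ) : ℝ) + 1 ≤ 2 ^ (m + 1) := by exact_mod_cast h3
    have := Nat.lt_floor_add_one (L / (64 * Θ))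
    rw [pow_succ] at h4
    linarith
  have h2' : L / (64 * Θ) < 2 * 2 ^ m := by
    have h3 : ⌊L / (64 * Θ)⌋₊ + 1 ≤ 2 ^ (m + 1) := Nat.lt_pow_succ_log_self (by norm_num) _
    have h4 : ((⌊L / (64 * Θ)⌋₊ : ℕ) : ℝ) + 1 ≤ 2 ^ (m + 1) := by exact_mod_cast h3
    have := Nat.lt_floor_add_one (L / (64 * Θ))
    rw [pow_succ] at h4
    linarith
  rw [le_div_iff₀ (by positivity)] at h1
  rw [div_le_iff₀ (by positivity)] at h2
  have hp : (0 : ℝ) < 2 ^ m := by positivity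
  have hmu : (m : ℝ) ≤ u / 40 := by
    by_cases h : 12 ≤ m
    · have h3 : (25 : ℝ) * m ^ 2 ≤ 2 ^ m := by exact_mod_cast ru_sq_le m h
      have h4 : (40 * (m : ℝ)) ^ 2 ≤ u ^ 2 := by nlinarith
      have := abs_le_of_sq_le_sq' h4 (by linarith)
      linarith [this.2]
    · have : (m : ℝ) ≤ 12 := by exact_mod_cast (not_le.1 h).le
      linarith
  refine ⟨m, ?_, by nlinarith, by linarith, by linarith, by nlinarith, ?_⟩
  · have : (2 : ℝ) ^ j0 < 2 ^ m := by linarith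
    exact (pow_lt_pow_iff_right₀ (by norm_num)).1 this
  · have h3 : 10 * (m : ℝ) ≤ Real.exp u := by linarith [Real.add_one_le_exp u]
    have h4 : 10 * m * Real.exp u ≤ Real.exp (2 * u) := by
      rw [two_mul, Real.exp_add]; exact mul_le_mul_of_nonneg_right h3 (Real.exp_pos _).le
    refine (pow_le_pow_left₀ (by positivity) h4 m).trans ?_
    rw [← Real.exp_nat_mul]
    exact Real.exp_le_exp.2 (by nlinarith)

theorem run (hO : OuterStmt) (hF : FinalStmt) : RunStmt := by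
  obtain ⟨p0, hp0⟩ := ru_large
  refine ⟨864 + 648 * 128 ^ 24 + 9217 + 2737, by positivity, p0, ?_⟩
  intro p _ A B Y H0 Z0 Pf ζ Q γ Θ β1 β2 K Bf j0 hp hY hZ0 hζp hcell hγ hQ hH0 hΘ hΘu hj hβ1 hβ2
    o1 o2 hPf hK1 hK hYK hBf hBζ
  obtain ⟨hL, hLq⟩ := hp0 p hp
  have hp' : (0 : ℝ) < p := by exact_mod_cast (Fact.out : p.Prime).pos
  set L := Real.log p with hLd
  set u := √L with hud
  set q : ℝ := (p : ℝ) ^ (1 / 20 : ℝ) with hq
  have hu2 : u ^ 2 = L := Real.sq_sqrt (by linarith)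
  have hu0 : 480 ≤ u := Real.le_sqrt_of_sq_le (by linarith)
  have hqe : q = Real.exp (L / 20) := by
    rw [hq, Real.rpow_def_of_pos hp']; congr 1; ring
  have hq20 : q ^ 20 = p := by
    rw [hqe, ← Real.exp_nat_mul, show ((20 : ℕ) : ℝ) * (L / 20) = L by push_cast; ring, Real.exp_log hp']
  have hq18 : (p : ℝ) ^ (9 / 10 : ℝ) = q ^ 18 := by
    rw [hqe, ← Real.exp_nat_mul, Real.rpow_def_of_pos hp']; congr 1; push_cast; ring
  have hq2 : Real.exp (L / 10) = q ^ 2 := by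
    rw [hqe, ← Real.exp_nat_mul]; congr 1; push_cast; ring
  have hLq' : L ≤ q := le_trans (le_self_pow₀ (by linarith) (by norm_num)) hLq
  have hq1 : 230400 ≤ q := by linarith
  have hq0 : 0 < q := by linarith
  have hq1' : 1 ≤ q := by linarith
  rw [hq18] at hBζ
  have hlog : Real.log (4 * p) ≤ 2 * L := by
    rw [Real.log_mul (by norm_num) hp'.ne']
    have := Real.log_le_sub_one_of_pos (show (0 : ℝ) < 4 by norm_num)
    linarith
  clear_value q u L
  clear hq18 hq hud hLd hp0 hp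
  have hX1 : 0 ≤ β2 * (j0 + 1) / 2 ^ j0 := by positivity
  have hX2 : 0 ≤ K * Θ * Pf.card / p := by positivity
  have hBf1 : 1 ≤ Bf := by linarith
  have hζ1 : q ^ 18 ≤ ζ := le_trans (le_mul_of_one_le_left (by positivity) hBf1) hBζ
  have hζ0 : 0 < ζ := lt_of_lt_of_le (by positivity) hζ1
  obtain ⟨m, m1, m2, m3, m4, m5, m6⟩ := ru_m hu2 hu0 hΘ hΘu hj
  set y := √(ζ / Bf) with hy
  set S := √(ζ * Bf) with hS
  have hy9 : q ^ 9 ≤ y := Real.le_sqrt_of_sq_le (by rw [le_div_iff₀ (by linarith)]; linarith)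
  have hy10 : y ≤ q ^ 10 := Real.sqrt_le_iff.2 ⟨by positivity, by
    rw [div_le_iff₀ (by linarith), ← pow_mul, hq20]
    exact hζp.trans (le_mul_of_one_le_right hp'.le hBf1)⟩
  have hq9 : 1 ≤ q ^ 9 := one_le_pow₀ hq1'
  have hyB : y * Bf = S := by
    rw [hy, hS, ← Real.sqrt_sq (show 0 ≤ Bf by linarith), ← Real.sqrt_mul (by positivity),
      Real.sqrt_sq (show 0 ≤ Bf by linarith)]
    congr 1; field_simp
  have hyS : y * S = ζ := by
    rw [hy, hS, ← Real.sqrt_mul (by positivity), show ζ / Bf * (ζ * Bf) = ζ ^ 2 by field_simp,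
      Real.sqrt_sq hζ0.le]
  have hS9 : q ^ 9 ≤ S := by
    rw [← hyB]; exact hy9.trans (le_mul_of_one_le_right (by linarith) hBf1)
  have hS1 : 1 ≤ S := by linarith
  clear_value y S
  clear hy hS
  set n0 := ⌈y⌉₊ with hn0
  have hn1 : y ≤ n0 := Nat.le_ceil y
  have hn2 : (n0 : ℝ) ≤ 2 * y := by
    have := Nat.ceil_lt_add_one (show 0 ≤ y by linarith); linarith
  have hn9 : 9 ≤ (n0 : ℝ) := by
    have : q ≤ q ^ 9 := le_self_pow₀ hq1' (by norm_num)
    linarith
  have hnp : (n0 : ℝ) ≤ p := by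
    have h1 : (2 : ℝ) ≤ q ^ 10 := le_trans (by linarith) (le_self_pow₀ hq1' (by norm_num))
    have h2 := mul_le_mul_of_nonneg_right h1 (show 0 ≤ q ^ 10 by positivity)
    rw [← hq20]; linarith
  clear_value n0
  have hQ0 : 0 < Q := lt_of_lt_of_le (by positivity) hQ
  have hG : (10 * m * Real.exp u) ^ m * Real.exp (6 * Θ * 2 ^ m) ≤ q ^ 3 := by
    rw [show q ^ 3 = q * q ^ 2 by ring, ← hq2]
    exact mul_le_mul (by rw [hqe]; exact m6) (Real.exp_le_exp.2 m2) (by positivity) hq0.le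
  have hq5 : (2 : ℝ) ≤ q ^ 5 := le_trans (by linarith) (le_self_pow₀ hq1' (by norm_num))
  obtain ⟨Hf, Wt, C, X, a, lf, i1, i2, i3, i4, i5, i6, i7, i8, i9, i10⟩ :=
    ru_core (l := 2 * n0) (G := q ^ 3) (Bf := Bf) m1 hY hZ0 hQ0 (by linarith)
      (fun M hM => by
        obtain ⟨Δ, h1, h2, h3⟩ := hcell M hM
        exact ⟨Δ, h1, (mul_le_mul_of_nonneg_right hγ (by positivity)).trans h2, h3⟩)
      hH0 hΘ hβ1 hβ2 o1 o2 (by linarith) hG
      (by
        have h1 : (2 : ℝ) ≤ q ^ 17 := le_trans (by linarith) (le_self_pow₀ hq1' (by norm_num))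
        rw [← hq20, show q ^ 20 = q ^ 17 * q ^ 3 by ring]
        exact mul_le_mul_of_nonneg_right h1 (by positivity))
      (by
        have h1 : 4 * (m : ℝ) * q ^ 3 ≤ 4 * q * q ^ 3 :=
          mul_le_mul_of_nonneg_right (by linarith) (by positivity)
        have h2 : 2 * q ^ 4 ≤ q ^ 5 * q ^ 4 := mul_le_mul_of_nonneg_right hq5 (by positivity)
        push_cast
        linarith)
  have hHf : q ^ 17 ≤ Hf.card := by
    refine le_trans ?_ i1
    have h1 : Real.exp (-(L / 10)) ≤ Real.exp (-(6 * Θ * 2 ^ m)) := Real.exp_le_exp.2 (by linarith)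
    have h2 : Real.exp (-(L / 20)) ≤ Real.exp (-u) := Real.exp_le_exp.2 (by
      have := mul_le_mul_of_nonneg_right hu0 (show 0 ≤ u by linarith)
      linarith)
    rw [Real.exp_neg, hq2] at h1
    rw [Real.exp_neg, ← hqe] at h2
    have h3 : q⁻¹ * p ≤ Q := le_trans (mul_le_mul_of_nonneg_right h2 hp'.le) hQ
    refine le_trans (le_of_eq ?_) (mul_le_mul h1 h3 (by positivity) (by positivity))
    rw [← hq20]; field_simp
  have hHf0 : (0 : ℝ) < Hf.card := lt_of_lt_of_le (by positivity) hHf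
  set L1 := ⌈8 * (p : ℝ) / n0⌉₊ with hL1
  have hl1 : 8 * (p : ℝ) ≤ n0 * L1 := by
    have := Nat.le_ceil (8 * (p : ℝ) / n0)
    rw [div_le_iff₀ (by linarith)] at this; linarith
  have hl2 : (n0 : ℝ) * L1 ≤ 9 * p := by
    have := (Nat.ceil_lt_add_one (show 0 ≤ 8 * (p : ℝ) / n0 by positivity)).le
    have := mul_le_mul_of_nonneg_left this (show (0 : ℝ) ≤ n0 by linarith)
    rw [mul_add, mul_div_cancel₀ _ (by linarith)] at this
    linarith
  have hl0 : (0 : ℝ) < L1 := by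
    by_contra h
    have : (n0 : ℝ) * L1 ≤ 0 := mul_nonpos_of_nonneg_of_nonpos (by linarith) (not_lt.1 h)
    linarith
  have hlS : L1 * ζ / p ≤ 9 * S := by
    rw [div_le_iff₀ hp', ← hyS]
    have h1 := mul_le_mul_of_nonneg_right hn1 hl0.le
    have h2 := mul_le_mul_of_nonneg_right (h1.trans hl2) (show 0 ≤ S by linarith)
    linarith
  clear_value L1
  set J := ⌈q ^ 7⌉₊ with hJ
  have hq7 : 1 ≤ q ^ 7 := one_le_pow₀ hq1'
  have hJ1 : q ^ 7 ≤ J := Nat.le_ceil _
  have hJ2 : (J : ℝ) ≤ 2 * q ^ 7 := by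
    have := Nat.ceil_lt_add_one (show 0 ≤ q ^ 7 by positivity); linarith
  clear_value J
  obtain ⟨A', hA', B', hB', P1, Q1, P2, Q2, c1, c2, c3, c4, c5, c6, c7⟩ :=
    hO p A B Y Hf Wt C X a lf n0 L1 J _ _ (by exact_mod_cast hnp) (by exact_mod_cast hl1)
      (by have := mul_le_mul_of_nonneg_right hn9 hl0.le
          have : (L1 : ℝ) ≤ p := by linarith
          exact_mod_cast this)
      (by have : (1 : ℝ) ≤ J := by linarith
          exact_mod_cast this)
      (card_pos.1 (by exact_mod_cast hHf0)) i4 i5 i7 i8 i9 i10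
  set w := ⌈K * Real.log (4 * p)⌉₊ with hw
  have hlog0 : 0 ≤ Real.log (4 * p) := Real.log_nonneg (by linarith)
  have hw1 : (w : ℝ) ≤ 3 * (K * L) := by
    have := Nat.ceil_lt_add_one (show 0 ≤ K * Real.log (4 * p) by positivity)
    have := mul_le_mul_of_nonneg_left hlog (show 0 ≤ K by linarith)
    have : 1 ≤ K * L := one_le_mul_of_one_le_of_one_le hK1 (by linarith)
    linarith
  have hw2 : (w : ℝ) ≤ 3 * L ^ 10 := by
    have := mul_le_mul_of_nonneg_right hK (show 0 ≤ L by linarith)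
    linarith
  have hw3 : 4 * p * Real.exp (-(w / K)) ≤ 1 := by
    have h1 : Real.log (4 * p) ≤ w / K := by
      rw [le_div_iff₀ (by linarith), mul_comm]; exact Nat.le_ceil _
    have h2 : Real.exp (-(w / K)) ≤ Real.exp (-Real.log (4 * p)) := Real.exp_le_exp.2 (by linarith)
    rw [Real.exp_neg (Real.log _), Real.exp_log (by positivity)] at h2
    have := mul_le_mul_of_nonneg_left h2 (show (0 : ℝ) ≤ 4 * p by positivity)
    rwa [mul_inv_cancel₀ (by positivity)] at this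
  clear_value w
  obtain ⟨A1, hA1, B1, hB1, d1, d2, d3⟩ := hF p A Pf P1 Q1 (Y ∩ (P1 + Q1)) K w (by linarith)
    (fun y hy => hYK y (mem_inter.1 hy).1) inter_subset_right hw3
  obtain ⟨A2, hA2, B2, hB2, e1, e2, e3⟩ := hF p A Pf P2 Q2 (Y ∩ (P2 + Q2)) K w (by linarith)
    (fun y hy => hYK y (mem_inter.1 hy).1) inter_subset_right hw3
  have h2m : (0 : ℝ) < 2 ^ m := by positivity
  have hX : (X.card : ℝ) * 2 ^ m ≤ 12 * y := by push_cast at i3; linarith
  have k0 : Cov A B (Y ∩ (A' + B')) (864 * S) 0 := by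
    refine ru_cov hA' hB' (c1.trans ?_) ?_ inter_subset_right
    · rw [show 24 * (L1 : ℝ) * (4 * ζ) / p = 96 * (L1 * ζ / p) by ring]; linarith
    · have h1 : (B'.card : ℝ) ≤ X.card * Wt.card := by exact_mod_cast c2
      have h2 := mul_le_mul_of_nonneg_left i6 (show (0 : ℝ) ≤ X.card by positivity)
      have h3 := mul_le_mul_of_nonneg_right hX (show (0 : ℝ) ≤ 4 * Bf by linarith)
      linarith
  have k1 : Cov A B (Y ∩ (P1 + Q1)) (648 * 128 ^ 24 * S + 9217 * S) 0 := by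
    refine ru_cov hA1 (hB1.trans hPf) ?_ ?_ d3
    · have h1 : (A1.card : ℝ) ≤ Q1.card * w := by exact_mod_cast d1
      have h2 : L ^ 10 ≤ 128 ^ 24 * 2 ^ (24 * m) := by
        have h3 : u ^ 24 ≤ (128 * 2 ^ m) ^ 24 := pow_le_pow_left₀ (by linarith) m4 24
        rw [mul_pow, ← pow_mul, mul_comm m] at h3
        refine le_trans ?_ h3
        rw [← hu2, ← pow_mul]
        exact pow_le_pow_right₀ (by linarith) (by norm_num)
      have h3 : (Q1.card : ℝ) * 2 ^ (24 * m) ≤ 216 * S := by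
        have := mul_le_mul_of_nonneg_right c4 (show (0 : ℝ) ≤ 2 ^ (24 * m) by positivity)
        rw [show 24 * (L1 : ℝ) * (2 ^ m * (ζ / 2 ^ (25 * m))) / p * 2 ^ (24 * m) = 24 * (L1 * ζ / p) by
          rw [show 25 * m = m + 24 * m by ring, pow_add]; field_simp] at this
        linarith
      have h4 : (Q1.card : ℝ) * w ≤ Q1.card * (3 * (128 ^ 24 * 2 ^ (24 * m))) :=
        mul_le_mul_of_nonneg_left (by linarith) (by positivity)
      linarith
    · have h1 : (P1.card : ℝ) ≤ X.card := by exact_mod_cast c3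
      have h2 : (P1.card : ℝ) * w ≤ X.card * (3 * (K * (128 * Θ * 2 ^ m))) :=
        mul_le_mul h1 (hw1.trans (by
          have := mul_le_mul_of_nonneg_left m3 (show 0 ≤ K by linarith); linarith))
          (by positivity) (by positivity)
      have h3 : (P1.card : ℝ) * w ≤ 4608 * y * (K * Θ) := by
        have := mul_le_mul_of_nonneg_right hX (show 0 ≤ K * Θ by positivity)
        linarith
      have h4 : (P1.card : ℝ) * w * Pf.card / p ≤ 4608 * y * (K * Θ * Pf.card / p) := by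
        have := mul_le_mul_of_nonneg_right h3 (show (0 : ℝ) ≤ Pf.card / p by positivity)
        calc _ = (P1.card : ℝ) * w * (Pf.card / p) := by ring
          _ ≤ _ := this
          _ = _ := by ring
      have h5 : y * (K * Θ * Pf.card / p) ≤ y * Bf := mul_le_mul_of_nonneg_left (by linarith) (by linarith)
      have : (0 : ℝ) ≤ 648 * 128 ^ 24 * S := by positivity
      linarith
  have k2 : Cov A B (Y ∩ (P2 + Q2)) (2737 * S) 0 := by
    have hq8 : q ^ 8 ≤ S := le_trans (pow_le_pow_right₀ hq1' (by norm_num)) hS9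
    have hwq : (w : ℝ) ≤ 3 * q := by linarith
    refine ru_cov hA2 (hB2.trans hPf) ?_ ?_ e3
    · have h1 : (A2.card : ℝ) ≤ Q2.card * w := by exact_mod_cast e1
      have h2 : (Q2.card : ℝ) ≤ J := by exact_mod_cast c6
      have h3 : (Q2.card : ℝ) * w ≤ 2 * q ^ 7 * (3 * q) :=
        mul_le_mul (by linarith) hwq (by positivity) (by positivity)
      linarith
    · have h1 : (C.card : ℝ) ≤ 2 ^ m := by exact_mod_cast i2
      have h2 : (X.card : ℝ) * C.card ≤ 12 * q ^ 10 :=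
        (mul_le_mul_of_nonneg_left h1 (by positivity)).trans (by linarith)
      have h3 : (p : ℝ) / L1 ≤ q ^ 10 / 4 := by
        rw [div_le_iff₀ hl0]
        have := mul_le_mul_of_nonneg_right (show (n0 : ℝ) ≤ 2 * q ^ 10 by linarith) hl0.le
        linarith
      have h4 : 8 * X.card * p / (Hf.card * L1) * C.card ≤ 24 * q ^ 3 := by
        rw [show 8 * (X.card : ℝ) * p / (Hf.card * L1) * C.card =
          8 * (X.card * C.card) * (p / L1) / Hf.card by field_simp, div_le_iff₀ hHf0]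
        have h5 := mul_le_mul h2 h3 (by positivity) (by positivity)
        have h6 := mul_le_mul_of_nonneg_left hHf (show 0 ≤ 24 * q ^ 3 by positivity)
        linarith
      have h5 : 2 * (L1 : ℝ) / J + 1 ≤ 19 * q ^ 4 := by
        have h6 : (L1 : ℝ) ≤ 9 * q ^ 11 := by
          have h7 : q ^ 9 * L1 ≤ q ^ 9 * (9 * q ^ 11) := by
            have := mul_le_mul_of_nonneg_right (hy9.trans hn1) hl0.le
            rw [← hq20] at hl2; linarith
          exact le_of_mul_le_mul_left h7 (by positivity)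
        have h7 : 2 * (L1 : ℝ) / J ≤ 18 * q ^ 4 := by
          rw [div_le_iff₀ (by linarith)]
          have := mul_le_mul_of_nonneg_left hJ1 (show 0 ≤ 18 * q ^ 4 by positivity)
          linarith
        have : 1 ≤ q ^ 4 := one_le_pow₀ hq1'
        linarith
      have h6 : (P2.card : ℝ) ≤ 24 * q ^ 3 * (19 * q ^ 4) :=
        c5.trans (mul_le_mul h4 h5 (by positivity) (by positivity))
      have h7 : (P2.card : ℝ) * w ≤ 24 * q ^ 3 * (19 * q ^ 4) * (3 * q) :=
        mul_le_mul h6 hwq (by positivity) (by positivity)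
      have h8 : (P2.card : ℝ) * w * Pf.card / p ≤ P2.card * w := by
        rw [div_le_iff₀ hp']
        exact mul_le_mul_of_nonneg_left (by exact_mod_cast card_le_p Pf) (by positivity)
      linarith
  refine ((k0.union k1).union k2).mono ?_ (le_of_eq (by ring)) (by simp)
  intro y hy
  rcases c7 y hy with h | h | h <;> simp [hy, h]

end Pool.Agent.MP_93a3f8_co
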