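import Pool.Agent.Mg.F93a3f8p.Gbed3f0

/-! The induction on the size. -/

open Finset Pointwise

namespace Pool.Agent.MP_93a3f8_co

lemma ma_near (hSt : StructStmt) (hW : WindowStmt) (δ : ℝ) (hδ : 0 < δ) :
    ∃ s : ℝ, 0 < s ∧ s ≤ 1 / 10 ∧ ∃ x0 : ℕ, ∀ (p : ℕ) [Fact p.Prime] (B X C : Finset (ZMod p)),
      2 * B.card ≤ p + 1 → x0 ≤ X.card → (X.card : ℝ) ≤ s * B.card → X.card ≤ C.card →
      (p : ℝ) ≤ B.card + X.card + C.card + s * X.card → (trip X B C : ℝ) ≤ s * (X.card : ℝ) ^ 2 →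
      ∃ g a a' : ZMod p, g ≠ 0 ∧ ((B \ ap a g B.card).card : ℝ) ≤ δ * X.card ∧
        (((-C) \ ap a' g C.card).card : ℝ) ≤ δ * X.card := by
  set t : ℝ := min (δ / 32) (1 / 20) with ht
  have ht0 : 0 < t := lt_min (by positivity) (by norm_num)
  have ht1 : t ≤ 1 / 20 := min_le_right _ _
  have ht2 : t ≤ δ / 32 := min_le_left _ _
  clear_value t
  obtain ⟨s, hs, x0, h⟩ := hSt (t / 4) (by positivity)
  refine ⟨min s (t ^ 2 / 4), lt_min hs (by positivity), (min_le_right _ _).trans (by nlinarith),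
    max x0 ⌈2 / t⌉₊, ?_⟩
  intro p _ B X C hB hx0 hx hxC hp htr
  have m1 := min_le_left s (t ^ 2 / 4)
  have m2 := min_le_right s (t ^ 2 / 4)
  have m0 : 0 < min s (t ^ 2 / 4) := lt_min hs (by positivity)
  generalize min s (t ^ 2 / 4) = s' at *
  have hX0 : (0 : ℝ) ≤ X.card := by positivity
  have hB0 : (0 : ℝ) ≤ B.card := by positivity
  obtain ⟨g, a, l, X1, hg, h1, h2, h3, h4⟩ := h p B X C hB ((le_max_left _ _).trans hx0)
    (hx.trans (mul_le_mul_of_nonneg_right m1 hB0))
    (hp.trans (by have := mul_le_mul_of_nonneg_right m1 hX0; linarith))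
    (htr.trans (mul_le_mul_of_nonneg_right m1 (by positivity)))
  have hl : (X1.card : ℝ) ≤ l := by exact_mod_cast (card_le_card h2).trans (card_ap_le _ _ _)
  have hxt : 2 ≤ t * X.card := by
    have : 2 / t ≤ X.card := (Nat.le_ceil _).trans (by exact_mod_cast (le_max_right _ _).trans hx0)
    rwa [div_le_iff₀ ht0, mul_comm] at this
  have e1 : t * X.card ≤ 1 / 20 * X.card := mul_le_mul_of_nonneg_right ht1 hX0
  have e2 : t * ((1 - t / 4) * X.card) ≤ t * l := mul_le_mul_of_nonneg_left (h4.trans hl) ht0.le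
  have e3 : t * (t * X.card) ≤ 1 / 20 * (t * X.card) := mul_le_mul_of_nonneg_right ht1 (by positivity)
  have e4 : t * l ≤ t * ((1 + t / 4) * X.card) := mul_le_mul_of_nonneg_left h3 ht0.le
  have e5 : s' * X.card ≤ t ^ 2 / 4 * X.card := mul_le_mul_of_nonneg_right m2 hX0
  have e6 : s' * B.card ≤ 1 / 10 * B.card := mul_le_mul_of_nonneg_right (by nlinarith) hB0
  have hB' : 2 * (B.card : ℝ) ≤ p + 1 := by exact_mod_cast hB
  have hp2 : (2 : ℝ) ≤ p := by exact_mod_cast (Fact.out : p.Prime).two_le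
  have hlp : l ≤ p := by
    have : (l : ℝ) ≤ p := by linarith
    exact_mod_cast this
  have hxC' : (X.card : ℝ) ≤ C.card := by exact_mod_cast hxC
  have htr1 : (trip X1 B C : ℝ) ≤ t ^ 2 * (l : ℝ) ^ 2 := by
    have h5 : (trip X1 B C : ℝ) ≤ trip X B C := by exact_mod_cast trip_mono h1 Subset.rfl Subset.rfl
    have h6 : (X.card : ℝ) ^ 2 ≤ (2 * l) ^ 2 := pow_le_pow_left₀ hX0 (by linarith) 2
    have h7 := mul_le_mul m2 h6 (by positivity) (by positivity)
    linarith
  have hfin : 16 * t * l ≤ δ * X.card := by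
    have := mul_le_mul_of_nonneg_right ht2 hX0
    linarith
  obtain ⟨b, hb⟩ := hW p B X1 C a g l t ht1 (by linarith) hlp hg h2 (by linarith) (by linarith) htr1
    (by linarith)
  obtain ⟨b', hb'⟩ := hW p (-C) X1 (-B) a g l t ht1 (by linarith) hlp hg h2 (by linarith)
    (by rw [card_neg, card_neg]; linarith)
    (by rwa [trip_comm, ← trip_rot, trip_comm]) (by rw [card_neg]; linarith)
  rw [card_neg] at hb'
  exact ⟨g, b, b', hg, hb.trans hfin, hb'.trans hfin⟩

/-- In the sparse case sampling works or both sets are close to progressions. -/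
lemma ma_sparse (hSt : StructStmt) (hW : WindowStmt) (hSh : ShrinkStmt) (hS1 : S1Stmt)
    (δ β : ℝ) (hδ : 0 < δ) (hβ : 0 < β) (hβ1 : β ≤ 1) :
    ∃ c : ℝ, 0 ≤ c ∧ ∃ n0 : ℕ, ∀ (p : ℕ) [Fact p.Prime] (A B : Finset (ZMod p)) (n m : ℕ),
      n0 ≤ n → A.card = n → B.card = n → 2 * n + m = p + 1 → β * n ≤ m → Good A B n (c * √n) ∨
        ∃ g a b : ZMod p, g ≠ 0 ∧ ((A \ ap a g n).card : ℝ) ≤ δ * n ∧
          ((B \ ap b g n).card : ℝ) ≤ δ * n := by
  obtain ⟨s, hs, hs1, x0, hN⟩ := ma_near hSt hW 1 one_pos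
  set γ : ℝ := min (min (δ / 16) s) (β / 20) with hγ
  have hγ0 : 0 < γ := lt_min (lt_min (by positivity) hs) (by positivity)
  have hγ1 : γ ≤ δ / 16 := (min_le_left _ _).trans (min_le_left _ _)
  have hγ2 : γ ≤ s := (min_le_left _ _).trans (min_le_right _ _)
  have hγ3 : γ ≤ β / 20 := min_le_right _ _
  clear_value γ
  obtain ⟨σ0, hσ0, n1, hSh'⟩ := hSh γ (s * γ ^ 4 / 256) hγ0 (by linarith) (by positivity)
  have m1 := min_le_left σ0 (γ ^ 2)
  have m2 := min_le_right σ0 (γ ^ 2)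
  have m0 : 0 < min σ0 (γ ^ 2) := lt_min hσ0 (by positivity)
  generalize min σ0 (γ ^ 2) = η at *
  obtain ⟨c, hc, n2, hS⟩ := hS1 η m0
  refine ⟨c, hc, max (max n1 n2) ⌈16 * (x0 + 1) / γ ^ 2⌉₊, ?_⟩
  intro p _ A B n m hn hA hB hm hβm
  refine (hS p A B n hA hB ((le_max_right _ _).trans ((le_max_left _ _).trans hn))).imp_right ?_
  rintro ⟨S, hS1', hS2⟩
  have hn0 : (0 : ℝ) ≤ n := by positivity
  have hx0 : (0 : ℝ) ≤ x0 := by positivity
  have hγn : 16 * ((x0 : ℝ) + 1) ≤ γ ^ 2 * n := by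
    have : 16 * ((x0 : ℝ) + 1) / γ ^ 2 ≤ n :=
      (Nat.le_ceil _).trans (by exact_mod_cast (le_max_right _ _).trans hn)
    rwa [div_le_iff₀ (by positivity), mul_comm (n : ℝ)] at this
  have hm' : 2 * (n : ℝ) + m = p + 1 := by exact_mod_cast hm
  have e1 : γ * γ ≤ 1 / 20 * γ := mul_le_mul_of_nonneg_right (by linarith) hγ0.le
  have e2 : γ ^ 2 * n ≤ 1 / 20 * γ * n := mul_le_mul_of_nonneg_right (by linarith) hn0
  have e3 : η * n ≤ γ ^ 2 * n := mul_le_mul_of_nonneg_right m2 hn0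
  have e4 : γ * n ≤ β / 20 * n := mul_le_mul_of_nonneg_right hγ3 hn0
  have e5 : η * n ≤ σ0 * n := mul_le_mul_of_nonneg_right m1 hn0
  have e6 : η * (n : ℝ) ^ 2 ≤ σ0 * (n : ℝ) ^ 2 := mul_le_mul_of_nonneg_right m1 (by positivity)
  have e7 : β * n ≤ 1 * n := mul_le_mul_of_nonneg_right hβ1 hn0
  have hn1 : n1 ≤ B.card := hB ▸ (le_max_left _ _).trans ((le_max_left _ _).trans hn)
  have hT : ∃ X' C' : Finset (ZMod p), γ ^ 2 * n / 16 ≤ X'.card ∧ (X'.card : ℝ) ≤ γ * n ∧
      (p : ℝ) ≤ X'.card + n + C'.card + s * γ ^ 4 / 256 * n ∧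
      (trip X' B C' : ℝ) ≤ s * γ ^ 4 / 256 * (n : ℝ) ^ 2 := by
    by_cases h3 : 3 * n ≤ p
    · have := hSh' p A B S hn1 (by omega) (by omega) (by rw [hA, hB]; linarith)
        (by rw [hA, hB]; linarith) (by rw [hB]; linarith)
      rwa [hB] at this
    · obtain ⟨S', hS', hc'⟩ := exists_subset_card_eq (s := S) (n := min S.card (m - 1)) (min_le_left _ _)
      have hm1 : 1 ≤ m := by
        have : (1 : ℝ) ≤ m := by linarith
        exact_mod_cast this
      have h4 : (p : ℝ) ≤ 2 * n + η * n + S'.card := by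
        rw [hc']
        rcases le_total S.card (m - 1) with h | h
        · rwa [min_eq_left h]
        · rw [min_eq_right h, Nat.cast_sub hm1]
          have := mul_nonneg m0.le hn0
          push_cast; linarith
      have h5 : S'.card ≤ m - 1 := hc' ▸ min_le_right _ _
      have h6 : (trip (-S') B (-A) : ℝ) ≤ trip A B S := by
        rw [← trip_rot]; exact_mod_cast trip_mono Subset.rfl Subset.rfl hS'
      have := hSh' p (-S') B (-A) hn1 (by rw [card_neg]; omega) (by rw [card_neg]; omega)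
        (by rw [card_neg, hB]; linarith) (by rw [card_neg, card_neg, hA, hB]; linarith)
        (by rw [hB]; linarith)
      rwa [hB] at this
  obtain ⟨X', C', t1, t2, t3, t4⟩ := hT
  have hg2 : γ ^ 2 ≤ 1 := by nlinarith
  have f1 : s * γ ^ 4 / 256 * n ≤ s * X'.card := by
    have h1 : γ ^ 2 * (γ ^ 2 * n) ≤ 1 * (γ ^ 2 * n) := mul_le_mul_of_nonneg_right hg2 (by positivity)
    have h2 : γ ^ 4 / 256 * n ≤ X'.card := by linarith
    have := mul_le_mul_of_nonneg_left h2 hs.le
    linarith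
  have f2 : s * X'.card ≤ 1 / 10 * X'.card := mul_le_mul_of_nonneg_right hs1 (by positivity)
  obtain ⟨g, b, -, hg, hb, -⟩ := hN p B X' C' (by omega)
    (by have : (x0 : ℝ) ≤ X'.card := by linarith
        exact_mod_cast this)
    (by rw [hB]; exact t2.trans (mul_le_mul_of_nonneg_right hγ2 hn0))
    (by have : (0 : ℝ) ≤ m := by positivity
        have : (X'.card : ℝ) ≤ C'.card := by linarith
        exact_mod_cast this)
    (by rw [hB]; linarith)
    (by have h1 := pow_le_pow_left₀ (by positivity) t1 2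
        have := mul_le_mul_of_nonneg_left h1 hs.le
        linarith)
  rw [hB] at hb
  have hi : ((B ∩ ap b g n).card : ℝ) + (B \ ap b g n).card = n := by
    rw [← hB]; exact_mod_cast card_inter_add_card_sdiff _ _
  obtain ⟨a, ha⟩ := hW p A (B ∩ ap b g n) S b g n γ (by linarith) (by linarith) (by omega) hg
    inter_subset_right (by linarith) (by rw [hA]; linarith)
    (by have h1 : (trip (B ∩ ap b g n) A S : ℝ) ≤ trip A B S := by
          rw [trip_comm A]; exact_mod_cast trip_mono inter_subset_left Subset.rfl Subset.rfl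
        have := mul_le_mul_of_nonneg_right m2 (show 0 ≤ (n : ℝ) ^ 2 by positivity)
        linarith)
    (by linarith)
  rw [hA] at ha
  have := mul_le_mul_of_nonneg_right hγ1 hn0
  have := mul_nonneg hγ0.le hn0
  exact ⟨g, a, b, hg, by linarith, by linarith⟩

theorem main (hE : EndStmt) (hSt : StructStmt) (hW : WindowStmt) (hSh : ShrinkStmt) (hS1 : S1Stmt)
    (hD : DenseStmt) : MainStmt := by
  obtain ⟨δ, hδ, CE, hCE, μ0, hE⟩ := hE
  obtain ⟨s, hs, hs1, x0, hN⟩ := ma_near hSt hW δ hδ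
  obtain ⟨CD, hCD, p0, hD⟩ := hD (s / 2) (by positivity) (by linarith)
  set β : ℝ := min s (1 / 100000) with hβ
  have hβ0 : 0 < β := lt_min hs (by norm_num)
  have hβ1 : β ≤ s := min_le_left _ _
  have hβ2 : β ≤ 1 / 100000 := min_le_right _ _
  clear_value β
  obtain ⟨c1, hc1, n1, hSp⟩ := ma_sparse hSt hW hSh hS1 (δ * β) β (by positivity) hβ0 (by linarith)
  set R : ℝ := 512 * (x0 + μ0 + 1) / β with hR
  have hR0 : 0 < R := by positivity
  set n0 : ℕ := max (max n1 p0) ⌈R ^ 2⌉₊ with hn0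
  set c : ℝ := 1 + √n0 + c1 + 2 * CD + 2 * CE with hc
  have hsq : 0 ≤ √(n0 : ℝ) := Real.sqrt_nonneg _
  refine ⟨c, by positivity, fun p _ n => ?_⟩
  induction n using Nat.strong_induction_on with
  | _ n ih =>
  intro A B hn hA hB
  have hsn : 0 ≤ √(n : ℝ) := Real.sqrt_nonneg _
  have hn0' : (0 : ℝ) ≤ n := by positivity
  have hss : √(n : ℝ) * √(n : ℝ) = n := Real.mul_self_sqrt hn0'
  by_cases hsm : n ≤ n0
  · have h1 : √(n : ℝ) ≤ c := (Real.sqrt_le_sqrt (show (n : ℝ) ≤ n0 by exact_mod_cast hsm)).trans (by linarith)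
    have h2 : (n : ℝ) ≤ c * √n := by nlinarith
    refine ⟨A, Subset.rfl, B, Subset.rfl, by rwa [hA], by rwa [hB], ?_⟩
    rcases Nat.eq_zero_or_pos n with h0 | h0
    · omega
    · have := ZMod.cauchy_davenport (Fact.out : p.Prime) (s := A) (t := B) (card_pos.1 (by omega))
        (card_pos.1 (by omega))
      omega
  push Not at hsm
  obtain ⟨m, hm⟩ : ∃ m, 2 * n + m = p + 1 := ⟨p + 1 - 2 * n, by omega⟩
  have hRn : R ≤ √n := Real.le_sqrt_of_sq_le
    ((Nat.le_ceil _).trans (by exact_mod_cast (le_max_right _ _).trans hsm.le))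
  have hRβ : 512 * ((x0 : ℝ) + μ0 + 1) ≤ β * √n := by
    rw [hR, div_le_iff₀ hβ0] at hRn; linarith
  have hx0 : (0 : ℝ) ≤ x0 := by positivity
  have hμ0 : (0 : ℝ) ≤ μ0 := by positivity
  have hβs : β * √n ≤ 1 * √n := mul_le_mul_of_nonneg_right (by linarith) hsn
  have hend : ∀ (μ : ℕ) (a b g : ZMod p), g ≠ 0 → μ = min n m → √n ≤ 256 * (μ : ℝ) →
      ((A \ ap a g n).card : ℝ) ≤ δ * μ → ((B \ ap b g n).card : ℝ) ≤ δ * μ → Good A B n (c * √n) := by
    intro μ a b g hg hμ h1 h2 h3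
    refine (hE p n μ A B a b g c (by positivity) hA hB hn hg (by rw [hμ]; congr 1; omega)
      (by have : (μ0 : ℝ) ≤ μ := by linarith
          exact_mod_cast this) h1 h2 h3
      (fun n' A1 B1 k1 k2 k3 k4 => ih n' (by omega) A1 B1 (by omega) k3 k4)).mono ?_
    have : CE + c / 5 ≤ c := by linarith
    have := mul_le_mul_of_nonneg_right this hsn
    linarith
  by_cases hsp : β * n ≤ m
  · rcases hSp p A B n m ((le_max_left _ _).trans ((le_max_left _ _).trans hsm.le)) hA hB hm hsp with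
      h | ⟨g, a, b, hg, h1, h2⟩
    · exact h.mono (mul_le_mul_of_nonneg_right (by linarith) hsn)
    · have h3 : β * n ≤ (min n m : ℕ) := by
        push_cast
        exact le_min (by nlinarith) hsp
      have h4 := mul_le_mul_of_nonneg_left h3 hδ.le
      refine hend _ a b g hg rfl ?_ (by linarith) (by linarith)
      have := mul_le_mul_of_nonneg_right (show 1 ≤ β * √n by linarith) hsn
      have : (0 : ℝ) ≤ (min n m : ℕ) := by positivity
      nlinarith
  push Not at hsp
  have hm1 : 100000 * m ≤ n := by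
    have := mul_le_mul_of_nonneg_right hβ2 hn0'
    have : 100000 * (m : ℝ) ≤ n := by linarith
    exact_mod_cast this
  have hn1 : 1 ≤ n := by omega
  rcases hD p A B n m (((le_max_right _ _).trans ((le_max_left _ _).trans hsm.le)).trans (by omega))
    hA hB hm hm1 with h | ⟨h1, X, h2, h3, h4⟩
  · refine h.mono ?_
    have h1 : √(p : ℝ) ≤ 2 * √n := by
      refine Real.sqrt_le_iff.2 ⟨by positivity, ?_⟩
      have : (p : ℝ) ≤ 4 * n := by exact_mod_cast (show p ≤ 4 * n by omega)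
      nlinarith
    have h2 := mul_le_mul_of_nonneg_left h1 hCD
    have h3 := mul_le_mul_of_nonneg_right (show 2 * CD ≤ c by linarith) hsn
    linarith
  · have h5 : √(n : ℝ) ≤ 256 * m :=
      (Real.sqrt_le_sqrt (by exact_mod_cast (show n ≤ p by omega))).trans h1
    have hm0 : (0 : ℝ) ≤ m := by positivity
    have hX : (X.card : ℝ) ≤ m := by exact_mod_cast h2
    have h6 : s * m ≤ 1 / 10 * m := mul_le_mul_of_nonneg_right hs1 hm0
    have h7 : s * m ≤ s * (2 * X.card) := mul_le_mul_of_nonneg_left (by linarith) hs.le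
    have hm' : 2 * (n : ℝ) + m = p + 1 := by exact_mod_cast hm
    obtain ⟨g, b, a, hg, k1, k2⟩ := hN p B (-X) (-A) (by omega)
      (by rw [card_neg]
          have : (x0 : ℝ) ≤ X.card := by linarith
          exact_mod_cast this)
      (by rw [card_neg, hB]
          have := mul_le_mul_of_nonneg_right hβ1 hn0'
          linarith)
      (by rw [card_neg, card_neg]; omega)
      (by rw [card_neg, card_neg, hA, hB]; linarith)
      (by rw [← trip_rot, trip_eq, card_neg]
          push_cast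
          refine (sum_le_sum h4).trans ?_
          rw [sum_const, nsmul_eq_mul]
          have := mul_le_mul_of_nonneg_left h7 (show (0 : ℝ) ≤ X.card by positivity)
          linarith)
    rw [neg_neg, card_neg, card_neg, hA] at k2
    rw [card_neg, hB] at k1
    have h8 := mul_le_mul_of_nonneg_left hX hδ.le
    exact hend m a b g hg (by omega) h5 (by linarith) (by linarith)

end Pool.Agent.MP_93a3f8_co
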