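import Pool.Agent.Mg.F93a3f8p.Gbed3f0

section

/-! Shrinking one set of an almost extremal triple. -/

open Finset Pointwise

namespace Pool.Agent.MP_93a3f8_co

namespace ShrinkAux

variable {p : ℕ} [Fact p.Prime]

/-- The translate `S + t`. -/
def sh (S : Finset (ZMod p)) (t : ZMod p) : Finset (ZMod p) := univ.filter fun y => y - t ∈ S

lemma mem_sh {S : Finset (ZMod p)} {t y : ZMod p} : y ∈ sh S t ↔ y - t ∈ S := by simp [sh]

lemma card_sh (S : Finset (ZMod p)) (t : ZMod p) : (sh S t).card = S.card := by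
  simpa [sh, sub_eq_add_neg] using card_filter_shift S (-t)

lemma trip_sh (X B C : Finset (ZMod p)) (t : ZMod p) : trip (sh X t) B (sh C t) = trip X B C := by
  unfold trip
  refine sum_bij (fun y _ => y - t) (fun y hy => mem_sh.1 hy) (fun a _ b _ h => by simpa using h)
    (fun y hy => ⟨y + t, mem_sh.2 (by simpa using hy), by simp⟩) fun y _ => ?_
  congr 1
  ext b
  simp only [mem_filter, mem_sh]
  rw [show y + b - t = y - t + b by ring]

lemma trip_union_left (X Y B C : Finset (ZMod p)) :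
    trip (X ∪ Y) B C ≤ trip X B C + trip Y B C := by
  unfold trip
  rw [← sum_union_inter]
  exact Nat.le_add_right _ _

lemma trip_union_right (X B C D : Finset (ZMod p)) :
    trip X B (C ∪ D) ≤ trip X B C + trip X B D := by
  simp only [trip_eq]
  rw [← sum_union_inter]
  exact Nat.le_add_right _ _

lemma card_inter_sh (X : Finset (ZMod p)) (t : ZMod p) :
    fS X t + (X ∩ sh X t).card = X.card := by
  rw [← fS_add_inter X t]
  congr 2
  ext a
  simp [mem_sh]

lemma sum_inter_sh (X : Finset (ZMod p)) : ∑ u, (X ∩ sh X u).card = X.card * X.card := by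
  have h : ∀ u, (X ∩ sh X u).card = rep (-X) X u := by
    intro u
    unfold rep
    congr 1
    ext a
    simp [mem_sh]
  simp only [h]
  rw [sum_rep, card_neg]

lemma sum_rep_sq (X B : Finset (ZMod p)) :
    ∑ y, rep X B y ^ 2 = ∑ b ∈ B, ∑ b' ∈ B, (X ∩ sh X (b' - b)).card := by
  have h : ∀ y, rep X B y ^ 2 =
      ∑ b ∈ B, ∑ b' ∈ B, if y - b ∈ X ∧ y - b' ∈ X then 1 else 0 := by
    intro y
    rw [sq, rep, card_filter, sum_mul_sum]
    refine sum_congr rfl fun b _ => sum_congr rfl fun b' _ => ?_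
    by_cases h1 : y - b ∈ X <;> by_cases h2 : y - b' ∈ X <;> simp [h1, h2]
  simp only [h]
  rw [sum_comm]
  refine sum_congr rfl fun b _ => ?_
  rw [sum_comm]
  refine sum_congr rfl fun b' _ => ?_
  rw [← card_filter]
  refine card_bij (fun y _ => y - b) (fun y hy => ?_) (fun a _ c _ h => by simpa using h)
    (fun a ha => ⟨a + b, ?_, by simp⟩)
  · simp only [mem_filter, mem_univ, true_and, mem_inter, mem_sh] at hy ⊢
    rw [show y - b - (b' - b) = y - b' by ring]
    exact hy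
  · simp only [mem_filter, mem_univ, true_and, mem_inter, mem_sh] at ha ⊢
    rw [show a + b - b' = a - (b' - b) by ring, add_sub_cancel_right]
    exact ha

/-- A popular difference. -/
lemma popular {γ s : ℝ} (hγ : 0 < γ) (hs : 0 ≤ s) (hsγ : s ≤ γ / 8) (hγ1 : γ ≤ 1)
    (X B C : Finset (ZMod p)) (hn : 6 ≤ γ ^ 2 * B.card) (hX : X.card ≤ B.card)
    (hx : γ * B.card < X.card) (hp : (p : ℝ) ≤ X.card + B.card + C.card + s * B.card)
    (ht : (trip X B C : ℝ) ≤ s * (B.card : ℝ) ^ 2) :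
    ∃ t : ZMod p, t ≠ 0 ∧ γ ^ 2 * B.card / 16 ≤ ((X ∩ sh X t).card : ℝ) := by
  by_contra hcon
  push Not at hcon
  set n : ℝ := (B.card : ℝ) with hn'
  set x : ℝ := (X.card : ℝ) with hx'
  have hnpos : 0 < n := by
    by_contra h
    have : γ ^ 2 * n ≤ 0 := mul_nonpos_of_nonneg_of_nonpos (by positivity) (by linarith)
    linarith
  have hxn : x ≤ n := by rw [hx', hn']; exact_mod_cast hX
  have hxpos : 0 < x := lt_trans (by positivity) hx
  have hD : ((Cᶜ : Finset (ZMod p)).card : ℝ) ≤ 3 * n := by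
    have h1 : (Cᶜ : Finset (ZMod p)).card + C.card = p := by
      rw [add_comm, card_add_card_compl, ZMod.card]
    have h2 : ((Cᶜ : Finset (ZMod p)).card : ℝ) + C.card = p := by exact_mod_cast h1
    have h3 : s * n ≤ 1 * n := mul_le_mul_of_nonneg_right (by linarith) hnpos.le
    linarith
  have hsum : (∑ y ∈ (Cᶜ : Finset (ZMod p)), (rep X B y : ℝ)) + trip X B C = x * n := by
    have h1 : (∑ y ∈ (Cᶜ : Finset (ZMod p)), rep X B y) + trip X B C = X.card * B.card := by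
      rw [trip_eq, add_comm, sum_add_sum_compl, sum_rep]
    rw [hx', hn']
    exact_mod_cast h1
  have hlow : 7 / 8 * (x * n) ≤ ∑ y ∈ (Cᶜ : Finset (ZMod p)), (rep X B y : ℝ) := by
    have h1 : s * n ^ 2 ≤ γ / 8 * n ^ 2 := mul_le_mul_of_nonneg_right hsγ (by positivity)
    have h2 : γ * n * n ≤ x * n := mul_le_mul_of_nonneg_right hx.le hnpos.le
    nlinarith
  have hcs : (∑ y ∈ (Cᶜ : Finset (ZMod p)), (rep X B y : ℝ)) ^ 2 ≤
      (Cᶜ : Finset (ZMod p)).card * ∑ y ∈ (Cᶜ : Finset (ZMod p)), (rep X B y : ℝ) ^ 2 :=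
    sq_sum_le_card_mul_sum_sq
  have hsq : ∑ y ∈ (Cᶜ : Finset (ZMod p)), (rep X B y : ℝ) ^ 2 ≤ n * (x + n * (γ ^ 2 * n / 16)) := by
    have h1 : ∑ y ∈ (Cᶜ : Finset (ZMod p)), (rep X B y : ℝ) ^ 2 ≤ ∑ y, (rep X B y : ℝ) ^ 2 :=
      sum_le_sum_of_subset_of_nonneg (subset_univ _) fun _ _ _ => by positivity
    have h2 : ∑ y, (rep X B y : ℝ) ^ 2 =
        ∑ b ∈ B, ∑ b' ∈ B, ((X ∩ sh X (b' - b)).card : ℝ) := by
      exact_mod_cast sum_rep_sq X B
    have h3 : ∀ b ∈ B, ∑ b' ∈ B, ((X ∩ sh X (b' - b)).card : ℝ) ≤ x + n * (γ ^ 2 * n / 16) := by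
      intro b hb
      have h4 : ∀ b' ∈ B, ((X ∩ sh X (b' - b)).card : ℝ) ≤
          (if b' = b then x else 0) + γ ^ 2 * n / 16 := by
        intro b' _
        split_ifs with h5
        · have h6 : ((X ∩ sh X (b' - b)).card : ℝ) ≤ x := by
            rw [hx']; exact_mod_cast card_le_card inter_subset_left
          have : 0 ≤ γ ^ 2 * n / 16 := by positivity
          linarith
        · rw [zero_add]
          exact (hcon _ (sub_ne_zero.2 h5)).le
      refine (sum_le_sum h4).trans ?_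
      rw [sum_add_distrib, sum_ite_eq', if_pos hb, sum_const, nsmul_eq_mul]
    refine h1.trans ?_
    rw [h2]
    refine (sum_le_sum h3).trans ?_
    rw [sum_const, nsmul_eq_mul]
  have h1 : (7 / 8 * (x * n)) ^ 2 ≤ 3 * n * (n * (x + n * (γ ^ 2 * n / 16))) := by
    refine (pow_le_pow_left₀ (by positivity) hlow 2).trans (hcs.trans ?_)
    exact mul_le_mul hD hsq (sum_nonneg fun _ _ => by positivity) (by positivity)
  have h2 : 49 / 64 * x ^ 2 ≤ 3 * (x + n * (γ ^ 2 * n / 16)) := by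
    have h3 : n ^ 2 * (49 / 64 * x ^ 2) ≤ n ^ 2 * (3 * (x + n * (γ ^ 2 * n / 16))) := by
      nlinarith
    exact le_of_mul_le_mul_left h3 (by positivity)
  have h3 : (γ * n) ^ 2 < x ^ 2 := pow_lt_pow_left₀ hx (by positivity) (by norm_num)
  have h4 : 6 * n ≤ γ ^ 2 * n * n := mul_le_mul_of_nonneg_right hn hnpos.le
  nlinarith

/-- A difference that is popular but not too popular. -/
lemma middle (X : Finset (ZMod p)) (hX : 2 * X.card ≤ p) {t0 : ZMod p} (ht0 : t0 ≠ 0)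
    (h0 : 4 * fS X t0 < X.card) : ∃ t : ZMod p, X.card ≤ 4 * fS X t ∧ 2 * fS X t ≤ X.card := by
  have hex : ∃ j : ℕ, X.card ≤ 4 * fS X (j * t0) := by
    by_contra hcon
    push Not at hcon
    have h1 : ∀ u, 4 * fS X u < X.card := by
      intro u
      have := hcon (u / t0).val
      rwa [ZMod.natCast_zmod_val, div_mul_cancel₀ _ ht0] at this
    have h2 : ∑ u : ZMod p, (3 * X.card + 1) ≤ ∑ u, 4 * (X ∩ sh X u).card :=
      sum_le_sum fun u _ => by
        have := card_inter_sh X u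
        have := h1 u
        omega
    rw [← mul_sum, sum_inter_sh, sum_const, card_univ_p, smul_eq_mul] at h2
    have hp : 0 < p := (Fact.out : p.Prime).pos
    nlinarith
  classical
  have h1 := Nat.find_spec hex
  have h2 : Nat.find hex ≠ 0 := by
    intro h
    rw [h] at h1
    simp only [Nat.cast_zero, zero_mul, fS_zero] at h1
    omega
  obtain ⟨j, hj⟩ := Nat.exists_eq_succ_of_ne_zero h2
  have h3 := Nat.find_min hex (m := j) (by omega)
  refine ⟨_, h1, ?_⟩
  have h4 := fS_add X (j * t0) t0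
  rw [hj, Nat.cast_succ, add_mul, one_mul]
  omega

/-- The consequence of Pollard's theorem. -/
lemma pollard_trip (X B C : Finset (ZMod p)) (T : ℕ) (hX : T ≤ X.card) (hB : T ≤ B.card)
    (h : X.card + B.card ≤ p + T) :
    T * (X.card + B.card + C.card) ≤ T * p + trip X B C + T * T := by
  have h1 := pollard X B T hX hB h
  have h2 : ∑ y, min T (rep X B y) ≤ trip X B C + T * (Cᶜ : Finset (ZMod p)).card := by
    rw [← sum_add_sum_compl C, trip_eq]
    refine Nat.add_le_add (sum_le_sum fun y _ => min_le_right _ _) ?_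
    refine (sum_le_sum fun y _ => min_le_left _ _).trans ?_
    rw [sum_const, smul_eq_mul, mul_comm]
  have h3 : C.card + (Cᶜ : Finset (ZMod p)).card = p := by
    rw [card_add_card_compl, ZMod.card]
  have h4 : T * p = T * C.card + T * (Cᶜ : Finset (ZMod p)).card := by rw [← mul_add, h3]
  rw [mul_add]
  omega

/-- One shrinking step. -/
lemma step {γ σ : ℝ} (hγ : 0 < γ) (hγ1 : γ ≤ 1) (hσ : 0 < σ) : ∃ σ0 : ℝ, 0 < σ0 ∧ ∃ n0 : ℕ,
    ∀ (p : ℕ) [Fact p.Prime] (X B C : Finset (ZMod p)), n0 ≤ B.card → X.card ≤ B.card →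
      2 * X.card + B.card ≤ p → γ * B.card < X.card →
      (p : ℝ) ≤ X.card + B.card + C.card + σ0 * B.card →
      (trip X B C : ℝ) ≤ σ0 * (B.card : ℝ) ^ 2 →
      ∃ X' C' : Finset (ZMod p), γ ^ 2 * B.card / 16 ≤ X'.card ∧ 4 * X'.card ≤ 3 * X.card ∧
        (p : ℝ) ≤ X'.card + B.card + C'.card + σ * B.card ∧
        (trip X' B C' : ℝ) ≤ σ * (B.card : ℝ) ^ 2 := by
  obtain ⟨s, hs0, hsγ, hsσ⟩ : ∃ s : ℝ, 0 < s ∧ s ≤ γ / 8 ∧ s ≤ σ / 8 :=
    ⟨min (γ / 8) (σ / 8), lt_min (by positivity) (by positivity), min_le_left _ _, min_le_right _ _⟩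
  have hs1 : s ≤ 1 := by linarith
  have hss : s ^ 2 ≤ s := by nlinarith
  refine ⟨s ^ 2, by positivity, ⌈6 / γ ^ 2 + 3 / σ⌉₊, ?_⟩
  intro p _ X B C hn0 hX hp2 hx hp ht
  have hn1 : 6 / γ ^ 2 + 3 / σ ≤ B.card := (Nat.ceil_le.1 hn0)
  have hn2 : 6 ≤ γ ^ 2 * B.card := by
    have : 6 / γ ^ 2 ≤ B.card := le_trans (le_add_of_nonneg_right (by positivity)) hn1
    rw [div_le_iff₀ (by positivity)] at this
    linarith
  have hn3 : 3 ≤ σ * B.card := by
    have : 3 / σ ≤ B.card := le_trans (le_add_of_nonneg_left (by positivity)) hn1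
    rw [div_le_iff₀ hσ] at this
    linarith
  have hnpos : (0 : ℝ) < B.card := by
    by_contra h
    have : σ * B.card ≤ 0 := mul_nonpos_of_nonneg_of_nonpos hσ.le (by linarith)
    linarith
  have hγn : γ ^ 2 * B.card ≤ γ * B.card :=
    mul_le_mul_of_nonneg_right (by nlinarith) hnpos.le
  obtain ⟨t0, ht0, h0⟩ := popular hγ (by positivity) (hss.trans hsγ) hγ1 X B C hn2 hX hx hp ht
  obtain ⟨t, ht1, ht2⟩ : ∃ t : ZMod p, γ ^ 2 * B.card / 16 ≤ ((X ∩ sh X t).card : ℝ) ∧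
      4 * (X ∩ sh X t).card ≤ 3 * X.card := by
    by_cases h1 : X.card ≤ 4 * fS X t0
    · refine ⟨t0, h0, ?_⟩
      have := card_inter_sh X t0
      omega
    · obtain ⟨t, h2, h3⟩ := middle X (by omega) ht0 (by omega)
      have h4 := card_inter_sh X t
      refine ⟨t, ?_, by omega⟩
      have h5 : X.card ≤ 2 * (X ∩ sh X t).card := by omega
      have h6 : (X.card : ℝ) ≤ 2 * (X ∩ sh X t).card := by exact_mod_cast h5
      have h7 : (0 : ℝ) ≤ (X ∩ sh X t).card := Nat.cast_nonneg _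
      linarith
  have htr1 : trip (X ∩ sh X t) B (C ∪ sh C t) ≤ 2 * trip X B C := by
    have h1 := trip_union_right (X ∩ sh X t) B C (sh C t)
    have h2 : trip (X ∩ sh X t) B C ≤ trip X B C := trip_mono inter_subset_left Subset.rfl Subset.rfl
    have h3 : trip (X ∩ sh X t) B (sh C t) ≤ trip (sh X t) B (sh C t) :=
      trip_mono inter_subset_right Subset.rfl Subset.rfl
    rw [trip_sh] at h3
    omega
  have htr2 : trip (X ∪ sh X t) B (C ∩ sh C t) ≤ 2 * trip X B C := by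
    have h1 := trip_union_left X (sh X t) B (C ∩ sh C t)
    have h2 : trip X B (C ∩ sh C t) ≤ trip X B C := trip_mono Subset.rfl Subset.rfl inter_subset_left
    have h3 : trip (sh X t) B (C ∩ sh C t) ≤ trip (sh X t) B (sh C t) :=
      trip_mono Subset.rfl Subset.rfl inter_subset_right
    rw [trip_sh] at h3
    omega
  have hcX : (X ∪ sh X t).card + (X ∩ sh X t).card = 2 * X.card := by
    rw [card_union_add_card_inter, card_sh, two_mul]
  have hcC : (C ∪ sh C t).card + (C ∩ sh C t).card = 2 * C.card := by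
    rw [card_union_add_card_inter, card_sh, two_mul]
  refine ⟨X ∩ sh X t, C ∪ sh C t, ht1, ht2, ?_, ?_⟩
  · set T := ⌈s * B.card⌉₊ with hT
    have hT1 : s * B.card ≤ T := Nat.le_ceil _
    have hT2 : (T : ℝ) ≤ s * B.card + 1 := (Nat.ceil_lt_add_one (by positivity)).le
    have hTpos : (0 : ℝ) < T := lt_of_lt_of_le (by positivity) hT1
    have hTX : T ≤ X.card := by
      have h1 : s * B.card ≤ γ / 8 * B.card := mul_le_mul_of_nonneg_right hsγ hnpos.le
      have : (T : ℝ) ≤ X.card := by linarith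
      exact_mod_cast this
    have hU : X.card ≤ (X ∪ sh X t).card := card_le_card subset_union_left
    have h1 := pollard_trip (X ∪ sh X t) B (C ∩ sh C t) T (by omega) (by omega) (by omega)
    have h2 : (T : ℝ) * ((X ∪ sh X t).card + B.card + (C ∩ sh C t).card) ≤
        T * p + 2 * trip X B C + T * T := by
      have : T * ((X ∪ sh X t).card + B.card + (C ∩ sh C t).card) ≤
        T * p + 2 * trip X B C + T * T := by omega
      exact_mod_cast this
    have h3 : (trip X B C : ℝ) ≤ T * (s * B.card) := by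
      have : s * B.card * (s * B.card) ≤ T * (s * B.card) :=
        mul_le_mul_of_nonneg_right hT1 (by positivity)
      nlinarith
    have h4 : ((X ∪ sh X t).card : ℝ) + B.card + (C ∩ sh C t).card ≤ p + 2 * (s * B.card) + T := by
      apply le_of_mul_le_mul_left _ hTpos
      nlinarith
    have h5 : ((X ∪ sh X t).card : ℝ) + (X ∩ sh X t).card = 2 * X.card := by exact_mod_cast hcX
    have h6 : ((C ∪ sh C t).card : ℝ) + (C ∩ sh C t).card = 2 * C.card := by exact_mod_cast hcC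
    have h7 : s ^ 2 * B.card ≤ s * B.card := mul_le_mul_of_nonneg_right hss hnpos.le
    have h8 : s * B.card ≤ σ / 8 * B.card := mul_le_mul_of_nonneg_right hsσ hnpos.le
    linarith
  · have h1 : (trip (X ∩ sh X t) B (C ∪ sh C t) : ℝ) ≤ 2 * trip X B C := by exact_mod_cast htr1
    have h2 : s ^ 2 * (B.card : ℝ) ^ 2 ≤ σ / 8 * (B.card : ℝ) ^ 2 :=
      mul_le_mul_of_nonneg_right (hss.trans hsσ) (by positivity)
    have h3 : 0 ≤ σ * (B.card : ℝ) ^ 2 := by positivity
    linarith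

lemma iter {γ : ℝ} (hγ : 0 < γ) (hγ1 : γ ≤ 1) (k : ℕ) : ∀ σ : ℝ, 0 < σ → ∃ σ0 : ℝ, 0 < σ0 ∧
    ∃ n0 : ℕ, ∀ (p : ℕ) [Fact p.Prime] (X B C : Finset (ZMod p)), n0 ≤ B.card → X.card ≤ B.card →
      2 * X.card + B.card ≤ p → γ ^ 2 * B.card / 16 ≤ X.card →
      (X.card : ℝ) ≤ (4 / 3) ^ k * γ * B.card →
      (p : ℝ) ≤ X.card + B.card + C.card + σ0 * B.card →
      (trip X B C : ℝ) ≤ σ0 * (B.card : ℝ) ^ 2 →
      ∃ X' C' : Finset (ZMod p), γ ^ 2 * B.card / 16 ≤ X'.card ∧ (X'.card : ℝ) ≤ γ * B.card ∧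
        (p : ℝ) ≤ X'.card + B.card + C'.card + σ * B.card ∧
        (trip X' B C' : ℝ) ≤ σ * (B.card : ℝ) ^ 2 := by
  induction k with
  | zero =>
    intro σ hσ
    refine ⟨σ, hσ, 0, fun p _ X B C _ _ _ h1 h2 h3 h4 => ⟨X, C, h1, by simpa using h2, h3, h4⟩⟩
  | succ k ih =>
    intro σ hσ
    obtain ⟨σ1, hσ1, n1, h1⟩ := ih σ hσ
    obtain ⟨σ2, hσ2, n2, h2⟩ := step hγ hγ1 hσ1
    refine ⟨min σ σ2, lt_min hσ hσ2, max n1 n2, ?_⟩
    intro p _ X B C hn hX hp2 hx hk hp ht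
    have hB : (0 : ℝ) ≤ B.card := Nat.cast_nonneg _
    have e1 : min σ σ2 * B.card ≤ σ * B.card := mul_le_mul_of_nonneg_right (min_le_left _ _) hB
    have e2 : min σ σ2 * B.card ≤ σ2 * B.card := mul_le_mul_of_nonneg_right (min_le_right _ _) hB
    have e3 : min σ σ2 * (B.card : ℝ) ^ 2 ≤ σ * (B.card : ℝ) ^ 2 :=
      mul_le_mul_of_nonneg_right (min_le_left _ _) (by positivity)
    have e4 : min σ σ2 * (B.card : ℝ) ^ 2 ≤ σ2 * (B.card : ℝ) ^ 2 :=
      mul_le_mul_of_nonneg_right (min_le_right _ _) (by positivity)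
    by_cases h : (X.card : ℝ) ≤ γ * B.card
    · exact ⟨X, C, hx, h, by linarith, by linarith⟩
    · obtain ⟨X', C', a1, a2, a3, a4⟩ := h2 p X B C (le_trans (le_max_right _ _) hn) hX hp2
        (not_le.1 h) (by linarith) (by linarith)
      refine h1 p X' B C' (le_trans (le_max_left _ _) hn) (by omega) (by omega) a1 ?_ a3 a4
      have a5 : (4 : ℝ) * X'.card ≤ 3 * X.card := by exact_mod_cast a2
      rw [pow_succ] at hk
      linarith

end ShrinkAux

theorem shrink : ShrinkStmt := by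
  intro γ σ hγ hγ1 hσ
  obtain ⟨k, hk⟩ := pow_unbounded_of_one_lt (1 / γ) (by norm_num : (1 : ℝ) < 4 / 3)
  obtain ⟨σ0, hσ0, n0, h⟩ := ShrinkAux.iter hγ hγ1 k σ hσ
  refine ⟨σ0, hσ0, n0, fun p _ X B C hn hX hp2 hx hp ht => h p X B C hn hX hp2 hx ?_ hp ht⟩
  rw [div_lt_iff₀ hγ] at hk
  have h1 : (X.card : ℝ) ≤ B.card := by exact_mod_cast hX
  have h2 : 1 * (B.card : ℝ) ≤ (4 / 3) ^ k * γ * B.card :=
    mul_le_mul_of_nonneg_right hk.le (Nat.cast_nonneg _)
  linarith

end Pool.Agent.MP_93a3f8_co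

end

section

/-! Types of representations, a doubling scale, and coverings through windows. -/

open Finset Pointwise

namespace Pool.Agent.MP_93a3f8_co

section

variable {p : ℕ} [Fact p.Prime]

lemma tw_zero_mem (A B : Finset (ZMod p)) {ρ : ℝ} (h : 0 ≤ ρ) : (0 : ZMod p) ∈ ball (FF A B) ρ := by
  rw [mem_ball, FF_zero]; simpa using h

lemma tw_one_le (A B : Finset (ZMod p)) {ρ : ℝ} (h : 0 ≤ ρ) :
    (1 : ℝ) ≤ (ball (FF A B) ρ).card := by
  exact_mod_cast card_pos.2 ⟨0, tw_zero_mem A B h⟩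

lemma tw_card_mono (A B : Finset (ZMod p)) {ρ ρ' : ℝ} (h : ρ ≤ ρ') :
    ((ball (FF A B) ρ).card : ℝ) ≤ (ball (FF A B) ρ').card := by
  exact_mod_cast card_le_card (ball_mono h)

lemma tw_swap {α β : Type*} (S : Finset α) (T : Finset β) (r : α → β → Prop)
    [∀ a b, Decidable (r a b)] :
    ∑ a ∈ S, ((T.filter fun b => r a b).card : ℝ) = ∑ b ∈ T, ((S.filter fun a => r a b).card : ℝ) := by
  simp only [card_filter, Nat.cast_sum]
  exact sum_comm

lemma tw_fS_left {A B : Finset (ZMod p)} {ρ : ℝ} {u : ZMod p} (h : u ∈ ball (FF A B) ρ) :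
    (fS A u : ℝ) ≤ ρ := by
  have h1 := mem_ball.1 h
  simp only [FF, Nat.cast_add] at h1
  have : (0 : ℝ) ≤ fS B u := Nat.cast_nonneg _
  linarith

lemma tw_fS_right {A B : Finset (ZMod p)} {ρ : ℝ} {u : ZMod p} (h : u ∈ ball (FF A B) ρ) :
    (fS B u : ℝ) ≤ ρ := tw_fS_left (A := B) (B := A) (by rwa [FF_comm])

lemma tw_compl {α : Type*} (S : Finset α) (r : α → Prop) [DecidablePred r] :
    ((S.filter r).card : ℝ) + (S.filter fun a => ¬ r a).card = S.card := by
  exact_mod_cast card_filter_add_card_filter_not r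

lemma tw_pow {R c a L : ℝ} {N : ℕ} (hR : 0 < R) (hc : R ≤ c) (ha : a ≤ R / (8 * c))
    (hL : L ≤ a * N) : (1 - R / (8 * c)) ^ N ≤ Real.exp (-L) := by
  have hc0 : 0 < c := hR.trans_le hc
  have h1 : R / (8 * c) ≤ 1 := by
    rw [div_le_one (by positivity)]; linarith
  have h2 : 1 - R / (8 * c) ≤ Real.exp (-a) := by
    have := Real.add_one_le_exp (-a)
    linarith
  calc (1 - R / (8 * c)) ^ N ≤ Real.exp (-a) ^ N := pow_le_pow_left₀ (by linarith) h2 N
    _ = Real.exp (-(a * N)) := by rw [← Real.exp_nat_mul]; congr 1; ring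
    _ ≤ Real.exp (-L) := Real.exp_le_exp.2 (by linarith)

/-- The window covering in terms of `Cov`. -/
lemma tw_cov (h1 : WStmt) (A P Y V : Finset (ZMod p)) (R v a L c : ℝ) (k k' N : ℕ) (hR : 0 < R)
    (hY : ∀ u ∈ Y, R ≤ rep A P u) (hv : ((Y - V).card : ℝ) ≤ v) (hk : 1 ≤ k)
    (hV : 2 * (p : ℝ) * k ≤ V.card * R) (hk' : 4 * v * P.card ≤ R * k * k')
    (ha : 8 * a * P.card ≤ R) (hL : L ≤ a * N) (hc1 : (N : ℝ) * k ≤ c) (hc2 : (N : ℝ) * k' ≤ c) :
    Cov A P Y c (Real.exp (-L) * Y.card) := by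
  rcases Y.eq_empty_or_nonempty with rfl | ⟨y, hy⟩
  · exact (Cov.trivial A P ∅).mono Subset.rfl (le_trans (by positivity) hc1) (by simp)
  obtain ⟨A', hA, B', hB, e1, e2, e3⟩ := h1 p A P Y V R v k k' N hR hY hv hk hV hk'
  have hP : R ≤ P.card := (hY y hy).trans (by exact_mod_cast rep_le_right A P y)
  have hP0 : (0 : ℝ) < P.card := hR.trans_le hP
  refine ⟨A', hA, B', hB, le_trans (by exact_mod_cast e1) hc2, le_trans (by exact_mod_cast e2) hc1,
    e3.trans (mul_le_mul_of_nonneg_right (tw_pow hR hP ?_ hL) (Nat.cast_nonneg _))⟩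
  rw [le_div_iff₀ (by positivity)]
  linarith

lemma tw_sub_ball {A B Y : Finset (ZMod p)} {r s : ℝ} (hY : Y ⊆ ball (FF A B) r) :
    Y - ball (FF A B) s ⊆ ball (FF A B) (r + s) := by
  intro z hz
  obtain ⟨y, hy, t, ht, rfl⟩ := mem_sub.1 hz
  exact FF_ball_sub (hY hy) ht

lemma tw_mem_add {A B : Finset (ZMod p)} {y : ZMod p} {r : ℝ} (hr : 0 < r) (h : r ≤ rep A B y) :
    y ∈ A + B := rep_pos_iff.1 (by exact_mod_cast hr.trans_le h)

end

theorem types : TypeStmt := by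
  classical
  intro p _ A B ρ μ G hμ hμ2 hρ hG
  set T := ball (FF A B) ρ with hT
  set T2 := ball (FF A B) (2 * ρ) with hT2
  have hτ : (1 : ℝ) ≤ T.card := tw_one_le A B hρ
  have hτ0 : (0 : ℝ) < T.card := by linarith
  set Rb := B.filter fun b => ((T.filter fun t => t - b ∉ A).card : ℝ) ≤ μ * T.card with hRb
  set Da := A.filter fun a => μ * T.card ≤ ((T2.filter fun t => a + t ∉ A).card : ℝ) with hDa
  set E := T.filter fun u => 2 * rep A Rb u < Rb.card with hE
  have hRB : Rb ⊆ B := filter_subset _ _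
  refine ⟨Rb, hRB, Da, filter_subset _ _, E, ?_, ?_, ?_, ?_, ?_⟩
  · have e1 : ∑ t ∈ T, (rep A Rb t : ℝ) = ∑ b ∈ Rb, ((T.filter fun t => t - b ∈ A).card : ℝ) :=
      tw_swap T Rb fun t b => t - b ∈ A
    have e2 : ∑ _b ∈ Rb, (T.card / 2 : ℝ) ≤ ∑ b ∈ Rb, ((T.filter fun t => t - b ∈ A).card : ℝ) := by
      refine sum_le_sum fun b hb => ?_
      have h1 := (mem_filter.1 hb).2
      have h2 := tw_compl T fun t => t - b ∈ A
      nlinarith
    have e3 : ∑ t ∈ T, (rep A Rb t : ℝ) ≤ ∑ _t ∈ T, ((rep A B 0 : ℝ) + ρ) := by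
      refine sum_le_sum fun t ht => ?_
      have h1 := rep_le_add_fS A B t (-t)
      rw [add_neg_cancel, fS_neg] at h1
      have h2 : (rep A Rb t : ℝ) ≤ rep A B 0 + fS B t := by
        exact_mod_cast (rep_mono Subset.rfl hRB t).trans h1
      have h3 := tw_fS_right ht
      linarith
    simp only [sum_const, nsmul_eq_mul] at e2 e3
    refine le_of_mul_le_mul_right ?_ hτ0
    linarith
  · have e1 : ∑ _a ∈ Da, μ * T.card ≤ ∑ a ∈ Da, ((T2.filter fun t => a + t ∉ A).card : ℝ) :=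
      sum_le_sum fun a ha => (mem_filter.1 ha).2
    have e2 : ∑ a ∈ Da, ((T2.filter fun t => a + t ∉ A).card : ℝ) ≤
        ∑ a ∈ A, ((T2.filter fun t => a + t ∉ A).card : ℝ) :=
      sum_le_sum_of_subset_of_nonneg (filter_subset _ _) fun _ _ _ => Nat.cast_nonneg _
    have e3 := tw_swap A T2 fun a t => a + t ∉ A
    have e4 : ∑ t ∈ T2, ((A.filter fun a => a + t ∉ A).card : ℝ) ≤ ∑ _t ∈ T2, 2 * ρ := by
      refine sum_le_sum fun t ht => ?_
      rw [← fS_eq_add]
      exact tw_fS_left ht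
    simp only [sum_const, nsmul_eq_mul] at e1 e4
    rw [le_div_iff₀ hμ]
    refine le_of_mul_le_mul_right ?_ hτ0
    have e5 : (T2.card : ℝ) * (2 * ρ) ≤ G * T.card * (2 * ρ) :=
      mul_le_mul_of_nonneg_right hG (by linarith)
    linarith
  · rcases Nat.eq_zero_or_pos Rb.card with h0 | h0
    · have : E = ∅ := by
        rw [hE, filter_eq_empty_iff]
        intro u _
        omega
      rw [this, card_empty, Nat.cast_zero]
      positivity
    have h0' : (0 : ℝ) < Rb.card := by exact_mod_cast h0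
    have e1 : ∑ _u ∈ E, (Rb.card / 2 : ℝ) ≤ ∑ u ∈ E, ((Rb.filter fun b => u - b ∉ A).card : ℝ) := by
      refine sum_le_sum fun u hu => ?_
      have h1 : (2 * rep A Rb u : ℝ) < Rb.card := by exact_mod_cast (mem_filter.1 hu).2
      have h2 := tw_compl Rb fun b => u - b ∈ A
      simp only [rep] at h1
      linarith
    have e2 : ∑ u ∈ E, ((Rb.filter fun b => u - b ∉ A).card : ℝ) ≤
        ∑ u ∈ T, ((Rb.filter fun b => u - b ∉ A).card : ℝ) :=
      sum_le_sum_of_subset_of_nonneg (filter_subset _ _) fun _ _ _ => Nat.cast_nonneg _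
    have e3 := tw_swap T Rb fun u b => u - b ∉ A
    have e4 : ∑ b ∈ Rb, ((T.filter fun u => u - b ∉ A).card : ℝ) ≤ ∑ _b ∈ Rb, μ * T.card :=
      sum_le_sum fun b hb => (mem_filter.1 hb).2
    simp only [sum_const, nsmul_eq_mul] at e1 e4
    refine le_of_mul_le_mul_right ?_ h0'
    linarith
  · intro u hu
    have hs : (B.filter fun b => u - b ∈ A) ⊆ (Rb.filter fun b => u - b ∈ A) ∪
        ((Da.filter fun a => u - a ∈ B).image fun a => u - a) := by
      intro b hb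
      rw [mem_filter] at hb
      by_cases h : b ∈ Rb
      · exact mem_union_left _ (mem_filter.2 ⟨h, hb.2⟩)
      · refine mem_union_right _ (mem_image.2 ⟨u - b, mem_filter.2 ⟨mem_filter.2 ⟨hb.2, ?_⟩, ?_⟩, ?_⟩)
        · have h1 : μ * T.card < ((T.filter fun t => t - b ∉ A).card : ℝ) := by
            by_contra h2
            exact h (mem_filter.2 ⟨hb.1, not_lt.1 h2⟩)
          refine h1.le.trans ?_
          have h3 : (T.filter fun t => t - b ∉ A).card ≤
              (T2.filter fun t => u - b + t ∉ A).card := by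
            refine card_le_card_of_injOn (fun t => t - u) (fun t ht => ?_) fun s _ t _ h => ?_
            · rw [mem_coe, mem_filter] at ht ⊢
              refine ⟨?_, ?_⟩
              · rw [hT2, two_mul]
                exact FF_ball_sub ht.1 hu
              · have : u - b + (t - u) = t - b := by ring
                rw [this]
                exact ht.2
            · simpa using h
          exact_mod_cast h3
        · simpa using hb.1
        · simp
    exact (card_le_card hs).trans ((card_union_le _ _).trans (Nat.add_le_add_left card_image_le _))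
  · intro u hu huE
    by_contra h
    exact huE (mem_filter.2 ⟨hu, not_le.1 h⟩)

theorem doub : DoubStmt := by
  obtain ⟨G0, hG0⟩ : ∃ G0 : ℝ, G0 = 2 ^ 193 := ⟨_, rfl⟩
  have h2 : 2 ≤ G0 := by rw [hG0]; norm_num
  refine ⟨400 * G0, by linarith, ?_⟩
  intro p _ A B ε hε hlin
  have key : ∀ j : ℕ, (∃ i : ℕ,
      ((ball (FF A B) (2 * (2 ^ (i + 1) * ε))).card : ℝ) ≤ G0 * (ball (FF A B) (2 ^ (i + 1) * ε)).card ∧
        G0 ^ i * (ball (FF A B) (2 * ε)).card ≤ (ball (FF A B) (2 ^ (i + 1) * ε)).card) ∨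
      G0 ^ j * (ball (FF A B) (2 * ε)).card ≤ (ball (FF A B) (2 ^ (j + 1) * ε)).card := by
    intro j
    induction j with
    | zero => right; simp
    | succ j ih =>
      rcases ih with h | h
      · exact Or.inl h
      · by_cases h' : ((ball (FF A B) (2 * (2 ^ (j + 1) * ε))).card : ℝ) ≤
            G0 * (ball (FF A B) (2 ^ (j + 1) * ε)).card
        · exact Or.inl ⟨j, h', h⟩
        · right
          have e : (2 : ℝ) ^ (j + 1 + 1) * ε = 2 * (2 ^ (j + 1) * ε) := by ring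
          rw [e, pow_succ', mul_assoc]
          exact (mul_le_mul_of_nonneg_left h (by linarith)).trans (not_le.1 h').le
  rcases key p with ⟨i, h3, h4⟩ | h
  · have hx : (1 : ℝ) ≤ 2 ^ (i + 1) := one_le_pow₀ (by norm_num)
    refine ⟨2 ^ (i + 1), hx, h3.trans ?_, ?_⟩
    · exact mul_le_mul_of_nonneg_right (by linarith) (Nat.cast_nonneg _)
    · have h5 := hlin (2 ^ (i + 1) * ε) (by nlinarith)
      have h6 : ((2 : ℝ) ^ (i + 1)) ^ 192 * 2 ^ (i + 1) = G0 * G0 ^ i := by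
        rw [← pow_succ, ← pow_succ', hG0, ← pow_mul, ← pow_mul, mul_comm]
      refine le_of_mul_le_mul_right ?_ (lt_of_lt_of_le one_pos hx)
      calc ((2 : ℝ) ^ (i + 1)) ^ 192 * (ball (FF A B) (2 * ε)).card * 2 ^ (i + 1)
          = ((2 : ℝ) ^ (i + 1)) ^ 192 * 2 ^ (i + 1) * (ball (FF A B) (2 * ε)).card :=
            mul_right_comm _ _ _
        _ = G0 * (G0 ^ i * (ball (FF A B) (2 * ε)).card) := by rw [h6, mul_assoc]
        _ ≤ G0 * (400 * (2 ^ (i + 1) * ε)) := mul_le_mul_of_nonneg_left (h4.trans h5) (by linarith)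
        _ = 400 * G0 * ε * 2 ^ (i + 1) := by ring
  · exfalso
    have h3 : (1 : ℝ) ≤ (ball (FF A B) (2 * ε)).card := tw_one_le A B (by linarith)
    have h4 : ((ball (FF A B) (2 ^ (p + 1) * ε)).card : ℝ) ≤ p := by exact_mod_cast card_le_p _
    have h5 : (p : ℝ) < 2 ^ p := by exact_mod_cast Nat.lt_two_pow_self
    have h6 : (2 : ℝ) ^ p ≤ G0 ^ p := pow_le_pow_left₀ (by norm_num) h2 p
    have h7 : G0 ^ p ≤ G0 ^ p * (ball (FF A B) (2 * ε)).card :=
      le_mul_of_one_le_right (by positivity) h3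
    linarith

/-- One side of the typed window covering. -/
lemma tw_side (h1 : WStmt) {p : ℕ} [Fact p.Prime] (A P Y V : Finset (ZMod p)) (η G ε x δ : ℝ)
    (hη : 0 < η) (hη1 : η ≤ 1) (hG : 1 ≤ G) (hε : 1 ≤ ε) (hx : 1 ≤ x) (hδ : 0 < δ) (hδ1 : δ ≤ 1)
    (hY : ∀ y ∈ Y, 2 * (η * ε) ≤ rep A P y) (hv : ((Y - V).card : ℝ) ≤ G * V.card)
    (hV : (V.card : ℝ) ≤ 400 * (x * ε)) (hV2 : (p : ℝ) ≤ V.card * (η * ε))
    (hP : (P.card : ℝ) ≤ 4 * G * (x * ε)) :
    Cov A P Y (51216 * G ^ 3 / η ^ 3 * x ^ 3 * (1 + Real.log (1 / δ)) * (√ε + p / ε))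
      (δ * Y.card) := by
  have hp : (0 : ℝ) < p := by exact_mod_cast (Fact.out : p.Prime).pos
  have hε0 : 0 < ε := by linarith
  have hs1 : 1 ≤ √ε := Real.one_le_sqrt.2 hε
  have hss : √ε * √ε = ε := Real.mul_self_sqrt hε0.le
  have hL : 0 ≤ Real.log (1 / δ) := Real.log_nonneg (by rw [le_div_iff₀ hδ]; linarith)
  obtain ⟨L, hLd⟩ : ∃ L, L = Real.log (1 / δ) := ⟨_, rfl⟩
  have hexp : Real.exp (-L) = δ := by
    rw [hLd, one_div, Real.log_inv, neg_neg, Real.exp_log hδ]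
  rw [← hLd] at hL ⊢
  have hq : 0 ≤ (p : ℝ) / ε := by positivity
  obtain ⟨S, hS⟩ : ∃ S, S = √ε + p / ε := ⟨_, rfl⟩
  have hS1 : √ε ≤ S := by linarith
  have hS2 : p / ε ≤ S := by linarith
  rw [← hS]
  obtain ⟨g, hg⟩ : ∃ g, g = G * x / η := ⟨_, rfl⟩
  have hGx : 1 ≤ G * x := by nlinarith
  have hg1 : 1 ≤ g := by rw [hg, le_div_iff₀ hη]; linarith
  have hcost : 51216 * G ^ 3 / η ^ 3 * x ^ 3 * (1 + L) * S =
      16 * g * (1 + L) * (3201 * g ^ 2 * S) := by rw [hg]; field_simp; ring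
  obtain ⟨k, hk1, hk2, hk3, hk4⟩ : ∃ k : ℕ, 1 ≤ k ∧ (p : ℝ) * k ≤ V.card * (η * ε) ∧
      (k : ℝ) ≤ 2 * √ε ∧ (V.card : ℝ) * η ≤ k * (400 * x * S) := by
    have hf1 : 1 ≤ V.card * (η * ε) / p := by rw [le_div_iff₀ hp]; linarith
    have hf : 1 ≤ ⌊V.card * (η * ε) / p⌋₊ := Nat.one_le_floor_iff _ |>.2 hf1
    have hc : 1 ≤ ⌈√ε⌉₊ := Nat.one_le_ceil_iff.2 (by linarith)
    have a1 : (⌊V.card * (η * ε) / p⌋₊ : ℝ) ≤ V.card * (η * ε) / p := Nat.floor_le (by linarith)
    have a2 : (⌈√ε⌉₊ : ℝ) ≤ 2 * √ε := by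
      have := Nat.ceil_lt_add_one (show 0 ≤ √ε by linarith)
      linarith
    rw [le_div_iff₀ hp] at a1
    rcases le_total ⌊V.card * (η * ε) / p⌋₊ ⌈√ε⌉₊ with h | h
    · refine ⟨_, hf, by linarith, le_trans (by exact_mod_cast h) a2, ?_⟩
      have b1 := Nat.lt_floor_add_one (V.card * (η * ε) / p)
      have b2 : (1 : ℝ) ≤ ⌊V.card * (η * ε) / p⌋₊ := by exact_mod_cast hf
      obtain ⟨f, hfd⟩ : ∃ f : ℝ, f = ⌊V.card * (η * ε) / p⌋₊ := ⟨_, rfl⟩
      rw [← hfd] at b1 b2 ⊢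
      have b3 : V.card * η * (ε / p) ≤ 2 * f := by
        have : V.card * η * (ε / p) = V.card * (η * ε) / p := by ring
        linarith
      have b4 : V.card * η = V.card * η * (ε / p) * (p / ε) := by field_simp
      have b5 : V.card * η * (ε / p) * (p / ε) ≤ 2 * f * S :=
        mul_le_mul b3 hS2 hq (by linarith)
      have b6 : f * S * 1 ≤ f * S * x :=
        mul_le_mul_of_nonneg_left hx (mul_nonneg (by linarith) (by linarith))
      have b7 : 0 ≤ f * S := mul_nonneg (by linarith) (by linarith)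
      linarith
    · have h' : (⌈√ε⌉₊ : ℝ) ≤ ⌊V.card * (η * ε) / p⌋₊ := by exact_mod_cast h
      refine ⟨_, hc, by nlinarith, a2, ?_⟩
      have b1 : √ε ≤ ⌈√ε⌉₊ := Nat.le_ceil _
      have b2 : ε ≤ ⌈√ε⌉₊ * S := by
        rw [← hss]
        rw [Real.sqrt_mul_self (by linarith)]
        exact mul_le_mul b1 hS1 (by linarith) (by linarith)
      have b3 : (V.card : ℝ) * η ≤ V.card := mul_le_of_le_one_right (Nat.cast_nonneg _) hη1
      have b4 : x * ε ≤ x * (⌈√ε⌉₊ * S) := mul_le_mul_of_nonneg_left b2 (by linarith)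
      linarith
  have hS0 : 1 ≤ S := hs1.trans hS1
  have hgS : 1 ≤ g ^ 2 * S := one_le_mul_of_one_le_of_one_le (one_le_pow₀ hg1) hS0
  have hN : (⌈16 * g * L⌉₊ : ℝ) ≤ 16 * g * (1 + L) := by
    have := Nat.ceil_lt_add_one (show 0 ≤ 16 * g * L by positivity)
    linarith
  have hk' : (⌈3200 * g ^ 2 * S⌉₊ : ℝ) ≤ 3201 * g ^ 2 * S := by
    have := Nat.ceil_lt_add_one (show 0 ≤ 3200 * g ^ 2 * S by positivity)
    linarith
  rw [hcost, ← hexp]
  refine tw_cov h1 A P Y V (2 * (η * ε)) (G * V.card) (1 / (16 * g)) L _ k ⌈3200 * g ^ 2 * S⌉₊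
    ⌈16 * g * L⌉₊ (by positivity) hY hv hk1 (by linarith) ?_ ?_ ?_ ?_ ?_
  · have c1 : 3200 * g ^ 2 * S ≤ ⌈3200 * g ^ 2 * S⌉₊ := Nat.le_ceil _
    have c2 : (V.card : ℝ) ≤ k * (400 * x * S) / η := by rw [le_div_iff₀ hη]; exact hk4
    calc 4 * (G * V.card) * P.card ≤ 4 * (G * (k * (400 * x * S) / η)) * (4 * G * (x * ε)) := by
          gcongr
      _ = 2 * (η * ε) * k * (3200 * g ^ 2 * S) := by rw [hg]; field_simp; ring
      _ ≤ 2 * (η * ε) * k * ⌈3200 * g ^ 2 * S⌉₊ := by gcongr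
  · calc 8 * (1 / (16 * g)) * P.card ≤ 8 * (1 / (16 * g)) * (4 * G * (x * ε)) := by gcongr
      _ = 2 * (η * ε) := by rw [hg]; field_simp; ring
  · have c1 : 16 * g * L ≤ ⌈16 * g * L⌉₊ := Nat.le_ceil _
    rw [one_div, inv_mul_eq_div, le_div_iff₀ (by positivity)]
    linarith
  · refine mul_le_mul hN ?_ (Nat.cast_nonneg _) (by positivity)
    have : S ≤ g ^ 2 * S := le_mul_of_one_le_left (by linarith) (one_le_pow₀ hg1)
    linarith
  · exact mul_le_mul hN hk' (Nat.cast_nonneg _) (by positivity)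

theorem typedW (h1 : WStmt) (h2 : TypeStmt) : TypedWStmt := by
  classical
  intro η G hη hη1 hG
  refine ⟨2 * (51216 * G ^ 3 / η ^ 3), by positivity, ?_⟩
  intro p _ A B Y ε x δ hε hx hδ hδ1 hlin hY hrep hr0 hdoub
  have hε0 : 0 < ε := by linarith
  have hρ : ε ≤ x * ε := le_mul_of_one_le_left hε0.le hx
  have hYρ : Y ⊆ ball (FF A B) (x * ε) := hY.trans (ball_mono hρ)
  have hL : 0 ≤ Real.log (1 / δ) := Real.log_nonneg (by rw [le_div_iff₀ hδ]; linarith)
  by_cases hc : (p : ℝ) ≤ (ball (FF A B) (x * ε)).card * (η * ε)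
  · obtain ⟨Rb, hRb, Da, hDa, E, e1, e2, -, e4, -⟩ :=
      h2 p A B (x * ε) (1 / 2) G (by norm_num) le_rfl (by linarith) hdoub
    have hv : ∀ Y' ⊆ Y, ((Y' - ball (FF A B) (x * ε)).card : ℝ) ≤
        G * (ball (FF A B) (x * ε)).card := by
      intro Y' hY'
      refine le_trans ?_ hdoub
      rw [two_mul]
      exact_mod_cast card_le_card (tw_sub_ball (hY'.trans hYρ))
    have hV := hlin (x * ε) (by linarith)
    have hGx : x * ε ≤ G * (x * ε) := le_mul_of_one_le_left (by linarith) hG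
    have c1 := tw_side h1 A Rb (Y.filter fun y => 2 * (η * ε) ≤ (rep A Rb y : ℝ))
      (ball (FF A B) (x * ε)) η G ε x δ hη hη1 hG hε hx hδ hδ1 (fun y hy => (mem_filter.1 hy).2)
      (hv _ (filter_subset _ _)) hV hc (by linarith)
    have c2 := tw_side h1 B Da (Y.filter fun y => ¬ 2 * (η * ε) ≤ (rep A Rb y : ℝ))
      (ball (FF A B) (x * ε)) η G ε x δ hη hη1 hG hε hx hδ hδ1 (fun y hy => by
        obtain ⟨hy1, hy2⟩ := mem_filter.1 hy
        have a1 := hrep y hy1
        have a2 : (rep A B y : ℝ) ≤ rep A Rb y + rep B Da y := by exact_mod_cast e4 y (hYρ hy1)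
        linarith [not_le.1 hy2])
      (hv _ (filter_subset _ _)) hV hc (by linarith)
    refine ((c1.subset Subset.rfl hRb).union (c2.subset Subset.rfl hDa).swap).mono ?_ ?_ ?_
    · rw [filter_union_filter_not_eq]
    · exact le_of_eq (by ring)
    · rw [← mul_add, tw_compl]
  · have c1 := Cov.pointwise (A := A) (B := B) (Y := Y) fun y hy =>
      tw_mem_add (by positivity) (hrep y hy)
    refine c1.mono Subset.rfl ?_ (by positivity)
    have a1 : (Y.card : ℝ) ≤ (ball (FF A B) (x * ε)).card := by exact_mod_cast card_le_card hYρ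
    have a2 : ((ball (FF A B) (x * ε)).card : ℝ) ≤ 1 / η * (p / ε) := by
      rw [one_div_mul_eq_div, div_div, le_div_iff₀ (by positivity), mul_comm ε]
      exact (not_le.1 hc).le
    have a3 : 1 / η ≤ 2 * (51216 * G ^ 3 / η ^ 3) := by
      have b1 : 1 ≤ G ^ 3 := one_le_pow₀ hG
      have b2 : η ^ 2 ≤ 1 := pow_le_one₀ hη.le hη1
      rw [← mul_div_assoc, div_le_div_iff₀ hη (by positivity)]
      nlinarith
    have a4 : 1 ≤ x ^ 3 := one_le_pow₀ hx
    have a5 : 0 ≤ √ε := Real.sqrt_nonneg _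
    calc (Y.card : ℝ) ≤ 1 / η * 1 * 1 * (p / ε) := by linarith
      _ ≤ 2 * (51216 * G ^ 3 / η ^ 3) * x ^ 3 * (1 + Real.log (1 / δ)) * (√ε + p / ε) := by
        gcongr <;> linarith

theorem uw (h1 : WStmt) : UWStmt := by
  intro η C1 hη hη1 hC1
  refine ⟨5 / η * (C1 / η ^ 2 + 2), by positivity, ⌈1 / η ^ 4⌉₊, ?_⟩
  intro p _ A B Y ε M hp0 hε hM hY hrep hpM hlog hM16 hτ
  have hp : (0 : ℝ) < p := by exact_mod_cast (Fact.out : p.Prime).pos
  have hM0 : 0 < M := by linarith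
  obtain ⟨s, hs⟩ : ∃ s, s = √(p : ℝ) := ⟨_, rfl⟩
  rw [← hs]
  have hs0 : 0 < s := by rw [hs]; exact Real.sqrt_pos.2 hp
  have hss : s * s = p := by rw [hs]; exact Real.mul_self_sqrt hp.le
  obtain ⟨u, hu⟩ : ∃ u, u = √s := ⟨_, rfl⟩
  have hu0 : 0 < u := by rw [hu]; exact Real.sqrt_pos.2 hs0
  have huu : u * u = s := by rw [hu]; exact Real.mul_self_sqrt hs0.le
  have hu4 : u ^ 4 = p := by rw [← hss, ← huu]; ring
  have hM4 : M ^ 4 ≤ u := by
    refine le_of_pow_le_pow_left₀ (n := 4) (by norm_num) hu0.le ?_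
    rw [hu4, ← pow_mul]
    exact hM16
  have hηu : 1 ≤ η * u := by
    refine le_of_pow_le_pow_left₀ (n := 4) (by norm_num) (by positivity) ?_
    have a1 : 1 / η ^ 4 ≤ p := (Nat.le_ceil _).trans (by exact_mod_cast hp0)
    rw [div_le_iff₀ (by positivity)] at a1
    rw [mul_pow, hu4]
    linarith
  have hu1 : 1 ≤ u := (one_le_pow₀ hM).trans hM4
  have hM24 : M ^ 2 ≤ M ^ 4 := pow_le_pow_right₀ hM (by norm_num)
  have hM34 : M ^ 3 ≤ M ^ 4 := pow_le_pow_right₀ hM (by norm_num)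
  have hM2 : M ^ 2 ≤ η * s := by rw [← huu]; nlinarith
  have hM3 : M ^ 3 ≤ s := by rw [← huu]; nlinarith
  have hη5 : 5 ≤ 5 / η := by rw [le_div_iff₀ hη]; linarith
  have hC0 : 0 ≤ C1 / η ^ 2 := by positivity
  by_cases hc : ((ball (FF A B) ε).card : ℝ) ≤ s / M
  · have c1 := Cov.pointwise (A := A) (B := B) (Y := Y) fun y hy =>
      tw_mem_add (by positivity) (hrep y hy)
    refine c1.mono Subset.rfl ?_ le_rfl
    have a1 : (Y.card : ℝ) ≤ (ball (FF A B) ε).card := by exact_mod_cast card_le_card hY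
    refine (a1.trans hc).trans ?_
    rw [mul_div_assoc]
    exact le_mul_of_one_le_left (by positivity) (by nlinarith)
  · have hc' : s / M ≤ (ball (FF A B) ε).card := (not_le.1 hc).le
    have hεp : p / M ≤ ε := by rw [div_le_iff₀ hM0]; linarith
    have hB : (B.card : ℝ) ≤ p := by exact_mod_cast card_le_p B
    have hYp : (Y.card : ℝ) ≤ p := by exact_mod_cast card_le_p Y
    have hq : 1 ≤ s / M ^ 3 := by rw [le_div_iff₀ (by positivity)]; linarith
    have hk0 : 0 < η * (s / M ^ 3) := by positivity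
    have hk1 := Nat.ceil_lt_add_one hk0.le
    have hk2 := Nat.ceil_lt_add_one (show 0 ≤ C1 / η ^ 2 * (s / M ^ 3) by positivity)
    have hlog2 : Real.log (2 * p) ≤ 2 * M := by
      rw [Real.log_mul (by norm_num) hp.ne']
      have := Real.log_two_lt_d9
      linarith
    have hlog0 : 0 ≤ Real.log (2 * p) := by
      have : (1 : ℝ) ≤ p := by exact_mod_cast (Fact.out : p.Prime).pos
      exact Real.log_nonneg (by linarith)
    have hN : (⌈2 * M / η * Real.log (2 * p)⌉₊ : ℝ) ≤ 5 / η * M ^ 2 := by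
      have a1 := Nat.ceil_lt_add_one (show 0 ≤ 2 * M / η * Real.log (2 * p) by positivity)
      have a2 : 2 * M / η * Real.log (2 * p) ≤ 2 * M / η * (2 * M) := by gcongr
      have a3 : 1 ≤ 1 / η * M ^ 2 :=
        one_le_mul_of_one_le_of_one_le (by rw [le_div_iff₀ hη]; linarith) (one_le_pow₀ hM)
      have a4 : 5 / η * M ^ 2 = 2 * M / η * (2 * M) + 1 / η * M ^ 2 := by ring
      linarith
    have hcost : 5 / η * (C1 / η ^ 2 + 2) * s / M =
        5 / η * M ^ 2 * ((C1 / η ^ 2 + 2) * (s / M ^ 3)) := by field_simp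
    have c1 := tw_cov h1 A B Y (ball (FF A B) ε) (4 * (η * ε)) (C1 * p / M ^ 7) (η / (2 * M))
      (Real.log (2 * p)) (5 / η * (C1 / η ^ 2 + 2) * s / M) ⌈η * (s / M ^ 3)⌉₊
      ⌈C1 / η ^ 2 * (s / M ^ 3)⌉₊ ⌈2 * M / η * Real.log (2 * p)⌉₊ (by positivity) hrep ?_
      (Nat.one_le_ceil_iff.2 hk0) ?_ ?_ ?_ ?_ ?_ ?_
    · refine c1.of_lt_one ?_
      rw [Real.exp_neg, Real.exp_log (by positivity), inv_mul_eq_div, div_lt_one (by positivity)]
      linarith
    · refine le_trans ?_ hτ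
      rw [two_mul]
      exact_mod_cast card_le_card (tw_sub_ball hY)
    · have a1 : η * (s / M ^ 3) ≤ η * s / M ^ 2 := by
        rw [mul_div_assoc]
        gcongr
        norm_num
      have a2 : 1 ≤ η * s / M ^ 2 := by rw [le_div_iff₀ (by positivity)]; linarith
      calc 2 * (p : ℝ) * ⌈η * (s / M ^ 3)⌉₊ ≤ 2 * p * (2 * (η * s / M ^ 2)) := by
            gcongr
            linarith
        _ = s / M * (4 * (η * (p / M))) := by field_simp; ring
        _ ≤ (ball (FF A B) ε).card * (4 * (η * ε)) := by gcongr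
    · calc 4 * (C1 * p / M ^ 7) * B.card ≤ 4 * (C1 * p / M ^ 7) * p := by gcongr
        _ = 4 * (η * (p / M)) * (η * (s / M ^ 3)) * (C1 / η ^ 2 * (s / M ^ 3)) := by
          rw [← hss]; field_simp
        _ ≤ 4 * (η * ε) * ⌈η * (s / M ^ 3)⌉₊ * ⌈C1 / η ^ 2 * (s / M ^ 3)⌉₊ := by
          gcongr <;> exact Nat.le_ceil _
    · calc 8 * (η / (2 * M)) * B.card ≤ 8 * (η / (2 * M)) * p := by gcongr
        _ = 4 * (η * (p / M)) := by field_simp; ring
        _ ≤ 4 * (η * ε) := by gcongr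
    · calc Real.log (2 * p) = η / (2 * M) * (2 * M / η * Real.log (2 * p)) := by field_simp
        _ ≤ η / (2 * M) * ⌈2 * M / η * Real.log (2 * p)⌉₊ := by
          gcongr
          exact Nat.le_ceil _
    · rw [hcost]
      refine mul_le_mul hN ?_ (Nat.cast_nonneg _) (by positivity)
      have a1 : η * (s / M ^ 3) ≤ s / M ^ 3 := mul_le_of_le_one_left (by positivity) hη1
      have a2 : 0 ≤ C1 / η ^ 2 * (s / M ^ 3) := by positivity
      linarith
    · rw [hcost]
      refine mul_le_mul hN ?_ (Nat.cast_nonneg _) (by positivity)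
      linarith

end Pool.Agent.MP_93a3f8_co

end
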