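import Pool.Agent.Mg.F93a3f8p.Gbed3f0

/-! The small set of an almost extremal triple is almost a progression. -/

open Finset Pointwise

namespace Pool.Agent.MP_93a3f8_co

/-- A set with a very small difference set: every difference has many representations. -/
lemma many_reps {G : Type*} [AddCommGroup G] [DecidableEq G] (Y : Finset G) {d : G}
    (hd : d ∈ Y - Y) : 2 * Y.card ≤ (Y - Y).card + (Y.filter fun y => y - d ∈ Y).card := by
  obtain ⟨a, ha, b, hb, rfl⟩ := mem_sub.1 hd
  have h1 : (Y.image fun y => a - y).card = Y.card :=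
    card_image_of_injective _ sub_right_injective
  have h2 : (Y.image fun y => b - y).card = Y.card :=
    card_image_of_injective _ sub_right_injective
  have h3 : (Y.image fun y => a - y) ∪ (Y.image fun y => b - y) ⊆ Y - Y := by
    intro z hz
    rcases mem_union.1 hz with h | h
    · obtain ⟨y, hy, rfl⟩ := mem_image.1 h
      exact sub_mem_sub ha hy
    · obtain ⟨y, hy, rfl⟩ := mem_image.1 h
      exact sub_mem_sub hb hy
  have h4 : (Y.image fun y => a - y) ∩ (Y.image fun y => b - y) ⊆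
      (Y.filter fun y => y - (a - b) ∈ Y).image fun y => a - y := by
    intro z hz
    obtain ⟨hz1, hz2⟩ := mem_inter.1 hz
    obtain ⟨y, hy, rfl⟩ := mem_image.1 hz1
    obtain ⟨y', hy', h⟩ := mem_image.1 hz2
    refine mem_image.2 ⟨y, mem_filter.2 ⟨hy, ?_⟩, rfl⟩
    have : y - (a - b) = y' := by
      have h' : y' = b - (a - y) := by rw [← h]; abel
      rw [h']; abel
    rwa [this]
  have h5 := card_union_add_card_inter (Y.image fun y => a - y) (Y.image fun y => b - y)
  have h6 := card_le_card h3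
  have h7 := (card_le_card h4).trans card_image_le
  omega

/-- A set with a very small difference set has a difference set closed under subtraction. -/
lemma sub_closed {G : Type*} [AddCommGroup G] [DecidableEq G] (Y : Finset G)
    (h : 2 * (Y - Y).card < 3 * Y.card) {d e : G} (hd : d ∈ Y - Y) (he : e ∈ Y - Y) :
    d - e ∈ Y - Y := by
  have h1 := many_reps Y hd
  have h2 := many_reps Y he
  have h3 := card_union_add_card_inter (Y.filter fun y => y - d ∈ Y) (Y.filter fun y => y - e ∈ Y)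
  have h4 : ((Y.filter fun y => y - d ∈ Y) ∪ (Y.filter fun y => y - e ∈ Y)).card ≤ Y.card :=
    card_le_card (union_subset (filter_subset _ _) (filter_subset _ _))
  have h5 : 0 < ((Y.filter fun y => y - d ∈ Y) ∩ (Y.filter fun y => y - e ∈ Y)).card := by omega
  obtain ⟨y, hy⟩ := card_pos.1 h5
  obtain ⟨hy1, hy2⟩ := mem_inter.1 hy
  have : d - e = (y - e) - (y - d) := by abel
  rw [this]
  exact sub_mem_sub (mem_filter.1 hy2).2 (mem_filter.1 hy1).2

/-- The integer lemma for a set with least element `0` and largest element `M`. -/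
lemma int_lemma0 (Z : Finset ℤ) (M : ℕ) (hM : 0 < M) (h0 : (0 : ℤ) ∈ Z) (hMZ : (M : ℤ) ∈ Z)
    (hZ : ∀ z ∈ Z, 0 ≤ z ∧ z ≤ M) (h : 2 * (Z - Z).card + 3 < 5 * Z.card) :
    ∃ d L : ℕ, 1 ≤ d ∧ d * L = M ∧ L + Z.card ≤ (Z - Z).card ∧
      ∀ z ∈ Z, ∃ i : ℕ, i ≤ L ∧ z = d * i := by
  have : NeZero M := ⟨hM.ne'⟩
  have hinj : ∀ u v : ℤ, 0 ≤ u → u < M → 0 ≤ v → v < M → (u : ZMod M) = v → u = v := by
    intro u v hu hu' hv hv' huv
    rw [ZMod.intCast_eq_intCast_iff'] at huv
    rwa [Int.emod_eq_of_lt hu hu', Int.emod_eq_of_lt hv hv'] at huv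
  set Y : Finset (ZMod M) := Z.image fun z : ℤ => (z : ZMod M) with hY
  have hYc : Z.card ≤ Y.card + 1 := by
    have h1 : ((Z.erase M).image fun z : ℤ => (z : ZMod M)).card = (Z.erase M).card := by
      refine card_image_of_injOn fun u hu v hv huv => ?_
      obtain ⟨hu1, hu2⟩ := mem_erase.1 (mem_coe.1 hu)
      obtain ⟨hv1, hv2⟩ := mem_erase.1 (mem_coe.1 hv)
      exact hinj u v (hZ u hu2).1 (lt_of_le_of_ne (hZ u hu2).2 hu1) (hZ v hv2).1
        (lt_of_le_of_ne (hZ v hv2).2 hv1) huv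
    have h2 : ((Z.erase M).image fun z : ℤ => (z : ZMod M)).card ≤ Y.card :=
      card_le_card (image_subset_image (erase_subset _ _))
    have h3 := card_erase_add_one hMZ
    omega
  have hrange : ∀ w ∈ Z - Z, -(M : ℤ) ≤ w ∧ w ≤ M := by
    intro w hw
    obtain ⟨u, hu, v, hv, rfl⟩ := mem_sub.1 hw
    have := hZ u hu
    have := hZ v hv
    omega
  set A : Finset ℤ := (Z - Z).filter fun w => 0 ≤ w ∧ w < M with hA
  set A' : Finset ℤ := (Z - Z).filter fun w => w < 0 with hA'
  set B : Finset ℤ := A'.image fun w => w + M with hB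
  have hBc : B.card = A'.card := card_image_of_injective _ (add_left_injective _)
  have hMm : (M : ℤ) ∈ Z - Z := by simpa using sub_mem_sub hMZ h0
  have hsplit : A.card + A'.card + 1 ≤ (Z - Z).card := by
    have hd : Disjoint A A' := by
      rw [disjoint_left]
      intro w hw hw'
      have := (mem_filter.1 hw).2
      have := (mem_filter.1 hw').2
      omega
    have hn : (M : ℤ) ∉ A ∪ A' := by
      intro hm
      rcases mem_union.1 hm with hm | hm
      · have := (mem_filter.1 hm).2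
        omega
      · have := (mem_filter.1 hm).2
        omega
    rw [← card_union_of_disjoint hd, ← card_insert_of_notMem hn]
    exact card_le_card (insert_subset hMm (union_subset (filter_subset _ _) (filter_subset _ _)))
  have hint : Z.card ≤ (A ∩ B).card + 1 := by
    have h1 : Z.erase M ⊆ A ∩ B := by
      intro z hz
      obtain ⟨hz1, hz2⟩ := mem_erase.1 hz
      have hz3 := hZ z hz2
      refine mem_inter.2 ⟨mem_filter.2 ⟨by simpa using sub_mem_sub hz2 h0, by omega⟩, ?_⟩
      exact mem_image.2 ⟨z - M, mem_filter.2 ⟨sub_mem_sub hz2 hMZ, by omega⟩, by ring⟩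
    have h2 := card_le_card h1
    have h3 := card_erase_add_one hMZ
    omega
  have hS : (Y - Y).card ≤ (A ∪ B).card := by
    refine le_trans (card_le_card ?_) (card_image_le (f := fun z : ℤ => (z : ZMod M)))
    intro w hw
    obtain ⟨u', hu', v', hv', rfl⟩ := mem_sub.1 hw
    obtain ⟨u, hu, rfl⟩ := mem_image.1 hu'
    obtain ⟨v, hv, rfl⟩ := mem_image.1 hv'
    have huv := sub_mem_sub hu hv
    have hr := hrange _ huv
    by_cases h1 : u - v < 0
    · exact mem_image.2 ⟨u - v + M, mem_union_right _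
        (mem_image.2 ⟨u - v, mem_filter.2 ⟨huv, h1⟩, rfl⟩), by simp⟩
    · by_cases h2 : u - v < M
      · exact mem_image.2 ⟨u - v, mem_union_left _ (mem_filter.2 ⟨huv, by omega⟩), by simp⟩
      · have h3 : u - v = M := by omega
        refine mem_image.2 ⟨0, mem_union_left _ (mem_filter.2
          ⟨by simpa using sub_mem_sub h0 h0, by omega⟩), ?_⟩
        rw [← Int.cast_sub, h3]; simp
  have hcnt : (Y - Y).card + Z.card ≤ (Z - Z).card := by
    have := card_union_add_card_inter A B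
    omega
  have hdbl : 2 * (Y - Y).card < 3 * Y.card := by omega
  have h0Y : (0 : ZMod M) ∈ Y := mem_image.2 ⟨0, h0, by simp⟩
  have h0S : (0 : ZMod M) ∈ Y - Y := by simpa using sub_mem_sub h0Y h0Y
  let K : AddSubgroup ℤ :=
    { carrier := {z | (z : ZMod M) ∈ Y - Y}
      zero_mem' := by simpa using h0S
      neg_mem' := fun {z} hz => by
        have := sub_closed Y hdbl h0S hz
        simpa using this
      add_mem' := fun {u v} hu hv => by
        have := sub_closed Y hdbl hu (sub_closed Y hdbl h0S hv)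
        simpa using this }
  have hK : ∀ z : ℤ, z ∈ K ↔ (z : ZMod M) ∈ Y - Y := fun z => Iff.rfl
  obtain ⟨e, he⟩ := Int.subgroup_cyclic K
  have hmem : ∀ z : ℤ, (z : ZMod M) ∈ Y - Y ↔ (e.natAbs : ℤ) ∣ z := by
    intro z
    rw [← hK, he, AddSubgroup.mem_closure_singleton, Int.natAbs_dvd]
    constructor
    · rintro ⟨k, rfl⟩
      exact ⟨k, by simp [mul_comm]⟩
    · rintro ⟨k, rfl⟩
      exact ⟨k, by simp [mul_comm]⟩
  set d := e.natAbs with hd
  have hdM : d ∣ M := by
    have := (hmem M).1 (by simpa using h0S)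
    exact_mod_cast this
  obtain ⟨L, hL⟩ := hdM
  have hd1 : 1 ≤ d := by
    rcases Nat.eq_zero_or_pos d with h | h
    · rw [h] at hL; omega
    · exact h
  refine ⟨d, L, hd1, hL.symm, ?_, ?_⟩
  · have h1 : (range L).card ≤ (Y - Y).card := by
      refine card_le_card_of_injOn (fun i : ℕ => (((d * i : ℕ) : ℤ) : ZMod M)) ?_ ?_
      · intro i _
        exact mem_coe.2 ((hmem _).2 ⟨i, by push_cast; ring⟩)
      · intro i hi j hj hij
        have hi' : d * i < M := by
          rw [hL]; exact Nat.mul_lt_mul_of_pos_left (mem_range.1 (mem_coe.1 hi)) hd1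
        have hj' : d * j < M := by
          rw [hL]; exact Nat.mul_lt_mul_of_pos_left (mem_range.1 (mem_coe.1 hj)) hd1
        have := hinj _ _ (by positivity) (by exact_mod_cast hi') (by positivity)
          (by exact_mod_cast hj') hij
        have h2 : d * i = d * j := by exact_mod_cast this
        exact Nat.eq_of_mul_eq_mul_left hd1 h2
    rw [card_range] at h1
    omega
  · intro z hz
    have hzY : (z : ZMod M) ∈ Y := mem_image.2 ⟨z, hz, rfl⟩
    obtain ⟨k, hk⟩ := (hmem z).1 (by simpa using sub_mem_sub hzY h0Y)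
    have hz' := hZ z hz
    have hdpos : (0 : ℤ) < d := by exact_mod_cast hd1
    have hk0 : 0 ≤ k := by
      by_contra hneg
      have : (d : ℤ) * k < 0 := mul_neg_of_pos_of_neg hdpos (not_le.1 hneg)
      omega
    lift k to ℕ using hk0
    refine ⟨k, ?_, hk⟩
    have h1 : (d : ℤ) * k ≤ d * L := by
      rw [← hk]; have := hz'.2; rw [hL] at this; exact_mod_cast this
    have := le_of_mul_le_mul_left h1 hdpos
    exact_mod_cast this

/-- A set of integers with a very small difference set lies in a short progression. -/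
lemma int_lemma (Z : Finset ℤ) (h2 : 2 ≤ Z.card) (h : 2 * (Z - Z).card + 3 < 5 * Z.card) :
    ∃ (m : ℤ) (d L : ℕ), 1 ≤ d ∧ (∃ u ∈ Z, ∃ v ∈ Z, (d : ℤ) ≤ u - v) ∧
      L + Z.card ≤ (Z - Z).card ∧ ∀ z ∈ Z, ∃ i : ℕ, i ≤ L ∧ z = m + d * i := by
  have hne : Z.Nonempty := card_pos.1 (by omega)
  set m := Z.min' hne with hm
  set m' := Z.max' hne with hm'
  have hlt : m < m' := min'_lt_max'_of_card Z (by omega)
  set Z0 : Finset ℤ := Z.image fun z => z - m with hZ0
  have hc : Z0.card = Z.card := card_image_of_injective _ (sub_left_injective)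
  have hd : Z0 - Z0 = Z - Z := by
    ext w
    simp only [mem_sub, hZ0, mem_image]
    constructor
    · rintro ⟨_, ⟨u, hu, rfl⟩, _, ⟨v, hv, rfl⟩, rfl⟩
      exact ⟨u, hu, v, hv, by ring⟩
    · rintro ⟨u, hu, v, hv, rfl⟩
      exact ⟨_, ⟨u, hu, rfl⟩, _, ⟨v, hv, rfl⟩, by ring⟩
  obtain ⟨M, hM⟩ : ∃ M : ℕ, (M : ℤ) = m' - m := ⟨(m' - m).toNat, by omega⟩
  obtain ⟨d, L, hd1, hdL, hL, hz⟩ := int_lemma0 Z0 M (by omega)
    (mem_image.2 ⟨m, min'_mem _ _, by simp⟩) (mem_image.2 ⟨m', max'_mem _ _, hM.symm⟩)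
    (by
      intro z hz
      obtain ⟨u, hu, rfl⟩ := mem_image.1 hz
      have h3 : m ≤ u := min'_le _ _ hu
      have h4 : u ≤ m' := le_max' _ _ hu
      omega) (by rw [hd, hc]; exact h)
  refine ⟨m, d, L, hd1, ⟨m', max'_mem _ _, m, min'_mem _ _, ?_⟩, by rw [← hd, ← hc]; exact hL, ?_⟩
  · have h5 : d ≤ M := Nat.le_of_dvd (by omega) ⟨L, hdL.symm⟩
    omega
  · intro z hz'
    obtain ⟨i, hi, hzi⟩ := hz (z - m) (mem_image.2 ⟨z, hz', rfl⟩)
    exact ⟨i, hi, by omega⟩

variable {p : ℕ} [Fact p.Prime]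

/-- Two shifts of `B` that almost avoid `C` almost coincide. -/
lemma fS_le_of_avoid (B C : Finset (ZMod p)) (a a' : ZMod p) :
    fS B (a' - a) + B.card + C.card ≤ p + (B.filter fun b => a + b ∈ C).card +
      (B.filter fun b => a' + b ∈ C).card := by
  set U := ((B.filter fun b => b - (a' - a) ∉ B).filter fun b => a + b ∉ C).image fun b => a + b
    with hU
  set V := (B.filter fun b => a' + b ∉ C).image fun b => a' + b with hV
  have hUc : U.card = ((B.filter fun b => b - (a' - a) ∉ B).filter fun b => a + b ∉ C).card :=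
    card_image_of_injective _ (add_right_injective _)
  have hVc : V.card = (B.filter fun b => a' + b ∉ C).card :=
    card_image_of_injective _ (add_right_injective _)
  have h1 := card_filter_add_card_filter_not (s := B) fun b => a' + b ∈ C
  have h2 := card_filter_add_card_filter_not (s := B.filter fun b => b - (a' - a) ∉ B)
    fun b => a + b ∈ C
  have h3 : ((B.filter fun b => b - (a' - a) ∉ B).filter fun b => a + b ∈ C).card ≤
      (B.filter fun b => a + b ∈ C).card :=
    card_le_card (filter_subset_filter _ (filter_subset _ _))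
  have hUV : Disjoint U V := by
    rw [disjoint_left]
    intro y hy hy'
    obtain ⟨b, hb, rfl⟩ := mem_image.1 hy
    obtain ⟨b', hb', h⟩ := mem_image.1 hy'
    have h4 := (mem_filter.1 (mem_filter.1 hb).1).2
    apply h4
    have : b - (a' - a) = b' := by linear_combination -h
    rw [this]
    exact (mem_filter.1 hb').1
  have hC : Disjoint (U ∪ V) C := by
    rw [disjoint_left]
    intro y hy
    rcases mem_union.1 hy with hy | hy
    · obtain ⟨b, hb, rfl⟩ := mem_image.1 hy
      exact (mem_filter.1 hb).2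
    · obtain ⟨b, hb, rfl⟩ := mem_image.1 hy
      exact (mem_filter.1 hb).2
  have h5 := card_le_p (U ∪ V ∪ C)
  rw [card_union_of_disjoint hC, card_union_of_disjoint hUV] at h5
  unfold fS
  omega

/-- Lifting a set that a dilation puts near zero. -/
lemma lift_ap (X T : Finset (ZMod p)) (ξ a0 : ZMod p) (hξ : ξ ≠ 0)
    (hT : ∀ a ∈ X, ∀ a' ∈ X, a - a' ∈ T) (hs : ∀ a ∈ X, 8 * nu (ξ * (a - a0)) ≤ p)
    (h2 : 2 ≤ X.card) (h : 2 * T.card + 3 < 5 * X.card) :
    ∃ (g a : ZMod p) (l : ℕ), g ≠ 0 ∧ X ⊆ ap a g l ∧ l + X.card ≤ T.card + 1 := by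
  have hp : 0 < p := (Fact.out : p.Prime).pos
  set φ : ZMod p → ℤ := fun a => (ξ * (a - a0)).valMinAbs with hφ
  have hcast : ∀ a, ((φ a : ℤ) : ZMod p) = ξ * (a - a0) := fun a => ZMod.coe_valMinAbs _
  set Z := X.image φ with hZ
  have hZc : Z.card = X.card := by
    refine card_image_of_injective _ fun a a' haa => ?_
    have h1 := hcast a
    rw [haa, hcast] at h1
    exact (sub_left_injective (mul_left_cancel₀ hξ h1)).symm
  have hb : ∀ z ∈ Z, -(p : ℤ) ≤ 8 * z ∧ 8 * z ≤ p := by
    intro z hz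
    obtain ⟨a, ha, rfl⟩ := mem_image.1 hz
    have h1 := hs a ha
    simp only [nu] at h1
    simp only [hφ]
    omega
  have hZT : (Z - Z).card ≤ T.card := by
    refine card_le_card_of_injOn (fun w : ℤ => ξ⁻¹ * (w : ZMod p)) ?_ ?_
    · intro w hw
      obtain ⟨u, hu, v, hv, rfl⟩ := mem_sub.1 (mem_coe.1 hw)
      obtain ⟨a, ha, rfl⟩ := mem_image.1 hu
      obtain ⟨a', ha', rfl⟩ := mem_image.1 hv
      have : ξ⁻¹ * (((φ a - φ a' : ℤ)) : ZMod p) = a - a' := by
        push_cast
        rw [hcast, hcast]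
        field_simp
        ring
      simp only [this]
      exact mem_coe.2 (hT a ha a' ha')
    · intro w hw w' hw' hww
      obtain ⟨u, hu, v, hv, rfl⟩ := mem_sub.1 (mem_coe.1 hw)
      obtain ⟨u', hu', v', hv', rfl⟩ := mem_sub.1 (mem_coe.1 hw')
      have h1 := mul_left_cancel₀ (inv_ne_zero hξ) hww
      rw [ZMod.intCast_eq_intCast_iff_dvd_sub] at h1
      have h3 := hb u hu
      have h4 := hb v hv
      have h5 := hb u' hu'
      have h6 := hb v' hv'
      have h7 := Int.eq_zero_of_abs_lt_dvd h1 (abs_lt.2 ⟨by omega, by omega⟩)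
      omega
  obtain ⟨m, d, L, hd1, ⟨u, hu, v, hv, hduv⟩, hL, hz⟩ := int_lemma Z (by omega) (by omega)
  have hd0 : (d : ZMod p) ≠ 0 := by
    intro h0
    have h3 := hb u hu
    have h4 := hb v hv
    have h5 := Nat.le_of_dvd hd1 ((ZMod.natCast_eq_zero_iff d p).1 h0)
    omega
  refine ⟨ξ⁻¹ * d, a0 + ξ⁻¹ * m, L + 1, mul_ne_zero (inv_ne_zero hξ) hd0, ?_, by omega⟩
  intro a ha
  obtain ⟨i, hi, hzi⟩ := hz (φ a) (mem_image_of_mem _ ha)
  refine mem_ap.2 ⟨i, by omega, ?_⟩
  have h1 := hcast a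
  rw [hzi] at h1
  push_cast at h1
  field_simp
  linear_combination h1

theorem struct_ (h1 : TauStmt) (h2 : Four1Stmt) : StructStmt := by
  intro δ hδ
  obtain ⟨t, ht0, ht1, htδ⟩ : ∃ t : ℝ, 0 < t ∧ t ≤ 1 / 200 ∧ 12 * t ≤ δ :=
    ⟨min (1 / 200) (δ / 12), lt_min (by norm_num) (by positivity), min_le_left _ _, by
      have := min_le_right (1 / 200 : ℝ) (δ / 12); linarith⟩
  refine ⟨t ^ 2, by positivity, ⌈2 / t⌉₊, ?_⟩
  intro p _ B X C hB hx0 hxn hC htr
  have hp : 0 < p := (Fact.out : p.Prime).pos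
  have hp' : (0 : ℝ) < p := by exact_mod_cast hp
  set x : ℝ := (X.card : ℝ) with hx
  set n : ℝ := (B.card : ℝ) with hn
  have htx : 2 ≤ t * x := by
    have h3 : 2 / t ≤ x := Nat.ceil_le.1 hx0
    rw [div_le_iff₀ ht0] at h3
    linarith
  have hxpos : 0 < x := by
    by_contra hneg
    have : t * x ≤ 0 := mul_nonpos_of_nonneg_of_nonpos ht0.le (not_lt.1 hneg)
    linarith
  have hx400 : 400 ≤ x := by nlinarith
  have hnpos : 0 < n := by
    by_contra hneg
    have : t ^ 2 * n ≤ 0 := mul_nonpos_of_nonneg_of_nonpos (by positivity) (not_lt.1 hneg)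
    linarith
  have hBne : B.Nonempty := card_pos.1 (by rw [hn] at hnpos; exact_mod_cast hnpos)
  classical
  set X1 := X.filter fun a => ((B.filter fun b => a + b ∈ C).card : ℝ) ≤ t * x with hX1
  have hX1c : (1 - t) * x ≤ X1.card := by
    set X1' := X.filter fun a => ¬ ((B.filter fun b => a + b ∈ C).card : ℝ) ≤ t * x with hX1'
    have h3 : (X1.card : ℝ) + X1'.card = x := by
      rw [hx]; exact_mod_cast card_filter_add_card_filter_not (s := X) _
    have h4 : (X1'.card : ℝ) * (t * x) ≤ trip X B C := by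
      rw [← nsmul_eq_mul, trip]
      push_cast
      refine le_trans (card_nsmul_le_sum X1' _ _ fun a ha => (not_le.1 (mem_filter.1 ha).2).le) ?_
      exact sum_le_sum_of_subset_of_nonneg (filter_subset _ _) fun _ _ _ => by positivity
    have h5 : (X1'.card : ℝ) * (t * x) ≤ (t * x) * (t * x) := by nlinarith
    have h6 := le_of_mul_le_mul_right h5 (by positivity)
    linarith
  set ρ : ℝ := x * (1 + 3 * t) with hρ
  have hfS : ∀ a ∈ X1, ∀ a' ∈ X1, a - a' ∈ ball (fS B) ρ := by
    intro a ha a' ha'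
    rw [mem_ball]
    have h3 : (fS B (a - a') : ℝ) + B.card + C.card ≤ p + (B.filter fun b => a' + b ∈ C).card +
        (B.filter fun b => a + b ∈ C).card := by exact_mod_cast fS_le_of_avoid B C a' a
    have h4 := (mem_filter.1 ha).2
    have h5 := (mem_filter.1 ha').2
    have h6 : t ^ 2 * x ≤ t * x := by nlinarith
    rw [hρ]
    linarith
  set T := ball (fS B) ρ with hT
  have hTc : (T.card : ℝ) ≤ (2 + 8 * t) * x + 1 := by
    have h3 := h1 p B ρ t hB (by rw [hρ]; nlinarith) (by linarith) (by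
      have h4 : ρ ≤ 2 * x := by rw [hρ]; nlinarith
      have h5 : t ^ 2 * n * 200 ≤ t * n := by nlinarith [mul_pos ht0 hnpos]
      linarith)
    have h4 : (2 + t) * ρ ≤ (2 + 8 * t) * x := by
      rw [hρ]; nlinarith [mul_pos ht0 hxpos]
    linarith
  obtain ⟨ξ, hξ, hF⟩ := h2 p B T ρ hBne hB fun u hu => mem_ball.1 hu
  set Bad := T.filter fun u => ¬ 8 * nu (ξ * u) ≤ p with hBad
  have hBadc : (Bad.card : ℝ) ≤ 2 * t * x := by
    have h3 : (Bad.card : ℝ) * ((p : ℝ) / 8) ^ 2 ≤ ∑ u ∈ T, (nu (ξ * u) : ℝ) ^ 2 := by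
      rw [← nsmul_eq_mul]
      refine le_trans (card_nsmul_le_sum Bad (fun u => (nu (ξ * u) : ℝ) ^ 2) _ fun u hu => ?_) ?_
      · have h4 : p ≤ 8 * nu (ξ * u) := (not_le.1 (mem_filter.1 hu).2).le
        have h5 : (p : ℝ) ≤ 8 * nu (ξ * u) := by exact_mod_cast h4
        exact pow_le_pow_left₀ (by positivity) (by linarith) 2
      · exact sum_le_sum_of_subset_of_nonneg (filter_subset _ _) fun _ _ _ => by positivity
    have h4 : (Bad.card : ℝ) * ((p : ℝ) / 8) ^ 2 * n ≤ (p : ℝ) ^ 2 * T.card * ρ :=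
      le_trans (mul_le_mul_of_nonneg_right h3 hnpos.le) hF
    have h5 : (Bad.card : ℝ) * n ≤ 64 * T.card * ρ := by
      have h6 : (p : ℝ) ^ 2 * (Bad.card * n) ≤ (p : ℝ) ^ 2 * (64 * T.card * ρ) := by nlinarith
      exact le_of_mul_le_mul_left h6 (by positivity)
    have h6 : (T.card : ℝ) ≤ 3 * x := by nlinarith
    have h7 : ρ ≤ 2 * x := by rw [hρ]; nlinarith
    have h8 : (T.card : ℝ) * ρ ≤ (3 * x) * (2 * x) :=
      mul_le_mul h6 h7 (by rw [hρ]; positivity) (by positivity)
    have h9 : x * x ≤ x * (t ^ 2 * n) := mul_le_mul_of_nonneg_left hxn hxpos.le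
    have h10 : 384 * (x * (t ^ 2 * n)) ≤ 2 * t * x * n := by
      have : 0 < t * x * n := by positivity
      nlinarith
    have h11 : (Bad.card : ℝ) * n ≤ 2 * t * x * n := by linarith
    exact le_of_mul_le_mul_right h11 hnpos
  have hX1ne : X1.Nonempty := by
    have : (0 : ℝ) < X1.card := by nlinarith
    exact card_pos.1 (by exact_mod_cast this)
  obtain ⟨a0, ha0⟩ := hX1ne
  set X2 := X1.filter fun a => 8 * nu (ξ * (a - a0)) ≤ p with hX2
  have hX2c : (1 - 3 * t) * x ≤ X2.card := by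
    have h3 : X2.card + (X1.filter fun a => ¬ 8 * nu (ξ * (a - a0)) ≤ p).card = X1.card :=
      card_filter_add_card_filter_not (s := X1) fun a => 8 * nu (ξ * (a - a0)) ≤ p
    have h4 : (X1.filter fun a => ¬ 8 * nu (ξ * (a - a0)) ≤ p).card ≤ Bad.card := by
      refine card_le_card_of_injOn (fun a => a - a0) ?_ fun a _ a' _ h => sub_left_injective h
      intro a ha
      obtain ⟨ha1, ha2⟩ := mem_filter.1 (mem_coe.1 ha)
      exact mem_coe.2 (mem_filter.2 ⟨hfS a ha1 a0 ha0, ha2⟩)
    have h5 : X1.card ≤ X2.card + Bad.card := by omega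
    have h6 : (X1.card : ℝ) ≤ X2.card + Bad.card := by exact_mod_cast h5
    linarith
  have hsub : X2 ⊆ X1 := filter_subset _ _
  obtain ⟨g, a, l, hg, hap, hl⟩ := lift_ap X2 T ξ a0 hξ
    (fun a ha a' ha' => hfS a (hsub ha) a' (hsub ha')) (fun a ha => (mem_filter.1 ha).2)
    (by
      have : (2 : ℝ) ≤ X2.card := by nlinarith
      exact_mod_cast this)
    (by
      have : 2 * (T.card : ℝ) + 3 < 5 * X2.card := by nlinarith
      exact_mod_cast this)
  refine ⟨g, a, l, X2, hg, hsub.trans (filter_subset _ _), hap, ?_, ?_⟩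
  · have h3 : (l : ℝ) + X2.card ≤ T.card + 1 := by exact_mod_cast hl
    nlinarith
  · nlinarith

end Pool.Agent.MP_93a3f8_co
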