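import Pool.Agent.Mg.F93a3f8p.Gbed3f0

/-! Sampling lemmas. -/

open Finset Pointwise

namespace Pool.Agent.MP_93a3f8_co

/-- Averaging over independent uniform choices. -/
lemma avg_pi {ι α β : Type*} [Fintype ι] [DecidableEq ι] (D : ι → Finset α)
    (hD : ∀ i, (D i).Nonempty) (U : Finset β) (g : β → ι → α → ℝ) :
    ∃ f ∈ Fintype.piFinset D,
      ∑ u ∈ U, ∏ i, g u i (f i) ≤ ∑ u ∈ U, ∏ i, ((∑ a ∈ D i, g u i a) / (D i).card) := by
  apply exists_le_of_sum_le (Fintype.piFinset_nonempty.2 hD)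
  rw [sum_comm, sum_const, Fintype.card_piFinset, nsmul_eq_mul, mul_sum]
  refine le_of_eq (sum_congr rfl fun u _ => ?_)
  rw [← prod_univ_sum D (g u), prod_div_distrib, Nat.cast_prod, mul_div_cancel₀]
  exact prod_ne_zero_iff.2 fun i _ => by exact_mod_cast (hD i).card_pos.ne'

theorem samp : SampStmt := by
  intro p _ D U N w hD hN
  obtain ⟨f, hf, h⟩ := avg_pi (fun _ : Fin w => D) (fun _ => hD) U
    (fun u _ a => if a ∈ N u then 0 else 1)
  refine ⟨univ.image f, ?_, by simpa using card_image_le (s := univ) (f := f), ?_⟩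
  · intro x hx
    obtain ⟨i, _, rfl⟩ := mem_image.1 hx
    exact Fintype.mem_piFinset.1 hf i
  · refine le_trans (le_trans ?_ h) (le_of_eq ?_)
    · rw [card_filter, Nat.cast_sum]
      refine sum_le_sum fun u _ => ?_
      split_ifs with hd
      · rw [prod_congr rfl (g := fun _ => 1)]
        · simp
        · intro i _
          rw [if_neg (disjoint_left.1 hd (mem_image_of_mem _ (mem_univ i)))]
      · simpa using prod_nonneg fun i _ => by split_ifs <;> norm_num
    · refine sum_congr rfl fun u hu => ?_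
      rw [prod_const, card_univ, Fintype.card_fin]
      congr 1
      have hc : (D.card : ℝ) ≠ 0 := by exact_mod_cast hD.card_pos.ne'
      have h1 : ∑ a ∈ D, (if a ∈ N u then (0 : ℝ) else 1) = D.card - (N u).card := by
        have h2 : ∀ a, (if a ∈ N u then (0 : ℝ) else 1) = 1 - if a ∈ N u then 1 else 0 := by
          intro a; split_ifs <;> simp
        simp only [h2, sum_sub_distrib, sum_const, nsmul_eq_mul, mul_one, sum_boole]
        rw [filter_mem_eq_inter, inter_eq_right.2 (hN u hu)]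
      rw [h1]; field_simp

lemma one_sub_pow_le {t : ℝ} (ht : t ≤ 1) (w : ℕ) : (1 - t) ^ w ≤ Real.exp (-(t * w)) := by
  have h1 : 1 - t ≤ Real.exp (-t) := by linarith [Real.add_one_le_exp (-t)]
  calc (1 - t) ^ w ≤ Real.exp (-t) ^ w := pow_le_pow_left₀ (by linarith) h1 w
    _ = Real.exp (-(t * w)) := by rw [← Real.exp_nat_mul]; ring_nf

variable {p : ℕ} [Fact p.Prime]

/-- One element from each block. -/
lemma block_sample (A B : Finset (ZMod p)) (w : ℕ) (hw : w ≠ 0) (hwA : w ≤ A.card) (x : ℝ)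
    (hx0 : 0 ≤ x) (hx1 : x ≤ 1) :
    ∃ A' ⊆ A, A'.card ≤ w ∧
      ∑ y, x ^ rep A' B y ≤ ∑ y, Real.exp (-((1 - x) * (rep A B y * w / (2 * A.card)))) := by
  classical
  obtain ⟨P, hP, hc⟩ := Finpartition.exists_equipartition_card_eq A hw hwA
  obtain ⟨f, hf, h⟩ := avg_pi (fun i : P.parts => i.1) (fun i => P.nonempty_of_mem_parts i.2)
    univ (fun y _ a => if y - a ∈ B then x else 1)
  have hf' : ∀ i, f i ∈ i.1 := Fintype.mem_piFinset.1 hf
  have hinj : Function.Injective f := fun i j hij =>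
    Subtype.ext (P.eq_of_mem_parts i.2 j.2 (hf' i) (hij ▸ hf' j))
  refine ⟨univ.image f, ?_, ?_, ?_⟩
  · intro a ha
    obtain ⟨i, _, rfl⟩ := mem_image.1 ha
    exact P.le i.2 (hf' i)
  · simpa [hc] using card_image_le (s := univ) (f := f)
  · refine le_trans (le_trans (le_of_eq ?_) h) (sum_le_sum fun y _ => ?_)
    · refine sum_congr rfl fun y _ => ?_
      rw [prod_ite, prod_const, prod_const_one, mul_one, rep_comm, rep, filter_image,
        card_image_of_injective _ hinj]
    · have hn : (0 : ℝ) < A.card := by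
        have : 0 < A.card := by omega
        exact_mod_cast this
      have hw' : (0 : ℝ) < w := by exact_mod_cast Nat.pos_of_ne_zero hw
      have key : ∀ i : P.parts, (∑ a ∈ i.1, if y - a ∈ B then x else 1) / (i.1.card : ℝ) ≤
          Real.exp (-((1 - x) * ((i.1.filter fun a => y - a ∈ B).card * w / (2 * A.card)))) := by
        intro i
        have hi : (0 : ℝ) < i.1.card := by exact_mod_cast (P.nonempty_of_mem_parts i.2).card_pos
        have h1 : (∑ a ∈ i.1, if y - a ∈ B then x else 1) =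
            i.1.card - (1 - x) * (i.1.filter fun a => y - a ∈ B).card := by
          have h2 : ∀ a, (if y - a ∈ B then x else 1) =
              1 - (1 - x) * if y - a ∈ B then 1 else 0 := by
            intro a; split_ifs <;> simp
          simp only [h2, sum_sub_distrib, sum_const, nsmul_eq_mul, mul_one, ← mul_sum, sum_boole]
        have h3 : (i.1.card : ℝ) * w ≤ 2 * A.card := by
          have h4 := hP.card_part_le_average_add_one i.2
          rw [hc] at h4
          have h5 : A.card / w * w ≤ A.card := Nat.div_mul_le_self _ _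
          have h6 : i.1.card * w ≤ 2 * A.card := by nlinarith
          exact_mod_cast h6
        rw [h1]
        refine le_trans ?_ (Real.add_one_le_exp _)
        set r : ℝ := ((i.1.filter fun a => y - a ∈ B).card : ℝ)
        have hr : 0 ≤ r := Nat.cast_nonneg _
        have h7 : r * w / (2 * A.card) ≤ r / i.1.card := by
          rw [div_le_div_iff₀ (by positivity) hi]
          nlinarith
        have h8 : (i.1.card - (1 - x) * r) / i.1.card = 1 - (1 - x) * (r / i.1.card) := by
          field_simp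
        rw [h8]
        nlinarith
      refine le_trans (prod_le_prod (fun i _ => ?_) fun i _ => key i) (le_of_eq ?_)
      · exact div_nonneg (sum_nonneg fun a _ => by split_ifs <;> linarith) (Nat.cast_nonneg _)
      · rw [← Real.exp_sum, sum_neg_distrib, ← mul_sum, ← sum_div, ← sum_mul, ← Nat.cast_sum]
        have h9 : ∑ i : P.parts, (i.1.filter fun a => y - a ∈ B).card = rep A B y := by
          rw [sum_coe_sort P.parts fun t => (t.filter fun a => y - a ∈ B).card, rep_comm, rep,
            ← card_biUnion]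
          · congr 1
            ext a
            simp only [mem_biUnion, mem_filter]
            constructor
            · rintro ⟨t, ht, ha, hb⟩
              exact ⟨P.le ht ha, hb⟩
            · rintro ⟨ha, hb⟩
              obtain ⟨t, ht, hat⟩ := P.exists_mem ha
              exact ⟨t, ht, hat, hb⟩
          · intro s hs t ht hst
            exact disjoint_filter_filter (P.disjoint hs ht hst)
        rw [h9]

/-- Two-sided sampling. -/
lemma two_sided (A B : Finset (ZMod p)) (n w : ℕ) (hA : A.card = n) (hB : B.card = n)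
    (hw : w ≠ 0) (hwn : w ≤ n) :
    ∃ A' ⊆ A, ∃ B' ⊆ B, A'.card ≤ w ∧ B'.card ≤ w ∧
      ∑ y, (1 - Real.exp (-(rep A B y * (w : ℝ) ^ 2 / (4 * (n : ℝ) ^ 2)))) ≤ (A' + B').card := by
  have hn : (0 : ℝ) < n := by
    have : 0 < n := by omega
    exact_mod_cast this
  have hw' : (0 : ℝ) < w := by exact_mod_cast Nat.pos_of_ne_zero hw
  have hwn' : (w : ℝ) / n ≤ 1 := by rw [div_le_one hn]; exact_mod_cast hwn
  have hpos : 0 < (w : ℝ) / n := by positivity
  obtain ⟨A', hA', hc, h⟩ := block_sample A B w hw (hA ▸ hwn) (Real.exp (-(w / n)))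
    (Real.exp_pos _).le (Real.exp_le_one_iff.2 (by linarith))
  obtain ⟨B', hB', hc', h'⟩ := samp p B univ (fun y => B.filter fun b => y - b ∈ A') w
    (card_pos.1 (by omega)) (fun _ _ => filter_subset _ _)
  refine ⟨A', hA', B', hB', hc, hc', ?_⟩
  have h1 : (p : ℝ) ≤ (A' + B').card +
      (univ.filter fun y => Disjoint B' (B.filter fun b => y - b ∈ A')).card := by
    have h2 : (univ : Finset (ZMod p)) ⊆ (A' + B') ∪
        univ.filter fun y => Disjoint B' (B.filter fun b => y - b ∈ A') := by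
      intro y _
      rw [mem_union, mem_filter]
      by_cases hy : Disjoint B' (B.filter fun b => y - b ∈ A')
      · exact Or.inr ⟨mem_univ _, hy⟩
      · obtain ⟨b, hb, hb'⟩ := not_disjoint_iff.1 hy
        exact Or.inl (mem_add.2 ⟨y - b, (mem_filter.1 hb').2, b, hb, by simp⟩)
    have h3 := (card_le_card h2).trans (card_union_le _ _)
    rw [card_univ_p] at h3
    exact_mod_cast h3
  have h4 : ∑ y : ZMod p, (1 - ((B.filter fun b => y - b ∈ A').card : ℝ) / B.card) ^ w ≤
      ∑ y, Real.exp (-(w / n)) ^ rep A' B y := by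
    refine sum_le_sum fun y _ => (one_sub_pow_le ?_ w).trans (le_of_eq ?_)
    · rw [div_le_one (by rw [hB]; exact hn)]
      exact_mod_cast card_filter_le _ _
    · rw [← Real.exp_nat_mul, hB, rep]; congr 1; ring
  have h5 : (w : ℝ) / (2 * n) ≤ 1 - Real.exp (-(w / n)) := by
    have h6 : Real.exp (-(w / n : ℝ)) ≤ 1 / (1 + w / n) := by
      rw [Real.exp_neg, one_div]
      exact inv_anti₀ (by positivity) (by linarith [Real.add_one_le_exp (w / n : ℝ)])
    have h7 : 1 / (1 + (w / n : ℝ)) ≤ 1 - (w / n) / 2 := by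
      rw [div_le_iff₀ (by positivity)]
      nlinarith
    have h8 : (w : ℝ) / (2 * n) = (w / n) / 2 := by field_simp
    linarith
  have h9 : ∑ y, Real.exp (-((1 - Real.exp (-(w / n))) * (rep A B y * w / (2 * A.card)))) ≤
      ∑ y : ZMod p, Real.exp (-(rep A B y * (w : ℝ) ^ 2 / (4 * (n : ℝ) ^ 2))) := by
    refine sum_le_sum fun y _ => Real.exp_le_exp.2 (neg_le_neg ?_)
    rw [hA]
    calc (rep A B y * (w : ℝ) ^ 2 / (4 * (n : ℝ) ^ 2))
        = w / (2 * n) * (rep A B y * w / (2 * n)) := by field_simp; ring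
      _ ≤ _ := mul_le_mul_of_nonneg_right h5 (by positivity)
  rw [sum_sub_distrib, sum_const, card_univ_p, nsmul_eq_mul, mul_one]
  linarith

lemma one_sub_exp_ge {a : ℝ} (ha : 0 ≤ a) : a / (1 + a) ≤ 1 - Real.exp (-a) := by
  have h6 : Real.exp (-a) ≤ 1 / (1 + a) := by
    rw [Real.exp_neg, one_div]
    exact inv_anti₀ (by positivity) (by linarith [Real.add_one_le_exp a])
  have : a / (1 + a) = 1 - 1 / (1 + a) := by field_simp; ring
  linarith

theorem s1 : S1Stmt := by
  intro η hη
  set L : ℝ := 8 / η + 4 with hL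
  have hL4 : 4 < L := by have : 0 < 8 / η := by positivity
                         linarith
  have hLη : L * η = 8 + 4 * η := by rw [hL]; field_simp
  refine ⟨L + 1, by linarith, ⌈(L + 1) ^ 2⌉₊, fun p _ A B n hA hB hn => ?_⟩
  have hn1 : (L + 1) ^ 2 ≤ n := (Nat.le_ceil _).trans (by exact_mod_cast hn)
  have hs : L + 1 ≤ √n := Real.le_sqrt_of_sq_le hn1
  have hn0 : (0 : ℝ) < n := by nlinarith
  have hss : √n * √n = (n : ℝ) := Real.mul_self_sqrt hn0.le
  set w : ℕ := ⌈L * √n⌉₊ with hw
  have hw1 : L * √n ≤ w := Nat.le_ceil _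
  have hw2 : (w : ℝ) ≤ L * √n + 1 := (Nat.ceil_lt_add_one (by positivity)).le
  have hw0 : w ≠ 0 := by
    intro h
    rw [h] at hw1
    have : 0 < L * √n := by apply mul_pos <;> linarith
    simp at hw1
    linarith
  have hwn : w ≤ n := by
    have : (w : ℝ) ≤ n := by nlinarith
    exact_mod_cast this
  obtain ⟨A', hA', B', hB', hc, hc', h⟩ := two_sided A B n w hA hB hw0 hwn
  have hcw : (w : ℝ) ≤ (L + 1) * √n := by nlinarith
  have hgood : (2 * n : ℝ) ≤ (A' + B').card → Good A B n ((L + 1) * √n) := fun h2 =>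
    ⟨A', hA', B', hB', le_trans (by exact_mod_cast hc) hcw, le_trans (by exact_mod_cast hc') hcw,
      by
        have : 2 * n ≤ (A' + B').card := by exact_mod_cast h2
        omega⟩
  set t : ZMod p → ℝ := fun y => 1 - Real.exp (-(rep A B y * (w : ℝ) ^ 2 / (4 * (n : ℝ) ^ 2)))
  have hw3 : L ^ 2 * n ≤ (w : ℝ) ^ 2 := by
    have : (L * √n) ^ 2 ≤ (w : ℝ) ^ 2 := pow_le_pow_left₀ (by positivity) hw1 2
    nlinarith
  have ht : ∀ y, (rep A B y * L ^ 2 / (4 * n)) / (1 + rep A B y * L ^ 2 / (4 * n)) ≤ t y := by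
    intro y
    refine (one_sub_exp_ge (by positivity)).trans (sub_le_sub_left (Real.exp_le_exp.2 ?_) _)
    rw [neg_le_neg_iff, div_le_div_iff₀ (by positivity) (by positivity)]
    have : (0 : ℝ) ≤ rep A B y := Nat.cast_nonneg _
    have h3 : (rep A B y : ℝ) * n * (L ^ 2 * n) ≤ rep A B y * n * (w : ℝ) ^ 2 :=
      mul_le_mul_of_nonneg_left hw3 (by positivity)
    nlinarith
  have ht0 : ∀ y, 0 ≤ t y := fun y => le_trans (by positivity) (ht y)
  set X : Finset (ZMod p) := univ.filter fun y => n ≤ L * rep A B y with hX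
  by_cases h1 : (2 + η) * n ≤ X.card
  · refine Or.inl (hgood (le_trans ?_ h))
    have h2 : ∑ y ∈ X, (1 - 4 / L) ≤ ∑ y, t y := by
      refine le_trans (sum_le_sum fun y hy => le_trans ?_ (ht y))
        (sum_le_sum_of_subset_of_nonneg (subset_univ _) fun y _ _ => ht0 y)
      have hy' : (n : ℝ) ≤ L * rep A B y := (mem_filter.1 hy).2
      set a : ℝ := rep A B y * L ^ 2 / (4 * n)
      have ha : L / 4 ≤ a := by
        rw [div_le_div_iff₀ (by norm_num) (by positivity)]
        nlinarith
      have hL0 : 0 < L := by linarith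
      rw [le_div_iff₀ (by linarith)]
      have h3 : 4 / L * (L / 4) = 1 := by field_simp
      have h4 : 0 < 4 / L := by positivity
      nlinarith
    rw [sum_const, nsmul_eq_mul] at h2
    have h3 : 2 ≤ (2 + η) * (1 - 4 / L) := by
      have h4 : (2 + η) * (4 / L) = η := by
        field_simp
        linarith
      linarith
    have h5 : 0 ≤ 1 - 4 / L := by
      rw [sub_nonneg, div_le_one (by linarith)]; linarith
    calc (2 * n : ℝ) ≤ (2 + η) * (1 - 4 / L) * n := mul_le_mul_of_nonneg_right h3 hn0.le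
      _ = (2 + η) * n * (1 - 4 / L) := by ring
      _ ≤ X.card * (1 - 4 / L) := mul_le_mul_of_nonneg_right h1 h5
      _ ≤ _ := h2
  · by_cases h2 : (trip A B Xᶜ : ℝ) ≤ η * (n : ℝ) ^ 2
    · refine Or.inr ⟨Xᶜ, ?_, h2⟩
      have h3 : X.card + Xᶜ.card = p := by rw [card_add_card_compl, ZMod.card]
      have h4 : (X.card : ℝ) + Xᶜ.card = p := by exact_mod_cast h3
      linarith
    · refine Or.inl (hgood (le_trans ?_ h))
      have h3 : ∑ y ∈ Xᶜ, (rep A B y : ℝ) * (L / (2 * n)) ≤ ∑ y, t y := by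
        refine le_trans (sum_le_sum fun y hy => le_trans ?_ (ht y))
          (sum_le_sum_of_subset_of_nonneg (subset_univ _) fun y _ _ => ht0 y)
        have hy' : L * rep A B y ≤ n := by
          have := mem_compl.1 hy
          simp only [hX, mem_filter, mem_univ, true_and, not_le] at this
          exact this.le
        have hr : (0 : ℝ) ≤ rep A B y := Nat.cast_nonneg _
        have ha : rep A B y * L ^ 2 / (4 * n) ≤ L / 4 := by
          rw [div_le_div_iff₀ (by positivity) (by norm_num)]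
          nlinarith
        rw [le_div_iff₀ (by positivity)]
        calc (rep A B y : ℝ) * (L / (2 * n)) * (1 + rep A B y * L ^ 2 / (4 * n))
            ≤ rep A B y * (L / (2 * n)) * (L / 2) :=
              mul_le_mul_of_nonneg_left (by linarith) (by positivity)
          _ = _ := by field_simp; ring
      rw [← sum_mul, ← Nat.cast_sum, ← trip_eq] at h3
      refine le_trans ?_ h3
      have h4 : η * (n : ℝ) ^ 2 * (L / (2 * n)) ≤ trip A B Xᶜ * (L / (2 * n)) :=
        mul_le_mul_of_nonneg_right (not_le.1 h2).le (by positivity)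
      refine le_trans ?_ h4
      have h5 : η * (n : ℝ) ^ 2 * (L / (2 * n)) = L * η * n / 2 := by field_simp
      rw [h5, hLη]
      nlinarith

/-- A set on which a bounded function is large. -/
lemma card_large {α : Type*} (S : Finset α) (g : α → ℝ) (M θ T : ℝ) (hM : ∀ s ∈ S, g s ≤ M)
    (hθ : 0 ≤ θ) (hT : T ≤ ∑ s ∈ S, g s) :
    T ≤ (S.filter fun s => θ ≤ g s).card * M + S.card * θ := by
  rw [← sum_filter_add_sum_filter_not S fun s => θ ≤ g s] at hT
  have h1 : ∑ s ∈ S.filter fun s => θ ≤ g s, g s ≤ (S.filter fun s => θ ≤ g s).card * M := by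
    rw [← nsmul_eq_mul]
    exact sum_le_card_nsmul _ _ _ fun s hs => hM s (mem_filter.1 hs).1
  have h2 : ∑ s ∈ S.filter fun s => ¬ θ ≤ g s, g s ≤ S.card * θ := by
    refine le_trans (sum_le_card_nsmul _ _ θ fun s hs => (not_le.1 (mem_filter.1 hs).2).le) ?_
    rw [nsmul_eq_mul]
    exact mul_le_mul_of_nonneg_right (by exact_mod_cast card_filter_le _ _) hθ
  linarith

lemma sum_rep_swap (A P Y : Finset (ZMod p)) :
    ∑ u ∈ Y, rep A P u = ∑ s ∈ P, (Y.filter fun u => u - s ∈ A).card := by
  simp only [rep, card_filter]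
  exact sum_comm

/-- One round of the window covering. -/
lemma wround (A P Y V : Finset (ZMod p)) (R v : ℝ) (k k' : ℕ) (hR : 0 < R)
    (hY : ∀ u ∈ Y, R ≤ rep A P u) (hv : ((Y - V).card : ℝ) ≤ v) (hk : 1 ≤ k)
    (hV : 2 * (p : ℝ) * k ≤ V.card * R) (hk' : 4 * v * P.card ≤ R * k * k')
    (Y1 : Finset (ZMod p)) (hY1 : Y1 ⊆ Y) :
    ∃ A' ⊆ A, ∃ B' ⊆ P, A'.card ≤ k' ∧ B'.card ≤ k ∧
      ((Y1 \ (A' + B')).card : ℝ) ≤ (1 - R / (8 * P.card)) * Y1.card := by
  rcases Y1.eq_empty_or_nonempty with rfl | ⟨u0, hu0⟩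
  · exact ⟨∅, empty_subset _, ∅, empty_subset _, by simp, by simp, by simp⟩
  have hy : (0 : ℝ) < Y1.card := by exact_mod_cast card_pos.2 ⟨u0, hu0⟩
  have hRP : R ≤ P.card := (hY u0 (hY1 hu0)).trans (by exact_mod_cast rep_le_right A P u0)
  have hP : (0 : ℝ) < P.card := hR.trans_le hRP
  have hp : (0 : ℝ) < p := by exact_mod_cast (Fact.out : p.Prime).pos
  have hk0 : (0 : ℝ) < k := by exact_mod_cast hk
  set g : ZMod p → ℝ := fun s => ((Y1.filter fun u => u - s ∈ A).card : ℝ) with hg
  set θ : ℝ := R * Y1.card / (2 * P.card) with hθ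
  have h1 := card_large P g Y1.card θ (R * Y1.card)
    (fun s _ => by simp only [hg]; exact_mod_cast card_filter_le _ _) (by positivity) (by
      simp only [hg]
      rw [← Nat.cast_sum, ← sum_rep_swap, Nat.cast_sum, mul_comm, ← nsmul_eq_mul]
      exact card_nsmul_le_sum _ _ _ fun u hu => hY u (hY1 hu))
  set Pg := P.filter fun s => θ ≤ g s with hPg
  have h2 : R / 2 ≤ Pg.card := by
    have h3 : (P.card : ℝ) * θ = R * Y1.card / 2 := by rw [hθ]; field_simp
    have h4 : R / 2 * Y1.card ≤ Pg.card * Y1.card := by linarith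
    exact le_of_mul_le_mul_right h4 hy
  obtain ⟨x, -, hx⟩ : ∃ x ∈ (univ : Finset (ZMod p)), k ≤ rep (-V) Pg x := by
    apply exists_le_of_sum_le univ_nonempty
    rw [sum_rep, sum_const, card_univ_p, smul_eq_mul, card_neg]
    have h3 : (p : ℝ) * k ≤ V.card * Pg.card := by
      have : (V.card : ℝ) * (R / 2) ≤ V.card * Pg.card :=
        mul_le_mul_of_nonneg_left h2 (Nat.cast_nonneg _)
      linarith
    exact_mod_cast h3
  obtain ⟨P', hP', hP'c⟩ := exists_subset_card_eq hx
  have hP'1 : ∀ s ∈ P', s ∈ P ∧ θ ≤ g s ∧ s - x ∈ V := by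
    intro s hs
    have h3 := mem_filter.1 (hP' hs)
    have h4 := mem_filter.1 h3.1
    exact ⟨h4.1, h4.2, by simpa using h3.2⟩
  set θ' : ℝ := R * k / (4 * P.card) with hθ'
  have h5 := card_large Y1 (fun u => (rep A P' u : ℝ)) k θ' (k * θ)
    (fun u _ => by rw [← hP'c]; exact_mod_cast rep_le_right A P' u) (by positivity) (by
      rw [← Nat.cast_sum, sum_rep_swap, Nat.cast_sum, ← hP'c, ← nsmul_eq_mul]
      exact card_nsmul_le_sum _ _ _ fun s hs => (hP'1 s hs).2.1)
  set Y2 := Y1.filter fun u => θ' ≤ (rep A P' u : ℝ) with hY2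
  have h6 : R / (4 * P.card) * Y1.card ≤ Y2.card := by
    have h7 : k * θ - Y1.card * θ' = R / (4 * P.card) * Y1.card * k := by
      rw [hθ, hθ']; field_simp; ring
    have h8 : R / (4 * P.card) * Y1.card * k ≤ Y2.card * k := by linarith
    exact le_of_mul_le_mul_right h8 hk0
  set D := (Y - V).image fun z => z - x with hD
  set N : ZMod p → Finset (ZMod p) := fun u => (P'.filter fun s => u - s ∈ A).image fun s => u - s
    with hN
  have hND : ∀ u ∈ Y1, N u ⊆ D := by
    intro u hu a ha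
    obtain ⟨s, hs, rfl⟩ := mem_image.1 ha
    exact mem_image.2 ⟨u - (s - x), sub_mem_sub (hY1 hu) (hP'1 s (mem_filter.1 hs).1).2.2, by ring⟩
  have hNc : ∀ u, (N u).card = rep A P' u := fun u =>
    card_image_of_injective _ fun a b h => by simpa using h
  have hDne : D.Nonempty := by
    obtain ⟨s, hs⟩ : P'.Nonempty := card_pos.1 (by omega)
    exact ⟨_, mem_image_of_mem _ (sub_mem_sub (hY1 hu0) (hP'1 s hs).2.2)⟩
  have hD0 : (0 : ℝ) < D.card := by exact_mod_cast hDne.card_pos
  have hDv : (D.card : ℝ) ≤ v := le_trans (by exact_mod_cast card_image_le) hv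
  obtain ⟨S, -, hSc, hS⟩ := samp p D Y2 N k' hDne fun u hu => hND u (mem_filter.1 hu).1
  have h9 : ∑ u ∈ Y2, (1 - ((N u).card : ℝ) / D.card) ^ k' ≤ Y2.card * (1 / 2) := by
    rw [← nsmul_eq_mul]
    refine sum_le_card_nsmul _ _ _ fun u hu => ?_
    have hu' := mem_filter.1 hu
    refine (one_sub_pow_le ?_ k').trans ?_
    · rw [div_le_one hD0]; exact_mod_cast card_le_card (hND u hu'.1)
    · have h10 : 1 ≤ ((N u).card : ℝ) / D.card * k' := by
        rw [div_mul_eq_mul_div, le_div_iff₀ hD0, hNc]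
        have h11 : θ' * k' ≤ rep A P' u * k' :=
          mul_le_mul_of_nonneg_right hu'.2 (Nat.cast_nonneg _)
        have h12 : v ≤ θ' * k' := by
          rw [hθ', div_mul_eq_mul_div, le_div_iff₀ (by positivity)]
          linarith
        linarith
      have h13 : Real.exp (-1) ≤ 1 / 2 := by
        have := one_sub_exp_ge (a := 1) zero_le_one
        linarith
      exact (Real.exp_le_exp.2 (by linarith)).trans h13
  refine ⟨S ∩ A, inter_subset_right, P', fun s hs => (hP'1 s hs).1,
    (card_le_card inter_subset_left).trans hSc, hP'c.le, ?_⟩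
  have h14 : Y1 \ (S ∩ A + P') ⊆ (Y1 \ Y2) ∪ Y2.filter fun u => Disjoint S (N u) := by
    intro u hu
    rw [mem_sdiff] at hu
    rw [mem_union, mem_sdiff]
    by_cases h : u ∈ Y2
    · refine Or.inr (mem_filter.2 ⟨h, ?_⟩)
      by_contra hd
      obtain ⟨a, ha, ha'⟩ := not_disjoint_iff.1 hd
      obtain ⟨s, hs, rfl⟩ := mem_image.1 ha'
      exact hu.2 (mem_add.2 ⟨u - s, mem_inter.2 ⟨ha, (mem_filter.1 hs).2⟩, s,
        (mem_filter.1 hs).1, by simp⟩)
    · exact Or.inl ⟨hu.1, h⟩
  have h15 : ((Y1 \ (S ∩ A + P')).card : ℝ) ≤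
      (Y1 \ Y2).card + (Y2.filter fun u => Disjoint S (N u)).card := by
    exact_mod_cast (card_le_card h14).trans (card_union_le _ _)
  have h16 : ((Y1 \ Y2).card : ℝ) + Y2.card = Y1.card := by
    exact_mod_cast card_sdiff_add_card_eq_card (filter_subset _ _)
  have h17 : R / (8 * P.card) * Y1.card = R / (4 * P.card) * Y1.card / 2 := by
    field_simp; ring
  rw [sub_mul, one_mul, h17]
  linarith

theorem wcov : WStmt := by
  intro p _ A P Y V R v k k' N hR hY hv hk hV hk'
  rcases Y.eq_empty_or_nonempty with rfl | ⟨u0, hu0⟩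
  · exact ⟨∅, empty_subset _, ∅, empty_subset _, by simp, by simp, by simp⟩
  have hRP : R ≤ P.card := (hY u0 hu0).trans (by exact_mod_cast rep_le_right A P u0)
  have hq : 0 ≤ 1 - R / (8 * P.card) := by
    rw [sub_nonneg, div_le_one (by linarith)]; linarith
  induction N with
  | zero => exact ⟨∅, empty_subset _, ∅, empty_subset _, by simp, by simp, by simp⟩
  | succ N ih =>
    obtain ⟨A1, hA1, B1, hB1, h1, h2, h3⟩ := ih
    obtain ⟨A2, hA2, B2, hB2, h4, h5, h6⟩ :=
      wround A P Y V R v k k' hR hY hv hk hV hk' (Y \ (A1 + B1)) sdiff_subset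
    refine ⟨A1 ∪ A2, union_subset hA1 hA2, B1 ∪ B2, union_subset hB1 hB2, ?_, ?_, ?_⟩
    · rw [Nat.succ_mul]; exact (card_union_le _ _).trans (Nat.add_le_add h1 h4)
    · rw [Nat.succ_mul]; exact (card_union_le _ _).trans (Nat.add_le_add h2 h5)
    · have h7 : Y \ ((A1 ∪ A2) + (B1 ∪ B2)) ⊆ (Y \ (A1 + B1)) \ (A2 + B2) := by
        intro y hy
        simp only [mem_sdiff] at hy ⊢
        exact ⟨⟨hy.1, fun h => hy.2 (add_subset_add subset_union_left subset_union_left h)⟩,
          fun h => hy.2 (add_subset_add subset_union_right subset_union_right h)⟩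
      calc ((Y \ ((A1 ∪ A2) + (B1 ∪ B2))).card : ℝ) ≤ ((Y \ (A1 + B1)) \ (A2 + B2)).card := by
            exact_mod_cast card_le_card h7
        _ ≤ _ := h6
        _ ≤ (1 - R / (8 * P.card)) * ((1 - R / (8 * P.card)) ^ N * Y.card) :=
            mul_le_mul_of_nonneg_left h3 hq
        _ = _ := by ring

end Pool.Agent.MP_93a3f8_co
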