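import Pool.Agent.Mg.F93a3f8p.Gbed3f0
import Pool.Agent.Mg.F93a3f8p.G90f4e6
import Pool.Agent.Mg.F93a3f8p.G8bd9e5
import Pool.Agent.Mg.F93a3f8p.G701b20
import Pool.Agent.Mg.F93a3f8p.Gae693d
import Pool.Agent.Mg.F93a3f8p.G6600c7
import Pool.Agent.Mg.F93a3f8p.Ga6fc18
import Pool.Agent.Mg.F93a3f8p.Gaed125
import Pool.Agent.Mg.F93a3f8p.G767993
import Pool.Agent.Mg.F93a3f8p.G30bbac
import Pool.Agent.Mg.F93a3f8p.G46ed45
import Pool.Agent.Mg.F93a3f8p.G1edded
import Pool.Agent.Mg.F93a3f8p.Gd2e183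

section

/-! A Bohr cell of almost periods with bounded growth. -/

open Finset Pointwise

namespace Pool.Agent.MP_93a3f8_co

namespace BohrAux

variable {p : ℕ} [Fact p.Prime]

lemma nu_add_le' (a b : ZMod p) : nu (a + b) ≤ nu a + nu b :=
  (ZMod.natAbs_valMinAbs_add_le a b).trans (Int.natAbs_add_le _ _)

lemma nu_neg' (a : ZMod p) : nu (-a) = nu a := ZMod.natAbs_valMinAbs_neg a

lemma nu_le_val (a : ZMod p) : nu a ≤ a.val := by
  rw [nu, ZMod.valMinAbs_natAbs_eq_min]; exact min_le_left _ _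

lemma nu_sub_le {N : ℕ} {x y : ZMod p} (h : N * x.val / p = N * y.val / p) :
    nu (x - y) * N ≤ p := by
  wlog hxy : y.val ≤ x.val generalizing x y
  · rw [← nu_neg', neg_sub]; exact this h.symm (by omega)
  have hp : 0 < p := (Fact.out : p.Prime).pos
  have h1 := nu_le_val (x - y)
  rw [ZMod.val_sub hxy] at h1
  have h2 := Nat.div_add_mod (N * x.val) p
  have h3 := Nat.div_add_mod (N * y.val) p
  have h4 := Nat.mod_lt (N * x.val) hp
  have h5 := Nat.mul_le_mul_right N h1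
  rw [Nat.sub_mul, mul_comm x.val, mul_comm y.val] at h5
  rw [h] at h2
  omega

/-- The box principle. -/
lemma box {α : Type*} (f : α → ZMod p) {N : ℕ} (hN : 1 ≤ N) (Γ : Finset (ZMod p)) (U : Finset α) :
    ∃ Δ ⊆ U, U.card ≤ N ^ Γ.card * Δ.card ∧
      ∀ a ∈ Δ, ∀ b ∈ Δ, ∀ ξ ∈ Γ, nu (ξ * (f a - f b)) * N ≤ p := by
  induction Γ using Finset.induction_on with
  | empty => exact ⟨U, Subset.rfl, by simp, by simp⟩
  | insert ξ Γ hξ ih =>
    obtain ⟨Δ, h1, h2, h3⟩ := ih
    have hp : 0 < p := (Fact.out : p.Prime).pos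
    obtain ⟨q, -, hq⟩ := exists_max_image (range N)
      (fun q => (Δ.filter fun a => N * (ξ * f a).val / p = q).card) ⟨0, by simp; omega⟩
    have h4 := card_le_mul_card_image_of_maps_to (s := Δ) (t := range N)
      (f := fun a => N * (ξ * f a).val / p) (fun a _ => by
        rw [mem_range, Nat.div_lt_iff_lt_mul hp]
        exact Nat.mul_lt_mul_of_pos_left (ZMod.val_lt _) (by omega)) _ hq
    refine ⟨Δ.filter fun a => N * (ξ * f a).val / p = q, (filter_subset _ _).trans h1, ?_, ?_⟩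
    · rw [card_insert_of_notMem hξ, pow_succ, mul_assoc]
      rw [card_range, mul_comm] at h4
      exact h2.trans (Nat.mul_le_mul_left _ h4)
    · intro a ha b hb η hη
      rw [mem_filter] at ha hb
      rcases mem_insert.1 hη with rfl | hη
      · rw [mul_sub]; exact nu_sub_le (ha.2.trans hb.2.symm)
      · exact h3 a ha.1 b hb.1 η hη

/-- The Bohr set of radius `j / N`. -/
def bs (Γ : Finset (ZMod p)) (N j : ℕ) : Finset (ZMod p) :=
  univ.filter fun u => ∀ ξ ∈ Γ, nu (ξ * u) * N ≤ j * p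

lemma mem_bs {Γ : Finset (ZMod p)} {N j : ℕ} {u : ZMod p} :
    u ∈ bs Γ N j ↔ ∀ ξ ∈ Γ, nu (ξ * u) * N ≤ j * p := by simp [bs]

lemma bs_mono (Γ : Finset (ZMod p)) (N : ℕ) {i j : ℕ} (h : i ≤ j) : bs Γ N i ⊆ bs Γ N j :=
  fun _ hu => mem_bs.2 fun ξ hξ => (mem_bs.1 hu ξ hξ).trans (Nat.mul_le_mul_right _ h)

lemma bs_card (Γ : Finset (ZMod p)) {N : ℕ} (hN : 1 ≤ N) (e : ℕ) :
    p ≤ N ^ Γ.card * (bs Γ (N * e) e).card := by
  obtain ⟨Δ, -, h2, h3⟩ := box (fun u : ZMod p => u) hN Γ univ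
  rw [card_univ_p] at h2
  refine h2.trans (Nat.mul_le_mul_left _ ?_)
  rcases Δ.eq_empty_or_nonempty with rfl | ⟨b, hb⟩
  · simp
  refine card_le_card_of_injOn (fun a => a - b) (fun a ha => ?_) (fun a _ c _ h => by simpa using h)
  refine mem_coe.2 (mem_bs.2 fun ξ hξ => ?_)
  rw [← mul_assoc, mul_comm e]
  exact Nat.mul_le_mul_right _ (h3 a ha b hb ξ hξ)

lemma bs_cell (Γ : Finset (ZMod p)) {N : ℕ} (hN : 1 ≤ N) (j M : ℕ) :
    ∃ Δ ⊆ range M, M ≤ N ^ Γ.card * Δ.card ∧
      (bs Γ N j + Δ.image fun i : ℕ => (i : ZMod p)).card ≤ (bs Γ N (j + 1)).card := by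
  obtain ⟨Δ, h1, h2, h3⟩ := box (fun i : ℕ => (i : ZMod p)) hN Γ (range M)
  rw [card_range] at h2
  refine ⟨Δ, h1, h2, ?_⟩
  rcases Δ.eq_empty_or_nonempty with rfl | ⟨b, hb⟩
  · simp
  refine card_le_card_of_injOn (fun a => a - (b : ZMod p)) (fun z hz => ?_)
    (fun a _ c _ h => by simpa using h)
  obtain ⟨u, hu, v, hv, rfl⟩ := mem_add.1 (mem_coe.1 hz)
  obtain ⟨a, ha, rfl⟩ := mem_image.1 hv
  refine mem_coe.2 (mem_bs.2 fun ξ hξ => ?_)
  have e1 := mem_bs.1 hu ξ hξ
  have e2 := h3 a ha b hb ξ hξ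
  have e3 := Nat.mul_le_mul_right N (nu_add_le' (ξ * u) (ξ * (a - b)))
  rw [← mul_add, ← add_sub_assoc, add_mul (nu _)] at e3
  rw [add_mul, one_mul]
  exact e3.trans (add_le_add e1 e2)

lemma exists_ratio (Γ : Finset (ZMod p)) {N e : ℕ} (hN : 1 ≤ N) (he : 1 ≤ e) (hd : Γ.card ≤ e) :
    ∃ i < e, (bs Γ (N * e) (e + i + 1)).card ≤ N * (bs Γ (N * e) (e + i)).card := by
  by_contra hc
  push Not at hc
  have key : ∀ i ≤ e, N ^ i * (bs Γ (N * e) e).card + i ≤ (bs Γ (N * e) (e + i)).card := by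
    intro i
    induction i with
    | zero => simp
    | succ i ih =>
      intro hi
      have h1 := Nat.mul_le_mul_left N (ih (by omega))
      have h2 := hc i (by omega)
      have h3 : i ≤ N * i := Nat.le_mul_of_pos_left _ hN
      rw [mul_add, ← mul_assoc, ← pow_succ'] at h1
      rw [← add_assoc e]
      omega
  have h1 := key e le_rfl
  have h2 := card_le_p (bs Γ (N * e) (e + e))
  have h3 := bs_card Γ hN e
  have h4 := Nat.mul_le_mul_right (bs Γ (N * e) e).card (Nat.pow_le_pow_right hN hd)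
  omega

end BohrAux

open BohrAux

theorem bohr (h : Four2Stmt) : BohrStmt := by
  intro p _ A B T ε D K hD hK hT hε hF
  have hp : (0 : ℝ) < p := by exact_mod_cast (Fact.out : p.Prime).pos
  have hT0 : (0 : ℝ) < T.card := by
    by_contra h0
    have : D * T.card ≤ 0 := mul_nonpos_of_nonneg_of_nonpos (by linarith) (not_lt.1 h0)
    linarith
  obtain ⟨Γ, hΓ, hB⟩ := h p T (card_pos.1 (by exact_mod_cast hT0))
  have hd : (Γ.card : ℝ) ≤ 4 * D := by
    have h1 : (Γ.card : ℝ) * T.card ≤ 4 * p := by exact_mod_cast hΓ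
    exact le_of_mul_le_mul_right (by linarith) hT0
  obtain ⟨e, he⟩ : ∃ e, e = max Γ.card 1 := ⟨_, rfl⟩
  have he1 : 1 ≤ e := he ▸ le_max_right _ _
  have he2 : Γ.card ≤ e := he ▸ le_max_left _ _
  have he3 : (e : ℝ) ≤ 4 * D := by
    rw [he]; push_cast; exact max_le hd (by linarith)
  obtain ⟨N, hN⟩ : ∃ N, N = ⌊14 * K⌋₊ := ⟨_, rfl⟩
  have hN1 : (N : ℝ) ≤ 14 * K := hN ▸ Nat.floor_le (by linarith)
  have hN2 : 13 * K ≤ N := by
    have := Nat.lt_floor_add_one (14 * K)
    rw [← hN] at this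
    linarith
  have hN3 : 1 ≤ N := by exact_mod_cast (show (1 : ℝ) ≤ N by linarith)
  have hN4 : 1 ≤ N * e := Nat.mul_pos hN3 he1
  obtain ⟨γ, hγ⟩ : ∃ γ, γ = Real.exp (-(4 * D * Real.log (56 * D * K))) := ⟨_, rfl⟩
  have hγ0 : 0 < γ := hγ ▸ Real.exp_pos _
  have hγ1 : γ * ((N * e : ℕ) : ℝ) ^ Γ.card ≤ 1 := by
    have h1 : ((N * e : ℕ) : ℝ) ≤ 56 * D * K := by
      push_cast
      calc (N : ℝ) * e ≤ (14 * K) * (4 * D) := by gcongr
        _ = _ := by ring
    have h2 : (1 : ℝ) ≤ 56 * D * K := by nlinarith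
    have h3 : (56 * D * K) ^ Γ.card ≤ Real.exp (4 * D * Real.log (56 * D * K)) := by
      rw [← Real.exp_log (show 0 < (56 * D * K) ^ Γ.card by positivity), Real.log_pow]
      exact Real.exp_le_exp.2 (mul_le_mul_of_nonneg_right hd (Real.log_nonneg h2))
    calc γ * ((N * e : ℕ) : ℝ) ^ Γ.card ≤ γ * Real.exp (4 * D * Real.log (56 * D * K)) := by
          gcongr
          exact (pow_le_pow_left₀ (by positivity) h1 _).trans h3
      _ = 1 := by rw [hγ, ← Real.exp_add]; simp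
  have hγ2 : ∀ a b : ℕ, a ≤ (N * e) ^ Γ.card * b → γ * a ≤ b := fun a b hab => by
    have h1 : (a : ℝ) ≤ ((N * e : ℕ) : ℝ) ^ Γ.card * b := by exact_mod_cast hab
    calc γ * a ≤ γ * (((N * e : ℕ) : ℝ) ^ Γ.card * b) := by gcongr
      _ = γ * ((N * e : ℕ) : ℝ) ^ Γ.card * b := by ring
      _ ≤ 1 * b := by gcongr
      _ = b := one_mul _
  obtain ⟨i, hi, hr⟩ := exists_ratio Γ hN3 he1 he2
  rw [← hγ]
  refine ⟨bs Γ (N * e) (e + i), (bs Γ (N * e) (e + i + 1)).card, fun u hu => ?_, ?_, ?_, ?_, ?_⟩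
  · have hN0 : (0 : ℝ) < N := by linarith
    have hu' : ∀ ξ ∈ Γ, (nu (ξ * u) : ℝ) ≤ 2 / N * p := fun ξ hξ => by
      have h1 := mem_bs.1 (bs_mono Γ _ (show e + i ≤ 2 * e by omega) hu) ξ hξ
      have h2 : nu (ξ * u) * N ≤ 2 * p :=
        Nat.le_of_mul_le_mul_right (by linarith) he1
      have h3 : (nu (ξ * u) : ℝ) * N ≤ 2 * p := by exact_mod_cast h2
      rw [div_mul_eq_mul_div, le_div_iff₀ hN0]
      exact h3
    have hr : ∀ S : Finset (ZMod p), 20 * (2 / (N : ℝ)) ^ 2 * S.card ≤ ε / 2 := fun S => by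
      have h1 : (S.card : ℝ) ≤ p := by exact_mod_cast card_le_p S
      have h2 : 160 * K ≤ (N : ℝ) ^ 2 := by nlinarith
      have h3 : 0 < ε := by
        by_contra h0
        have : K * ε ≤ 0 := mul_nonpos_of_nonneg_of_nonpos (by linarith) (not_lt.1 h0)
        linarith
      rw [div_pow, ← mul_div_assoc, div_mul_eq_mul_div, div_le_iff₀ (by positivity)]
      nlinarith
    have hA := hB A (3 * ε) (2 / N) u (fun t ht => le_trans (by
      exact_mod_cast Nat.le_add_right _ _) (hF t ht)) hu'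
    have hB' := hB B (3 * ε) (2 / N) u (fun t ht => le_trans (by
      exact_mod_cast Nat.le_add_left _ _) (hF t ht)) hu'
    rw [mem_ball, FF]
    push_cast
    linarith [hr A, hr B]
  · refine hγ2 _ _ ((bs_card Γ hN3 e).trans (Nat.mul_le_mul ?_ ?_))
    · exact Nat.pow_le_pow_left (Nat.le_mul_of_pos_right _ he1) _
    · exact card_le_card (bs_mono _ _ (by omega))
  · exact_mod_cast card_le_card (bs_mono _ _ (by omega))
  · have : ((bs Γ (N * e) (e + i + 1)).card : ℝ) ≤ N * (bs Γ (N * e) (e + i)).card := by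
      exact_mod_cast hr
    exact this.trans (by gcongr)
  · intro M _
    obtain ⟨Δ, h1, h2, h3⟩ := bs_cell Γ hN4 (e + i) M
    exact ⟨Δ, h1, hγ2 _ _ h2, by exact_mod_cast h3⟩

end Pool.Agent.MP_93a3f8_co

end

section

/-! Numerical form of the stage through a reference position. -/

open Finset Pointwise

namespace Pool.Agent.MP_93a3f8_co

lemma xn_exp (k : ℕ) (hk : 1 ≤ k) : Real.exp (-(21 * (k : ℝ))) ≤ 1 / 2 ^ (25 * k) / 16 := by
  have h1 : (2 : ℝ) ^ (25 * k + 4) ≤ Real.exp (21 * k) := by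
    have h2 : (2 : ℝ) ^ (25 * k + 4) = Real.exp (((25 * k + 4 : ℕ) : ℝ) * Real.log 2) := by
      rw [Real.exp_nat_mul, Real.exp_log (by norm_num)]
    rw [h2]
    apply Real.exp_le_exp.2
    have h3 := Real.log_two_lt_d9
    have h4 : (1 : ℝ) ≤ k := by exact_mod_cast hk
    push_cast
    nlinarith
  rw [Real.exp_neg, div_div, one_div]
  apply inv_anti₀ (by positivity)
  rw [pow_add] at h1
  norm_num at h1 ⊢
  exact h1

lemma xn_one_sub {u : ℝ} (h0 : 0 ≤ u) (h1 : u ≤ 1 / 2) : Real.exp (-(2 * u)) ≤ 1 - u := by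
  rw [Real.exp_neg, inv_le_comm₀ (Real.exp_pos _) (by linarith), inv_le_iff_one_le_mul₀ (by linarith)]
  have := Real.add_one_le_exp (2 * u)
  nlinarith

lemma xn_eta {η : ℝ} (h0 : 0 < η) : Real.exp (-(1 / η)) ≤ η := by
  rw [Real.exp_neg, inv_le_comm₀ (Real.exp_pos _) h0, one_div]
  have := Real.add_one_le_exp η⁻¹
  linarith

theorem xorc_num (η : ℝ) (h0 : 0 < η) (h1 : η ≤ 1) : ∃ C : ℝ, 1 ≤ C ∧ ∀ (p : ℕ) [Fact p.Prime]
    (A B Y H0 Z0 : Finset (ZMod p)) (ε R ζ : ℝ), Lev A B Y η ε → 0 < ε → 1 ≤ R → R ≤ 25 →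
    H0 ⊆ ball (FF A B) (R * ε) → ball (FF A B) ((R + 1) * ε) ⊆ Z0 → (Z0.card : ℝ) ≤ ζ →
    ∀ k : ℕ, 1 ≤ k → Orc A B Y H0 Z0 (Real.exp (-(C * (1 + Real.log (p / ε)) * k)))
      (C * (p / ε) * k) (ζ / 2 ^ (25 * k)) := by
  obtain ⟨m, hm⟩ : ∃ m : ℝ, m = 1 / η := ⟨_, rfl⟩
  have hm1 : 1 ≤ m := by rw [hm]; exact one_le_one_div h0 h1
  have hmη : m * η = 1 := by rw [hm]; field_simp
  have hmm : m ≤ m ^ 2 := by nlinarith
  refine ⟨13000 * m ^ 2, by nlinarith, ?_⟩
  intro p _ A B Y H0 Z0 ε R ζ hL hε hR1 hR hH0 hZ0 hζ k hk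
  have hk1 : (1 : ℝ) ≤ k := by exact_mod_cast hk
  have hp2 : 2 ≤ p := (Fact.out : p.Prime).two_le
  have hp0 : (0 : ℝ) < p := by positivity
  have hd : (p : ℝ) ≤ 4 * B.card := by exact_mod_cast hL.dense
  have hhigh := hL.high
  have hB0 : (0 : ℝ) < B.card := by linarith
  have hBp : (B.card : ℝ) ≤ p := by exact_mod_cast card_le_p B
  have hRε : R * ε ≤ 25 * ε := mul_le_mul_of_nonneg_right hR hε.le
  have hηε : η * ε ≤ 1 * ε := mul_le_mul_of_nonneg_right h1 hε.le
  have hR1ε : 1 * ε ≤ R * ε := mul_le_mul_of_nonneg_right hR1 hε.le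
  have hζ0 : 0 < ζ := by
    have : 0 < Z0.card := card_pos.2 ⟨0, hZ0 (mem_ball.2 (by rw [FF_zero]; push_cast; positivity))⟩
    exact lt_of_lt_of_le (by exact_mod_cast this) hζ
  obtain ⟨P, hP⟩ : ∃ P : ℝ, P = p / ε := ⟨_, rfl⟩
  have hPε : P * ε = p := by rw [hP]; field_simp
  have hP1 : 1 ≤ P := by rw [hP, le_div_iff₀ hε]; linarith
  have hℓ : 0 ≤ Real.log P := Real.log_nonneg hP1
  have hx := xn_exp k hk
  have hδ : (0 : ℝ) < 1 / 2 ^ (25 * k) := by positivity
  set w1 := ⌈168 * k * m * (B.card / ε)⌉₊ with hw1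
  set w2 := ⌈168 * k * m * R⌉₊ with hw2
  have a1 : 168 * k * m * (B.card / ε) ≤ w1 := Nat.le_ceil _
  have a2 : (w1 : ℝ) ≤ 168 * k * m * (B.card / ε) + 1 := (Nat.ceil_lt_add_one (by positivity)).le
  have a3 : 168 * k * m * R ≤ w2 := Nat.le_ceil _
  have a4 : (w2 : ℝ) ≤ 168 * k * m * R + 1 := (Nat.ceil_lt_add_one (by positivity)).le
  have hkm : 1 ≤ k * m := one_le_mul_of_one_le_of_one_le hk1 hm1
  have a5 : (w2 : ℝ) ≤ 4201 * (k * m) := by
    have : k * m * R ≤ k * m * 25 := mul_le_mul_of_nonneg_left hR (by positivity)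
    linarith
  have key := x_orc (A := A) (B := B) (Y := Y) (H0 := H0) (Z0 := Z0) (a := η * ε) (R := R * ε)
    (ζ := ζ) (δ := 1 / 2 ^ (25 * k)) (w1 := w1) (w2 := w2) (by positivity) (by linarith)
    (by linarith) (by have := hL.half; omega) hδ
    (by rw [div_le_one (by positivity)]; exact one_le_pow₀ (by norm_num)) hζ0 hζ
    (fun x hx t ht => hZ0 (ball_mono (by linarith) (FF_ball_sub (hH0 hx) ht))) hH0 hL.h1 hL.h2
    (by
      refine le_trans (Real.exp_le_exp.2 ?_) (hx.trans (by linarith))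
      have e : η * ε / (8 * B.card) * (168 * k * m * (B.card / ε)) = 21 * k * (m * η) := by
        field_simp
        ring
      have := mul_le_mul_of_nonneg_left a1 (by positivity : 0 ≤ η * ε / (8 * B.card))
      rw [e, hmη] at this
      linarith)
    (by
      refine le_trans (Real.exp_le_exp.2 ?_) (hx.trans (by linarith))
      have e : η * ε / (8 * (R * ε)) * (168 * k * m * R) = 21 * k * (m * η) := by
        field_simp
        ring
      have := mul_le_mul_of_nonneg_left a3 (by positivity : 0 ≤ η * ε / (8 * (R * ε)))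
      rw [e, hmη] at this
      linarith)
  rw [← hP]
  refine key.mono ?_ ?_ (le_of_eq (by ring))
  · have hu0 : 0 ≤ R * ε / B.card := by positivity
    have hu1 : R * ε / B.card ≤ 1 / 2 := by rw [div_le_iff₀ hB0]; linarith
    have b1 : Real.exp (-(2 * (R * ε / B.card) * w1)) ≤ (1 - R * ε / B.card) ^ w1 := by
      refine le_trans (le_of_eq ?_) (pow_le_pow_left₀ (Real.exp_pos _).le (xn_one_sub hu0 hu1) w1)
      rw [← Real.exp_nat_mul]
      congr 1
      ring
    have b2 : Real.exp (-((m + Real.log P) * w2)) ≤ (η * ε / p) ^ w2 := by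
      have c1 : Real.exp (-(m + Real.log P)) ≤ η * ε / p := by
        rw [neg_add, Real.exp_add, Real.exp_neg (Real.log P), Real.exp_log (by linarith), hP,
          inv_div, mul_div_assoc, hm]
        exact mul_le_mul_of_nonneg_right (xn_eta h0) (by positivity)
      refine le_trans (le_of_eq ?_) (pow_le_pow_left₀ (Real.exp_pos _).le c1 w2)
      rw [← Real.exp_nat_mul]
      congr 1
      ring
    refine le_trans ?_ (mul_le_mul (mul_le_mul hx b1 (Real.exp_pos _).le (by positivity)) b2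
      (Real.exp_pos _).le (mul_nonneg (by positivity) (pow_nonneg (by linarith) _)))
    rw [← Real.exp_add, ← Real.exp_add]
    apply Real.exp_le_exp.2
    have c1 : R * ε / B.card * w1 ≤ 4201 * (k * m) := by
      have e : R * ε / B.card * (168 * k * m * (B.card / ε) + 1) =
          168 * (k * m * R) + R * ε / B.card := by
        field_simp
      have d1 := mul_le_mul_of_nonneg_left a2 hu0
      have d2 : k * m * R ≤ k * m * 25 := mul_le_mul_of_nonneg_left hR (by positivity)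
      rw [e] at d1
      linarith
    have c2 : (m + Real.log P) * w2 ≤ (m + Real.log P) * (4201 * (k * m)) :=
      mul_le_mul_of_nonneg_left a5 (by linarith)
    have c3 : (k : ℝ) * m ≤ k * m ^ 2 := mul_le_mul_of_nonneg_left hmm (by linarith)
    have c4 : (k : ℝ) * 1 ≤ k * m := mul_le_mul_of_nonneg_left hm1 (by linarith)
    have c5 : Real.log P * (k * m) ≤ Real.log P * (k * m ^ 2) := mul_le_mul_of_nonneg_left c3 hℓ
    have c6 : 0 ≤ Real.log P * (k * m ^ 2) := by positivity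
    linarith
  · have c1 : (B.card : ℝ) / ε ≤ P := by rw [hP]; exact div_le_div_of_nonneg_right hBp hε.le
    have c2 : k * m * (B.card / ε) ≤ k * m * P := mul_le_mul_of_nonneg_left c1 (by linarith)
    have c3 : k * m * 1 ≤ k * m * P := mul_le_mul_of_nonneg_left hP1 (by linarith)
    have c4 : k * P * m ≤ k * P * m ^ 2 := mul_le_mul_of_nonneg_left hmm (by positivity)
    linarith

end Pool.Agent.MP_93a3f8_co

end

section

/-! Runs without a pattern set. -/

open Finset Pointwise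

namespace Pool.Agent.MP_93a3f8_co

lemma ng_large (c : ℝ) (k : ℕ) : ∃ p0 : ℕ, ∀ p : ℕ, p0 ≤ p →
    c * Real.log p ^ k * (p : ℝ) ^ (9 / 10 : ℝ) ≤ p ∧ c ≤ √(Real.log p) := by
  have h1 := (isLittleO_log_rpow_rpow_atTop (k : ℝ) (by norm_num : (0 : ℝ) < 1 / 10)).bound
    (c := 1 / (|c| + 1)) (by positivity)
  have h2 : ∀ᶠ x : ℝ in Filter.atTop, c ≤ √(Real.log x) :=
    (Real.tendsto_sqrt_atTop.comp Real.tendsto_log_atTop).eventually_ge_atTop c
  obtain ⟨p0, hp0⟩ := Filter.eventually_atTop.1 (tendsto_natCast_atTop_atTop.eventually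
    (h1.and (h2.and (Filter.eventually_ge_atTop (1 : ℝ)))))
  refine ⟨p0, fun p hp => ?_⟩
  obtain ⟨a1, a2, a3⟩ := hp0 p hp
  refine ⟨?_, a2⟩
  have hL : 0 ≤ Real.log p := Real.log_nonneg a3
  rw [Real.rpow_natCast, Real.norm_of_nonneg (by positivity), Real.norm_of_nonneg (by positivity),
    one_div_mul_eq_div, le_div_iff₀ (by positivity)] at a1
  have a4 : c * Real.log p ^ k ≤ (p : ℝ) ^ (1 / 10 : ℝ) := by
    refine le_trans ?_ a1
    rw [mul_comm]
    exact mul_le_mul_of_nonneg_left ((le_abs_self c).trans (by linarith)) (by positivity)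
  refine (mul_le_mul_of_nonneg_right a4 (by positivity)).trans (le_of_eq ?_)
  rw [← Real.rpow_add (by linarith)]
  norm_num

lemma ng_sqrt_le {L c : ℝ} (hc : 1 ≤ c) (h : c ≤ √L) : 1 ≤ L ∧ √L ≤ L := by
  have h1 : 1 ≤ √L := hc.trans h
  have h2 : 1 ≤ L := Real.one_le_sqrt.1 h1
  refine ⟨h2, ?_⟩
  have := Real.mul_self_sqrt (by linarith : 0 ≤ L)
  nlinarith

theorem nogain (h : RunStmt) : NoGainStmt := by
  intro η h0 h1
  obtain ⟨C0, hC0, p0, hrun⟩ := h
  obtain ⟨C, hC, hx⟩ := xorc_num η h0 h1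
  obtain ⟨m, hm⟩ : ∃ m : ℝ, m = 1 / η := ⟨_, rfl⟩
  have hm1 : 1 ≤ m := by rw [hm]; exact one_le_one_div h0 h1
  have hmη : m * η = 1 := by rw [hm]; field_simp
  obtain ⟨C', hC'⟩ : ∃ C' : ℝ, C' = 1 + 2 * C + C * m := ⟨_, rfl⟩
  have hCm : 0 ≤ C * m := by positivity
  have hC'0 : 0 ≤ C' := by rw [hC']; positivity
  obtain ⟨p1, hp1⟩ := ng_large (128 + C ^ 2 + m + C') 29
  refine ⟨C0 * √C', by positivity, max p0 p1, ?_⟩
  intro p _ A B Y H0 ε Q γ R ζ Θ hp hL hε8 hR1 hR hH0 hζ hζp hζ20 hcell hγ hQ hHQ hΘ hΘ4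
  obtain ⟨b1, b2⟩ := hp1 p (le_trans (le_max_right _ _) hp)
  have hC2 : 0 ≤ C ^ 2 := by positivity
  obtain ⟨b3, b4⟩ := ng_sqrt_le (by linarith) b2
  have hp0 : (0 : ℝ) < p := by exact_mod_cast (Fact.out : p.Prime).pos
  have hε : 0 < ε := lt_of_lt_of_le (Real.sqrt_pos.2 hp0) hL.low
  have hBp : (B.card : ℝ) ≤ p := by exact_mod_cast card_le_p B
  have hor := hx p A B Y H0 (ball (FF A B) ((R + 1) * ε)) ε R ζ hL hε hR1 hR hH0 Subset.rfl hζ
  obtain ⟨P, hP⟩ : ∃ P : ℝ, P = p / ε := ⟨_, rfl⟩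
  rw [← hP] at hor hΘ ⊢
  have hPε : P * ε = p := by rw [hP]; field_simp
  have hP1 : 1 ≤ P := by rw [hP, le_div_iff₀ hε]; linarith [hL.high]
  have hP8 : P ≤ Real.log p ^ 8 := by rw [hP, div_le_iff₀ hε]; exact hε8
  have hℓ : 0 ≤ Real.log P := Real.log_nonneg hP1
  have hΘ1 : 1 ≤ Θ := by linarith
  have hζ0 : 0 ≤ ζ := le_trans (Nat.cast_nonneg _) hζ
  have hQ0 : 0 ≤ Q := le_trans (by positivity) hQ
  have hCΘ : Θ ≤ C * Θ := le_mul_of_one_le_left (by linarith) hC
  have hexp : ∀ k : ℝ, 0 ≤ k →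
      Real.exp (-(C * Θ * k)) ≤ Real.exp (-(C * (1 + Real.log P) * k)) := fun k hk =>
    Real.exp_le_exp.2 (neg_le_neg (mul_le_mul_of_nonneg_right
      (mul_le_mul_of_nonneg_left hΘ (by linarith)) hk))
  have key := hrun p A B Y H0 (ball (FF A B) ((R + 1) * ε)) B ζ Q γ (C * Θ) (C * P) (C * P) (m * P)
    (C' * P * Θ) 0 (le_trans (le_max_left _ _) hp)
    (fun y hy x hx => ball_mono (le_of_eq (by ring)) (FF_ball_sub (hL.sub hy) (hH0 hx)))
    hζ hζp hcell hγ hQ
    (le_trans (mul_le_mul_of_nonneg_right (Real.exp_le_exp.2 (by linarith)) hQ0) hHQ)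
    (by linarith)
    (by
      have c1 : Θ ^ 2 ≤ √(Real.log p) := Real.le_sqrt_of_sq_le (by rw [← pow_mul]; exact hΘ4)
      rcases le_total C Θ with c2 | c2
      · have := mul_le_mul_of_nonneg_right c2 (by linarith : 0 ≤ Θ)
        rw [sq] at c1
        linarith
      · have := mul_le_mul_of_nonneg_left c2 (by linarith : 0 ≤ C)
        rw [← sq] at this
        linarith)
    (by rw [pow_zero]; linarith) (by positivity) (by positivity)
    ((hor 1 le_rfl).mono (by simpa using hexp 1 zero_le_one) (by simp)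
      (div_le_div_of_nonneg_left hζ0 (by positivity) (by norm_num)))
    (fun k hk => (hor k hk).mono (hexp k (Nat.cast_nonneg k)) le_rfl le_rfl)
    Subset.rfl (one_le_mul_of_one_le_of_one_le hm1 hP1)
    (by
      rw [pow_succ']
      exact mul_le_mul (by linarith) hP8 (by linarith) (by linarith))
    (fun y hy => by
      have c1 := hL.h1 y hy
      have c2 : 0 ≤ η * ε := by positivity
      have c3 : m * P * (η * ε) ≤ m * P * rep A B y :=
        mul_le_mul_of_nonneg_left (by linarith) (by positivity)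
      have c4 : m * P * (η * ε) = (m * η) * (P * ε) := by ring
      rw [c4, hmη, hPε, one_mul] at c3
      exact c3)
    (by
      have c1 : m * P * (C * Θ) * B.card / p ≤ m * P * (C * Θ) := by
        rw [div_le_iff₀ hp0]
        exact mul_le_mul_of_nonneg_left hBp (by positivity)
      have c2 : 1 ≤ P * Θ := one_le_mul_of_one_le_of_one_le hP1 hΘ1
      have c3 : C * P * 1 ≤ C * P * Θ := mul_le_mul_of_nonneg_left hΘ1 (by positivity)
      rw [hC']
      simp only [Nat.cast_zero, zero_add, mul_one, pow_zero, div_one]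
      linarith)
    (by
      have c1 : Θ ≤ Real.log p := le_trans (le_self_pow₀ hΘ1 (by norm_num)) hΘ4
      have c2 : C' * P * Θ ≤ (128 + C ^ 2 + m + C') * Real.log p ^ 8 * Real.log p :=
        mul_le_mul (mul_le_mul (by linarith) hP8 (by linarith) (by linarith)) c1 (by linarith)
          (by positivity)
      have c3 := mul_le_mul_of_nonneg_right c2 (by positivity : 0 ≤ (p : ℝ) ^ (9 / 10 : ℝ))
      refine c3.trans (le_of_mul_le_mul_left (a := Real.log p ^ 20) ?_ (by positivity))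
      refine le_trans (le_of_eq (by ring)) (b1.trans hζ20))
  refine key.mono Subset.rfl (le_of_eq ?_) le_rfl
  rw [mul_assoc C0, ← Real.sqrt_mul hC'0]
  congr 2
  ring

theorem top (h : RunStmt) : TopStmt := by
  intro η h0 h1
  obtain ⟨C0, hC0, p0, hrun⟩ := h
  obtain ⟨m, hm⟩ : ∃ m : ℝ, m = 1 / η := ⟨_, rfl⟩
  have hm1 : 1 ≤ m := by rw [hm]; exact one_le_one_div h0 h1
  have hmη : m * η = 1 := by rw [hm]; field_simp
  have hmm : m ≤ m ^ 2 := by nlinarith
  obtain ⟨Bf, hBf⟩ : ∃ Bf : ℝ, Bf = 1 + 170 * m + m * (106 * m ^ 2) := ⟨_, rfl⟩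
  have hBf0 : 0 ≤ Bf := by rw [hBf]; positivity
  obtain ⟨p1, hp1⟩ := ng_large (128 + 106 * m ^ 2 + Bf) 0
  refine ⟨C0 * √Bf, by positivity, max p0 p1, ?_⟩
  intro p _ A B Y hp H1 H2
  rcases Y.eq_empty_or_nonempty with rfl | ⟨y0, hy0⟩
  · exact (Cov.trivial A B ∅).mono Subset.rfl (by positivity) (by simp)
  obtain ⟨b1, b2⟩ := hp1 p (le_trans (le_max_right _ _) hp)
  obtain ⟨b3, b4⟩ := ng_sqrt_le (by linarith) b2
  have hp0 : (0 : ℝ) < p := by exact_mod_cast (Fact.out : p.Prime).pos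
  have hBp : (B.card : ℝ) ≤ p := by exact_mod_cast card_le_p B
  have hηp : 0 < η * p := by positivity
  have hB : η * p ≤ B.card := by
    have c1 := H1 y0 hy0
    have c2 : (rep A B y0 : ℝ) ≤ B.card := by exact_mod_cast rep_le_right A B y0
    linarith
  have hor : ∀ k : ℕ, 1 ≤ k → Orc A B Y univ univ (Real.exp (-(106 * m ^ 2 * k))) (85 * m * k)
      (p / 2 ^ (25 * k)) := by
    intro k hk
    have hk1 : (1 : ℝ) ≤ k := by exact_mod_cast hk
    have hx := xn_exp k hk
    have hδ : (0 : ℝ) < 1 / 2 ^ (25 * k) := by positivity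
    have a1 : 84 * k * m ≤ ⌈84 * k * m⌉₊ := Nat.le_ceil _
    have a2 : (⌈84 * k * m⌉₊ : ℝ) ≤ 84 * k * m + 1 := (Nat.ceil_lt_add_one (by positivity)).le
    generalize ⌈84 * k * m⌉₊ = w at a1 a2
    have hkm : 1 ≤ k * m := one_le_mul_of_one_le_of_one_le hk1 hm1
    have key := pat_orc (A := A) (B := B) (Y := Y) (H0 := univ) (Z0 := univ) (P := B) (E1 := ∅)
      (a := η * p) (ζ := p) (δ := 1 / 2 ^ (25 * k)) (π := η) (q := η / 4) (w := w) hηp hδ
      (by rw [div_le_one (by positivity)]; exact one_le_pow₀ (by norm_num)) hp0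
      (by rw [card_univ_p]) (fun _ _ _ _ => mem_univ _) H1 H2 Subset.rfl h0 hB
      (by
        refine le_trans (Real.exp_le_exp.2 ?_) (hx.trans (by linarith))
        have e : η / 4 * (84 * k * m) = 21 * k * (m * η) := by ring
        have := mul_le_mul_of_nonneg_left a1 (by positivity : 0 ≤ η / 4)
        rw [e, hmη] at this
        linarith)
      (by rw [card_empty, Nat.cast_zero]; positivity)
      (fun x _ z _ _ hz => by
        have := mul_le_mul_of_nonneg_left hBp (by positivity : 0 ≤ η / 4)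
        linarith)
    refine key.mono ?_ (by linarith) (le_of_eq (by ring))
    have b2 : Real.exp (-(m * w)) ≤ η ^ w := by
      have c1 : Real.exp (-m) ≤ η := by rw [hm]; exact xn_eta h0
      refine le_trans (le_of_eq ?_) (pow_le_pow_left₀ (Real.exp_pos _).le c1 w)
      rw [← Real.exp_nat_mul]
      congr 1
      ring
    refine le_trans ?_ (mul_le_mul hx b2 (Real.exp_pos _).le (by positivity))
    rw [← Real.exp_add]
    apply Real.exp_le_exp.2
    have c1 : m * w ≤ m * (85 * (k * m)) := mul_le_mul_of_nonneg_left (by linarith) (by linarith)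
    have c2 : (k : ℝ) * 1 ≤ k * m ^ 2 := mul_le_mul_of_nonneg_left (by linarith) (by linarith)
    linarith
  have hexp : ∀ t : ℝ, 0 ≤ t → Real.exp (-t) ≤ 1 := fun t ht =>
    Real.exp_le_one_iff.2 (by linarith)
  have key := hrun p A B Y univ univ B p p 1 (106 * m ^ 2) (85 * m) (85 * m) m Bf 0
    (le_trans (le_max_left _ _) hp) (fun _ _ _ _ => mem_univ _) (by rw [card_univ_p]) le_rfl
    (fun M _ => ⟨range M, Subset.rfl, by simp, by exact_mod_cast card_le_p _⟩)
    (hexp _ (Real.sqrt_nonneg _)) (mul_le_of_le_one_left hp0.le (hexp _ (Real.sqrt_nonneg _)))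
    (by rw [card_univ_p]; exact mul_le_of_le_one_left hp0.le (hexp _ (by positivity)))
    (by linarith) (by linarith) (by rw [pow_zero]; linarith) (by positivity) (by positivity)
    ((hor 1 le_rfl).mono (by simp) (by simp)
      (div_le_div_of_nonneg_left hp0.le (by positivity) (by norm_num)))
    hor Subset.rfl hm1 (le_trans (by linarith) (le_self_pow₀ b3 (by norm_num)))
    (fun y hy => by
      have c1 := H1 y hy
      have c3 : m * (η * p) ≤ m * rep A B y := mul_le_mul_of_nonneg_left (by linarith) (by linarith)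
      rw [← mul_assoc, hmη, one_mul] at c3
      exact c3)
    (by
      have c1 : m * (106 * m ^ 2) * B.card / p ≤ m * (106 * m ^ 2) := by
        rw [div_le_iff₀ hp0]
        exact mul_le_mul_of_nonneg_left hBp (by positivity)
      rw [hBf]
      simp only [Nat.cast_zero, zero_add, mul_one, pow_zero, div_one]
      linarith)
    (by
      rw [pow_zero, mul_one] at b1
      exact le_trans (mul_le_mul_of_nonneg_right (by linarith) (by positivity)) b1)
  refine key.mono Subset.rfl (le_of_eq ?_) le_rfl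
  rw [mul_assoc C0, ← Real.sqrt_mul hBf0, mul_comm Bf]

end Pool.Agent.MP_93a3f8_co

end

section

/-! All components together. -/

namespace Pool.Agent.MP_93a3f8_co

theorem all_run : RunStmt := run outer final

theorem all_main : MainStmt :=
  main (endgame samp lap) (struct_ tau four1) window shrink s1
    (dense tau (top all_run) (deep doub (typedW wcov types) (uw wcov))
      (shallow (uw wcov) (nogain all_run) (gain all_run xorc_num) (bohr four2) doub types) doub
      (typedW wcov types))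

end Pool.Agent.MP_93a3f8_co

end
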