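import Mathlib

section

/-! Definitions and basic facts for small subsets witnessing the Cauchy-Davenport bound. -/

open Finset Pointwise

namespace Pool.Agent.MP_93a3f8_co

variable {p : ℕ} [Fact p.Prime]

/-- The number of points of `B` outside `B + u`. -/
def fS (B : Finset (ZMod p)) (u : ZMod p) : ℕ := (B.filter fun b => b - u ∉ B).card

/-- The number of representations `u = a + b` with `a ∈ A`, `b ∈ B`. -/
def rep (A B : Finset (ZMod p)) (u : ZMod p) : ℕ := (B.filter fun b => u - b ∈ A).card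

/-- The joint non-invariance function of two sets. -/
def FF (A B : Finset (ZMod p)) (u : ZMod p) : ℕ := fS A u + fS B u

open Classical in
/-- Sublevel set of a function. -/
noncomputable def ball (F : ZMod p → ℕ) (ρ : ℝ) : Finset (ZMod p) :=
  univ.filter fun u => (F u : ℝ) ≤ ρ

/-- All but `l` points of `Y` are sums from subsets of size at most `c`. -/
def Cov (A B Y : Finset (ZMod p)) (c l : ℝ) : Prop :=
  ∃ A' ⊆ A, ∃ B' ⊆ B, (A'.card : ℝ) ≤ c ∧ (B'.card : ℝ) ≤ c ∧ ((Y \ (A' + B')).card : ℝ) ≤ l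

/-- Subsets of size at most `c` with at least `2 n - 1` sums. -/
def Good (A B : Finset (ZMod p)) (n : ℕ) (c : ℝ) : Prop :=
  ∃ A' ⊆ A, ∃ B' ⊆ B, (A'.card : ℝ) ≤ c ∧ (B'.card : ℝ) ≤ c ∧ 2 * n ≤ (A' + B').card + 1

/-- The progression `a, a + g, ..., a + (l - 1) g`. -/
def ap (a g : ZMod p) (l : ℕ) : Finset (ZMod p) := (range l).image fun i : ℕ => a + g * (i : ZMod p)

/-- The number of pairs `(x, b) ∈ X × B` with `x + b ∈ C`. -/
def trip (X B C : Finset (ZMod p)) : ℕ := ∑ x ∈ X, (B.filter fun b => x + b ∈ C).card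

/-- Distance to zero. -/
def nu (k : ZMod p) : ℕ := k.valMinAbs.natAbs

/-- Short directions along which `H0` grows into a set of size at most `Q`. -/
def Cell (H0 : Finset (ZMod p)) (Q γ : ℝ) : Prop :=
  ∀ M : ℕ, M ≤ p → ∃ Δ ⊆ range M, γ * M ≤ Δ.card ∧
    ((H0 + Δ.image fun i : ℕ => (i : ZMod p)).card : ℝ) ≤ Q

/-- One synchronised stage. -/
def Orc (A B Y H0 Z0 : Finset (ZMod p)) (lam b d : ℝ) : Prop :=
  ∀ H ⊆ H0, ∃ H' ⊆ H, ∃ W Z : Finset (ZMod p), lam * H.card ≤ H'.card ∧ (W.card : ℝ) ≤ b ∧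
    (∀ x ∈ H', ∀ w ∈ W, x + w ∈ B) ∧ (Z.card : ℝ) ≤ d ∧
    ∀ z ∈ Z0, z ∉ Z → (∃ x ∈ H', z + x ∈ Y) → ∃ w ∈ W, z - w ∈ A

lemma mem_ball {F : ZMod p → ℕ} {ρ : ℝ} {u : ZMod p} : u ∈ ball F ρ ↔ (F u : ℝ) ≤ ρ := by
  simp [ball]

lemma ball_mono {F : ZMod p → ℕ} {ρ ρ' : ℝ} (h : ρ ≤ ρ') : ball F ρ ⊆ ball F ρ' :=
  fun _ hu => mem_ball.2 ((mem_ball.1 hu).trans h)

lemma card_le_p (S : Finset (ZMod p)) : S.card ≤ p := by
  simpa [ZMod.card] using card_le_univ S

lemma card_univ_p : (univ : Finset (ZMod p)).card = p := by simp [ZMod.card]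

lemma card_filter_shift (S : Finset (ZMod p)) (u : ZMod p) :
    (univ.filter fun x => x + u ∈ S).card = S.card :=
  card_bij (fun x _ => x + u) (fun x hx => by simpa using hx) (fun x _ y _ h => by simpa using h)
    (fun y hy => ⟨y - u, by simpa using hy, by simp⟩)

lemma card_filter_sub (S : Finset (ZMod p)) (u : ZMod p) :
    (univ.filter fun x => u - x ∈ S).card = S.card :=
  card_bij (fun x _ => u - x) (fun x hx => by simpa using hx) (fun x _ y _ h => by simpa using h)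
    (fun y hy => ⟨u - y, by simpa using hy, by simp⟩)

lemma fS_zero (B : Finset (ZMod p)) : fS B 0 = 0 := by
  simp +contextual [fS]

lemma fS_le (B : Finset (ZMod p)) (u : ZMod p) : fS B u ≤ B.card := card_filter_le _ _

lemma fS_add_inter (B : Finset (ZMod p)) (u : ZMod p) :
    fS B u + (B.filter fun b => b - u ∈ B).card = B.card := by
  rw [add_comm]; exact card_filter_add_card_filter_not _

lemma fS_neg (B : Finset (ZMod p)) (u : ZMod p) : fS B (-u) = fS B u := by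
  have h1 := fS_add_inter B u
  have h2 := fS_add_inter B (-u)
  have : (B.filter fun b => b - u ∈ B).card = (B.filter fun b => b - -u ∈ B).card :=
    card_bij (fun x _ => x - u) (fun x hx => by
      simp only [mem_filter] at hx ⊢; exact ⟨hx.2, by simpa using hx.1⟩)
      (fun x _ y _ h => by simpa using h)
      (fun y hy => ⟨y + u, by
        simp only [mem_filter] at hy ⊢; exact ⟨by simpa using hy.2, by simpa using hy.1⟩, by simp⟩)
  omega

/-- `fS B u` also counts the points of `B` whose shift by `u` leaves `B`. -/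
lemma fS_eq_add (B : Finset (ZMod p)) (u : ZMod p) :
    fS B u = (B.filter fun b => b + u ∉ B).card := by
  rw [← fS_neg]; simp [fS]

lemma fS_add (B : Finset (ZMod p)) (u v : ZMod p) : fS B (u + v) ≤ fS B u + fS B v := by
  have h : (B.filter fun b => b - (u + v) ∉ B) ⊆
      (B.filter fun b => b - u ∉ B) ∪ ((B.filter fun b => b - v ∉ B).image fun b => b + u) := by
    intro b hb
    simp only [mem_filter, mem_union, mem_image] at hb ⊢
    by_cases h : b - u ∈ B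
    · exact Or.inr ⟨b - u, ⟨h, by rw [sub_sub]; exact hb.2⟩, by simp⟩
    · exact Or.inl ⟨hb.1, h⟩
  exact (card_le_card h).trans ((card_union_le _ _).trans (Nat.add_le_add_left card_image_le _))

lemma fS_sub (B : Finset (ZMod p)) (u v : ZMod p) : fS B (u - v) ≤ fS B u + fS B v := by
  rw [sub_eq_add_neg, ← fS_neg B v]; exact fS_add _ _ _

lemma FF_zero (A B : Finset (ZMod p)) : FF A B 0 = 0 := by simp [FF, fS_zero]

lemma FF_neg (A B : Finset (ZMod p)) (u : ZMod p) : FF A B (-u) = FF A B u := by simp [FF, fS_neg]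

lemma FF_add (A B : Finset (ZMod p)) (u v : ZMod p) : FF A B (u + v) ≤ FF A B u + FF A B v := by
  have := fS_add A u v; have := fS_add B u v; simp only [FF]; omega

lemma FF_sub (A B : Finset (ZMod p)) (u v : ZMod p) : FF A B (u - v) ≤ FF A B u + FF A B v := by
  have := fS_sub A u v; have := fS_sub B u v; simp only [FF]; omega

lemma FF_comm (A B : Finset (ZMod p)) : FF A B = FF B A := by
  ext u; simp [FF, add_comm]

lemma FF_ball_add {A B : Finset (ZMod p)} {r s : ℝ} {u v : ZMod p} (hu : u ∈ ball (FF A B) r)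
    (hv : v ∈ ball (FF A B) s) : u + v ∈ ball (FF A B) (r + s) := by
  rw [mem_ball] at *
  have : (FF A B (u + v) : ℝ) ≤ FF A B u + FF A B v := by exact_mod_cast FF_add A B u v
  linarith

lemma FF_ball_sub {A B : Finset (ZMod p)} {r s : ℝ} {u v : ZMod p} (hu : u ∈ ball (FF A B) r)
    (hv : v ∈ ball (FF A B) s) : u - v ∈ ball (FF A B) (r + s) := by
  rw [mem_ball] at *
  have : (FF A B (u - v) : ℝ) ≤ FF A B u + FF A B v := by exact_mod_cast FF_sub A B u v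
  linarith

lemma rep_comm (A B : Finset (ZMod p)) (x : ZMod p) : rep A B x = rep B A x := by
  refine card_bij (fun a _ => x - a) (fun a ha => ?_) (fun a _ b _ h => by simpa using h)
    (fun b hb => ⟨x - b, ?_, by simp⟩)
  · simpa [and_comm] using ha
  · simpa [and_comm] using hb

lemma rep_le_right (A B : Finset (ZMod p)) (x : ZMod p) : rep A B x ≤ B.card := card_filter_le _ _

lemma rep_le_left (A B : Finset (ZMod p)) (x : ZMod p) : rep A B x ≤ A.card := by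
  rw [rep_comm]; exact card_filter_le _ _

lemma rep_mono {A A' B B' : Finset (ZMod p)} (hA : A ⊆ A') (hB : B ⊆ B') (x : ZMod p) :
    rep A B x ≤ rep A' B' x :=
  card_le_card fun b hb => by
    simp only [mem_filter] at hb ⊢; exact ⟨hB hb.1, hA hb.2⟩

lemma rep_union {B B' : Finset (ZMod p)} (h : Disjoint B B') (A : Finset (ZMod p)) (x : ZMod p) :
    rep A (B ∪ B') x = rep A B x + rep A B' x := by
  unfold rep
  rw [filter_union, card_union_of_disjoint (disjoint_filter_filter h)]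

lemma rep_univ (B : Finset (ZMod p)) (x : ZMod p) : rep univ B x = B.card := by simp [rep]

lemma sum_rep (A B : Finset (ZMod p)) : ∑ x, rep A B x = A.card * B.card := by
  simp only [rep, card_filter]
  rw [sum_comm, sum_congr rfl (g := fun _ => A.card), sum_const, smul_eq_mul, mul_comm]
  intro a _
  rw [← card_filter]
  simpa [sub_eq_add_neg] using card_filter_shift A (-a)

lemma rep_pos_iff {A B : Finset (ZMod p)} {x : ZMod p} : 0 < rep A B x ↔ x ∈ A + B := by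
  rw [rep, card_pos, mem_add]
  constructor
  · rintro ⟨b, hb⟩
    rw [mem_filter] at hb
    exact ⟨x - b, hb.2, b, hb.1, by simp⟩
  · rintro ⟨a, ha, b, hb, rfl⟩
    exact ⟨b, mem_filter.2 ⟨hb, by simpa using ha⟩⟩

/-- The representation function is Lipschitz for the non-invariance function. -/
lemma rep_le_add_fS (A B : Finset (ZMod p)) (u t : ZMod p) :
    rep A B u ≤ rep A B (u + t) + fS B t := by
  have h : (B.filter fun b => u - b ∈ A) ⊆
      ((B.filter fun b => u + t - b ∈ A).image fun b => b - t) ∪ (B.filter fun b => b + t ∉ B) := by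
    intro b hb
    simp only [mem_filter, mem_union, mem_image] at hb ⊢
    by_cases h : b + t ∈ B
    · exact Or.inl ⟨b + t, ⟨h, by simpa using hb.2⟩, by simp⟩
    · exact Or.inr ⟨hb.1, h⟩
  rw [fS_eq_add]
  exact (card_le_card h).trans ((card_union_le _ _).trans (Nat.add_le_add_right card_image_le _))

lemma trip_eq (X B C : Finset (ZMod p)) : trip X B C = ∑ y ∈ C, rep X B y := by
  have h : ∀ y, rep X B y = ∑ x ∈ X, if y - x ∈ B then 1 else 0 := fun y => by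
    rw [rep_comm, rep, card_filter]
  simp only [h]
  rw [sum_comm, trip]
  refine sum_congr rfl fun x _ => ?_
  rw [← card_filter]
  exact card_bij (fun b _ => x + b) (fun b hb => by simpa [and_comm] using hb)
    (fun a _ b _ h => by simpa using h) (fun y hy => ⟨y - x, by simpa [and_comm] using hy, by simp⟩)

lemma trip_comm (X B C : Finset (ZMod p)) : trip X B C = trip B X C := by
  simp only [trip_eq, rep_comm X B]

lemma trip_mono {X X' B B' C C' : Finset (ZMod p)} (hX : X ⊆ X') (hB : B ⊆ B') (hC : C ⊆ C') :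
    trip X B C ≤ trip X' B' C' := by
  rw [trip_eq, trip_eq]
  exact (sum_le_sum fun y _ => rep_mono hX hB y).trans (sum_le_sum_of_subset hC)

/-- Rotating the roles in a triple. -/
lemma trip_rot (X B C : Finset (ZMod p)) : trip X B C = trip (-C) B (-X) := by
  rw [trip_eq (-C), sum_neg_index]
  refine sum_congr rfl fun x _ => ?_
  simp only [rep]
  congr 1
  ext b
  simp only [mem_filter, mem_neg', neg_sub, sub_neg_eq_add, add_comm]

lemma mem_ap {a g x : ZMod p} {l : ℕ} : x ∈ ap a g l ↔ ∃ i : ℕ, i < l ∧ a + g * i = x := by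
  simp [ap]

lemma card_ap_le (a g : ZMod p) (l : ℕ) : (ap a g l).card ≤ l := by
  simpa [ap] using card_image_le (s := range l) (f := fun i : ℕ => a + g * (i : ZMod p))

lemma natCast_inj_of_lt {i j : ℕ} (hi : i < p) (hj : j < p) (h : (i : ZMod p) = j) : i = j := by
  have := congrArg ZMod.val h
  rwa [ZMod.val_cast_of_lt hi, ZMod.val_cast_of_lt hj] at this

lemma card_ap (a : ZMod p) {g : ZMod p} (hg : g ≠ 0) {l : ℕ} (hl : l ≤ p) : (ap a g l).card = l := by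
  rw [ap, card_image_of_injOn, card_range]
  intro i hi j hj h
  simp only [coe_range, Set.mem_Iio] at hi hj
  exact natCast_inj_of_lt (by omega) (by omega) (mul_left_cancel₀ hg (add_left_cancel h))

lemma Cov.mono {A B Y Y' : Finset (ZMod p)} {c c' l l' : ℝ} (h : Cov A B Y c l) (hY : Y' ⊆ Y)
    (hc : c ≤ c') (hl : l ≤ l') : Cov A B Y' c' l' := by
  obtain ⟨A', hA, B', hB, h1, h2, h3⟩ := h
  refine ⟨A', hA, B', hB, h1.trans hc, h2.trans hc, le_trans ?_ (h3.trans hl)⟩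
  exact_mod_cast card_le_card (sdiff_subset_sdiff hY Subset.rfl)

lemma Cov.subset {A B A1 B1 Y : Finset (ZMod p)} {c l : ℝ} (h : Cov A B Y c l) (hA1 : A ⊆ A1)
    (hB1 : B ⊆ B1) : Cov A1 B1 Y c l := by
  obtain ⟨A', hA, B', hB, h1, h2, h3⟩ := h
  exact ⟨A', hA.trans hA1, B', hB.trans hB1, h1, h2, h3⟩

lemma Cov.swap {A B Y : Finset (ZMod p)} {c l : ℝ} (h : Cov A B Y c l) : Cov B A Y c l := by
  obtain ⟨A', hA, B', hB, h1, h2, h3⟩ := h
  exact ⟨B', hB, A', hA, h2, h1, by rwa [add_comm]⟩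

lemma Cov.union {A B Y Y' : Finset (ZMod p)} {c c' l l' : ℝ} (h : Cov A B Y c l)
    (h' : Cov A B Y' c' l') : Cov A B (Y ∪ Y') (c + c') (l + l') := by
  obtain ⟨A1, hA1, B1, hB1, h1, h2, h3⟩ := h
  obtain ⟨A2, hA2, B2, hB2, h4, h5, h6⟩ := h'
  refine ⟨A1 ∪ A2, union_subset hA1 hA2, B1 ∪ B2, union_subset hB1 hB2, ?_, ?_, ?_⟩
  · have : ((A1 ∪ A2).card : ℝ) ≤ A1.card + A2.card := by exact_mod_cast card_union_le _ _
    linarith
  · have : ((B1 ∪ B2).card : ℝ) ≤ B1.card + B2.card := by exact_mod_cast card_union_le _ _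
    linarith
  · have h7 : (Y ∪ Y') \ ((A1 ∪ A2) + (B1 ∪ B2)) ⊆ (Y \ (A1 + B1)) ∪ (Y' \ (A2 + B2)) := by
      intro y hy
      simp only [mem_sdiff, mem_union] at hy ⊢
      rcases hy.1 with h | h
      · exact Or.inl ⟨h, fun h' => hy.2 (add_subset_add subset_union_left subset_union_left h')⟩
      · exact Or.inr ⟨h, fun h' => hy.2 (add_subset_add subset_union_right subset_union_right h')⟩
    have : (((Y ∪ Y') \ ((A1 ∪ A2) + (B1 ∪ B2))).card : ℝ) ≤
        (Y \ (A1 + B1)).card + (Y' \ (A2 + B2)).card := by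
      exact_mod_cast (card_le_card h7).trans (card_union_le _ _)
    linarith

lemma Cov.trivial (A B Y : Finset (ZMod p)) : Cov A B Y 0 Y.card :=
  ⟨∅, empty_subset _, ∅, empty_subset _, by simp, by simp, by simp⟩

/-- Covering point by point. -/
lemma Cov.pointwise {A B Y : Finset (ZMod p)} (h : ∀ y ∈ Y, y ∈ A + B) : Cov A B Y Y.card 0 := by
  choose! a ha b hb hab using fun y hy => mem_add.1 (h y hy)
  refine ⟨Y.image a, ?_, Y.image b, ?_, by exact_mod_cast card_image_le,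
    by exact_mod_cast card_image_le, ?_⟩
  · intro x hx; obtain ⟨y, hy, rfl⟩ := mem_image.1 hx; exact ha y hy
  · intro x hx; obtain ⟨y, hy, rfl⟩ := mem_image.1 hx; exact hb y hy
  · have : Y \ (Y.image a + Y.image b) = ∅ := by
      rw [sdiff_eq_empty_iff_subset]
      intro y hy
      rw [← hab y hy]
      exact add_mem_add (mem_image_of_mem _ hy) (mem_image_of_mem _ hy)
    simp [this]

/-- The leftover points can be covered one by one. -/
lemma Cov.finish {A B Y : Finset (ZMod p)} {c l : ℝ} (h : Cov A B Y c l)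
    (hY : ∀ y ∈ Y, y ∈ A + B) : Cov A B Y (c + l) 0 := by
  obtain ⟨A', hA, B', hB, h1, h2, h3⟩ := h
  have h4 : Cov A B (Y ∩ (A' + B')) c 0 := ⟨A', hA, B', hB, h1, h2, by
    rw [sdiff_eq_empty_iff_subset.2 inter_subset_right]; simp⟩
  have h5 := Cov.pointwise (A := A) (B := B) (Y := Y \ (A' + B'))
    fun y hy => hY y (mem_sdiff.1 hy).1
  refine (h4.union h5).mono ?_ (by linarith) (by simp)
  intro y hy
  by_cases h : y ∈ A' + B' <;> simp [hy, h]

lemma Cov.of_lt_one {A B Y : Finset (ZMod p)} {c l : ℝ} (h : Cov A B Y c l) (hl : l < 1) :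
    Cov A B Y c 0 := by
  obtain ⟨A', hA, B', hB, h1, h2, h3⟩ := h
  refine ⟨A', hA, B', hB, h1, h2, ?_⟩
  have : (Y \ (A' + B')).card < 1 := by exact_mod_cast h3.trans_lt hl
  have : (Y \ (A' + B')).card = 0 := by omega
  simp [this]

lemma Cov.biUnion {ι : Type*} [DecidableEq ι] {A B : Finset (ZMod p)} (s : Finset ι)
    (Y : ι → Finset (ZMod p)) (c l : ι → ℝ) (h : ∀ i ∈ s, Cov A B (Y i) (c i) (l i)) :
    Cov A B (s.biUnion Y) (∑ i ∈ s, c i) (∑ i ∈ s, l i) := by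
  induction s using Finset.induction_on with
  | empty => simpa using Cov.trivial A B ∅
  | insert i s hi ih =>
    rw [biUnion_insert, sum_insert hi, sum_insert hi]
    exact (h i (mem_insert_self _ _)).union (ih fun j hj => h j (mem_insert_of_mem hj))

lemma Good.mono {A B : Finset (ZMod p)} {n : ℕ} {c c' : ℝ} (h : Good A B n c) (hc : c ≤ c') :
    Good A B n c' := by
  obtain ⟨A', hA, B', hB, h1, h2, h3⟩ := h
  exact ⟨A', hA, B', hB, h1.trans hc, h2.trans hc, h3⟩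

lemma Good.swap {A B : Finset (ZMod p)} {n : ℕ} {c : ℝ} (h : Good A B n c) : Good B A n c := by
  obtain ⟨A', hA, B', hB, h1, h2, h3⟩ := h
  exact ⟨B', hB, A', hA, h2, h1, by rwa [add_comm B']⟩

lemma Cov.good {A B Y : Finset (ZMod p)} {n : ℕ} {c l : ℝ} (h : Cov A B Y c l)
    (hY : 2 * n + l ≤ Y.card + 1) : Good A B n c := by
  obtain ⟨A', hA, B', hB, h1, h2, h3⟩ := h
  refine ⟨A', hA, B', hB, h1, h2, ?_⟩
  have h4 : Y.card ≤ (Y \ (A' + B')).card + (A' + B').card := card_le_card_sdiff_add_card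
  have h5 : (Y.card : ℝ) ≤ (Y \ (A' + B')).card + (A' + B').card := by exact_mod_cast h4
  have : (2 * n : ℝ) ≤ (A' + B').card + 1 := by linarith
  exact_mod_cast this

end Pool.Agent.MP_93a3f8_co

end

section

/-! Pollard's inequality modulo a prime. -/

open Finset Pointwise

namespace Pool.Agent.MP_93a3f8_co

variable {p : ℕ} [Fact p.Prime]

/-- A nonempty set invariant under a nonzero shift is everything. -/
lemma eq_univ_of_shift {A : Finset (ZMod p)} (hA : A.Nonempty) {g : ZMod p} (hg : g ≠ 0)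
    (h : ∀ a ∈ A, g + a ∈ A) : A = univ := by
  obtain ⟨a, ha⟩ := hA
  have h1 : ∀ k : ℕ, a + g * k ∈ A := by
    intro k
    induction k with
    | zero => simpa using ha
    | succ k ih => have := h _ ih; convert this using 1; push_cast; ring
  rw [eq_univ_iff_forall]
  intro x
  have := h1 ((x - a) / g).val
  rwa [ZMod.natCast_zmod_val, mul_div_cancel₀ _ hg, add_sub_cancel] at this

lemma rep_split (A B : Finset (ZMod p)) (x : ZMod p) :
    rep A B x = rep (A ∪ B) (A ∩ B) x + rep (A \ B) (B \ A) x := by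
  have hA : A = (A ∩ B) ∪ (A \ B) := by ext; simp; tauto
  have hB : B = (A ∩ B) ∪ (B \ A) := by ext; simp; tauto
  have hU : A ∪ B = A ∪ (B \ A) := by ext; simp
  have d1 : Disjoint (A ∩ B) (A \ B) := disjoint_left.2 (by simp +contextual)
  have d2 : Disjoint (A ∩ B) (B \ A) := disjoint_left.2 (by simp +contextual)
  have e1 := rep_union d2 A x
  have e2 := rep_union d1 (B \ A) x
  have e3 := rep_union (disjoint_sdiff : Disjoint A (B \ A)) (A ∩ B) x
  rw [← hB] at e1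
  rw [← hA] at e2
  rw [← hU] at e3
  rw [rep_comm (A ∪ B), e1, e3, rep_comm A (B \ A), e2, rep_comm (A ∩ B) A,
    rep_comm (A ∩ B) (B \ A), rep_comm (A \ B) (B \ A)]
  omega

theorem pollard_aux (n : ℕ) :
    ∀ (A B : Finset (ZMod p)) (t : ℕ), B.card = n → t ≤ A.card → t ≤ B.card →
      A.card + B.card ≤ p + t →
      t * (A.card + B.card) ≤ ∑ x, min t (rep A B x) + t * t := by
  induction n using Nat.strong_induction_on with
  | _ n ih =>
  intro A B t hn hA hB hG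
  by_cases hdeg : ∀ b ∈ B, ∀ b' ∈ B, ∀ a ∈ A, b' - b + a ∈ A
  · rcases Nat.eq_zero_or_pos t with rfl | ht
    · simp
    by_cases hK : A = univ
    · have h2 : ∑ x, min t (rep A B x) = p * t := by
        simp [hK, rep_univ, min_eq_left hB, ZMod.card]
      rw [h2]
      nlinarith
    · have h1 : B.card ≤ 1 := by
        rw [card_le_one]
        intro b hb b' hb'
        by_contra hne
        exact hK (eq_univ_of_shift (card_pos.1 (by omega)) (sub_ne_zero.2 hne) (hdeg b' hb' b hb))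
      have h2 : ∑ x, min t (rep A B x) = ∑ x, rep A B x :=
        sum_congr rfl fun x _ => min_eq_right (by have := rep_le_right A B x; omega)
      have h3 : t = 1 := by omega
      have h4 : B.card = 1 := by omega
      rw [h2, sum_rep, h3, h4]
      omega
  push Not at hdeg
  obtain ⟨b, hb, b', hb', a, ha, hab⟩ := hdeg
  set B' := (a - b) +ᵥ B with hB'
  have hc : B'.card = B.card := card_vadd_finset _ _
  have hsum : ∑ x, min t (rep A B x) = ∑ x, min t (rep A B' x) := by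
    refine Fintype.sum_equiv (Equiv.addLeft (a - b)) _ _ (fun x => ?_)
    congr 1
    rw [rep_comm A B, rep_comm A B']
    unfold rep
    congr 1
    ext y
    simp only [mem_filter, Equiv.coe_addLeft, hB', add_sub_assoc]
    rw [← vadd_eq_add, vadd_mem_vadd_finset_iff]
  have hI1 : 0 < (A ∩ B').card := card_pos.2
    ⟨a, mem_inter.2 ⟨ha, mem_vadd_finset.2 ⟨b, hb, by simp⟩⟩⟩
  have hI2 : (A ∩ B').card < B'.card := by
    refine card_lt_card ⟨inter_subset_right, fun h => hab ?_⟩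
    have := (mem_inter.1 (h (mem_vadd_finset.2 ⟨b', hb', rfl⟩))).1
    rwa [vadd_eq_add, show a - b + b' = b' - b + a by abel] at this
  have hUI := card_union_add_card_inter A B'
  have hIU : (A ∩ B').card ≤ (A ∪ B').card :=
    card_le_card (inter_subset_left.trans subset_union_left)
  rw [hsum, ← hc]
  rcases le_or_gt t (A ∩ B').card with h | h
  · have h1 := ih _ (by omega) (A ∪ B') (A ∩ B') t rfl (by omega) h (by omega)
    have h2 : ∑ x, min t (rep (A ∪ B') (A ∩ B') x) ≤ ∑ x, min t (rep A B' x) :=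
      sum_le_sum fun x _ => by rw [rep_split A B' x]; omega
    rw [hUI] at h1
    omega
  · obtain ⟨s, rfl⟩ : ∃ s, t = s + (A ∩ B').card := ⟨t - (A ∩ B').card, by omega⟩
    have e1 := card_sdiff_add_card_inter A B'
    have e2 := card_sdiff_add_card_inter B' A
    rw [inter_comm B' A] at e2
    have h1 := ih _ (by omega) (A \ B') (B' \ A) s rfl (by omega) (by omega) (by omega)
    have h2 : ∑ x, (rep (A ∪ B') (A ∩ B') x + min s (rep (A \ B') (B' \ A) x)) ≤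
        ∑ x, min (s + (A ∩ B').card) (rep A B' x) :=
      sum_le_sum fun x _ => by
        have := rep_le_right (A ∪ B') (A ∩ B') x
        rw [rep_split A B' x]; omega
    rw [sum_add_distrib, sum_rep] at h2
    have e3 : (A ∪ B').card = (A \ B').card + (B' \ A).card + (A ∩ B').card := by omega
    rw [e3] at h2
    rw [← e1, ← e2]
    nlinarith

/-- Pollard's inequality. -/
theorem pollard (A B : Finset (ZMod p)) (t : ℕ) (hA : t ≤ A.card) (hB : t ≤ B.card)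
    (h : A.card + B.card ≤ p + t) :
    t * (A.card + B.card) ≤ ∑ x, min t (rep A B x) + t * t :=
  pollard_aux _ A B t rfl hA hB h

end Pool.Agent.MP_93a3f8_co

end

section

/-! Statements of the components of the proof. -/

open Finset Pointwise

namespace Pool.Agent.MP_93a3f8_co

/-- Almost periods of a set of size at most `(p+1)/2` are few. -/
def TauStmt : Prop :=
  ∀ (p : ℕ) [Fact p.Prime] (B : Finset (ZMod p)) (ρ σ : ℝ), 2 * B.card ≤ p + 1 → 1 ≤ ρ → σ ≤ 1 →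
    100 * ρ ≤ σ * B.card → ((ball (fS B) ρ).card : ℝ) ≤ (2 + σ) * ρ + 1

/-- Almost periods concentrate near zero after a dilation. -/
def Four1Stmt : Prop :=
  ∀ (p : ℕ) [Fact p.Prime] (B T : Finset (ZMod p)) (ρ : ℝ), B.Nonempty → 2 * B.card ≤ p + 1 →
    (∀ u ∈ T, (fS B u : ℝ) ≤ ρ) →
    ∃ ξ : ZMod p, ξ ≠ 0 ∧ (∑ u ∈ T, (nu (ξ * u) : ℝ) ^ 2) * B.card ≤ (p : ℝ) ^ 2 * T.card * ρ

/-- Bohr sets of almost periods. -/
def Four2Stmt : Prop :=
  ∀ (p : ℕ) [Fact p.Prime] (T : Finset (ZMod p)), T.Nonempty →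
    ∃ Γ : Finset (ZMod p), Γ.card * T.card ≤ 4 * p ∧
      ∀ (B : Finset (ZMod p)) (ρ r : ℝ) (u : ZMod p), (∀ t ∈ T, (fS B t : ℝ) ≤ ρ) →
        (∀ ξ ∈ Γ, (nu (ξ * u) : ℝ) ≤ r * p) → (fS B u : ℝ) ≤ 4 * ρ + 20 * r ^ 2 * B.card

/-- A cell of almost periods with bounded growth. -/
def BohrStmt : Prop :=
  ∀ (p : ℕ) [Fact p.Prime] (A B T : Finset (ZMod p)) (ε D K : ℝ), 1 ≤ D → 1 ≤ K →
    (p : ℝ) ≤ D * T.card → (p : ℝ) ≤ K * ε → (∀ t ∈ T, (FF A B t : ℝ) ≤ 3 * ε) →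
    ∃ (H0 : Finset (ZMod p)) (Q : ℝ), H0 ⊆ ball (FF A B) (25 * ε) ∧
      Real.exp (-(4 * D * Real.log (56 * D * K))) * p ≤ H0.card ∧ (H0.card : ℝ) ≤ Q ∧
      Q ≤ 14 * K * H0.card ∧ Cell H0 Q (Real.exp (-(4 * D * Real.log (56 * D * K))))

/-- The small set of an almost extremal triple is almost a progression. -/
def StructStmt : Prop :=
  ∀ δ : ℝ, 0 < δ → ∃ s : ℝ, 0 < s ∧ ∃ x0 : ℕ, ∀ (p : ℕ) [Fact p.Prime] (B X C : Finset (ZMod p)),
    2 * B.card ≤ p + 1 → x0 ≤ X.card → (X.card : ℝ) ≤ s * B.card →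
    (p : ℝ) ≤ B.card + X.card + C.card + s * X.card → (trip X B C : ℝ) ≤ s * (X.card : ℝ) ^ 2 →
    ∃ (g a : ZMod p) (l : ℕ) (X1 : Finset (ZMod p)), g ≠ 0 ∧ X1 ⊆ X ∧ X1 ⊆ ap a g l ∧
      (l : ℝ) ≤ (1 + δ) * X.card ∧ (1 - δ) * X.card ≤ X1.card

/-- If one set of an almost extremal triple is almost a progression, so is another one. -/
def WindowStmt : Prop :=
  ∀ (p : ℕ) [Fact p.Prime] (P X C : Finset (ZMod p)) (a g : ZMod p) (l : ℕ) (s : ℝ),
    s ≤ 1 / 20 → 1 ≤ s * l → l ≤ p → g ≠ 0 → X ⊆ ap a g l → (1 - s) * l ≤ X.card →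
    (p : ℝ) ≤ P.card + l + C.card + s * l → (trip X P C : ℝ) ≤ s ^ 2 * (l : ℝ) ^ 2 →
    s * l ≤ C.card → ∃ a' : ZMod p, ((P \ ap a' g P.card).card : ℝ) ≤ 16 * s * l

/-- Shrinking one set of an almost extremal triple. -/
def ShrinkStmt : Prop :=
  ∀ γ σ : ℝ, 0 < γ → γ ≤ 1 → 0 < σ → ∃ σ0 : ℝ, 0 < σ0 ∧ ∃ n0 : ℕ,
    ∀ (p : ℕ) [Fact p.Prime] (X B C : Finset (ZMod p)), n0 ≤ B.card → X.card ≤ B.card →
      2 * X.card + B.card ≤ p → γ ^ 2 * B.card / 16 ≤ X.card →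
      (p : ℝ) ≤ X.card + B.card + C.card + σ0 * B.card →
      (trip X B C : ℝ) ≤ σ0 * (B.card : ℝ) ^ 2 →
      ∃ X' C' : Finset (ZMod p), γ ^ 2 * B.card / 16 ≤ X'.card ∧ (X'.card : ℝ) ≤ γ * B.card ∧
        (p : ℝ) ≤ X'.card + B.card + C'.card + σ * B.card ∧
        (trip X' B C' : ℝ) ≤ σ * (B.card : ℝ) ^ 2

/-- Independent sampling from one set. -/
def SampStmt : Prop :=
  ∀ (p : ℕ) [Fact p.Prime] (D U : Finset (ZMod p)) (N : ZMod p → Finset (ZMod p)) (w : ℕ),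
    D.Nonempty → (∀ u ∈ U, N u ⊆ D) → ∃ S ⊆ D, S.card ≤ w ∧
      ((U.filter fun u => Disjoint S (N u)).card : ℝ) ≤
        ∑ u ∈ U, (1 - ((N u).card : ℝ) / D.card) ^ w

/-- Two-sided sampling succeeds, or there is an almost extremal triple. -/
def S1Stmt : Prop :=
  ∀ η : ℝ, 0 < η → ∃ c : ℝ, 0 ≤ c ∧ ∃ n0 : ℕ, ∀ (p : ℕ) [Fact p.Prime] (A B : Finset (ZMod p)) (n : ℕ),
    A.card = n → B.card = n → n0 ≤ n → Good A B n (c * √n) ∨
      ∃ S : Finset (ZMod p), (p : ℝ) ≤ 2 * n + η * n + S.card ∧ (trip A B S : ℝ) ≤ η * (n : ℝ) ^ 2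

/-- Covering through windows. -/
def WStmt : Prop :=
  ∀ (p : ℕ) [Fact p.Prime] (A P Y V : Finset (ZMod p)) (R v : ℝ) (k k' N : ℕ), 0 < R →
    (∀ u ∈ Y, R ≤ rep A P u) → ((Y - V).card : ℝ) ≤ v → 1 ≤ k → 2 * (p : ℝ) * k ≤ V.card * R →
    4 * v * P.card ≤ R * k * k' →
    ∃ A' ⊆ A, ∃ B' ⊆ P, A'.card ≤ N * k' ∧ B'.card ≤ N * k ∧
      ((Y \ (A' + B')).card : ℝ) ≤ (1 - R / (8 * P.card)) ^ N * Y.card

/-- Covering an interval from two almost full intervals. -/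
def LapStmt : Prop :=
  ∃ C : ℝ, 0 ≤ C ∧ ∀ (p : ℕ) [Fact p.Prime] (A B : Finset (ZMod p)) (α β : ZMod p) (a ω : ℕ),
    1 ≤ ω → 2 ^ a + ω ≤ p → 10 * (ap α 1 (2 ^ a + ω) \ A).card ≤ ω →
    10 * (ap β 1 (2 ^ a + ω) \ B).card ≤ ω →
    Cov A B (ap (α + β + ω) 1 (2 ^ a)) (C * √(2 ^ a)) 0

/-- The case of two sets close to progressions with the same difference. -/
def EndStmt : Prop :=
  ∃ δ : ℝ, 0 < δ ∧ ∃ C : ℝ, 0 ≤ C ∧ ∃ μ0 : ℕ, ∀ (p : ℕ) [Fact p.Prime] (n μ : ℕ)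
    (A B : Finset (ZMod p)) (a b g : ZMod p) (c : ℝ), 0 ≤ c → A.card = n → B.card = n →
    2 * n ≤ p + 1 → g ≠ 0 → μ = min n (p + 1 - 2 * n) → μ0 ≤ μ → √n ≤ 256 * (μ : ℝ) →
    ((A \ ap a g n).card : ℝ) ≤ δ * μ → ((B \ ap b g n).card : ℝ) ≤ δ * μ →
    (∀ (n' : ℕ) (A1 B1 : Finset (ZMod p)), 1 ≤ n' → 100 * n' ≤ n → A1.card = n' → B1.card = n' →
      Good A1 B1 n' (c * √n')) →
    Good A B n (C * √n + c * √n / 5)

end Pool.Agent.MP_93a3f8_co

end

section

/-! Statements of the components of the dense case. -/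

open Finset Pointwise

namespace Pool.Agent.MP_93a3f8_co

/-- The data of one level. -/
structure Lev {p : ℕ} [Fact p.Prime] (A B Y : Finset (ZMod p)) (η ε : ℝ) : Prop where
  cardAB : A.card = B.card
  dense : p ≤ 4 * B.card
  half : 2 * B.card ≤ p + 1
  lin : ∀ ρ : ℝ, 1 ≤ ρ → ((ball (FF A B) ρ).card : ℝ) ≤ 400 * ρ
  sub : Y ⊆ ball (FF A B) ε
  h1 : ∀ y ∈ Y, 4 * (η * ε) ≤ rep A B y
  h2 : ∀ u, (rep A B u : ℝ) < η * ε / 4 → (FF A B u : ℝ) ≤ η * ε
  r0 : (rep A B 0 : ℝ) ≤ ε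
  low : √p ≤ ε
  high : 200 * ε ≤ p

/-- Unsynchronised covering of points of a sumset. -/
def FinalStmt : Prop :=
  ∀ (p : ℕ) [Fact p.Prime] (A Pf P Q Y : Finset (ZMod p)) (K : ℝ) (w : ℕ), 0 < K →
    (∀ y ∈ Y, (p : ℝ) ≤ K * rep A Pf y) → Y ⊆ P + Q → 4 * p * Real.exp (-(w / K)) ≤ 1 →
    ∃ A' ⊆ A, ∃ B' ⊆ Pf, A'.card ≤ Q.card * w ∧
      (B'.card : ℝ) ≤ 2 * (P.card * w * Pf.card / p) + 1 ∧ Y ⊆ A' + B'

/-- Placing the synchronised positions along a random direction. -/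
def OuterStmt : Prop :=
  ∀ (p : ℕ) [Fact p.Prime] (A B Y Hf Wt : Finset (ZMod p)) (C X : Finset ℕ)
    (a lf : ZMod p → Finset (ZMod p)) (n0 L1 J : ℕ) (sa sl : ℝ), n0 ≤ p → 8 * p ≤ n0 * L1 → L1 ≤ p →
    1 ≤ J → Hf.Nonempty → (∀ j < 2 * n0, ∃ t ∈ X, ∃ c ∈ C, j = t + c) →
    (∀ x ∈ Hf, ∀ w ∈ Wt, x + w ∈ B) → (∀ z, a z ⊆ A) → ∑ z, ((a z).card : ℝ) ≤ sa →
    ∑ z, ((lf z).card : ℝ) ≤ sl →
    (∀ x ∈ Hf, ∀ c ∈ C, ∀ z, x + c + z ∈ Y →
      (∃ u ∈ a z, ∃ w ∈ Wt, x + c + z = u + (x + w)) ∨ ∃ z' ∈ lf z, x + c + z = x + z') →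
    ∃ A' ⊆ A, ∃ B' ⊆ B, ∃ P1 Q1 P2 Q2 : Finset (ZMod p),
      (A'.card : ℝ) ≤ 24 * L1 * sa / p ∧ B'.card ≤ X.card * Wt.card ∧ P1.card ≤ X.card ∧
      (Q1.card : ℝ) ≤ 24 * L1 * sl / p ∧
      (P2.card : ℝ) ≤ 8 * X.card * p / (Hf.card * L1) * C.card * (2 * L1 / J + 1) ∧ Q2.card ≤ J ∧
      ∀ y ∈ Y, y ∈ A' + B' ∨ y ∈ P1 + Q1 ∨ y ∈ P2 + Q2

/-- A complete run of synchronised stages. -/
def RunStmt : Prop :=
  ∃ C : ℝ, 0 ≤ C ∧ ∃ p0 : ℕ, ∀ (p : ℕ) [Fact p.Prime] (A B Y H0 Z0 Pf : Finset (ZMod p))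
    (ζ Q γ Θ β1 β2 K Bf : ℝ) (j0 : ℕ), p0 ≤ p → (∀ y ∈ Y, ∀ x ∈ H0, y - x ∈ Z0) →
    (Z0.card : ℝ) ≤ ζ → ζ ≤ p → Cell H0 Q γ → Real.exp (-√(Real.log p)) ≤ γ →
    Real.exp (-√(Real.log p)) * p ≤ Q → Real.exp (-Θ) * Q ≤ H0.card → 1 ≤ Θ →
    Θ ≤ √(Real.log p) → 128 * 2 ^ j0 ≤ √(Real.log p) → 0 ≤ β1 → 0 ≤ β2 →
    Orc A B Y H0 Z0 (Real.exp (-Θ)) β1 (ζ / 2 ^ j0) →
    (∀ k : ℕ, 1 ≤ k → Orc A B Y H0 Z0 (Real.exp (-(Θ * k))) (β2 * k) (ζ / 2 ^ (25 * k))) →
    Pf ⊆ B → 1 ≤ K → K ≤ Real.log p ^ 9 → (∀ y ∈ Y, (p : ℝ) ≤ K * rep A Pf y) →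
    1 + β1 + β2 * (j0 + 1) / 2 ^ j0 + K * Θ * Pf.card / p ≤ Bf → Bf * (p : ℝ) ^ (9 / 10 : ℝ) ≤ ζ →
    Cov A B Y (C * √(ζ * Bf)) 0

/-- Every representation of an almost period has an end in one of two small sets. -/
def TypeStmt : Prop :=
  ∀ (p : ℕ) [Fact p.Prime] (A B : Finset (ZMod p)) (ρ μ G : ℝ), 0 < μ → μ ≤ 1 / 2 → 0 ≤ ρ →
    ((ball (FF A B) (2 * ρ)).card : ℝ) ≤ G * (ball (FF A B) ρ).card →
    ∃ Rb ⊆ B, ∃ Da ⊆ A, ∃ E : Finset (ZMod p), (Rb.card : ℝ) ≤ 2 * (rep A B 0 + ρ) ∧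
      (Da.card : ℝ) ≤ 2 * G * ρ / μ ∧ (E.card : ℝ) ≤ 2 * μ * (ball (FF A B) ρ).card ∧
      (∀ u ∈ ball (FF A B) ρ, rep A B u ≤ rep A Rb u + rep B Da u) ∧
      ∀ u ∈ ball (FF A B) ρ, u ∉ E → Rb.card ≤ 2 * rep A Rb u

/-- A scale of bounded growth. -/
def DoubStmt : Prop :=
  ∃ G : ℝ, 1 ≤ G ∧ ∀ (p : ℕ) [Fact p.Prime] (A B : Finset (ZMod p)) (ε : ℝ), 1 ≤ ε →
    (∀ ρ : ℝ, 1 ≤ ρ → ((ball (FF A B) ρ).card : ℝ) ≤ 400 * ρ) →
    ∃ x : ℝ, 1 ≤ x ∧ ((ball (FF A B) (2 * (x * ε))).card : ℝ) ≤ G * (ball (FF A B) (x * ε)).card ∧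
      x ^ 192 * (ball (FF A B) (2 * ε)).card ≤ G * ε

/-- Covering a level through windows and small sets. -/
def TypedWStmt : Prop :=
  ∀ η G : ℝ, 0 < η → η ≤ 1 → 1 ≤ G → ∃ C : ℝ, 0 ≤ C ∧ ∀ (p : ℕ) [Fact p.Prime]
    (A B Y : Finset (ZMod p)) (ε x δ : ℝ), 1 ≤ ε → 1 ≤ x → 0 < δ → δ ≤ 1 →
    (∀ ρ : ℝ, 1 ≤ ρ → ((ball (FF A B) ρ).card : ℝ) ≤ 400 * ρ) → Y ⊆ ball (FF A B) ε →
    (∀ y ∈ Y, 4 * (η * ε) ≤ rep A B y) → (rep A B 0 : ℝ) ≤ ε →
    ((ball (FF A B) (2 * (x * ε))).card : ℝ) ≤ G * (ball (FF A B) (x * ε)).card →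
    Cov A B Y (C * x ^ 3 * (1 + Real.log (1 / δ)) * (√ε + p / ε)) (δ * Y.card)

/-- Covering a very small level. -/
def UWStmt : Prop :=
  ∀ η C1 : ℝ, 0 < η → η ≤ 1 → 0 ≤ C1 → ∃ C : ℝ, 0 ≤ C ∧ ∃ p0 : ℕ, ∀ (p : ℕ) [Fact p.Prime]
    (A B Y : Finset (ZMod p)) (ε M : ℝ), p0 ≤ p → 0 < ε → 1 ≤ M → Y ⊆ ball (FF A B) ε →
    (∀ y ∈ Y, 4 * (η * ε) ≤ rep A B y) → (p : ℝ) ≤ M * ε → Real.log p ≤ M → M ^ 16 ≤ p →
    ((ball (FF A B) (2 * ε)).card : ℝ) ≤ C1 * p / M ^ 7 → Cov A B Y (C * √p / M) 0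

/-- Levels far below `p`. -/
def DeepStmt : Prop :=
  ∀ η : ℝ, 0 < η → η ≤ 1 → ∃ C : ℝ, 0 ≤ C ∧ ∃ p0 : ℕ, ∀ (p : ℕ) [Fact p.Prime]
    (A B Y : Finset (ZMod p)) (ε : ℝ), p0 ≤ p → Lev A B Y η ε → Real.log p ^ 8 * ε ≤ p →
    Cov A B Y (C * √p * ((ε / p) ^ (1 / 256 : ℝ) + (√p / ε) ^ (1 / 256 : ℝ))) 0

/-- A run without pattern set. -/
def NoGainStmt : Prop :=
  ∀ η : ℝ, 0 < η → η ≤ 1 → ∃ C : ℝ, 0 ≤ C ∧ ∃ p0 : ℕ, ∀ (p : ℕ) [Fact p.Prime]
    (A B Y H0 : Finset (ZMod p)) (ε Q γ R ζ Θ : ℝ), p0 ≤ p → Lev A B Y η ε →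
    (p : ℝ) ≤ Real.log p ^ 8 * ε → 1 ≤ R → R ≤ 25 → H0 ⊆ ball (FF A B) (R * ε) →
    ((ball (FF A B) ((R + 1) * ε)).card : ℝ) ≤ ζ → ζ ≤ p → (p : ℝ) ≤ Real.log p ^ 20 * ζ →
    Cell H0 Q γ → Real.exp (-√(Real.log p)) ≤ γ → Real.exp (-√(Real.log p)) * p ≤ Q →
    Real.exp (-Θ) * Q ≤ H0.card → 1 + Real.log (p / ε) ≤ Θ → Θ ^ 4 ≤ Real.log p →
    Cov A B Y (C * √(ζ * (p / ε) * Θ)) 0

/-- A run with a pattern set. -/
def GainStmt : Prop :=
  ∀ η C1 : ℝ, 0 < η → η ≤ 1 → 1 ≤ C1 → ∃ C : ℝ, 0 ≤ C ∧ ∃ p0 : ℕ, ∀ (p : ℕ) [Fact p.Prime]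
    (A B Y H0 P1 E1 Pf : Finset (ZMod p)) (ε Q γ t ρ : ℝ) (j0 : ℕ), p0 ≤ p → Lev A B Y η ε →
    1 ≤ t → t ^ 256 * ε = p → t ^ 32 ≤ Real.log p → H0 ⊆ ball (FF A B) (25 * ε) →
    Cell H0 Q γ → Real.exp (-√(Real.log p)) ≤ γ → Real.exp (-√(Real.log p)) * p ≤ Q →
    Real.exp (-(C1 * t)) * Q ≤ H0.card → 51 * ε ≤ ρ →
    ((ball (FF A B) ρ).card : ℝ) ≤ C1 * t * ε → ε ≤ t ^ 4 * (ball (FF A B) ρ).card →
    t ^ 8 ≤ 2 ^ j0 → 2 ^ j0 ≤ 2 * t ^ 8 → P1 ⊆ B →
    (E1.card : ℝ) ≤ (ball (FF A B) ρ).card / (8 * 2 ^ j0) → η * ε / 8 ≤ P1.card →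
    (∀ u ∈ ball (FF A B) ρ, u ∉ E1 → η * ε / 4 ≤ rep A B u →
      (P1.card : ℝ) ≤ C1 * t ^ 9 * rep A P1 u) →
    Pf ⊆ B → (Pf.card : ℝ) ≤ C1 * t ^ 9 * ε → (∀ y ∈ Y, η * ε / 8 ≤ rep A Pf y) →
    Cov A B Y (C * √p / t) 0

/-- Levels close to `p`. -/
def ShallowStmt : Prop :=
  ∀ η : ℝ, 0 < η → η ≤ 1 → ∃ C : ℝ, 0 ≤ C ∧ ∃ p0 : ℕ, ∀ (p : ℕ) [Fact p.Prime]
    (A B Y : Finset (ZMod p)) (ε : ℝ), p0 ≤ p → Lev A B Y η ε → (p : ℝ) ≤ Real.log p ^ 8 * ε →
    Cov A B Y (C * √p * (ε / p) ^ (1 / 256 : ℝ)) 0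

/-- Points with a positive proportion of representations. -/
def TopStmt : Prop :=
  ∀ η : ℝ, 0 < η → η ≤ 1 → ∃ C : ℝ, 0 ≤ C ∧ ∃ p0 : ℕ, ∀ (p : ℕ) [Fact p.Prime]
    (A B Y : Finset (ZMod p)), p0 ≤ p → (∀ y ∈ Y, 4 * (η * p) ≤ rep A B y) →
    (∀ u, (rep A B u : ℝ) < η * p / 4 → (FF A B u : ℝ) ≤ η * p) → Cov A B Y (C * √p) 0

/-- The dense case. -/
def DenseStmt : Prop :=
  ∀ s : ℝ, 0 < s → s ≤ 1 → ∃ C : ℝ, 0 ≤ C ∧ ∃ p0 : ℕ, ∀ (p : ℕ) [Fact p.Prime]
    (A B : Finset (ZMod p)) (n m : ℕ), p0 ≤ p → A.card = n → B.card = n → 2 * n + m = p + 1 →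
    100000 * m ≤ n → Good A B n (C * √p) ∨
      (√p ≤ 256 * (m : ℝ) ∧ ∃ X : Finset (ZMod p), X.card ≤ m ∧ (1 - s) * m ≤ X.card ∧
        ∀ u ∈ X, (rep A B u : ℝ) ≤ s * m)

/-- The theorem, without equal sizes. -/
def MainStmt : Prop :=
  ∃ c : ℝ, 0 < c ∧ ∀ (p : ℕ) [Fact p.Prime] (n : ℕ) (A B : Finset (ZMod p)), 2 * n ≤ p + 1 →
    A.card = n → B.card = n → Good A B n (c * √n)

end Pool.Agent.MP_93a3f8_co

end

section

/-! One synchronised stage by independent sampling. -/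

open Finset Pointwise

namespace Pool.Agent.MP_93a3f8_co

variable {p : ℕ} [Fact p.Prime]

omit [Fact p.Prime] in
lemma sum_pi_indicator {ι : Type*} [Fintype ι] [DecidableEq ι] (Ω : ι → Finset (ZMod p))
    (q : ι → ZMod p → Prop) [∀ i, DecidablePred (q i)] :
    ∑ f ∈ Fintype.piFinset Ω, (if ∀ i, q i (f i) then (1 : ℝ) else 0) =
      ∏ i, (((Ω i).filter (q i)).card : ℝ) := by
  simp only [card_filter, Nat.cast_sum, Nat.cast_ite, Nat.cast_one, Nat.cast_zero]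
  rw [prod_univ_sum]
  refine sum_congr rfl fun f _ => ?_
  rw [prod_ite_zero]
  simp

theorem stage_gen {ι : Type*} [Fintype ι] [DecidableEq ι] (A H Z0 E : Finset (ZMod p))
    (Ω P : ι → Finset (ZMod p)) (lam δ ζ : ℝ) (hΩ : ∀ i, (Ω i).Nonempty) (hH : H.Nonempty)
    (hlam : 0 < lam) (hδ : 0 < δ) (hζ : 0 < ζ) (hZ0 : (Z0.card : ℝ) ≤ ζ)
    (h1 : ∀ x ∈ H, lam * ∏ i, ((Ω i).card : ℝ) ≤ ∏ i, (((Ω i).filter fun w => x + w ∈ P i).card : ℝ))
    (h2 : ∀ x ∈ H, ∀ z ∈ Z0, z + x ∉ E →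
      ∏ i, (((Ω i).filter fun w => x + w ∈ P i ∧ z - w ∉ A).card : ℝ) ≤
        δ * ∏ i, (((Ω i).filter fun w => x + w ∈ P i).card : ℝ)) :
    ∃ f : ι → ZMod p, lam * H.card / 2 ≤ (H.filter fun x => ∀ i, x + f i ∈ P i).card ∧
      ((Z0.filter fun z => ∀ i, z - f i ∉ A).card : ℝ) ≤ 2 * (δ * ζ + E.card) := by
  set d : ℝ := δ * ζ + E.card with hd
  have hd0 : 0 < d := by positivity
  set X : ZMod p → ℝ := fun x => ∏ i, (((Ω i).filter fun w => x + w ∈ P i).card : ℝ) with hX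
  have hX0 : ∀ x, 0 ≤ X x := fun x => prod_nonneg fun i _ => by positivity
  set hh : (ι → ZMod p) → ℝ := fun f => (H.filter fun x => ∀ i, x + f i ∈ P i).card with hhh
  set zz : (ι → ZMod p) → ℝ := fun f => (Z0.filter fun z => ∀ i, z - f i ∉ A).card with hzz
  have e1 : ∑ f ∈ Fintype.piFinset Ω, hh f = ∑ x ∈ H, X x := by
    simp only [hhh, card_filter, Nat.cast_sum, Nat.cast_ite, Nat.cast_one, Nat.cast_zero]
    rw [sum_comm]
    exact sum_congr rfl fun x _ => sum_pi_indicator Ω fun i w => x + w ∈ P i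
  have e2 : ∑ f ∈ Fintype.piFinset Ω, hh f * zz f ≤ d * ∑ x ∈ H, X x := by
    have : ∀ f, hh f * zz f = ∑ x ∈ H, ∑ z ∈ Z0,
        if ∀ i, x + f i ∈ P i ∧ z - f i ∉ A then (1 : ℝ) else 0 := by
      intro f
      simp only [hhh, hzz, card_filter, Nat.cast_sum, Nat.cast_ite, Nat.cast_one, Nat.cast_zero]
      rw [sum_mul_sum]
      refine sum_congr rfl fun x _ => sum_congr rfl fun z _ => ?_
      simp only [forall_and]
      by_cases h : ∀ i, x + f i ∈ P i <;> by_cases h' : ∀ i, z - f i ∉ A <;> simp [h, h']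
    simp only [this]
    rw [sum_comm, mul_sum]
    refine sum_le_sum fun x hx => ?_
    rw [sum_comm]
    have h3 : ∀ z ∈ Z0, ∑ f ∈ Fintype.piFinset Ω,
        (if ∀ i, x + f i ∈ P i ∧ z - f i ∉ A then (1 : ℝ) else 0) ≤
        δ * X x + (if z + x ∈ E then X x else 0) := by
      intro z hz
      rw [sum_pi_indicator Ω fun i w => x + w ∈ P i ∧ z - w ∉ A]
      split_ifs with h
      · have : ∏ i, (((Ω i).filter fun w => x + w ∈ P i ∧ z - w ∉ A).card : ℝ) ≤ X x :=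
          prod_le_prod (fun i _ => by positivity) fun i _ => by
            exact_mod_cast card_le_card (fun w hw => by
              simp only [mem_filter] at hw ⊢; exact ⟨hw.1, hw.2.1⟩)
        have := mul_nonneg hδ.le (hX0 x)
        linarith
      · simpa using h2 x hx z hz h
    refine (sum_le_sum h3).trans ?_
    rw [sum_add_distrib, sum_const, ← sum_filter, sum_const, nsmul_eq_mul, nsmul_eq_mul]
    have h4 : ((Z0.filter fun z => z + x ∈ E).card : ℝ) ≤ E.card := by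
      rw [← card_filter_shift E x]
      exact_mod_cast card_le_card (filter_subset_filter _ (subset_univ _))
    have := mul_le_mul_of_nonneg_right h4 (hX0 x)
    have := mul_le_mul_of_nonneg_right hZ0 (mul_nonneg hδ.le (hX0 x))
    nlinarith
  have e3 : lam * H.card * (Fintype.piFinset Ω).card ≤ ∑ x ∈ H, X x := by
    rw [Fintype.card_piFinset]
    have := sum_le_sum h1
    rw [sum_const, nsmul_eq_mul] at this
    push_cast
    linarith
  have hne : (Fintype.piFinset Ω).Nonempty := Fintype.piFinset_nonempty.2 hΩ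
  have e4 : ∑ f ∈ Fintype.piFinset Ω, d * (lam * H.card) ≤
      ∑ f ∈ Fintype.piFinset Ω, (2 * d * hh f - hh f * zz f) := by
    rw [sum_const, nsmul_eq_mul, sum_sub_distrib, ← mul_sum, e1]
    nlinarith
  obtain ⟨f, -, hf⟩ := exists_le_of_sum_le hne e4
  have hH0 : (0 : ℝ) < H.card := by exact_mod_cast hH.card_pos
  have hpos : 0 < d * (lam * H.card) := by positivity
  have hh0 : 0 ≤ hh f := by positivity
  have zz0 : 0 ≤ zz f := by positivity
  refine ⟨f, ?_, ?_⟩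
  · change _ ≤ hh f
    have : d * (lam * H.card) ≤ d * (2 * hh f) := by nlinarith
    have := le_of_mul_le_mul_left this hd0
    linarith
  · change zz f ≤ _
    by_contra hc
    push Not at hc
    nlinarith

/-- The stage with two kinds of samples. -/
theorem stage_two (A B H Z0 E Ω1 Ω2 P1 P2 : Finset (ZMod p)) (w1 w2 : ℕ) (l1 l2 q1 q2 δ ζ : ℝ)
    (hP1 : P1 ⊆ B) (hP2 : P2 ⊆ B) (hΩ1 : Ω1.Nonempty) (hΩ2 : Ω2.Nonempty) (hH : H.Nonempty)
    (hl1 : 0 < l1) (hl2 : 0 < l2) (hδ : 0 < δ) (hζ : 0 < ζ) (hZ0 : (Z0.card : ℝ) ≤ ζ)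
    (h1 : ∀ x ∈ H, l1 * Ω1.card ≤ (Ω1.filter fun w => x + w ∈ P1).card)
    (h2 : ∀ x ∈ H, l2 * Ω2.card ≤ (Ω2.filter fun w => x + w ∈ P2).card)
    (h3 : ∀ x ∈ H, ∀ z ∈ Z0, z + x ∉ E →
      (q1 * (Ω1.filter fun w => x + w ∈ P1).card ≤
          (Ω1.filter fun w => x + w ∈ P1 ∧ z - w ∈ A).card ∧ Real.exp (-(q1 * w1)) ≤ δ) ∨
      (q2 * (Ω2.filter fun w => x + w ∈ P2).card ≤
          (Ω2.filter fun w => x + w ∈ P2 ∧ z - w ∈ A).card ∧ Real.exp (-(q2 * w2)) ≤ δ)) :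
    ∃ H' ⊆ H, ∃ W Z : Finset (ZMod p), l1 ^ w1 * l2 ^ w2 * H.card / 2 ≤ H'.card ∧
      W.card ≤ w1 + w2 ∧ (∀ x ∈ H', ∀ w ∈ W, x + w ∈ B) ∧ (Z.card : ℝ) ≤ 2 * (δ * ζ + E.card) ∧
      ∀ z ∈ Z0, z ∉ Z → ∃ w ∈ W, z - w ∈ A := by
  have key : ∀ (Ω P : Finset (ZMod p)) (x z : ZMod p) (q : ℝ) (w : ℕ),
      q * (Ω.filter fun w => x + w ∈ P).card ≤ (Ω.filter fun w => x + w ∈ P ∧ z - w ∈ A).card →
      Real.exp (-(q * w)) ≤ δ →
      ((Ω.filter fun w => x + w ∈ P ∧ z - w ∉ A).card : ℝ) ^ w ≤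
        δ * ((Ω.filter fun w => x + w ∈ P).card : ℝ) ^ w := by
    intro Ω P x z q w ha hb
    have hc : ((Ω.filter fun w => x + w ∈ P ∧ z - w ∈ A).card : ℝ) +
        (Ω.filter fun w => x + w ∈ P ∧ z - w ∉ A).card = (Ω.filter fun w => x + w ∈ P).card := by
      rw [← filter_filter, ← filter_filter]
      exact_mod_cast card_filter_add_card_filter_not _
    have h0 : (0 : ℝ) ≤ (Ω.filter fun w => x + w ∈ P).card := by positivity
    have hd : ((Ω.filter fun w => x + w ∈ P ∧ z - w ∉ A).card : ℝ) ≤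
        Real.exp (-q) * (Ω.filter fun w => x + w ∈ P).card := by
      have := Real.add_one_le_exp (-q)
      nlinarith
    refine (pow_le_pow_left₀ (by positivity) hd w).trans ?_
    rw [mul_pow, ← Real.exp_nat_mul]
    refine mul_le_mul_of_nonneg_right ?_ (by positivity)
    rwa [show (w : ℝ) * -q = -(q * w) by ring]
  have triv : ∀ (Ω P : Finset (ZMod p)) (x z : ZMod p) (w : ℕ),
      ((Ω.filter fun w => x + w ∈ P ∧ z - w ∉ A).card : ℝ) ^ w ≤
        ((Ω.filter fun w => x + w ∈ P).card : ℝ) ^ w := fun Ω P x z w =>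
    pow_le_pow_left₀ (by positivity)
      (by exact_mod_cast card_le_card (fun w hw => by
              simp only [mem_filter] at hw ⊢; exact ⟨hw.1, hw.2.1⟩)) w
  obtain ⟨f, hf1, hf2⟩ := stage_gen (ι := Fin w1 ⊕ Fin w2) A H Z0 E
    (Sum.elim (fun _ => Ω1) fun _ => Ω2) (Sum.elim (fun _ => P1) fun _ => P2)
    (l1 ^ w1 * l2 ^ w2) δ ζ (by rintro (i | i) <;> simpa) hH (by positivity) hδ hζ hZ0
    (by
      intro x hx
      simp only [Fintype.prod_sum_type, Sum.elim_inl, Sum.elim_inr, prod_const, card_univ,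
        Fintype.card_fin]
      rw [mul_mul_mul_comm, ← mul_pow, ← mul_pow]
      exact mul_le_mul (pow_le_pow_left₀ (by positivity) (h1 x hx) _)
        (pow_le_pow_left₀ (by positivity) (h2 x hx) _) (by positivity) (by positivity))
    (by
      intro x hx z hz hE
      simp only [Fintype.prod_sum_type, Sum.elim_inl, Sum.elim_inr, prod_const, card_univ,
        Fintype.card_fin]
      rcases h3 x hx z hz hE with h | h
      · rw [← mul_assoc]
        exact mul_le_mul (key _ _ _ _ _ _ h.1 h.2) (triv _ _ _ _ _) (by positivity) (by positivity)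
      · rw [mul_left_comm]
        exact mul_le_mul (triv _ _ _ _ _) (key _ _ _ _ _ _ h.1 h.2) (by positivity) (by positivity))
  refine ⟨_, filter_subset _ _, univ.image f, _, hf1, ?_, ?_, hf2, ?_⟩
  · simpa using card_image_le (s := (univ : Finset (Fin w1 ⊕ Fin w2))) (f := f)
  · intro x hx w hw
    obtain ⟨i, -, rfl⟩ := mem_image.1 hw
    have := (mem_filter.1 hx).2 i
    rcases i with i | i
    · exact hP1 this
    · exact hP2 this
  · intro z hz hz'
    simp only [mem_filter, hz, true_and, not_forall, not_not] at hz'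
    obtain ⟨i, hi⟩ := hz'
    exact ⟨f i, mem_image_of_mem _ (mem_univ _), hi⟩

/-- The stage with one kind of samples. -/
theorem stage_one (A B H Z0 E Ω P : Finset (ZMod p)) (w : ℕ) (l q δ ζ : ℝ)
    (hP : P ⊆ B) (hΩ : Ω.Nonempty) (hH : H.Nonempty)
    (hl : 0 < l) (hδ : 0 < δ) (hζ : 0 < ζ) (hZ0 : (Z0.card : ℝ) ≤ ζ)
    (hw : Real.exp (-(q * w)) ≤ δ)
    (h1 : ∀ x ∈ H, l * Ω.card ≤ (Ω.filter fun w => x + w ∈ P).card)
    (h3 : ∀ x ∈ H, ∀ z ∈ Z0, z + x ∉ E → q * (Ω.filter fun w => x + w ∈ P).card ≤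
          (Ω.filter fun w => x + w ∈ P ∧ z - w ∈ A).card) :
    ∃ H' ⊆ H, ∃ W Z : Finset (ZMod p), l ^ w * H.card / 2 ≤ H'.card ∧
      W.card ≤ w ∧ (∀ x ∈ H', ∀ w ∈ W, x + w ∈ B) ∧ (Z.card : ℝ) ≤ 2 * (δ * ζ + E.card) ∧
      ∀ z ∈ Z0, z ∉ Z → ∃ w ∈ W, z - w ∈ A := by
  simpa using stage_two A B H Z0 E Ω Ω P P w 0 l l q q δ ζ hP hP hΩ hΩ hH hl hl hδ hζ hZ0 h1 h1
    fun x hx z hz hE => Or.inl ⟨h3 x hx z hz hE, hw⟩

end Pool.Agent.MP_93a3f8_co

end

section

/-! Two constructions of synchronised stages. -/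

open Finset Pointwise

namespace Pool.Agent.MP_93a3f8_co

variable {p : ℕ} [Fact p.Prime]

lemma Orc.mono {A B Y H0 Z0 : Finset (ZMod p)} {lam b d lam' b' d' : ℝ}
    (h : Orc A B Y H0 Z0 lam b d) (h1 : lam' ≤ lam) (h2 : b ≤ b') (h3 : d ≤ d') :
    Orc A B Y H0 Z0 lam' b' d' := by
  intro H hH
  obtain ⟨H', hH', W, Z, a1, a2, a3, a4, a5⟩ := h H hH
  exact ⟨H', hH', W, Z, (mul_le_mul_of_nonneg_right h1 (by positivity)).trans a1, a2.trans h2, a3,
    a4.trans h3, a5⟩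

lemma wrapper {A B Y H0 Z0 H : Finset (ZMod p)} {a ζ δ : ℝ} (ha : 0 < a) (hδ : 0 < δ) (hδ1 : δ ≤ 1)
    (hZ0 : (Z0.card : ℝ) ≤ ζ) (hZ : ∀ x ∈ H0, ∀ t ∈ ball (FF A B) a, x - t ∈ Z0)
    (H1 : ∀ y ∈ Y, 4 * a ≤ rep A B y) (H2 : ∀ u, (rep A B u : ℝ) < a / 4 → (FF A B u : ℝ) ≤ a)
    (hH : H ⊆ H0) (hne : H.Nonempty) :
    ∃ H' ⊆ H, ∃ Z1 ⊆ Z0, ∃ E : Finset (ZMod p), δ / 8 * H.card ≤ H'.card ∧
      (E.card : ℝ) ≤ δ * ζ / 8 ∧ (∀ z ∈ Z0, (∃ x ∈ H', z + x ∈ Y) → z ∈ Z1) ∧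
      (∀ x ∈ H', ∀ z ∈ Z1, z + x ∉ E → a / 4 ≤ rep A B (z + x)) ∧
      ((∃ c, (∀ x ∈ H', (fS B (x - c) : ℝ) ≤ a) ∧ ∀ x ∈ H', ∀ z ∈ Z1, 2 * a ≤ rep A B (z + x)) ∨
        ∀ x ∈ H', a < fS B x) := by
  classical
  have hζ : 0 ≤ ζ := le_trans (by positivity) hZ0
  by_cases hc : ∃ c, δ / 8 * H.card ≤ (H.filter fun x => (fS B (x - c) : ℝ) ≤ a).card
  · obtain ⟨c, hc⟩ := hc
    set H' := H.filter fun x => (fS B (x - c) : ℝ) ≤ a with hH'
    have key : ∀ x ∈ H', ∀ z ∈ Z0.filter (fun z => ∃ x ∈ H', z + x ∈ Y),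
        2 * a ≤ rep A B (z + x) := by
      intro x hx z hz
      obtain ⟨x', hx', hy⟩ := (mem_filter.1 hz).2
      have h1 := H1 _ hy
      have h2 : (rep A B (z + x') : ℝ) ≤ rep A B (z + x' + (x - x')) + fS B (x - x') := by
        exact_mod_cast rep_le_add_fS A B (z + x') (x - x')
      have h3 : (fS B (x - c - (x' - c)) : ℝ) ≤ fS B (x - c) + fS B (x' - c) := by
        exact_mod_cast fS_sub B (x - c) (x' - c)
      rw [show z + x' + (x - x') = z + x by ring] at h2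
      rw [show x - c - (x' - c) = x - x' by ring] at h3
      have := (mem_filter.1 hx).2
      have := (mem_filter.1 hx').2
      linarith
    refine ⟨H', filter_subset _ _, _, filter_subset _ _, ∅, hc, by simp; positivity,
      fun z hz h => mem_filter.2 ⟨hz, h⟩, fun x hx z hz _ => ?_,
      Or.inl ⟨c, fun x hx => (mem_filter.1 hx).2, key⟩⟩
    have := key x hx z hz
    linarith
  · push Not at hc
    have hH0 : (0 : ℝ) < H.card := by exact_mod_cast hne.card_pos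
    refine ⟨H.filter fun x => ¬ (fS B (x - 0) : ℝ) ≤ a, filter_subset _ _, Z0, Subset.rfl,
      ball (FF A B) a, ?_, ?_, fun z hz _ => hz, fun x _ z _ hE => ?_, Or.inr fun x hx => ?_⟩
    · have h1 : ((H.filter fun x => (fS B (x - 0) : ℝ) ≤ a).card : ℝ) +
          (H.filter fun x => ¬ (fS B (x - 0) : ℝ) ≤ a).card = H.card := by
        exact_mod_cast card_filter_add_card_filter_not _
      have := hc 0
      nlinarith
    · have h1 : ∑ x ∈ H, ((ball (FF A B) a).card : ℝ) ≤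
          ∑ c ∈ Z0, ((H.filter fun x => (fS B (x - c) : ℝ) ≤ a).card : ℝ) := by
        simp only [card_filter, Nat.cast_sum]
        rw [sum_comm]
        refine sum_le_sum fun x hx => ?_
        rw [← Nat.cast_sum, ← card_filter, Nat.cast_le]
        refine card_le_card_of_injOn (fun t => x - t) (fun t ht => ?_) fun s _ t _ h => by
          simpa using h
        simp only [coe_filter, Set.mem_ofPred_eq, sub_sub_cancel]
        refine ⟨hZ x (hH hx) t ht, le_trans ?_ (mem_ball.1 ht)⟩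
        exact_mod_cast Nat.le_add_left _ _
      have h2 : ∑ c ∈ Z0, ((H.filter fun x => (fS B (x - c) : ℝ) ≤ a).card : ℝ) ≤
          ∑ c ∈ Z0, δ / 8 * H.card := sum_le_sum fun c _ => (hc c).le
      rw [sum_const, nsmul_eq_mul] at h1 h2
      have h3 : (Z0.card : ℝ) * (δ / 8 * H.card) ≤ ζ * (δ / 8 * H.card) :=
        mul_le_mul_of_nonneg_right hZ0 (by positivity)
      have : H.card * ((ball (FF A B) a).card : ℝ) ≤ H.card * (δ * ζ / 8) := by linarith
      exact le_of_mul_le_mul_left this hH0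
    · by_contra h
      exact hE (mem_ball.2 (H2 _ (not_le.1 h)))
    · simpa using (mem_filter.1 hx).2

lemma orc_empty {A B Y Z0 : Finset (ZMod p)} {lam b d : ℝ} (hb : 0 ≤ b) (hd : 0 ≤ d) :
    ∃ H' ⊆ (∅ : Finset (ZMod p)), ∃ W Z : Finset (ZMod p),
      lam * (∅ : Finset (ZMod p)).card ≤ H'.card ∧ (W.card : ℝ) ≤ b ∧
      (∀ x ∈ H', ∀ w ∈ W, x + w ∈ B) ∧ (Z.card : ℝ) ≤ d ∧
      ∀ z ∈ Z0, z ∉ Z → (∃ x ∈ H', z + x ∈ Y) → ∃ w ∈ W, z - w ∈ A :=
  ⟨∅, Subset.rfl, ∅, ∅, by simp, by simpa, by simp, by simpa, by simp⟩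

lemma card_pair_eq (A P : Finset (ZMod p)) (x z : ZMod p) :
    (univ.filter fun w => x + w ∈ P ∧ z - w ∈ A).card = rep A P (z + x) :=
  card_bij (fun w _ => x + w) (fun w hw => by
      simp only [mem_filter, mem_univ, true_and] at hw ⊢
      exact ⟨hw.1, by rw [show z + x - (x + w) = z - w by ring]; exact hw.2⟩)
    (fun a _ b _ h => by simpa using h)
    (fun s hs => ⟨s - x, by
      simp only [mem_filter, mem_univ, true_and] at hs ⊢
      exact ⟨by simpa using hs.1, by rw [show z - (s - x) = z + x - s by ring]; exact hs.2⟩, by simp⟩)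

/-- The stage through a pattern set. -/
theorem pat_orc {A B Y H0 Z0 P E1 : Finset (ZMod p)} {a ζ δ π q : ℝ} {w : ℕ} (ha : 0 < a)
    (hδ : 0 < δ) (hδ1 : δ ≤ 1) (hζ : 0 < ζ) (hZ0 : (Z0.card : ℝ) ≤ ζ)
    (hZ : ∀ x ∈ H0, ∀ t ∈ ball (FF A B) a, x - t ∈ Z0)
    (H1 : ∀ y ∈ Y, 4 * a ≤ rep A B y) (H2 : ∀ u, (rep A B u : ℝ) < a / 4 → (FF A B u : ℝ) ≤ a)
    (hP : P ⊆ B) (hπ : 0 < π) (hπP : π * p ≤ P.card) (hw : Real.exp (-(q * w)) ≤ δ / 8)
    (hE1 : (E1.card : ℝ) ≤ δ * ζ / 8)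
    (hq : ∀ x ∈ H0, ∀ z ∈ Z0, z + x ∉ E1 → a / 4 ≤ rep A B (z + x) → q * P.card ≤ rep A P (z + x)) :
    Orc A B Y H0 Z0 (δ / 16 * π ^ w) w (δ * ζ) := by
  intro H hH
  rcases H.eq_empty_or_nonempty with rfl | hne
  · exact orc_empty (by positivity) (by positivity)
  obtain ⟨H1', hH1, Z1, hZ1, E, a1, a2, a3, a4, -⟩ := wrapper ha hδ hδ1 hZ0 hZ H1 H2 hH hne
  have hH0 : (0 : ℝ) < H.card := by exact_mod_cast hne.card_pos
  have hne' : H1'.Nonempty := by
    rw [← card_pos]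
    have : (0 : ℝ) < H1'.card := lt_of_lt_of_le (by positivity) a1
    exact_mod_cast this
  have hc : ∀ x : ZMod p, (univ.filter fun w => x + w ∈ P).card = P.card := fun x => by
    simpa [add_comm] using card_filter_shift P x
  obtain ⟨H', hH', W, Z, b1, b2, b3, b4, b5⟩ := stage_one A B H1' Z1 (E ∪ E1) univ P w π q (δ / 8) ζ
    hP univ_nonempty hne' hπ (by positivity) hζ
    (le_trans (by exact_mod_cast card_le_card hZ1) hZ0) hw
    (fun x _ => by rw [hc, card_univ_p]; exact hπP)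
    (fun x hx z hz hE => by
      rw [hc, card_pair_eq]
      rw [mem_union, not_or] at hE
      exact hq x (hH (hH1 hx)) z (hZ1 hz) hE.2 (a4 x hx z hz hE.1))
  refine ⟨H', hH'.trans hH1, W, Z, le_trans ?_ b1, by exact_mod_cast b2, b3, b4.trans ?_,
    fun z hz hz' ⟨x, hx, hy⟩ => b5 z (a3 z hz ⟨x, hH' hx, hy⟩) hz'⟩
  · have := mul_le_mul_of_nonneg_left a1 (pow_pos hπ w).le
    linarith
  · have : ((E ∪ E1).card : ℝ) ≤ E.card + E1.card := by exact_mod_cast card_union_le _ _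
    have := mul_pos hδ hζ
    linarith

lemma card_ref_out (B : Finset (ZMod p)) (x c : ZMod p) :
    ((univ.filter fun w => w + c ∉ B).filter fun w => x + w ∈ B).card = fS B (x - c) :=
  card_bij (fun w _ => x + w) (fun w hw => by
      simp only [mem_filter, mem_univ, true_and] at hw ⊢
      exact ⟨hw.2, by rw [show x + w - (x - c) = w + c by ring]; exact hw.1⟩)
    (fun a _ b _ h => by simpa using h)
    (fun s hs => ⟨s - x, by
      simp only [mem_filter, mem_univ, true_and] at hs ⊢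
      exact ⟨by rw [show s - x + c = s - (x - c) by ring]; exact hs.2, by simpa using hs.1⟩, by simp⟩)

lemma card_ref_in (B : Finset (ZMod p)) (x c : ZMod p) :
    ((univ.filter fun w => w + c ∈ B).filter fun w => x + w ∈ B).card + fS B (x - c) = B.card := by
  rw [← card_ref_out, filter_comm, filter_comm (fun w => w + c ∉ B), card_filter_add_card_filter_not]
  simpa [add_comm] using card_filter_shift B x

lemma card_ref_rep (A B : Finset (ZMod p)) (x z c : ZMod p) :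
    ((univ.filter fun w => w + c ∈ B).filter fun w => x + w ∈ B ∧ z - w ∈ A).card +
    ((univ.filter fun w => w + c ∉ B).filter fun w => x + w ∈ B ∧ z - w ∈ A).card =
      rep A B (z + x) := by
  rw [filter_comm, filter_comm (fun w => w + c ∉ B), card_filter_add_card_filter_not, card_pair_eq]

/-- The stage through a reference position. -/
theorem x_orc {A B Y H0 Z0 : Finset (ZMod p)} {a R ζ δ : ℝ} {w1 w2 : ℕ} (ha : 0 < a) (haR : a ≤ R)
    (hR : R < B.card) (hB : B.card < p)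
    (hδ : 0 < δ) (hδ1 : δ ≤ 1) (hζ : 0 < ζ) (hZ0 : (Z0.card : ℝ) ≤ ζ)
    (hZ : ∀ x ∈ H0, ∀ t ∈ ball (FF A B) a, x - t ∈ Z0) (hH0 : H0 ⊆ ball (FF A B) R)
    (H1 : ∀ y ∈ Y, 4 * a ≤ rep A B y) (H2 : ∀ u, (rep A B u : ℝ) < a / 4 → (FF A B u : ℝ) ≤ a)
    (hw1 : Real.exp (-(a / (8 * B.card) * w1)) ≤ δ / 8) (hw2 : Real.exp (-(a / (8 * R) * w2)) ≤ δ / 8) :
    Orc A B Y H0 Z0 (δ / 16 * (1 - R / B.card) ^ w1 * (a / p) ^ w2) (w1 + w2) (δ * ζ) := by
  intro H hH
  rcases H.eq_empty_or_nonempty with rfl | hne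
  · exact orc_empty (by positivity) (by positivity)
  obtain ⟨H1', hH1, Z1, hZ1, E, a1, a2, a3, a4, a5⟩ := wrapper ha hδ hδ1 hZ0 hZ H1 H2 hH hne
  have hHp : (0 : ℝ) < H.card := by exact_mod_cast hne.card_pos
  have hne' : H1'.Nonempty := by
    rw [← card_pos]
    have : (0 : ℝ) < H1'.card := lt_of_lt_of_le (by positivity) a1
    exact_mod_cast this
  have hn : (0 : ℝ) < B.card := by linarith
  have hBp : (B.card : ℝ) < p := by exact_mod_cast hB
  have hp : (0 : ℝ) < p := by linarith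
  have hl1 : 0 < 1 - R / B.card := by rw [sub_pos, div_lt_one hn]; exact hR
  have hin : ∀ c : ZMod p, (univ.filter fun w => w + c ∈ B).Nonempty := fun c => by
    rw [← card_pos, card_filter_shift]; exact_mod_cast hn
  have hZ1' : (Z1.card : ℝ) ≤ ζ := le_trans (by exact_mod_cast card_le_card hZ1) hZ0
  have hI : ∀ x c : ZMod p, (((univ.filter fun w => w + c ∈ B).filter fun w => x + w ∈ B).card : ℝ) =
      B.card - fS B (x - c) := fun x c => by
    have := card_ref_in B x c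
    rw [← this]; push_cast; ring
  have hl : ∀ x c : ZMod p, (fS B (x - c) : ℝ) ≤ R →
      (1 - R / B.card) * (univ.filter fun w => w + c ∈ B).card ≤
        ((univ.filter fun w => w + c ∈ B).filter fun w => x + w ∈ B).card := fun x c h => by
    rw [hI, card_filter_shift, sub_mul, div_mul_cancel₀ _ hn.ne']; linarith
  have hq : ∀ x c : ZMod p, a / (8 * B.card) *
      (((univ.filter fun w => w + c ∈ B).filter fun w => x + w ∈ B).card : ℝ) ≤ a / 8 := fun x c => by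
    rw [hI]
    have : a / (8 * B.card) * ((B.card : ℝ) - fS B (x - c)) ≤ a / (8 * B.card) * B.card :=
      mul_le_mul_of_nonneg_left (by simp) (by positivity)
    rwa [show a / (8 * B.card) * (B.card : ℝ) = a / 8 by field_simp] at this
  have fin : ∀ (H' W Z : Finset (ZMod p)), H' ⊆ H1' →
      (1 - R / B.card) ^ w1 * (a / p) ^ w2 * H1'.card / 2 ≤ H'.card → W.card ≤ w1 + w2 →
      (∀ x ∈ H', ∀ w ∈ W, x + w ∈ B) → (Z.card : ℝ) ≤ 2 * (δ / 8 * ζ + E.card) →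
      (∀ z ∈ Z1, z ∉ Z → ∃ w ∈ W, z - w ∈ A) →
      ∃ H' ⊆ H, ∃ W Z : Finset (ZMod p),
        δ / 16 * (1 - R / B.card) ^ w1 * (a / p) ^ w2 * H.card ≤ H'.card ∧
        (W.card : ℝ) ≤ w1 + w2 ∧ (∀ x ∈ H', ∀ w ∈ W, x + w ∈ B) ∧ (Z.card : ℝ) ≤ δ * ζ ∧
        ∀ z ∈ Z0, z ∉ Z → (∃ x ∈ H', z + x ∈ Y) → ∃ w ∈ W, z - w ∈ A := by
    intro H' W Z hH' b1 b2 b3 b4 b5
    refine ⟨H', hH'.trans hH1, W, Z, le_trans ?_ b1, by exact_mod_cast b2, b3, b4.trans ?_,
      fun z hz hz' ⟨x, hx, hy⟩ => b5 z (a3 z hz ⟨x, hH' hx, hy⟩) hz'⟩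
    · have := mul_le_mul_of_nonneg_left a1
        (show 0 ≤ (1 - R / B.card) ^ w1 * (a / p) ^ w2 by positivity)
      linarith
    · have := mul_pos hδ hζ
      linarith
  rcases a5 with ⟨c, c1, c2⟩ | c1
  · obtain ⟨H', hH', W, Z, b1, b2, b3, b4, b5⟩ := stage_one A B H1' Z1 E
      (univ.filter fun w => w + c ∈ B) B w1 (1 - R / B.card) (a / (8 * B.card)) (δ / 8) ζ
      Subset.rfl (hin c) hne' hl1 (by positivity) hζ hZ1' hw1
      (fun x hx => hl x c ((c1 x hx).trans haR))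
      (fun x hx z hz _ => by
        have e1 : (((univ.filter fun w => w + c ∈ B).filter fun w => x + w ∈ B ∧ z - w ∈ A).card : ℝ) +
          ((univ.filter fun w => w + c ∉ B).filter fun w => x + w ∈ B ∧ z - w ∈ A).card =
            rep A B (z + x) := by exact_mod_cast card_ref_rep A B x z c
        have e2 : (((univ.filter fun w => w + c ∉ B).filter fun w => x + w ∈ B ∧ z - w ∈ A).card : ℝ)
            ≤ fS B (x - c) := by
          rw [← card_ref_out]
          exact_mod_cast card_le_card (fun w hw => by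
            simp only [mem_filter] at hw ⊢; exact ⟨hw.1, hw.2.1⟩)
        have := c1 x hx
        have := c2 x hx z hz
        have := hq x c
        linarith)
    refine fin H' W Z hH' (le_trans ?_ b1) (by omega) b3 b4 b5
    have h1 : (a / p) ^ w2 ≤ 1 := pow_le_one₀ (by positivity) (by rw [div_le_one hp]; linarith)
    have : (1 - R / B.card) ^ w1 * (a / p) ^ w2 ≤ (1 - R / B.card) ^ w1 :=
      mul_le_of_le_one_right (by positivity) h1
    have := mul_le_mul_of_nonneg_right this (show (0 : ℝ) ≤ H1'.card by positivity)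
    linarith
  · have hfR : ∀ x ∈ H1', (fS B (x - 0) : ℝ) ≤ R := fun x hx => by
      refine le_trans ?_ (mem_ball.1 (hH0 (hH (hH1 hx))))
      rw [sub_zero]; exact_mod_cast Nat.le_add_left _ _
    have hout : (univ.filter fun w : ZMod p => w + 0 ∉ B).Nonempty := by
      by_contra h
      rw [not_nonempty_iff_eq_empty, filter_eq_empty_iff] at h
      have : B = univ := eq_univ_iff_forall.2 fun x => by simpa using h (mem_univ x)
      rw [this, card_univ_p] at hB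
      omega
    obtain ⟨H', hH', W, Z, b1, b2, b3, b4, b5⟩ := stage_two A B H1' Z1 E
      (univ.filter fun w => w + 0 ∈ B) (univ.filter fun w => w + 0 ∉ B) B B w1 w2
      (1 - R / B.card) (a / p) (a / (8 * B.card)) (a / (8 * R)) (δ / 8) ζ
      Subset.rfl Subset.rfl (hin 0) hout hne' hl1 (by positivity) (by positivity) hζ hZ1'
      (fun x hx => hl x 0 (hfR x hx))
      (fun x hx => by
        rw [card_ref_out, sub_zero]
        have h1 : ((univ.filter fun w : ZMod p => w + 0 ∉ B).card : ℝ) ≤ p := by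
          exact_mod_cast card_le_p _
        have := mul_le_mul_of_nonneg_left h1 (show 0 ≤ a / p by positivity)
        rw [div_mul_cancel₀ _ hp.ne'] at this
        have := c1 x hx
        linarith)
      (fun x hx z hz hE => by
        have e1 : (((univ.filter fun w => w + 0 ∈ B).filter fun w => x + w ∈ B ∧ z - w ∈ A).card : ℝ) +
          ((univ.filter fun w => w + 0 ∉ B).filter fun w => x + w ∈ B ∧ z - w ∈ A).card =
            rep A B (z + x) := by exact_mod_cast card_ref_rep A B x z 0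
        have e2 := a4 x hx z hz hE
        have e3 := hq x 0
        by_cases h : a / 8 ≤
          (((univ.filter fun w => w + 0 ∈ B).filter fun w => x + w ∈ B ∧ z - w ∈ A).card : ℝ)
        · exact Or.inl ⟨by linarith, hw1⟩
        · refine Or.inr ⟨?_, hw2⟩
          rw [card_ref_out]
          have hR0 : 0 < R := by linarith
          have := mul_le_mul_of_nonneg_left (hfR x hx) (show 0 ≤ a / (8 * R) by positivity)
          rw [show a / (8 * R) * R = a / 8 by field_simp] at this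
          linarith)
    exact fin H' W Z hH' b1 b2 b3 b4 b5

end Pool.Agent.MP_93a3f8_co

end

section

/-! The final unsynchronised cover and the placement along a random direction. -/

open Finset Pointwise

namespace Pool.Agent.MP_93a3f8_co

variable {p : ℕ} [Fact p.Prime]

lemma ou_pos : (0 : ℝ) < p := by exact_mod_cast (Fact.out : p.Prime).pos

lemma ou_sum_coord {w : ℕ} (f : ZMod p → ℝ) (i : Fin w) :
    (p : ℝ) * ∑ W : Fin w → ZMod p, f (W i) = (p : ℝ) ^ w * ∑ t, f t := by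
  have h : ∀ t : ZMod p, ∑ W : Fin w → ZMod p, f (W i) = ∑ W : Fin w → ZMod p, f (W i + t) :=
    fun t => (Equiv.sum_comp (Equiv.addRight fun _ : Fin w => t) fun W => f (W i)).symm
  have h1 : ∑ t : ZMod p, ∑ W : Fin w → ZMod p, f (W i) =
      ∑ t : ZMod p, ∑ W : Fin w → ZMod p, f (W i + t) := sum_congr rfl fun t _ => h t
  rw [sum_const, card_univ_p, nsmul_eq_mul, sum_comm] at h1
  rw [h1, sum_congr rfl (g := fun _ => ∑ t, f t)
    fun W _ => Equiv.sum_comp (Equiv.addLeft (W i)) f]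
  simp [ZMod.card]

theorem final : FinalStmt := by
  intro p _ A Pf P Q Y K w hK hrep hY hw
  have hp : (0 : ℝ) < p := ou_pos
  choose! x hx z hz hxz using fun y hy => mem_add.1 (hY hy : y ∈ P + Q)
  set E : ℝ := P.card * w * Pf.card / p with hE
  have hE0 : 0 ≤ E := by positivity
  set unc : (Fin w → ZMod p) → ℝ := fun W =>
    (Y.filter fun y => ∀ i, ¬ (x y + W i ∈ Pf ∧ z y - W i ∈ A)).card with hunc
  set bb : (Fin w → ZMod p) → ℝ := fun W =>
    ((P ×ˢ (univ : Finset (Fin w))).filter fun q => q.1 + W q.2 ∈ Pf).card with hbb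
  have e1 : ∑ W, unc W ≤ (p : ℝ) ^ w / 4 := by
    simp only [hunc, card_filter, Nat.cast_sum, Nat.cast_ite, Nat.cast_one, Nat.cast_zero]
    rw [sum_comm]
    have h : ∀ y ∈ Y, ∑ W : Fin w → ZMod p,
        (if ∀ i, ¬ (x y + W i ∈ Pf ∧ z y - W i ∈ A) then (1 : ℝ) else 0) ≤
        (p : ℝ) ^ w * Real.exp (-(w / K)) := by
      intro y hy
      have h1 := sum_pi_indicator (fun _ : Fin w => (univ : Finset (ZMod p)))
        fun _ v => ¬ (x y + v ∈ Pf ∧ z y - v ∈ A)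
      rw [Fintype.piFinset_univ] at h1
      refine le_trans (le_of_eq (Eq.trans (sum_congr rfl fun _ _ => by congr) h1)) ?_
      rw [prod_const, card_univ, Fintype.card_fin]
      have h2 : ((univ.filter fun v => x y + v ∈ Pf ∧ z y - v ∈ A).card : ℝ) +
          (univ.filter fun v => ¬ (x y + v ∈ Pf ∧ z y - v ∈ A)).card = p := by
        have := card_filter_add_card_filter_not (s := univ) fun v => x y + v ∈ Pf ∧ z y - v ∈ A
        rw [card_univ_p] at this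
        exact_mod_cast this
      rw [card_pair_eq, add_comm (z y), hxz y hy] at h2
      have h3 : (p : ℝ) * K⁻¹ ≤ rep A Pf y := by
        rw [← div_eq_mul_inv, div_le_iff₀ hK, mul_comm]; exact hrep y hy
      have h4 := Real.add_one_le_exp (-K⁻¹)
      have h5 : ((univ.filter fun v => ¬ (x y + v ∈ Pf ∧ z y - v ∈ A)).card : ℝ) ≤
          p * Real.exp (-K⁻¹) := by nlinarith
      refine (pow_le_pow_left₀ (by positivity) h5 w).trans (le_of_eq ?_)
      rw [mul_pow, ← Real.exp_nat_mul, div_eq_mul_inv, mul_neg]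
    refine (sum_le_sum h).trans ?_
    rw [sum_const, nsmul_eq_mul]
    have h6 : (Y.card : ℝ) ≤ p := by exact_mod_cast card_le_p Y
    have h7 := mul_le_mul_of_nonneg_right h6
      (show 0 ≤ (p : ℝ) ^ w * Real.exp (-(w / K)) by positivity)
    have h8 := mul_le_mul_of_nonneg_right hw (show 0 ≤ (p : ℝ) ^ w by positivity)
    linarith
  have e2 : ∑ W, bb W = (p : ℝ) ^ w * E := by
    simp only [hbb, card_filter, Nat.cast_sum, Nat.cast_ite, Nat.cast_one, Nat.cast_zero]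
    rw [sum_comm, sum_congr rfl (g := fun _ => (p : ℝ) ^ w * (Pf.card / p))]
    · rw [sum_const, card_product, card_univ, Fintype.card_fin, nsmul_eq_mul, hE]
      push_cast
      ring
    · intro q _
      have h1 := ou_sum_coord (fun t => if q.1 + t ∈ Pf then (1 : ℝ) else 0) q.2
      have h2 : ∑ t, (if q.1 + t ∈ Pf then (1 : ℝ) else 0) = Pf.card := by
        rw [← card_filter_shift Pf q.1, card_filter]
        simp [add_comm]
      rw [h2] at h1
      rw [← mul_div_assoc, eq_div_iff hp.ne', mul_comm, h1]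
  obtain ⟨W, -, hW⟩ : ∃ W ∈ (univ : Finset (Fin w → ZMod p)),
      (2 * E + 1) * unc W + bb W < 2 * E + 1 := by
    refine exists_lt_of_sum_lt ?_
    rw [sum_add_distrib, ← mul_sum, e2, sum_const, card_univ, Fintype.card_fun, ZMod.card,
      Fintype.card_fin, nsmul_eq_mul]
    push_cast
    have h1 := mul_le_mul_of_nonneg_left e1 (show 0 ≤ 2 * E + 1 by positivity)
    have h2 : (0 : ℝ) < (p : ℝ) ^ w := by positivity
    have h3 := mul_nonneg h2.le hE0
    nlinarith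
  have hu0 : 0 ≤ unc W := by simp only [hunc]; positivity
  have hb0 : 0 ≤ bb W := by simp only [hbb]; positivity
  have hu1 : unc W < 1 := by
    by_contra h
    have := mul_le_mul_of_nonneg_left (not_lt.1 h) (show 0 ≤ 2 * E + 1 by positivity)
    linarith
  have hu : (Y.filter fun y => ∀ i, ¬ (x y + W i ∈ Pf ∧ z y - W i ∈ A)) = ∅ := by
    rw [← card_eq_zero, ← Nat.lt_one_iff]
    simp only [hunc] at hu1
    exact_mod_cast hu1
  refine ⟨((Q ×ˢ (univ : Finset (Fin w))).image fun q => q.1 - W q.2).filter (· ∈ A),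
    fun a ha => (mem_filter.1 ha).2,
    ((P ×ˢ (univ : Finset (Fin w))).filter fun q => q.1 + W q.2 ∈ Pf).image fun q => q.1 + W q.2,
    fun b hb => ?_, ?_, ?_, fun y hy => ?_⟩
  · obtain ⟨q, hq, rfl⟩ := mem_image.1 hb
    exact (mem_filter.1 hq).2
  · refine (card_filter_le _ _).trans (card_image_le.trans ?_)
    simp
  · have h1 : ((((P ×ˢ (univ : Finset (Fin w))).filter fun q => q.1 + W q.2 ∈ Pf).image
        fun q => q.1 + W q.2).card : ℝ) ≤ bb W := by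
      simp only [hbb]; exact_mod_cast card_image_le
    have := mul_nonneg (show 0 ≤ 2 * E + 1 by positivity) hu0
    linarith
  · have h1 := filter_eq_empty_iff.1 hu hy
    push Not at h1
    obtain ⟨i, h2, h3⟩ := h1
    refine mem_add.2 ⟨z y - W i, mem_filter.2 ⟨mem_image.2 ⟨(z y, i), by simp [hz y hy], rfl⟩, h3⟩,
      x y + W i, mem_image.2 ⟨(x y, i), by simp [hx y hy, h2], rfl⟩, ?_⟩
    rw [show z y - W i + (x y + W i) = x y + z y by ring, hxz y hy]

/-- The starting points whose first `L` steps in direction `s` miss `H`. -/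
def ouM (H : Finset (ZMod p)) (L : ℕ) (s : ZMod p) : Finset (ZMod p) :=
  univ.filter fun x => ∀ e ∈ range L, x + (e : ZMod p) * s ∉ H

lemma ou_not_mem {H : Finset (ZMod p)} {L : ℕ} {s x : ZMod p} :
    x ∉ ouM H L s ↔ ∃ e < L, x + (e : ZMod p) * s ∈ H := by
  simp [ouM]

lemma ou_cheb (H : Finset (ZMod p)) (hH : H.Nonempty) {L : ℕ} (hL0 : 0 < L) (hL : L ≤ p) :
    ∑ s : ZMod p, ((ouM H L s).card : ℝ) ≤ (p : ℝ) ^ 3 / (H.card * L) := by
  simp only [ouM, card_filter, Nat.cast_sum, Nat.cast_ite, Nat.cast_one, Nat.cast_zero]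
  have hp : (0 : ℝ) < p := ou_pos
  have hH0 : (0 : ℝ) < H.card := by exact_mod_cast hH.card_pos
  have hL1 : (0 : ℝ) < L := by exact_mod_cast hL0
  set h : ℝ := H.card / p with hh
  have hhp : h * p = H.card := by rw [hh]; field_simp
  have hh0 : 0 < h := by positivity
  set g : ZMod p → ℝ := fun x => (if x ∈ H then 1 else 0) - h with hg
  have g0 : ∑ x : ZMod p, (if x ∈ H then (1 : ℝ) else 0) = H.card := by simp
  have g1 : ∑ x, g x = 0 := by
    simp only [hg]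
    rw [sum_sub_distrib, g0, sum_const, card_univ_p, nsmul_eq_mul]
    linarith
  have g2 : ∑ x, g x * g x ≤ H.card := by
    have : ∀ x, g x * g x = (if x ∈ H then (1 : ℝ) else 0) - h * (if x ∈ H then (1 : ℝ) else 0)
        - h * g x := fun x => by
      simp only [hg]; split_ifs <;> ring
    simp only [this]
    rw [sum_sub_distrib, sum_sub_distrib, ← mul_sum, ← mul_sum, g0, g1]
    nlinarith
  have cross : ∀ e ∈ range L, ∀ e' ∈ range L,
      ∑ s : ZMod p, ∑ x : ZMod p, g (x + (e : ZMod p) * s) * g (x + (e' : ZMod p) * s) ≤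
        if e = e' then (p : ℝ) * H.card else 0 := by
    intro e he e' he'
    have h1 : ∀ s : ZMod p, ∑ x : ZMod p, g (x + (e : ZMod p) * s) * g (x + (e' : ZMod p) * s) =
        ∑ x : ZMod p, g x * g (x + ((e' : ZMod p) - e) * s) := fun s => by
      rw [← Equiv.sum_comp (Equiv.addRight ((e : ZMod p) * s))
        fun x => g x * g (x + ((e' : ZMod p) - e) * s)]
      refine sum_congr rfl fun x _ => ?_
      simp only [Equiv.coe_addRight]
      congr 2
      ring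
    simp only [h1]
    split_ifs with hee
    · subst hee
      simp only [sub_self, zero_mul, add_zero]
      rw [sum_const, card_univ_p, nsmul_eq_mul]
      exact mul_le_mul_of_nonneg_left g2 hp.le
    · have hd : ((e' : ZMod p) - e) ≠ 0 := fun h0 => hee (natCast_inj_of_lt
        ((mem_range.1 he).trans_le hL) ((mem_range.1 he').trans_le hL) (sub_eq_zero.1 h0).symm)
      rw [sum_comm]
      refine le_of_eq (sum_eq_zero fun x _ => ?_)
      rw [← mul_sum]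
      have := Equiv.sum_comp ((Equiv.mulLeft₀ _ hd).trans (Equiv.addLeft x)) g
      simp only [Equiv.trans_apply, Equiv.mulLeft₀_apply, Equiv.coe_addLeft] at this
      rw [this, g1, mul_zero]
  have second : ∑ s : ZMod p, ∑ x : ZMod p, (∑ e ∈ range L, g (x + (e : ZMod p) * s)) ^ 2 ≤
      L * (p * H.card) := by
    have h1 : ∑ s : ZMod p, ∑ x : ZMod p, (∑ e ∈ range L, g (x + (e : ZMod p) * s)) ^ 2 =
        ∑ e ∈ range L, ∑ e' ∈ range L, ∑ s : ZMod p, ∑ x : ZMod p,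
          g (x + (e : ZMod p) * s) * g (x + (e' : ZMod p) * s) := by
      simp only [sq, sum_mul_sum]
      rw [sum_congr rfl fun s _ => sum_comm, sum_comm]
      refine sum_congr rfl fun e _ => ?_
      rw [sum_congr rfl fun s _ => sum_comm, sum_comm]
    rw [h1]
    refine (sum_le_sum fun e he => sum_le_sum fun e' he' => cross e he e' he').trans ?_
    rw [sum_congr rfl (g := fun _ => (p : ℝ) * H.card) fun e he => by rw [sum_ite_eq, if_pos he]]
    simp
  have low : ∀ s x : ZMod p, (L * h) ^ 2 *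
      (if ∀ e ∈ range L, x + (e : ZMod p) * s ∉ H then (1 : ℝ) else 0) ≤
      (∑ e ∈ range L, g (x + (e : ZMod p) * s)) ^ 2 := fun s x => by
    split_ifs with hb
    · rw [sum_congr rfl (g := fun _ => -h) fun e he => by simp [hg, hb e he]]
      simp
    · simpa using sq_nonneg _
  have h3 := (sum_le_sum fun s (_ : s ∈ univ) => sum_le_sum fun x (_ : x ∈ univ) => low s x).trans
    second
  simp only [← mul_sum] at h3
  rw [le_div_iff₀ (by positivity)]
  set N := ∑ s : ZMod p, ∑ x : ZMod p,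
    (if ∀ e ∈ range L, x + (e : ZMod p) * s ∉ H then (1 : ℝ) else 0)
  rw [← hhp] at h3 ⊢
  have h4 : L * h * (N * (h * L)) ≤ L * h * p ^ 2 := by nlinarith
  have h5 := le_of_mul_le_mul_left h4 (by positivity)
  nlinarith

lemma ou_markov {ι : Type*} [Fintype ι] [Nonempty ι] (f : ι → ℝ) (hf : ∀ i, 0 ≤ f i) {m k : ℝ}
    (h : ∑ i, f i ≤ Fintype.card ι * m) (hk : 0 < k) :
    ((univ.filter fun i => k * m < f i).card : ℝ) ≤ Fintype.card ι / k := by
  have hc : (0 : ℝ) < Fintype.card ι := by exact_mod_cast Fintype.card_pos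
  rcases (univ.filter fun i => k * m < f i).eq_empty_or_nonempty with h0 | h0
  · rw [h0, card_empty, Nat.cast_zero]; positivity
  have hm : 0 ≤ m := nonneg_of_mul_nonneg_right ((sum_nonneg fun i _ => hf i).trans h) hc
  have h1 := sum_lt_sum_of_nonempty h0 fun i hi => (mem_filter.1 hi).2
  have h2 := sum_le_sum_of_subset_of_nonneg (subset_univ (univ.filter fun i => k * m < f i))
    fun i _ _ => hf i
  rw [sum_const, nsmul_eq_mul] at h1
  rw [le_div_iff₀ hk]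
  by_contra h3
  have := mul_le_mul_of_nonneg_right (not_le.1 h3).le hm
  nlinarith

lemma ou_line (F : ZMod p → ℝ) (n : ℕ) {σ : ℝ} (h : ∑ z, F z ≤ σ) :
    ∑ q : ZMod p × ZMod p, ∑ f ∈ range n, F (-((f : ZMod p) * q.2) - q.1) ≤
      p * p * (n * σ / p) := by
  have hp : (0 : ℝ) < p := ou_pos
  have h1 : ∀ f ∈ range n, ∑ q : ZMod p × ZMod p, F (-((f : ZMod p) * q.2) - q.1) ≤ p * σ := by
    intro f _
    rw [Fintype.sum_prod_type_right]
    have h2 : ∀ s ∈ (univ : Finset (ZMod p)), ∑ v, F (-((f : ZMod p) * s) - v) ≤ σ := fun s _ =>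
      (Equiv.sum_comp (Equiv.subLeft (-((f : ZMod p) * s))) F).trans_le h
    refine (sum_le_sum h2).trans ?_
    rw [sum_const, card_univ_p, nsmul_eq_mul]
  rw [sum_comm]
  refine (sum_le_sum h1).trans (le_of_eq ?_)
  rw [sum_const, card_range, nsmul_eq_mul]
  field_simp

lemma ou_four {ι : Type*} [Fintype ι] [Nonempty ι] (f1 f2 f3 f4 : ι → ℝ) {m1 m2 m3 m4 N : ℝ}
    (hN : (Fintype.card ι : ℝ) = N) (n1 : ∀ i, 0 ≤ f1 i) (n2 : ∀ i, 0 ≤ f2 i) (n3 : ∀ i, 0 ≤ f3 i)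
    (n4 : ∀ i, 0 ≤ f4 i) (s1 : ∑ i, f1 i ≤ N * m1) (s2 : ∑ i, f2 i ≤ N * m2)
    (s3 : ∑ i, f3 i ≤ N * m3) (s4 : ∑ i, f4 i ≤ N * m4) :
    ∃ i, f1 i ≤ 3 * m1 ∧ f2 i ≤ 8 * m2 ∧ f3 i ≤ 8 * m3 ∧ f4 i ≤ 8 * m4 := by
  classical
  subst hN
  have a1 := ou_markov f1 n1 s1 (show (0 : ℝ) < 3 by norm_num)
  have a2 := ou_markov f2 n2 s2 (show (0 : ℝ) < 8 by norm_num)
  have a3 := ou_markov f3 n3 s3 (show (0 : ℝ) < 8 by norm_num)
  have a4 := ou_markov f4 n4 s4 (show (0 : ℝ) < 8 by norm_num)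
  by_contra hcon
  have h1 : (univ : Finset ι) ⊆ (((univ.filter fun q => 3 * m1 < f1 q) ∪
      univ.filter fun q => 8 * m2 < f2 q) ∪ univ.filter fun q => 8 * m3 < f3 q) ∪
      univ.filter fun q => 8 * m4 < f4 q := by
    intro q _
    simp only [mem_union, mem_filter, mem_univ, true_and]
    by_contra h
    simp only [not_or, not_lt] at h
    exact hcon ⟨q, h.1.1.1, h.1.1.2, h.1.2, h.2⟩
  have h2 := (card_le_card h1).trans ((card_union_le _ _).trans (Nat.add_le_add_right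
    ((card_union_le _ _).trans (Nat.add_le_add_right (card_union_le _ _) _)) _))
  have h3 := (Nat.cast_le (α := ℝ)).2 h2
  rw [card_univ, Nat.cast_add, Nat.cast_add, Nat.cast_add] at h3
  have h4 : (0 : ℝ) < Fintype.card ι := by exact_mod_cast Fintype.card_pos
  linarith

lemma ou_good (Hf : Finset (ZMod p)) (X : Finset ℕ) (F3 F4 : ZMod p → ℝ) {n0 L1 : ℕ} {sa sl : ℝ}
    (hn0 : n0 ≤ p) (hnL : 8 * p ≤ n0 * L1) (hL : L1 ≤ p) (hH : Hf.Nonempty) (n3 : ∀ z, 0 ≤ F3 z)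
    (n4 : ∀ z, 0 ≤ F4 z) (hsa : ∑ z, F3 z ≤ sa) (hsl : ∑ z, F4 z ≤ sl) :
    ∃ v s : ZMod p, ((ouM (ap (0 : ZMod p) 1 n0) L1 s).card : ℝ) ≤ 3 * (p / 8) ∧
      ((X.filter fun t : ℕ => (t : ZMod p) + v ∈ ouM Hf L1 s).card : ℝ) ≤
        8 * (X.card * p / (Hf.card * L1)) ∧
      ∑ f ∈ range (3 * L1), F3 (-((f : ZMod p) * s) - v) ≤ 8 * ((3 * L1 : ℕ) * sa / p) ∧
      ∑ f ∈ range (3 * L1), F4 (-((f : ZMod p) * s) - v) ≤ 8 * ((3 * L1 : ℕ) * sl / p) := by
  have hp : (0 : ℝ) < p := ou_pos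
  have hp' : 0 < p := (Fact.out : p.Prime).pos
  have hn0' : 0 < n0 := Nat.pos_of_ne_zero fun h => by rw [h] at hnL; omega
  have hL0 : 0 < L1 := Nat.pos_of_ne_zero fun h => by rw [h] at hnL; omega
  have hcard : (Fintype.card (ZMod p × ZMod p) : ℝ) = p * p := by simp [ZMod.card]
  have hI : (ap (0 : ZMod p) 1 n0).card = n0 := card_ap 0 one_ne_zero hn0
  have s1 : ∑ q : ZMod p × ZMod p, ((ouM (ap (0 : ZMod p) 1 n0) L1 q.2).card : ℝ) ≤
      p * p * (p / 8) := by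
    have h1 := ou_cheb (ap (0 : ZMod p) 1 n0) (by rw [← card_pos, hI]; exact hn0') hL0 hL
    have h2 : (8 * p : ℝ) ≤ n0 * L1 := by exact_mod_cast hnL
    rw [hI] at h1
    have h3 : (p : ℝ) ^ 3 / (n0 * L1) ≤ (p : ℝ) ^ 3 / (8 * p) :=
      div_le_div_of_nonneg_left (by positivity) (by positivity) h2
    rw [Fintype.sum_prod_type]
    refine (sum_le_sum fun v _ => h1.trans h3).trans (le_of_eq ?_)
    rw [sum_const, card_univ_p, nsmul_eq_mul]
    field_simp
  have s2 : ∑ q : ZMod p × ZMod p,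
      ((X.filter fun t : ℕ => (t : ZMod p) + q.1 ∈ ouM Hf L1 q.2).card : ℝ) ≤
      p * p * (X.card * p / (Hf.card * L1)) := by
    have h1 := ou_cheb Hf hH hL0 hL
    simp only [card_filter, Nat.cast_sum]
    rw [sum_comm]
    have h2 : ∀ t ∈ X, ∑ q : ZMod p × ZMod p,
        ((if (t : ZMod p) + q.1 ∈ ouM Hf L1 q.2 then 1 else 0 : ℕ) : ℝ) ≤
        (p : ℝ) ^ 3 / (Hf.card * L1) := fun t _ => by
      rw [Fintype.sum_prod_type_right]
      refine le_trans (le_of_eq (sum_congr rfl fun s _ => ?_)) h1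
      rw [← card_filter_shift (ouM Hf L1 s) t, card_filter, Nat.cast_sum]
      simp only [add_comm]
    refine (sum_le_sum h2).trans (le_of_eq ?_)
    rw [sum_const, nsmul_eq_mul]
    ring
  obtain ⟨⟨v, s⟩, h⟩ := ou_four _ _ _ _ hcard (fun _ => Nat.cast_nonneg _) (fun _ => Nat.cast_nonneg _)
    (fun _ => sum_nonneg fun _ _ => n3 _) (fun _ => sum_nonneg fun _ _ => n4 _) s1 s2
    (ou_line F3 (3 * L1) hsa) (ou_line F4 (3 * L1) hsl)
  exact ⟨v, s, h⟩

lemma ou_span {n0 L1 : ℕ} {s : ZMod p}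
    (h : ((ouM (ap (0 : ZMod p) 1 n0) L1 s).card : ℝ) ≤ 3 * (p / 8)) (y : ZMod p) :
    ∃ j < 2 * n0, ∃ e < 2 * L1, y = (j : ZMod p) - (e : ZMod p) * s := by
  have hp : (0 : ℝ) < p := ou_pos
  obtain ⟨G, hG⟩ : ∃ G, G = (ouM (ap (0 : ZMod p) 1 n0) L1 s)ᶜ := ⟨_, rfl⟩
  have h1 : ((ouM (ap (0 : ZMod p) 1 n0) L1 s).card : ℝ) + G.card = p := by
    have := card_add_card_compl (ouM (ap (0 : ZMod p) 1 n0) L1 s)
    rw [ZMod.card, ← hG] at this
    exact_mod_cast this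
  have h2 : p < G.card + G.card := by
    have : (p : ℝ) < G.card + G.card := by linarith
    exact_mod_cast this
  have h3 := card_union_add_card_inter G (univ.filter fun u => y - u ∈ G)
  have h4 := card_le_p (G ∪ univ.filter fun u => y - u ∈ G)
  rw [card_filter_sub] at h3
  obtain ⟨u, hu⟩ : (G ∩ univ.filter fun u => y - u ∈ G).Nonempty := by
    rw [← card_pos]; omega
  rw [mem_inter, mem_filter, hG, mem_compl, mem_compl, ou_not_mem, ou_not_mem] at hu
  obtain ⟨⟨e1, a1, c1⟩, -, e2, a2, c2⟩ := hu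
  obtain ⟨j1, b1, c1⟩ := mem_ap.1 c1
  obtain ⟨j2, b2, c2⟩ := mem_ap.1 c2
  refine ⟨j1 + j2, by omega, e1 + e2, by omega, ?_⟩
  push_cast
  linear_combination -c1 - c2

theorem outer : OuterStmt := by
  intro p _ A B Y Hf Wt C X a lf n0 L1 J sa sl hn0 hnL hL hJ hH hX hB ha hsa hsl hcov
  obtain ⟨v, s, k1, k2, k3, k4⟩ := ou_good Hf X (fun z => (a z).card) (fun z => (lf z).card)
    hn0 hnL hL hH (fun _ => Nat.cast_nonneg _) (fun _ => Nat.cast_nonneg _) hsa hsl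
  choose! ee hee hin using fun (t : ℕ) (ht : (t : ZMod p) + v ∉ ouM Hf L1 s) => ou_not_mem.1 ht
  obtain ⟨P1, hP1⟩ : ∃ P1, P1 = (X.filter fun t : ℕ => (t : ZMod p) + v ∉ ouM Hf L1 s).image
    fun t : ℕ => (t : ZMod p) + v + (ee t : ZMod p) * s := ⟨_, rfl⟩
  have hP1c : P1.card ≤ X.card := hP1 ▸ card_image_le.trans (card_filter_le _ _)
  refine ⟨(range (3 * L1)).biUnion fun f => a (-((f : ZMod p) * s) - v),
    biUnion_subset.2 fun f _ => ha _, P1 + Wt, fun b hb => ?_, P1,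
    (range (3 * L1)).biUnion fun f => lf (-((f : ZMod p) * s) - v),
    ((X.filter fun t : ℕ => (t : ZMod p) + v ∈ ouM Hf L1 s) ×ˢ C ×ˢ range (2 * L1 / J + 1)).image
      fun q => (q.1 : ZMod p) + (q.2.1 : ZMod p) - (J : ZMod p) * (q.2.2 : ZMod p) * s,
    (range J).image fun r : ℕ => -((r : ZMod p) * s), ?_,
    card_add_le.trans (Nat.mul_le_mul_right _ hP1c), hP1c, ?_, ?_,
    card_image_le.trans (card_range J).le, fun y hy => ?_⟩
  · obtain ⟨x, hx, w, hw, rfl⟩ := mem_add.1 hb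
    rw [hP1] at hx
    obtain ⟨t, ht, rfl⟩ := mem_image.1 hx
    exact hB _ (hin t (mem_filter.1 ht).2) w hw
  · refine le_trans ?_ (k3.trans (le_of_eq (by push_cast; ring)))
    exact_mod_cast card_biUnion_le
  · refine le_trans ?_ (k4.trans (le_of_eq (by push_cast; ring)))
    exact_mod_cast card_biUnion_le
  · refine le_trans (Nat.cast_le.2 card_image_le) ?_
    rw [card_product, card_product, card_range, mul_assoc]
    have h1 : ((2 * L1 / J : ℕ) : ℝ) ≤ 2 * L1 / J := by exact_mod_cast Nat.cast_div_le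
    rw [Nat.cast_mul, Nat.cast_mul, Nat.cast_add, Nat.cast_one]
    refine mul_le_mul (k2.trans (le_of_eq (by ring)))
      (mul_le_mul_of_nonneg_left (by linarith) (by positivity)) (by positivity) (by positivity)
  · obtain ⟨j, hj, e, he, hy'⟩ := ou_span k1 y
    obtain ⟨t, ht, c, hc, rfl⟩ := hX j hj
    by_cases hm : (t : ZMod p) + v ∈ ouM Hf L1 s
    · refine Or.inr (Or.inr (mem_add.2 ⟨_, mem_image.2 ⟨(t, c, e / J), ?_, rfl⟩, _,
        mem_image.2 ⟨e % J, mem_range.2 (Nat.mod_lt _ hJ), rfl⟩, ?_⟩))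
      · exact mem_product.2 ⟨mem_filter.2 ⟨ht, hm⟩, mem_product.2 ⟨hc,
          mem_range.2 (Nat.lt_succ_of_le (Nat.div_le_div_right he.le))⟩⟩
      · have h1 : (J : ZMod p) * ((e / J : ℕ) : ZMod p) + ((e % J : ℕ) : ZMod p) = e := by
          rw [← Nat.cast_mul, ← Nat.cast_add, Nat.div_add_mod]
        rw [hy', Nat.cast_add]
        linear_combination (-s) * h1
    · have hf : e + ee t ∈ range (3 * L1) := by
        have := hee t hm
        rw [mem_range]; omega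
      have hyz : (t : ZMod p) + v + (ee t : ZMod p) * s + c +
          (-(((e + ee t : ℕ) : ZMod p) * s) - v) = y := by
        rw [hy', Nat.cast_add, Nat.cast_add]; ring
      have hb : (t : ZMod p) + v + (ee t : ZMod p) * s ∈ P1 :=
        hP1 ▸ mem_image_of_mem _ (mem_filter.2 ⟨ht, hm⟩)
      rcases hcov _ (hin t hm) c hc _ (by rw [hyz]; exact hy) with ⟨u, hu, w, hw, h⟩ | ⟨z', hz', h⟩
      · rw [hyz] at h
        rw [h]
        exact Or.inl (add_mem_add (mem_biUnion.2 ⟨_, hf, hu⟩) (add_mem_add hb hw))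
      · rw [hyz] at h
        rw [h]
        exact Or.inr (Or.inl (add_mem_add hb (mem_biUnion.2 ⟨_, hf, hz'⟩)))

end Pool.Agent.MP_93a3f8_co

end
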