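import Pool.Agent.Mg.F93a3f8p.Gbed3f0

/-! The dense case. -/

open Finset Pointwise

namespace Pool.Agent.MP_93a3f8_co

lemma dn_fS {p : ℕ} [Fact p.Prime] (A B : Finset (ZMod p)) (u : ZMod p) :
    fS B u + A.card + B.card ≤ rep A B u + rep A B 0 + p := by
  have h1 : (B.filter fun b => b - u ∉ B) ⊆ (B.filter fun b => u - b ∈ A) ∪
      ((univ \ (B ∪ -A)).image fun b => b + u) := by
    intro b hb
    simp only [mem_filter, mem_union, mem_image, mem_sdiff, mem_univ, true_and, mem_neg'] at hb ⊢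
    by_cases h : u - b ∈ A
    · exact Or.inl ⟨hb.1, h⟩
    · exact Or.inr ⟨b - u, by simpa using ⟨hb.2, h⟩, by simp⟩
  have h2 := (card_le_card h1).trans ((card_union_le _ _).trans
    (Nat.add_le_add_left card_image_le _))
  have h3 : (univ \ (B ∪ -A)).card + (B ∪ -A).card = p := by
    rw [card_sdiff_add_card_eq_card (subset_univ _), card_univ_p]
  have h4 := card_union_add_card_inter B (-A)
  have h5 : (B ∩ -A).card = rep A B 0 := by
    unfold rep; congr 1; ext b; simp
  rw [card_neg] at h4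
  unfold fS
  unfold rep at h5 ⊢
  omega

lemma dn_FF {p : ℕ} [Fact p.Prime] {A B : Finset (ZMod p)} {n m : ℕ} (hA : A.card = n)
    (hB : B.card = n) (h : 2 * n + m = p + 1) (u : ZMod p) :
    (FF A B u : ℝ) ≤ 2 * rep A B u + 2 * (m + rep A B 0) := by
  have h1 := dn_fS A B u
  have h2 := dn_fS B A u
  rw [← rep_comm A B, ← rep_comm A B] at h2
  have : FF A B u ≤ 2 * rep A B u + 2 * (m + rep A B 0) := by unfold FF; omega
  exact_mod_cast this

lemma dn_lin (h0 : TauStmt) {p : ℕ} [Fact p.Prime] {A B : Finset (ZMod p)}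
    (h1 : p ≤ 4 * B.card) (h2 : 2 * B.card ≤ p + 1) (ρ : ℝ) (hρ : 1 ≤ ρ) :
    ((ball (FF A B) ρ).card : ℝ) ≤ 400 * ρ := by
  by_cases h : 100 * ρ ≤ 1 * B.card
  · have h3 := h0 p B ρ 1 h2 hρ le_rfl h
    have h4 : ball (FF A B) ρ ⊆ ball (fS B) ρ := fun u hu => by
      rw [mem_ball] at hu ⊢
      refine le_trans ?_ hu
      exact_mod_cast Nat.le_add_left _ _
    have h5 : ((ball (FF A B) ρ).card : ℝ) ≤ (ball (fS B) ρ).card := by
      exact_mod_cast card_le_card h4
    linarith
  · have h3 : ((ball (FF A B) ρ).card : ℝ) ≤ p := by exact_mod_cast card_le_p _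
    have h4 : (p : ℝ) ≤ 4 * B.card := by exact_mod_cast h1
    linarith

lemma dn_level (h2 : DeepStmt) (h3 : ShallowStmt) (η : ℝ) (hη : 0 < η) (hη1 : η ≤ 1) :
    ∃ C : ℝ, 0 ≤ C ∧ ∃ p0 : ℕ, ∀ (p : ℕ) [Fact p.Prime] (A B Y : Finset (ZMod p)) (ε : ℝ),
      p0 ≤ p → 0 ≤ ε → Lev A B Y η ε →
      Cov A B Y (C * √p * ((ε / p) ^ (1 / 256 : ℝ) + (√p / ε) ^ (1 / 256 : ℝ))) 0 := by
  obtain ⟨C1, hC1, p1, H1⟩ := h2 η hη hη1
  obtain ⟨C2, hC2, p2, H2⟩ := h3 η hη hη1
  refine ⟨C1 + C2, by positivity, max p1 p2, fun p _ A B Y ε hp hε hL => ?_⟩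
  have a1 : 0 ≤ (ε / p) ^ (1 / 256 : ℝ) := by positivity
  have a2 : 0 ≤ (√p / ε) ^ (1 / 256 : ℝ) := by positivity
  have a3 : 0 ≤ √(p : ℝ) := by positivity
  rcases le_total (Real.log p ^ 8 * ε) p with h | h
  · refine (H1 p A B Y ε (le_of_max_le_left hp) hL h).mono Subset.rfl ?_ le_rfl
    gcongr; linarith
  · refine (H2 p A B Y ε (le_of_max_le_right hp) hL h).mono Subset.rfl ?_ le_rfl
    gcongr <;> linarith

lemma dn_geom {q : ℝ} (h0 : 0 ≤ q) (h1 : q < 1) (N : ℕ) : ∑ i ∈ range N, q ^ i ≤ 1 / (1 - q) := by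
  have := (summable_geometric_of_lt_one h0 h1).sum_le_tsum (range N) fun i _ => pow_nonneg h0 i
  rwa [tsum_geometric_of_lt_one h0 h1, ← one_div] at this

lemma dn_pow (j : ℕ) : (1 / 2 ^ j : ℝ) ^ (1 / 256 : ℝ) = ((1 / 2 : ℝ) ^ (1 / 256 : ℝ)) ^ j := by
  rw [← one_div_pow, ← Real.rpow_natCast, ← Real.rpow_mul (by norm_num), mul_comm,
    Real.rpow_mul (by norm_num), Real.rpow_natCast]

/-- All levels above the bottom one. -/
lemma dn_upper (h0 : TauStmt) (h1 : TopStmt) (h2 : DeepStmt) (h3 : ShallowStmt) :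
    ∃ C : ℝ, 0 ≤ C ∧ ∃ p0 : ℕ, ∀ (p : ℕ) [Fact p.Prime] (A B : Finset (ZMod p)) (e0 : ℝ),
      p0 ≤ p → A.card = B.card → p ≤ 4 * B.card → 2 * B.card ≤ p + 1 → (rep A B 0 : ℝ) ≤ e0 →
      (∀ u, (FF A B u : ℝ) ≤ 2 * rep A B u + 2 * e0) → 25600 * e0 ≤ p →
      ∃ eb : ℝ, 64 * e0 ≤ eb ∧ √p ≤ 2 * eb ∧ eb < max √p (128 * e0) ∧ 200 * eb ≤ p ∧
        Cov A B (univ \ ball (FF A B) eb) (C * √p) 0 := by
  obtain ⟨C1, hC1, p1, H1⟩ := h1 (1 / 3200) (by norm_num) (by norm_num)
  obtain ⟨C2, hC2, p2, H2⟩ := dn_level h2 h3 (1 / 32) (by norm_num) (by norm_num)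
  set q : ℝ := (1 / 2 : ℝ) ^ (1 / 256 : ℝ) with hq
  have q0 : 0 ≤ q := by positivity
  have q1 : q < 1 := Real.rpow_lt_one (by norm_num) (by norm_num) (by norm_num)
  have q2 : 0 < 1 - q := by linarith
  refine ⟨C1 + C2 * (2 * (1 / (1 - q))), by positivity, max 40000 (max p1 p2),
    fun p _ A B e0 hp hAB hd hh hr hF he => ?_⟩
  have hp0 : (40000 : ℝ) ≤ p := by exact_mod_cast le_of_max_le_left hp
  have hp1 := le_of_max_le_left (le_of_max_le_right hp)
  have hp2 := le_of_max_le_right (le_of_max_le_right hp)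
  have he0 : 0 ≤ e0 := (Nat.cast_nonneg _).trans hr
  have hs : 200 ≤ √(p : ℝ) := Real.le_sqrt_of_sq_le (by linarith)
  have hs2 : √(p : ℝ) * √p = p := Real.mul_self_sqrt (by linarith)
  set e : ℕ → ℝ := fun j => p / 200 / 2 ^ j with he_def
  have hes : ∀ j, e (j + 1) = e j / 2 := fun j => by
    simp only [he_def, pow_succ, div_div, mul_assoc]
  have hepos : ∀ j, 0 < e j := fun j => by positivity
  have hanti : ∀ i j, i ≤ j → e i = e j * 2 ^ (j - i) := by
    intro i j hij
    obtain ⟨k, rfl⟩ := Nat.exists_eq_add_of_le hij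
    simp only [he_def, Nat.add_sub_cancel_left, pow_add]
    field_simp
  have hex : ∃ j, e j < max √p (128 * e0) := by
    refine ⟨p, lt_max_of_lt_left ?_⟩
    have : (p : ℝ) < 2 ^ p := by exact_mod_cast Nat.lt_two_pow_self
    simp only [he_def]
    rw [div_lt_iff₀ (by positivity)]
    nlinarith
  have hz : ¬ e 0 < max √p (128 * e0) := by
    simp only [he_def, pow_zero, div_one, not_lt]
    exact max_le (by nlinarith) (by linarith)
  obtain ⟨J, hJ⟩ : ∃ J, Nat.find hex = J + 1 :=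
    Nat.exists_eq_succ_of_ne_zero fun h => hz (h ▸ Nat.find_spec hex)
  have hJ1 : e (J + 1) < max √p (128 * e0) := hJ ▸ Nat.find_spec hex
  have hJ2 : max √p (128 * e0) ≤ e J := not_lt.1 (Nat.find_min hex (by omega))
  have hJ3 := le_of_max_le_left hJ2
  have hJ4 := le_of_max_le_right hJ2
  have hle : ∀ j, j ≤ J → e J ≤ e j := fun j hj => by
    rw [hanti j J hj]
    exact le_mul_of_one_le_right (hepos J).le (one_le_pow₀ one_le_two)
  have hhigh : ∀ j, 200 * e j ≤ p := fun j => by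
    have h4 : e j ≤ e 0 := by
      rw [hanti 0 j (Nat.zero_le _)]
      exact le_mul_of_one_le_right (hepos j).le (one_le_pow₀ one_le_two)
    simp only [he_def, pow_zero, div_one] at h4 ⊢
    linarith
  have key : ∀ i, i ≤ J + 1 → Cov A B (univ \ ball (FF A B) (e i))
      (C1 * √p + ∑ j ∈ range i, C2 * √p * (q ^ j + q ^ (J - j))) 0 := by
    intro i
    induction i with
    | zero =>
      intro _
      rw [sum_range_zero, add_zero]
      refine H1 p A B _ hp1 (fun y hy => ?_) fun u hu => ?_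
      · rw [mem_sdiff, mem_ball] at hy
        have h4 := hy.2
        simp only [he_def, pow_zero, div_one] at h4
        linarith [hF y]
      · linarith [hF u]
    | succ i ih =>
      intro hi
      have h4 := hle i (by omega)
      have h5 := H2 p A B (ball (FF A B) (e i) \ ball (FF A B) (e (i + 1))) (e i) hp2 (hepos i).le
        ⟨hAB, hd, hh, dn_lin h0 hd hh, sdiff_subset, fun y hy => by
          rw [mem_sdiff, mem_ball, mem_ball, hes] at hy
          linarith [hF y, hy.2], fun u hu => by linarith [hF u], by linarith, by linarith, hhigh i⟩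
      refine ((ih (by omega)).union h5).mono (fun u hu => ?_) ?_ (by simp)
      · simp only [mem_sdiff, mem_union, mem_univ, true_and] at hu ⊢
        tauto
      · rw [sum_range_succ, ← add_assoc]
        refine add_le_add_right (mul_le_mul_of_nonneg_left (add_le_add ?_ ?_) (by positivity)) _
        · rw [hq, ← dn_pow]
          refine Real.rpow_le_rpow (by positivity) ?_ (by norm_num)
          rw [div_le_iff₀ (by linarith), he_def]
          simp only
          rw [div_le_iff₀ (by positivity)]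
          field_simp
          norm_num
        · rw [hq, ← dn_pow]
          refine Real.rpow_le_rpow (div_nonneg (by positivity) (hepos i).le) ?_ (by norm_num)
          rw [hanti i J (by omega), div_le_div_iff₀ (mul_pos (hepos J) (by positivity))
            (by positivity), one_mul]
          exact mul_le_mul_of_nonneg_right hJ3 (by positivity)
  refine ⟨e (J + 1), by rw [hes]; linarith, by rw [hes]; linarith, hJ1, hhigh _,
    (key _ le_rfl).mono Subset.rfl ?_ le_rfl⟩
  rw [← mul_sum, sum_add_distrib]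
  have h6 := dn_geom q0 q1 (J + 1)
  have h7 : ∑ j ∈ range (J + 1), q ^ (J - j) = ∑ j ∈ range (J + 1), q ^ j :=
    sum_range_reflect (fun j => q ^ j) (J + 1)
  rw [h7]
  have h8 : C2 * √p * (∑ j ∈ range (J + 1), q ^ j + ∑ j ∈ range (J + 1), q ^ j) ≤
      C2 * √p * (2 * (1 / (1 - q))) := mul_le_mul_of_nonneg_left (by linarith) (by positivity)
  linarith

lemma dn_core (h0 : TauStmt) (h1 : TopStmt) (h2 : DeepStmt) (h3 : ShallowStmt) (h4 : DoubStmt)
    (h5 : TypedWStmt) (s : ℝ) (hs : 0 < s) (hs1 : s ≤ 1) :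
    ∃ C : ℝ, 0 ≤ C ∧ ∃ p0 : ℕ, ∀ (p : ℕ) [Fact p.Prime]
    (A B : Finset (ZMod p)) (n m : ℕ), p0 ≤ p → A.card = n → B.card = n → 2 * n + m = p + 1 →
    100000 * m ≤ n → (∀ u, rep A B 0 ≤ rep A B u) → Good A B n (C * √p) ∨
      (√p ≤ 256 * (m : ℝ) ∧ ∃ X : Finset (ZMod p), X.card ≤ m ∧ (1 - s) * m ≤ X.card ∧
        ∀ u ∈ X, (rep A B u : ℝ) ≤ s * m) := by
  classical
  obtain ⟨C1, hC1, p1, H1⟩ := h1 (1 / 160000) (by norm_num) (by norm_num)
  obtain ⟨C2, hC2, p2, H2⟩ := dn_upper h0 h1 h2 h3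
  obtain ⟨C3, hC3, p3, H3⟩ := dn_level h2 h3 (s / 1024) (by positivity) (by linarith)
  obtain ⟨G, hG, H4⟩ := h4
  obtain ⟨C5, hC5, H5⟩ := h5 (s / 1024) G (by positivity) (by linarith) hG
  set lg : ℝ := 1 + Real.log (1 / (s / 102400)) with hlg
  have hlg0 : 0 ≤ lg := by
    have : 0 ≤ Real.log (1 / (s / 102400)) :=
      Real.log_nonneg (by rw [le_div_iff₀ (by positivity)]; linarith)
    linarith
  set C6 : ℝ := C5 * (256 * G) * lg * 2 with hC6
  have hC6' : 0 ≤ C6 := by positivity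
  refine ⟨C1 + C2 + 400 + 2 * C3 + C6, by positivity, max 4 (max p1 (max p2 p3)),
    fun p _ A B n m hp hA hB hnm hm hmin => ?_⟩
  have hp0 : 4 ≤ p := le_of_max_le_left hp
  have hp1 := le_of_max_le_left (le_of_max_le_right hp)
  have hp2 := le_of_max_le_left (le_of_max_le_right (le_of_max_le_right hp))
  have hp3 := le_of_max_le_right (le_of_max_le_right (le_of_max_le_right hp))
  have hp0' : (4 : ℝ) ≤ p := by exact_mod_cast hp0
  have hnm' : (2 * n + m : ℝ) = p + 1 := by exact_mod_cast hnm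
  have hm' : (100000 * m : ℝ) ≤ n := by exact_mod_cast hm
  have hm0 : (0 : ℝ) ≤ m := Nat.cast_nonneg _
  have hmin' : ∀ u, (rep A B 0 : ℝ) ≤ rep A B u := fun u => by exact_mod_cast hmin u
  have hsq : 2 ≤ √(p : ℝ) := Real.le_sqrt_of_sq_le (by linarith)
  have hs2 : √(p : ℝ) * √p = p := Real.mul_self_sqrt (by linarith)
  have hd : p ≤ 4 * B.card := by omega
  have hh : 2 * B.card ≤ p + 1 := by omega
  have hlin := dn_lin (A := A) h0 hd hh
  have hU : ((univ : Finset (ZMod p)).card : ℝ) = p := by rw [card_univ_p]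
  have b1 : 0 ≤ C1 * √p := by positivity
  have b2 : 0 ≤ C2 * √p := by positivity
  have b3 : 0 ≤ C3 * √p := by positivity
  have b6 : 0 ≤ C6 * √p := by positivity
  set r0 : ℝ := ((rep A B 0 : ℕ) : ℝ) with hr0
  have r00 : 0 ≤ r0 := Nat.cast_nonneg _
  by_cases c1 : (p : ℝ) < 25600 * (m + r0)
  · refine Or.inl (((H1 p A B univ hp1 (fun y _ => ?_) fun u hu => ?_).good ?_).mono (by linarith))
    · linarith [hmin' y]
    · exfalso; linarith [hmin' u]
    · linarith
  obtain ⟨eb, e1, e2, e3, e4, hc⟩ := H2 p A B (m + r0) hp2 (hA.trans hB.symm) hd hh (by linarith)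
    (dn_FF hA hB hnm) (not_lt.1 c1)
  have e5 : 1 ≤ eb := by linarith
  have hT := hlin eb e5
  set T := ball (FF A B) eb with hTdef
  by_cases c2 : eb < √p
  · have h6 := Cov.pointwise (A := A) (B := B) (Y := T ∩ (A + B)) fun y hy => (mem_inter.1 hy).2
    have h7 : ((T ∩ (A + B)).card : ℝ) ≤ T.card := by
      exact_mod_cast card_le_card inter_subset_left
    have h8 := ZMod.cauchy_davenport (Fact.out : p.Prime) (s := A) (t := B)
      (card_pos.1 (by omega)) (card_pos.1 (by omega))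
    have h9 : 2 * n ≤ (A + B).card + 1 := by
      rcases min_le_iff.1 h8 with h | h <;> omega
    refine Or.inl (Cov.good (Y := A + B) (l := 0) ((hc.union h6).mono (fun u hu => ?_)
      (by linarith) (by simp)) (by rw [add_zero]; exact_mod_cast h9))
    by_cases h : u ∈ T <;> simp [h, hu]
  replace c2 := not_lt.1 c2
  have e6 : eb < 128 * (m + r0) := by
    rcases lt_max_iff.1 e3 with h | h
    · linarith
    · exact h
  have hcov : ∀ (c l : ℝ), Cov A B T c l → c ≤ (2 * C3 + C6) * √p → l ≤ m →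
      Good A B n ((C1 + C2 + 400 + 2 * C3 + C6) * √p) := by
    intro c l h hc1 hl
    refine Cov.good (Y := univ) (l := m) ((hc.union h).mono (fun u _ => ?_) (by linarith)
      (by linarith)) (by linarith)
    by_cases h : u ∈ T <;> simp [h]
  by_cases c3 : s * m ≤ r0
  · have h6 : 4 * (s / 1024 * eb) ≤ r0 := by
      linarith [mul_le_mul_of_nonneg_left e6.le hs.le, mul_le_of_le_one_left r00 hs1]
    have h7 := H3 p A B T eb hp3 (by linarith) ⟨hA.trans hB.symm, hd, hh, hlin, Subset.rfl,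
      fun y _ => h6.trans (hmin' y), fun u hu => by
        exfalso
        have : 0 < s / 1024 * eb := by positivity
        linarith [hmin' u], by linarith, c2, e4⟩
    refine Or.inl (hcov _ _ h7 ?_ hm0)
    have h8 : (eb / p) ^ (1 / 256 : ℝ) ≤ 1 :=
      Real.rpow_le_one (by positivity) (by rw [div_le_one (by linarith)]; linarith) (by norm_num)
    have h9 : (√p / eb) ^ (1 / 256 : ℝ) ≤ 1 :=
      Real.rpow_le_one (by positivity) (by rw [div_le_one (by linarith)]; linarith) (by norm_num)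
    linarith [mul_le_mul_of_nonneg_left (add_le_add h8 h9) b3]
  replace c3 := not_le.1 c3
  have e7 : eb < 256 * m := by linarith [mul_le_of_le_one_left hm0 hs1]
  set S := univ.filter fun u => (rep A B u : ℝ) < s * m with hS
  by_cases c4 : (1 - s) * m ≤ S.card
  · refine Or.inr ⟨by linarith, ?_⟩
    obtain ⟨X, hX, hXc⟩ := exists_subset_card_eq (min_le_left S.card m)
    refine ⟨X, hXc ▸ min_le_right _ _, ?_, fun u hu => (mem_filter.1 (hX hu)).2.le⟩
    rw [hXc, Nat.cast_min]
    exact le_min c4 (by linarith [mul_nonneg hs.le hm0])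
  replace c4 := not_le.1 c4
  by_cases c5 : (T.card : ℝ) ≤ m
  · exact Or.inl (hcov _ _ (Cov.trivial A B T) (by linarith) c5)
  replace c5 := not_le.1 c5
  obtain ⟨x, x1, x2, x3⟩ := H4 p A B eb e5 hlin
  have x4 : (T.card : ℝ) ≤ (ball (FF A B) (2 * eb)).card := by
    exact_mod_cast card_le_card (ball_mono (by linarith))
  have x5 : x ^ 192 ≤ 256 * G := by
    have : 0 < x ^ 192 := by positivity
    have h6 : x ^ 192 * (eb / 256) ≤ G * eb :=
      (mul_le_mul_of_nonneg_left (by linarith) this.le).trans x3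
    exact le_of_mul_le_mul_right (a := eb) (by linarith) (by linarith)
  have x6 : x ^ 3 ≤ 256 * G := (pow_le_pow_right₀ x1 (by norm_num)).trans x5
  have h7 := H5 p A B (T \ S) eb x (s / 102400) e5 x1 (by positivity) (by linarith) hlin
    sdiff_subset (fun y hy => by
      have := (mem_sdiff.1 hy).2
      simp only [hS, mem_filter, mem_univ, true_and, not_lt] at this
      linarith [mul_le_mul_of_nonneg_left e7.le hs.le]) (by linarith) x2
  have h8 : ((T \ S).card : ℝ) ≤ T.card := by exact_mod_cast card_le_card sdiff_subset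
  refine Or.inl (hcov _ _ ((h7.union (Cov.trivial A B S)).mono (fun u hu => ?_) le_rfl le_rfl)
    ?_ ?_)
  · by_cases h : u ∈ S <;> simp [h, hu]
  · have h9 : √eb ≤ √p := Real.sqrt_le_sqrt (by linarith)
    have h10 : p / eb ≤ √p := by
      rw [div_le_iff₀ (by linarith)]
      linarith [mul_le_mul_of_nonneg_left c2 (Real.sqrt_nonneg p)]
    have h11 : C5 * x ^ 3 * lg * (√eb + p / eb) ≤ C5 * (256 * G) * lg * (2 * √p) := by
      gcongr; linarith
    rw [← hlg]
    linarith [show C6 * √p = C5 * (256 * G) * lg * (2 * √p) by rw [hC6]; ring]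
  · have : s / 102400 * ((T \ S).card : ℝ) ≤ s / 102400 * (102400 * m) :=
      mul_le_mul_of_nonneg_left (by linarith) (by positivity)
    linarith

theorem dense (h0 : TauStmt) (h1 : TopStmt) (h2 : DeepStmt) (h3 : ShallowStmt) (h4 : DoubStmt)
    (h5 : TypedWStmt) : DenseStmt := by
  intro s hs hs1
  obtain ⟨C, hC, p0, H⟩ := dn_core h0 h1 h2 h3 h4 h5 s hs hs1
  refine ⟨C, hC, p0, fun p _ A B n m hp hA hB hnm hm => ?_⟩
  obtain ⟨x0, -, hx0⟩ := exists_min_image univ (rep A B) univ_nonempty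
  have hrep : ∀ u, rep (A.image fun a => a - x0) B u = rep A B (u + x0) := by
    intro u
    unfold rep
    congr 1
    ext b
    simp only [mem_filter, mem_image, and_congr_right_iff]
    exact fun _ => ⟨fun ⟨a, ha, h⟩ => by rwa [show u + x0 - b = a by linear_combination -h],
      fun h => ⟨_, h, by ring⟩⟩
  have hinj : Function.Injective fun a : ZMod p => a + x0 := add_left_injective x0
  rcases H p (A.image fun a => a - x0) B n m hp
    ((card_image_of_injective _ sub_left_injective).trans hA) hB hnm hm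
    (fun u => by rw [hrep, hrep, zero_add]; exact hx0 _ (mem_univ _)) with h | ⟨h, X, h6, h7, h8⟩
  · obtain ⟨A', hA', B', hB', h6, h7, h8⟩ := h
    refine Or.inl ⟨A'.image fun a => a + x0, fun a ha => ?_, B', hB', ?_, h7, ?_⟩
    · obtain ⟨a', ha', rfl⟩ := mem_image.1 ha
      obtain ⟨a'', ha'', rfl⟩ := mem_image.1 (hA' ha')
      simpa using ha''
    · rwa [card_image_of_injective _ hinj]
    · refine h8.trans (Nat.add_le_add_right ?_ 1)
      rw [← card_image_of_injective (A' + B') hinj]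
      refine card_le_card fun y hy => ?_
      obtain ⟨y', hy', rfl⟩ := mem_image.1 hy
      obtain ⟨a, ha, b, hb, rfl⟩ := mem_add.1 hy'
      exact mem_add.2 ⟨a + x0, mem_image_of_mem _ ha, b, hb, by ring⟩
  · refine Or.inr ⟨h, X.image fun a => a + x0, ?_, ?_, fun u hu => ?_⟩
    · rwa [card_image_of_injective _ hinj]
    · rwa [card_image_of_injective _ hinj]
    · obtain ⟨u', hu', rfl⟩ := mem_image.1 hu
      rw [← hrep]; exact h8 u' hu'

end Pool.Agent.MP_93a3f8_co
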